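import Mathlib

/-!
Module ChebZ (S-M). PROOF. Define x_0 = 1, y_0 = 0, x_{n+1} = T x_n + (T^2-1) y_n, y_{n+1} = x_n + T y_n in Z[T]. Then x_n^2 - (T^2-1) y_n^2 = 1 by induction, and
by induction there are polynomials with x_n = T^n + (T^2-1) A_n and y_n = n T^(n+1) + (T^2-1) B_n (use T^n + n T^(n+2) = (n+1) T^(n+2) - T^n (T^2 - 1)). Hence
y_n^2 - n^2 T^(2n+2) and T^(2n+2) - 1 are divisible by T^2-1 (sub_one_dvd / (T^2)^(n+1) - 1).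
-/

set_option autoImplicit false

namespace Pool.Agent.Work.MP_90e0ad_ag.GR

open Polynomial

theorem chebZ (k : ℕ) : ∃ A B E : ℤ[X], A ^ 2 - (X ^ 2 - 1) * B ^ 2 = 1 ∧
    B ^ 2 = C ((k : ℤ) ^ 2) + (X ^ 2 - 1) * E := by
  have key : ∀ n : ℕ, ∃ A B P Q : ℤ[X], A ^ 2 - (X ^ 2 - 1) * B ^ 2 = 1 ∧
      A = X ^ n + (X ^ 2 - 1) * P ∧ B = (n : ℤ[X]) * X ^ (n + 1) + (X ^ 2 - 1) * Q := by
    intro n
    induction n with
    | zero => exact ⟨1, 0, 0, 0, by ring, by ring, by simp⟩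
    | succ n ih =>
      obtain ⟨A, B, P, Q, h1, h2, h3⟩ := ih
      refine ⟨X * A + (X ^ 2 - 1) * B, A + X * B, X * P + B, P + X * Q - X ^ n, ?_, ?_, ?_⟩
      · linear_combination h1
      · linear_combination X * h2
      · push_cast
        linear_combination h2 + X * h3
  obtain ⟨A, B, P, Q, h1, _, h3⟩ := key k
  obtain ⟨R, hR⟩ := sub_dvd_pow_sub_pow ((X : ℤ[X]) ^ 2) 1 (k + 1)
  rw [one_pow] at hR
  refine ⟨A, B, (k : ℤ[X]) ^ 2 * R + 2 * (k : ℤ[X]) * X ^ (k + 1) * Q + (X ^ 2 - 1) * Q ^ 2, h1, ?_⟩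
  have hC : (C ((k : ℤ) ^ 2) : ℤ[X]) = (k : ℤ[X]) ^ 2 := by simp
  rw [hC, h3]
  linear_combination (k : ℤ[X]) ^ 2 * hR

end Pool.Agent.Work.MP_90e0ad_ag.GR
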