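import Pool.Agent.Work.MP_90e0ad_ag.GR.VarII

/-!
Module Comp (S-M): computability of the inputs. PROOF. n |-> -(n:Z), (n:Z) are primitive recursive N -> Z: through the encoding of Z everything reduces to N (Primcodable Z comes from
Denumerable; encode (n : Z), encode (-(n:Z)) are explicit primitive recursive functions of n: unfold the equivalence Equiv.intEquivNat, encode (Int.ofNat n) = 2n, encode (Int.negSucc n) = 2n+1; use
Primrec.encode_iff, Primrec.nat_casesOn, Primrec.nat_mul). Then pairs and lists: Primrec.list_cons, Primrec.pair, Primrec.const; finally Primrec.to_comp.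
-/

set_option autoImplicit false

noncomputable section

namespace Pool.Agent.Work.MP_90e0ad_ag.GR

private theorem enc_nat (n : ℕ) : Encodable.encode ((n : ℕ) : ℤ) = 2 * n := rfl

private theorem enc_neg (n : ℕ) : Encodable.encode (-(n : ℤ)) = 2 * n - 1 := by
  cases n with
  | zero => rfl
  | succ k =>
    have h1 : Encodable.encode (-((k + 1 : ℕ) : ℤ)) = 2 * k + 1 := rfl
    rw [h1]
    omega

private theorem prim_nat : Primrec fun n : ℕ => (n : ℤ) := by
  rw [← Primrec.encode_iff]
  exact (Primrec.nat_mul.comp (Primrec.const 2) Primrec.id).of_eq fun n => (enc_nat n).symm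

private theorem prim_neg : Primrec fun n : ℕ => -(n : ℤ) := by
  rw [← Primrec.encode_iff]
  exact (Primrec.nat_sub.comp (Primrec.nat_mul.comp (Primrec.const 2) Primrec.id)
    (Primrec.const 1)).of_eq fun n => (enc_neg n).symm

private theorem prim_eqW : Primrec fun n : ℕ => eqW n := by
  have h1 : Primrec fun n : ℕ => ((-(n : ℤ), ([] : List ℕ)) : ℤ × List ℕ) :=
    prim_neg.pair (Primrec.const [])
  have h2 : Primrec fun n : ℕ => ([(-(n : ℤ), ([] : List ℕ))] : List (ℤ × List ℕ)) :=
    Primrec.list_cons.comp h1 (Primrec.const [])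
  exact Primrec.list_cons.comp (Primrec.const ((1 : ℤ), [1])) h2

private theorem prim_input (N : ℕ) (L G : List Pol) :
    Primrec fun n : ℕ => ((N, eqW n :: L, G) : Input) :=
  (Primrec.const N).pair
    ((Primrec.list_cons.comp prim_eqW (Primrec.const L)).pair (Primrec.const G))

theorem comp_input (N : ℕ) (L G : List Pol) :
    Computable fun n : ℕ => ((N, eqW n :: L, G) : Input) := by
  exact (prim_input N L G).to_comp

private theorem prim_ptII (m : ℕ) : Primrec fun n : ℕ => ptII m n :=
  Primrec.list_cons.comp prim_nat (Primrec.const _)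

theorem comp_inputAt (N m : ℕ) (L G : List Pol) :
    Computable fun n : ℕ => (((N, eqW n :: L, G), ptII m n) : Input × List ℤ) := by
  exact ((prim_input N L G).pair (prim_ptII m)).to_comp

end Pool.Agent.Work.MP_90e0ad_ag.GR
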