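import Mathlib

/-! Definitions for the growth restricted forms of the decision problem. -/

set_option autoImplicit false

noncomputable section

namespace Pool.Agent.Work.MP_90e0ad_ag.GR

/-- A polynomial with integer coefficients in x_0, x_1, ...: the list of its monomials
(coefficient, list of exponents). -/
abbrev Pol := List (ℤ × List ℕ)

/-- The value of a polynomial. -/
def ev (P : Pol) (x : ℕ → ℂ) : ℂ :=
  (P.map fun m => (m.1 : ℂ) * ∏ i ∈ Finset.range m.2.length, x i ^ m.2.getD i 0).sum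

/-- Input: the dimension N of the affine space, a list L and a list G of polynomials. -/
abbrev Input := ℕ × List Pol × List Pol

/-- Extend a vector by zeros. -/
def pad {N : ℕ} (x : Fin N → ℂ) (i : ℕ) : ℂ := if h : i < N then x ⟨i, h⟩ else 0

/-- The complex points of the quasi-affine variety {L = 0} minus {G = 0} in affine N-space. -/
def pts (I : Input) : Set (Fin I.1 → ℂ) :=
  {x | (∀ P ∈ I.2.1, ev P (pad x) = 0) ∧ ∃ P ∈ I.2.2, ev P (pad x) ≠ 0}

/-- Every curve in X whose coordinates belong to the class G is constant. -/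
def Hyp (𝒢 : Set (ℂ → ℂ)) (I : Input) : Prop :=
  ∀ f : ℂ → Fin I.1 → ℂ, (∀ i, (fun z => f z i) ∈ 𝒢) → (∀ z, f z ∈ pts I) → ∀ z w, f z = f w

/-- Every curve in X through the integral point p (list of coordinates) whose coordinates belong to
the class G is constant. -/
def HypAt (𝒢 : Set (ℂ → ℂ)) (I : Input × List ℤ) : Prop :=
  ∀ f : ℂ → Fin I.1.1 → ℂ, (∀ i, (fun z => f z i) ∈ 𝒢) → (∀ z, f z ∈ pts I.1) →
    (∃ z₀, ∀ i, f z₀ i = ((I.2.getD i 0 : ℤ) : ℂ)) → ∀ z w, f z = f w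

/-- Entire functions of order less than 1. -/
def OrdLT1 : Set (ℂ → ℂ) :=
  {f | Differentiable ℂ f ∧ ∃ ρ C : ℝ, ρ < 1 ∧ ∀ z, ‖f z‖ ≤ Real.exp (C * (1 + ‖z‖) ^ ρ)}

/-- Entire functions of finite order. -/
def FinOrd : Set (ℂ → ℂ) :=
  {f | Differentiable ℂ f ∧ ∃ ρ C : ℝ, ∀ z, ‖f z‖ ≤ Real.exp (C * (1 + ‖z‖) ^ ρ)}

end Pool.Agent.Work.MP_90e0ad_ag.GR
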