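import Mathlib

/-!
Module DpCoreA (M). PROOF. Let m_k = 1 + (k+1) Q! for k < y. They are pairwise coprime: a prime p
dividing m_i and m_j, i < j < y, divides (j-i) Q!; 0 < j-i < y <= Q, so j - i divides Q!, so p divides
Q!^2, hence Q!, hence 1. (Compare Nat.coprimes / Nat.pairwise_coprime_coprimes in
Mathlib/Logic/Godel/GodelBetaFunction.) The product of the m_k is 1 mod Q! and >= 1 + Q! (y >= 1), so it is
1 + (c+1) Q! for some c. For each i choose by the Chinese remainder theorem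
(Nat.chineseRemainderOfFinset or Nat.chineseRemainderOfList) a_i with a_i = t_k(i) mod m_k for all k < y,
where t_k is the given solution of F k = 0. Fix k.
(1) m_k divides a_i.descFactorial (u+1) = prod_{j<=u} (a_i - j) (natural subtraction): if a_i < t_k(i)
<= u the product contains the factor a_i - a_i = 0; otherwise it contains a_i - t_k(i), divisible by m_k
(Nat.descFactorial_eq_prod_range).
(2) c = k mod m_k, since (c+1) Q! = -1 = (k+1) Q! mod m_k and Q! is coprime to m_k. So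
F c a = F k t_k = 0 mod m_k.
As the m_k are pairwise coprime, their product 1 + (c+1) Q! divides too (Finset.prod_dvd_of_coprime).
-/

set_option autoImplicit false

namespace Pool.Agent.Work.MP_90e0ad_ag.GR

open Nat

private lemma copA {y Q : ℕ} (hyQ : y ≤ Q) {i j : ℕ} (hj : j < y) (hij : i < j) :
    Nat.Coprime (1 + (i + 1) * Q !) (1 + (j + 1) * Q !) := by
  rw [Nat.coprime_iff_gcd_eq_one]
  by_contra hne
  obtain ⟨p, hp, hpd⟩ := Nat.exists_prime_and_dvd hne
  have h1 : p ∣ 1 + (i + 1) * Q ! := hpd.trans (Nat.gcd_dvd_left _ _)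
  have h2 : p ∣ 1 + (j + 1) * Q ! := hpd.trans (Nat.gcd_dvd_right _ _)
  have h3 : p ∣ (j - i) * Q ! := by
    have := (Nat.dvd_sub h2 h1)
    have e : (1 + (j + 1) * Q !) - (1 + (i + 1) * Q !) = (j - i) * Q ! := by
      obtain ⟨d, rfl⟩ := Nat.exists_eq_add_of_lt hij
      have : i + d + 1 - i = d + 1 := by omega
      rw [this]
      have : 1 + (i + d + 1 + 1) * Q ! = (1 + (i + 1) * Q !) + (d + 1) * Q ! := by ring
      rw [this]
      exact Nat.add_sub_cancel_left _ _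
    rwa [e] at this
  have h4 : p ∣ Q ! := by
    rcases (Nat.Prime.dvd_mul hp).1 h3 with h | h
    · exact h.trans (Nat.dvd_factorial (by omega) (by omega))
    · exact h
  have h5 : p ∣ 1 := (Nat.dvd_add_left (h4.mul_left (i + 1))).1 h1
  exact hp.one_lt.ne' (Nat.dvd_one.1 h5)

private lemma pairA {y Q : ℕ} (hyQ : y ≤ Q) :
    Set.Pairwise (↑(Finset.range y) : Set ℕ)
      (Function.onFun Nat.Coprime (fun k => 1 + (k + 1) * Q !)) := by
  intro i hi j hj hij
  have hi' : i < y := by simpa using hi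
  have hj' : j < y := by simpa using hj
  rcases Nat.lt_or_gt_of_ne hij with h | h
  · exact copA hyQ hj' h
  · exact (copA hyQ hi' h).symm

private lemma prodA (Q : ℕ) (y : ℕ) :
    ∃ d, (0 < y → 0 < d) ∧ ∏ k ∈ Finset.range y, (1 + (k + 1) * Q !) = 1 + d * Q ! := by
  induction y with
  | zero => exact ⟨0, by simp, by simp⟩
  | succ y ih =>
      obtain ⟨d, -, hd⟩ := ih
      refine ⟨(y + 1) + d * (1 + (y + 1) * Q !), fun _ => by positivity, ?_⟩
      rw [Finset.prod_range_succ, hd]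
      ring

theorem coreA {m : ℕ} (F : ℕ → (Fin m → ℕ) → ℤ)
    (hF : ∀ (M : ℤ) (k k' : ℕ) (t t' : Fin m → ℕ), (k : ℤ) ≡ k' [ZMOD M] →
      (∀ i, (t i : ℤ) ≡ t' i [ZMOD M]) → F k t ≡ F k' t' [ZMOD M])
    {y u Q : ℕ} (hy : 0 < y) (hyQ : y ≤ Q)
    (h : ∀ k < y, ∃ t : Fin m → ℕ, (∀ i, t i ≤ u) ∧ F k t = 0) :
    ∃ (c : ℕ) (a : Fin m → ℕ),
      1 + (c + 1) * Q ! = ∏ k ∈ Finset.range y, (1 + (k + 1) * Q !) ∧
      (∀ i, (1 + (c + 1) * Q !) ∣ (a i).descFactorial (u + 1)) ∧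
      ((1 + (c + 1) * Q ! : ℕ) : ℤ) ∣ F c a := by
  classical
  obtain ⟨d, hd0, hd⟩ := prodA Q y
  obtain ⟨c, rfl⟩ := Nat.exists_eq_add_of_lt (hd0 hy)
  rw [Nat.zero_add] at hd
  have hex : ∀ k : ℕ, ∃ t : Fin m → ℕ, k < y → ((∀ i, t i ≤ u) ∧ F k t = 0) := by
    intro k
    by_cases hk : k < y
    · obtain ⟨t, ht⟩ := h k hk
      exact ⟨t, fun _ => ht⟩
    · exact ⟨fun _ => 0, fun h' => absurd h' hk⟩
  choose t ht using hex
  have hcr : ∀ i : Fin m, ∃ a : ℕ, ∀ k ∈ Finset.range y, a ≡ t k i [MOD (1 + (k + 1) * Q !)] :=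
    fun i => ⟨_, (Nat.chineseRemainderOfFinset (fun k => t k i) (fun k => 1 + (k + 1) * Q !)
      (Finset.range y) (fun k _ => by positivity) (pairA hyQ)).2⟩
  choose a ha using hcr
  have hdvd : ∀ k, k < y → (1 + (k + 1) * Q !) ∣ (1 + (c + 1) * Q !) := by
    intro k hk
    rw [← hd]
    exact Finset.dvd_prod_of_mem (fun k => 1 + (k + 1) * Q !) (Finset.mem_range.2 hk)
  refine ⟨c, a, hd.symm, ?_, ?_⟩
  · intro i
    rw [← hd]
    apply Finset.prod_dvd_of_isRelPrime (pairA hyQ |> fun h => by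
      intro x hx z hz hxz
      exact Nat.coprime_iff_isRelPrime.1 (h hx hz hxz))
    intro k hk
    have hk' : k < y := Finset.mem_range.1 hk
    obtain ⟨h1, -⟩ := ht k hk'
    have hc := ha i k hk
    rw [Nat.descFactorial_eq_prod_range]
    by_cases hlt : a i < t k i
    · have h0 : ∏ j ∈ Finset.range (u + 1), (a i - j) = 0 := by
        apply Finset.prod_eq_zero (i := a i)
        · have := h1 i
          exact Finset.mem_range.2 (by omega)
        · exact Nat.sub_self _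
      rw [h0]
      exact dvd_zero _
    · have hle : t k i ≤ a i := Nat.le_of_not_lt hlt
      have hm : (1 + (k + 1) * Q !) ∣ a i - t k i :=
        (Nat.modEq_iff_dvd' hle).1 hc.symm
      exact hm.trans (Finset.dvd_prod_of_mem (fun j => a i - j)
        (Finset.mem_range.2 (Nat.lt_succ_of_le (h1 i))))
  · have hZ : ((1 + (c + 1) * Q ! : ℕ) : ℤ) =
        ∏ k ∈ Finset.range y, ((1 + (k + 1) * Q ! : ℕ) : ℤ) := by
      rw [← hd]
      push_cast
      rfl
    rw [hZ]
    apply Finset.prod_dvd_of_coprime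
    · intro x hx z hz hxz
      have h' := pairA hyQ hx hz hxz
      exact Nat.isCoprime_iff_coprime.2 h'
    intro k hk
    have hk' : k < y := Finset.mem_range.1 hk
    obtain ⟨h1, h2⟩ := ht k hk'
    have hcop : Nat.Coprime (1 + (k + 1) * Q !) (Q !) := by
      rw [Nat.coprime_comm]
      simp
    have hck : (c : ℤ) ≡ (k : ℤ) [ZMOD ((1 + (k + 1) * Q ! : ℕ) : ℤ)] := by
      have e1 : ((1 + (k + 1) * Q ! : ℕ) : ℤ) ∣ ((1 + (c + 1) * Q ! : ℕ) : ℤ) :=
        Int.natCast_dvd_natCast.2 (hdvd k hk')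
      have e2 : ((1 + (k + 1) * Q ! : ℕ) : ℤ) ∣ ((k : ℤ) - c) * (Q ! : ℤ) := by
        have e3 : ((k : ℤ) - c) * (Q ! : ℤ) =
            ((1 + (k + 1) * Q ! : ℕ) : ℤ) - ((1 + (c + 1) * Q ! : ℕ) : ℤ) := by
          push_cast
          ring
        rw [e3]
        exact dvd_sub (dvd_refl _) e1
      have e4 : IsCoprime ((1 + (k + 1) * Q ! : ℕ) : ℤ) ((Q ! : ℕ) : ℤ) :=
        Nat.isCoprime_iff_coprime.2 hcop
      exact Int.modEq_iff_dvd.2 (e4.dvd_of_dvd_mul_right e2)
    have hF' := hF ((1 + (k + 1) * Q ! : ℕ) : ℤ) c k a (t k) hck (fun i =>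
      (Int.natCast_modEq_iff).2 (ha i k hk))
    rw [h2] at hF'
    exact Int.modEq_zero_iff_dvd.1 hF'

end Pool.Agent.Work.MP_90e0ad_ag.GR
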