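import Mathlib

/-!
Module DpCoreB (M). PROOF. Let k < y and let p be a prime factor of 1 + (k+1) Q! (which is >= 2). Then p
does not divide Q! (else p divides 1), so p > Q (Nat.Prime.dvd_factorial). By h1, p divides
1 + (c+1) Q!, so (c+1) Q! = -1 = (k+1) Q! mod p and c = k mod p. By h2, p divides
a_i.descFactorial (u+1) = prod_{j<=u} (a_i - j) (natural subtraction). If a_i <= u put t_i = a_i. If
a_i > u all factors are true differences, p divides a_i - j for some j <= u (Prime.exists_mem_finset_dvd)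
and we put t_i = j. So t_i <= u and t_i = a_i mod p. By h3 and hF, F k t = F c a = 0 mod p, and
|F k t| <= Q < p, so F k t = 0 (Int.eq_zero_of_abs_lt_dvd or similar).
-/

set_option autoImplicit false

namespace Pool.Agent.Work.MP_90e0ad_ag.GR

open Nat

theorem coreB {m : ℕ} (F : ℕ → (Fin m → ℕ) → ℤ)
    (hF : ∀ (M : ℤ) (k k' : ℕ) (t t' : Fin m → ℕ), (k : ℤ) ≡ k' [ZMOD M] →
      (∀ i, (t i : ℤ) ≡ t' i [ZMOD M]) → F k t ≡ F k' t' [ZMOD M])
    {y u Q c : ℕ} {a : Fin m → ℕ}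
    (hB : ∀ k < y, ∀ t : Fin m → ℕ, (∀ i, t i ≤ u) → |F k t| ≤ Q)
    (h1 : 1 + (c + 1) * Q ! = ∏ k ∈ Finset.range y, (1 + (k + 1) * Q !))
    (h2 : ∀ i, (1 + (c + 1) * Q !) ∣ (a i).descFactorial (u + 1))
    (h3 : ((1 + (c + 1) * Q ! : ℕ) : ℤ) ∣ F c a) :
    ∀ k < y, ∃ t : Fin m → ℕ, F k t = 0 := by
  intro k hk
  have hne : 1 + (k + 1) * Q ! ≠ 1 := by
    have h4 := Nat.factorial_pos Q
    have h5 : 0 < (k + 1) * Q ! := Nat.mul_pos (Nat.succ_pos k) h4
    omega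
  obtain ⟨p, hp, hpd⟩ := Nat.exists_prime_and_dvd hne
  have hpQ : ¬ p ∣ Q ! := fun h => by
    have h4 : p ∣ 1 := (Nat.dvd_add_left (Dvd.dvd.mul_left h (k + 1))).1 hpd
    exact hp.one_lt.ne' (Nat.dvd_one.1 h4)
  have hQp : Q < p := by
    by_contra hle
    exact hpQ (hp.dvd_factorial.2 (not_lt.1 hle))
  have hpc : p ∣ 1 + (c + 1) * Q ! := by
    rw [h1]
    exact hpd.trans (Finset.dvd_prod_of_mem _ (Finset.mem_range.2 hk))
  have hck : (c : ℤ) ≡ k [ZMOD p] := by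
    rw [Int.modEq_iff_dvd]
    have e : ((k : ℤ) - c) * (Q ! : ℤ) =
        ((1 + (k + 1) * Q ! : ℕ) : ℤ) - ((1 + (c + 1) * Q ! : ℕ) : ℤ) := by
      push_cast
      ring
    have h4 : (p : ℤ) ∣ ((k : ℤ) - c) * (Q ! : ℤ) := by
      rw [e]
      exact dvd_sub (Int.natCast_dvd_natCast.2 hpd) (Int.natCast_dvd_natCast.2 hpc)
    have hpi : Prime (p : ℤ) := Nat.prime_iff_prime_int.1 hp
    rcases hpi.dvd_or_dvd h4 with h5 | h5
    · exact h5
    · exact absurd (Int.natCast_dvd_natCast.1 h5) hpQ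
  have ht : ∀ i, ∃ t : ℕ, t ≤ u ∧ (a i : ℤ) ≡ t [ZMOD p] := by
    intro i
    by_cases hi : a i ≤ u
    · exact ⟨a i, hi, Int.ModEq.refl _⟩
    · have h4 : p ∣ (a i).descFactorial (u + 1) := hpc.trans (h2 i)
      rw [Nat.descFactorial_eq_prod_range] at h4
      obtain ⟨j, hj, hj2⟩ := (Nat.Prime.prime hp).exists_mem_finset_dvd h4
      have hju : j ≤ u := Nat.lt_succ_iff.1 (Finset.mem_range.1 hj)
      refine ⟨j, hju, ?_⟩
      apply Int.ModEq.symm
      rw [Int.modEq_iff_dvd]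
      have h5 : ((a i - j : ℕ) : ℤ) = (a i : ℤ) - j := by
        rw [Nat.cast_sub]
        omega
      rw [← h5]
      exact Int.natCast_dvd_natCast.2 hj2
  choose t ht1 ht2 using ht
  refine ⟨t, ?_⟩
  have h5 : F c a ≡ F k t [ZMOD p] := hF p c k a t hck ht2
  have h6 : (p : ℤ) ∣ F c a := (Int.natCast_dvd_natCast.2 hpc).trans h3
  have h7 : (p : ℤ) ∣ F k t := by
    have h8 := (Int.modEq_iff_dvd.1 h5)
    have h9 : F k t = (F k t - F c a) + F c a := by ring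
    rw [h9]
    exact dvd_add h8 h6
  have h8 := hB k hk t ht1
  exact Int.eq_zero_of_abs_lt_dvd h7 (h8.trans_lt (by exact_mod_cast hQp))

end Pool.Agent.Work.MP_90e0ad_ag.GR
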