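import Mathlib

/-!
Module DpFin (M): a Diophantine set is defined with finitely many dummy variables.
PROOF. Dioph S gives beta and p : Poly (alpha + beta). A polynomial uses only finitely many variables:
by Poly.induction (or induction on IsPoly), for every p : Poly (alpha + beta) there are a finite set
s : Finset beta and q : Poly (alpha + s) with p = q.map (Sum.map id Subtype.val), i.e.
p x = q (x o Sum.map id val) for all x. (proj (inl a): s empty; proj (inr b): s = {b}; const: s empty;
sub, mul: take the union of the two finite sets and map along the inclusions; state the claim in the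
monotone form: for all s' containing s there is such a q for s'.) Now use Fin m equiv s (m = card s,
Finset.equivFin). If p (v, t) = 0 take the restriction of t; conversely given t' on s extend it by 0.
-/

set_option autoImplicit false

namespace Pool.Agent.Work.MP_90e0ad_ag.GR

open Dioph

private theorem df_aux {α β : Type} (p : Poly (α ⊕ β)) :
    ∃ s : Finset β, ∀ s' : Finset β, s ⊆ s' → ∃ q : Poly (α ⊕ s'), ∀ x : α ⊕ β → ℕ,
      p x = q (x ∘ Sum.map id Subtype.val) := by
  classical
  induction p using Poly.induction with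
  | H1 i =>
    rcases i with a | b
    · exact ⟨∅, fun s' _ => ⟨Poly.proj (Sum.inl a), fun x => rfl⟩⟩
    · refine ⟨{b}, fun s' h => ⟨Poly.proj (Sum.inr ⟨b, h (Finset.mem_singleton_self b)⟩), ?_⟩⟩
      intro x
      rfl
  | H2 n => exact ⟨∅, fun s' _ => ⟨Poly.const n, fun x => rfl⟩⟩
  | H3 f g hf hg =>
    obtain ⟨s1, h1⟩ := hf
    obtain ⟨s2, h2⟩ := hg
    refine ⟨s1 ∪ s2, fun s' h => ?_⟩
    obtain ⟨q1, e1⟩ := h1 s' (Finset.subset_union_left.trans h)
    obtain ⟨q2, e2⟩ := h2 s' (Finset.subset_union_right.trans h)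
    refine ⟨q1 - q2, fun x => ?_⟩
    rw [Poly.sub_apply, Poly.sub_apply, e1, e2]
  | H4 f g hf hg =>
    obtain ⟨s1, h1⟩ := hf
    obtain ⟨s2, h2⟩ := hg
    refine ⟨s1 ∪ s2, fun s' h => ?_⟩
    obtain ⟨q1, e1⟩ := h1 s' (Finset.subset_union_left.trans h)
    obtain ⟨q2, e2⟩ := h2 s' (Finset.subset_union_right.trans h)
    refine ⟨q1 * q2, fun x => ?_⟩
    rw [Poly.mul_apply, Poly.mul_apply, e1, e2]

theorem dioph_fin {α : Type} {S : Set (α → ℕ)} (d : Dioph S) :
    ∃ (m : ℕ) (p : Poly (α ⊕ Fin m)), ∀ v, v ∈ S ↔ ∃ t : Fin m → ℕ, p (Sum.elim v t) = 0 := by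
  classical
  obtain ⟨β, p, hp⟩ := d
  obtain ⟨s, hs⟩ := df_aux p
  obtain ⟨q, hq⟩ := hs s (Finset.Subset.refl s)
  refine ⟨s.card, q.map (Sum.map id s.equivFin), fun v => (hp v).trans ⟨?_, ?_⟩⟩
  · rintro ⟨t, ht⟩
    refine ⟨fun i => t (s.equivFin.symm i).1, ?_⟩
    rw [hq] at ht
    rw [Poly.map_apply]
    have h : Sum.elim v (fun i => t (s.equivFin.symm i).1) ∘ Sum.map id s.equivFin =
        Sum.elim v t ∘ Sum.map id Subtype.val := by
      funext j
      rcases j with a | b
      · rfl
      · show t (s.equivFin.symm (s.equivFin b)).1 = t b.1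
        rw [Equiv.symm_apply_apply]
    rw [h]
    exact ht
  · rintro ⟨t, ht⟩
    refine ⟨fun b => if h : b ∈ s then t (s.equivFin ⟨b, h⟩) else 0, ?_⟩
    rw [Poly.map_apply] at ht
    rw [hq]
    have h : Sum.elim v (fun b => if h : b ∈ s then t (s.equivFin ⟨b, h⟩) else 0) ∘
        Sum.map id Subtype.val = Sum.elim v t ∘ Sum.map id s.equivFin := by
      funext j
      rcases j with a | ⟨b, hb⟩
      · rfl
      · show (if h : b ∈ s then t (s.equivFin ⟨b, h⟩) else 0) = t (s.equivFin ⟨b, hb⟩)
        rw [dif_pos hb]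
    exact (congrArg q h).trans ht

end Pool.Agent.Work.MP_90e0ad_ag.GR
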