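import Mathlib

/-!
Module DpPoly (S). PROOFS. All three by Poly.induction (or by induction on IsPoly).
poly_modEq: Int.ModEq.sub, Int.ModEq.mul.
poly_maj: proj i: q = proj i; const n: q = const |n|; sub: q1 + q2; mul: q1 * q2 (note that
0 <= |p x| <= q x, so q is nonnegative and products are monotone).
poly_mv: X i, C n, -, *.
-/

set_option autoImplicit false

namespace Pool.Agent.Work.MP_90e0ad_ag.GR

theorem poly_modEq {γ : Type} (p : Poly γ) (M : ℤ) (x y : γ → ℕ)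
    (h : ∀ i, (x i : ℤ) ≡ y i [ZMOD M]) : p x ≡ p y [ZMOD M] := by
  induction p using Poly.induction with
  | H1 i => exact h i
  | H2 n => exact Int.ModEq.refl _
  | H3 f g hf hg => exact Int.ModEq.sub hf hg
  | H4 f g hf hg => exact Int.ModEq.mul hf hg

theorem poly_maj {γ : Type} (p : Poly γ) :
    ∃ q : Poly γ, (∀ x y : γ → ℕ, (∀ i, x i ≤ y i) → q x ≤ q y) ∧ ∀ x, |p x| ≤ q x := by
  induction p using Poly.induction with
  | H1 i =>
    refine ⟨Poly.proj i, fun x y h => ?_, fun x => ?_⟩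
    · rw [Poly.proj_apply, Poly.proj_apply]
      exact_mod_cast h i
    · rw [Poly.proj_apply, abs_of_nonneg (Int.natCast_nonneg _)]
  | H2 n =>
    refine ⟨Poly.const |n|, fun x y _ => ?_, fun x => ?_⟩
    · rw [Poly.const_apply, Poly.const_apply]
    · rw [Poly.const_apply, Poly.const_apply]
  | H3 f g hf hg =>
    obtain ⟨q1, m1, a1⟩ := hf
    obtain ⟨q2, m2, a2⟩ := hg
    refine ⟨q1 + q2, fun x y h => ?_, fun x => ?_⟩
    · rw [Poly.add_apply, Poly.add_apply]
      exact add_le_add (m1 x y h) (m2 x y h)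
    · rw [Poly.sub_apply, Poly.add_apply]
      exact (abs_sub _ _).trans (add_le_add (a1 x) (a2 x))
  | H4 f g hf hg =>
    obtain ⟨q1, m1, a1⟩ := hf
    obtain ⟨q2, m2, a2⟩ := hg
    have n1 : ∀ x, 0 ≤ q1 x := fun x => (abs_nonneg _).trans (a1 x)
    have n2 : ∀ x, 0 ≤ q2 x := fun x => (abs_nonneg _).trans (a2 x)
    refine ⟨q1 * q2, fun x y h => ?_, fun x => ?_⟩
    · rw [Poly.mul_apply, Poly.mul_apply]
      exact mul_le_mul (m1 x y h) (m2 x y h) (n2 x) (n1 y)
    · rw [Poly.mul_apply, Poly.mul_apply, abs_mul]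
      exact mul_le_mul (a1 x) (a2 x) (abs_nonneg _) (n1 x)

theorem poly_mv {γ : Type} (p : Poly γ) :
    ∃ P : MvPolynomial γ ℤ, ∀ x : γ → ℕ, p x = MvPolynomial.eval (fun i => (x i : ℤ)) P := by
  induction p using Poly.induction with
  | H1 i =>
    refine ⟨MvPolynomial.X i, fun x => ?_⟩
    rw [Poly.proj_apply, MvPolynomial.eval_X]
  | H2 n =>
    refine ⟨MvPolynomial.C n, fun x => ?_⟩
    rw [Poly.const_apply, MvPolynomial.eval_C]
  | H3 f g hf hg =>
    obtain ⟨P, hP⟩ := hf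
    obtain ⟨Q, hQ⟩ := hg
    refine ⟨P - Q, fun x => ?_⟩
    rw [Poly.sub_apply, map_sub, hP, hQ]
  | H4 f g hf hg =>
    obtain ⟨P, hP⟩ := hf
    obtain ⟨Q, hQ⟩ := hg
    refine ⟨P * Q, fun x => ?_⟩
    rw [Poly.mul_apply, map_mul, hP, hQ]

end Pool.Agent.Work.MP_90e0ad_ag.GR
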