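import Pool.Agent.Work.MP_90e0ad_ag.GR.DpProd
import Pool.Agent.Work.MP_90e0ad_ag.GR.DpFin
import Pool.Agent.Work.MP_90e0ad_ag.GR.DpPoly
import Pool.Agent.Work.MP_90e0ad_ag.GR.DpCoreA
import Pool.Agent.Work.MP_90e0ad_ag.GR.DpCoreB

/-!
Module DpBall (M-L): the bounded quantifier theorem (Davis, Putnam, Robinson).
PROOF. dioph_fin gives m, p : Poly (Option alpha + Fin m) with w in S iff exists t, p (w, t) = 0.
poly_maj gives a monotone q : Poly with |p| <= q. For fixed v put F_v k t = p (Sum.elim (elim' k v) t); it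
satisfies hF of coreA, coreB by poly_modEq. For v, u put
  Q(v,u) = f v + (q (Sum.elim (elim' (f v) v) (fun _ => u))).natAbs + 1.
CLAIM: (forall k < f v, elim' k v in S) iff f v = 0 or there are u, c, a : Fin m -> N with
  1 + (c+1) Q! = prod_{k < f v} (1 + (k+1) Q!), (1 + (c+1) Q!) divides (a i).descFactorial (u+1) for all i,
  and (1 + (c+1) Q!) divides (p (Sum.elim (elim' c v) a)).natAbs.
(=>): for k < f v choose t_k with F_v k t_k = 0, let u be the maximum of all t_k i, apply coreA.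
(<=): coreB; hB holds because |F_v k t| <= q (elim' k v, t) <= q (elim' (f v) v, (u,..,u)) <= Q by
monotonicity. (Int.natCast_dvd, Int.natCast_natAbs to pass between Z and N.)
DIOPHANTINE: use Dioph.union, eq_dioph for f v = 0, and Dioph.ex_dioph with beta = Option (Option (Fin m))
(none = u, some none = c, some (some i) = a i): the set of x : alpha + beta -> N with the three
conditions is an intersection of eq_dioph / dvd_dioph of DiophFn functions (finite intersection over
i : Fin m by DiophList.forall or an induction; v => q (...) is DiophFn by composing the polynomial map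
Poly.map with abs_poly_dioph, except that the variable f v must be substituted: introduce one more
dummy variable z with z = f v, i.e. use beta = Option (Option (Option (Fin m))), or use diophFn_comp1);
(a i).descFactorial (u+1) = (u+1)! * (a i).choose (u+1) (Nat.descFactorial_eq_factorial_mul_choose);
prodSucc_dioph, factorial_dioph, choose_dioph.
-/

set_option autoImplicit false

namespace Pool.Agent.Work.MP_90e0ad_ag.GR

open Dioph Nat

private theorem fin_inter {γ : Type} {m : ℕ} (T : Fin m → Set (γ → ℕ)) (h : ∀ i, Dioph (T i)) :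
    Dioph {v : γ → ℕ | ∀ i, v ∈ T i} := by
  refine Dioph.ext (Dioph.DiophList.forall (List.ofFn T) ?_) fun v => ?_
  · rw [List.forall_iff_forall_mem]
    intro S hS
    obtain ⟨i, rfl⟩ := (List.mem_ofFn' _ _).1 hS
    exact h i
  · simp only [Set.mem_setOf_eq, List.forall_iff_forall_mem]
    constructor
    · intro hv i
      exact hv (T i) ((List.mem_ofFn' _ _).2 ⟨i, rfl⟩)
    · intro hv S hS
      obtain ⟨i, rfl⟩ := (List.mem_ofFn' _ _).1 hS
      exact hv i

private theorem core_iff {α : Type} {S : Set (Option α → ℕ)} {m : ℕ}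
    (p : Poly (Option α ⊕ Fin m))
    (hp : ∀ v, v ∈ S ↔ ∃ t : Fin m → ℕ, p (Sum.elim v t) = 0)
    (q : Poly (Option α ⊕ Fin m))
    (qmono : ∀ x y : Option α ⊕ Fin m → ℕ, (∀ i, x i ≤ y i) → q x ≤ q y)
    (hq : ∀ x, |p x| ≤ q x) (v : α → ℕ) (y : ℕ) :
    (∀ k < y, (Option.elim' k v : Option α → ℕ) ∈ S) ↔ y = 0 ∨
      ∃ (u c : ℕ) (a : Fin m → ℕ),
        1 + (c + 1) * (y + (q (Sum.elim (Option.elim' y v) (fun _ => u))).natAbs + 1)! =
          ∏ k ∈ Finset.range y,
            (1 + (k + 1) * (y + (q (Sum.elim (Option.elim' y v) (fun _ => u))).natAbs + 1)!) ∧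
        (∀ i, (1 + (c + 1) * (y + (q (Sum.elim (Option.elim' y v) (fun _ => u))).natAbs + 1)!) ∣
          (u + 1)! * (a i).choose (u + 1)) ∧
        (1 + (c + 1) * (y + (q (Sum.elim (Option.elim' y v) (fun _ => u))).natAbs + 1)!) ∣
          (p (Sum.elim (Option.elim' c v) a)).natAbs := by
  have hF : ∀ (M : ℤ) (k k' : ℕ) (t t' : Fin m → ℕ), (k : ℤ) ≡ k' [ZMOD M] →
      (∀ i, (t i : ℤ) ≡ t' i [ZMOD M]) →
      p (Sum.elim (Option.elim' k v) t) ≡ p (Sum.elim (Option.elim' k' v) t') [ZMOD M] := by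
    intro M k k' t t' hk ht
    refine poly_modEq p M _ _ fun i => ?_
    rcases i with (_ | j) | i
    · exact hk
    · exact Int.ModEq.refl _
    · exact ht i
  constructor
  · intro h
    rcases Nat.eq_zero_or_pos y with h0 | hy
    · exact Or.inl h0
    right
    have h' : ∀ k < y, ∃ t : Fin m → ℕ, p (Sum.elim (Option.elim' k v) t) = 0 := fun k hk =>
      (hp _).1 (h k hk)
    choose! t ht using h'
    obtain ⟨u, hu⟩ : ∃ u : ℕ, ∀ k < y, ∀ i, t k i ≤ u := by
      refine ⟨(Finset.range y ×ˢ (Finset.univ : Finset (Fin m))).sup fun x => t x.1 x.2, ?_⟩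
      intro k hk i
      exact Finset.le_sup (f := fun x : ℕ × Fin m => t x.1 x.2) (b := (k, i)) (by simp [hk])
    obtain ⟨c, a, h1, h2, h3⟩ := coreA (fun k t => p (Sum.elim (Option.elim' k v) t)) hF
      (y := y) (u := u) (Q := y + (q (Sum.elim (Option.elim' y v) (fun _ => u))).natAbs + 1)
      hy (by omega) (fun k hk => ⟨t k, hu k hk, ht k hk⟩)
    refine ⟨u, c, a, h1, fun i => ?_, ?_⟩
    · rw [← Nat.descFactorial_eq_factorial_mul_choose]
      exact h2 i
    · exact Int.natCast_dvd.1 h3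
  · rintro (h0 | ⟨u, c, a, h1, h2, h3⟩)
    · intro k hk
      omega
    · intro k hk
      rw [hp]
      refine coreB (fun k t => p (Sum.elim (Option.elim' k v) t)) hF
        (y := y) (u := u) (Q := y + (q (Sum.elim (Option.elim' y v) (fun _ => u))).natAbs + 1)
        (c := c) (a := a) ?_ h1 (fun i => ?_) (Int.natCast_dvd.2 h3) k hk
      · intro k hk t ht
        have e1 := hq (Sum.elim (Option.elim' k v) t)
        have e2 : q (Sum.elim (Option.elim' k v) t) ≤
            q (Sum.elim (Option.elim' y v) (fun _ => u)) := by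
          refine qmono _ _ fun i => ?_
          rcases i with (_ | j) | i
          · exact hk.le
          · exact le_refl _
          · exact ht i
        have e3 := Int.le_natAbs (a := q (Sum.elim (Option.elim' y v) (fun _ => u)))
        change |p (Sum.elim (Option.elim' k v) t)| ≤ _
        push_cast at e3 ⊢
        omega
      · rw [Nat.descFactorial_eq_factorial_mul_choose]
        exact h2 i

theorem ball_dioph {α : Type} {S : Set (Option α → ℕ)} (d : Dioph S) {f : (α → ℕ) → ℕ}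
    (df : DiophFn f) : Dioph {v : α → ℕ | ∀ k < f v, (Option.elim' k v : Option α → ℕ) ∈ S} := by
  obtain ⟨m, p, hp⟩ := dioph_fin d
  obtain ⟨q, qmono, hq⟩ := poly_maj p
  -- the dummies
  have dz : DiophFn fun x : α ⊕ (Fin 3 ⊕ Fin m) → ℕ => x (Sum.inr (Sum.inl 0)) := proj_dioph _
  have du : DiophFn fun x : α ⊕ (Fin 3 ⊕ Fin m) → ℕ => x (Sum.inr (Sum.inl 1)) := proj_dioph _
  have dc : DiophFn fun x : α ⊕ (Fin 3 ⊕ Fin m) → ℕ => x (Sum.inr (Sum.inl 2)) := proj_dioph _
  have da : ∀ i : Fin m, DiophFn fun x : α ⊕ (Fin 3 ⊕ Fin m) → ℕ => x (Sum.inr (Sum.inr i)) :=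
    fun i => proj_dioph _
  have dfz : DiophFn fun x : α ⊕ (Fin 3 ⊕ Fin m) → ℕ => f (x ∘ Sum.inl) :=
    reindex_diophFn Sum.inl df
  have d1 : ∀ {γ : Type}, DiophFn fun _ : γ → ℕ => 1 := fun {γ} => const_dioph 1
  have dq : DiophFn fun x : α ⊕ (Fin 3 ⊕ Fin m) → ℕ =>
      (q (Sum.elim (Option.elim' (x (Sum.inr (Sum.inl 0))) (x ∘ Sum.inl))
        (fun _ => x (Sum.inr (Sum.inl 1))))).natAbs := by
    have h := abs_poly_dioph (q.map (Sum.elim (Option.elim' (Sum.inr (Sum.inl 0)) Sum.inl)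
      (fun _ => Sum.inr (Sum.inl 1)) : Option α ⊕ Fin m → α ⊕ (Fin 3 ⊕ Fin m)))
    have e : (fun x : α ⊕ (Fin 3 ⊕ Fin m) → ℕ =>
        ((q.map (Sum.elim (Option.elim' (Sum.inr (Sum.inl 0)) Sum.inl)
          (fun _ => Sum.inr (Sum.inl 1)) : Option α ⊕ Fin m → α ⊕ (Fin 3 ⊕ Fin m))) x).natAbs) =
      fun x : α ⊕ (Fin 3 ⊕ Fin m) → ℕ =>
        (q (Sum.elim (Option.elim' (x (Sum.inr (Sum.inl 0))) (x ∘ Sum.inl))
          (fun _ => x (Sum.inr (Sum.inl 1))))).natAbs := by
      funext x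
      rw [Poly.map_apply]
      congr 2
      funext i
      rcases i with (_ | j) | i <;> rfl
    rw [e] at h
    exact h
  have dp : DiophFn fun x : α ⊕ (Fin 3 ⊕ Fin m) → ℕ =>
      (p (Sum.elim (Option.elim' (x (Sum.inr (Sum.inl 2))) (x ∘ Sum.inl))
        (fun i => x (Sum.inr (Sum.inr i))))).natAbs := by
    have h := abs_poly_dioph (p.map (Sum.elim (Option.elim' (Sum.inr (Sum.inl 2)) Sum.inl)
      (fun i => Sum.inr (Sum.inr i)) : Option α ⊕ Fin m → α ⊕ (Fin 3 ⊕ Fin m)))
    have e : (fun x : α ⊕ (Fin 3 ⊕ Fin m) → ℕ =>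
        ((p.map (Sum.elim (Option.elim' (Sum.inr (Sum.inl 2)) Sum.inl)
          (fun i => Sum.inr (Sum.inr i)) : Option α ⊕ Fin m → α ⊕ (Fin 3 ⊕ Fin m))) x).natAbs) =
      fun x : α ⊕ (Fin 3 ⊕ Fin m) → ℕ =>
        (p (Sum.elim (Option.elim' (x (Sum.inr (Sum.inl 2))) (x ∘ Sum.inl))
          (fun i => x (Sum.inr (Sum.inr i))))).natAbs := by
      funext x
      rw [Poly.map_apply]
      congr 2
      funext i
      rcases i with (_ | j) | i <;> rfl
    rw [e] at h
    exact h
  have dQ : DiophFn fun x : α ⊕ (Fin 3 ⊕ Fin m) → ℕ =>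
      (x (Sum.inr (Sum.inl 0)) +
        (q (Sum.elim (Option.elim' (x (Sum.inr (Sum.inl 0))) (x ∘ Sum.inl))
        (fun _ => x (Sum.inr (Sum.inl 1))))).natAbs + 1)! :=
    factorial_dioph (add_dioph (add_dioph dz dq) d1)
  have dM := add_dioph d1 (mul_dioph (add_dioph dc d1) dQ)
  have dP := prodSucc_dioph dz dQ
  have dT := (eq_dioph dz dfz).inter ((eq_dioph dM dP).inter
    ((fin_inter _ fun i : Fin m => dvd_dioph dM
      (mul_dioph (factorial_dioph (add_dioph du d1)) (choose_dioph (da i) (add_dioph du d1)))).inter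
    (dvd_dioph dM dp)))
  refine Dioph.ext (Dioph.union (eq_dioph df (const_dioph 0)) (ex_dioph dT)) fun v => ?_
  have hc := core_iff p hp q qmono hq v (f v)
  refine Iff.trans ?_ hc.symm
  refine or_congr Iff.rfl ?_
  constructor
  · rintro ⟨x, h0, h1, h2, h3⟩
    have h0' : x (Sum.inl 0) = f v := h0
    refine ⟨x (Sum.inl 1), x (Sum.inl 2), fun i => x (Sum.inr i), ?_, ?_, ?_⟩
    · rw [← h0']
      exact h1
    · rw [← h0']
      exact h2
    · rw [← h0']
      exact h3
  · rintro ⟨u, c, a, h1, h2, h3⟩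
    exact ⟨Sum.elim ![f v, u, c] a, rfl, h1, h2, h3⟩

end Pool.Agent.Work.MP_90e0ad_ag.GR
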