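import Mathlib

/-!
Module DpChoose (M). PROOF. Put B = 2^n + 1, so (2^n + 2)^n = (1 + B)^n = sum_i C(n,i) B^i. Divide by B^k: the
terms i >= k are multiples of B^k, and sum_{i<k} C(n,i) B^i <= 2^n B^(k-1) < B^k (for k >= 1; for k = 0
the sum is empty). Hence (1+B)^n / B^k = sum_{i>=k} C(n,i) B^(i-k), which is C(n,k) modulo B, and
C(n,k) <= 2^n < B. (For k > n the quotient is 0 by the same estimate.)
The second theorem: rewrite by the first and use Dioph.pow_dioph, add_dioph, div_dioph, mod_dioph.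
-/

set_option autoImplicit false

namespace Pool.Agent.Work.MP_90e0ad_ag.GR

open Dioph

private theorem low_lt (n k : ℕ) :
    ∑ i ∈ Finset.range k, (2 ^ n + 1) ^ i * n.choose i < (2 ^ n + 1) ^ k := by
  induction k with
  | zero => simp
  | succ k ih =>
    rw [Finset.sum_range_succ, pow_succ]
    have h1 : n.choose k ≤ 2 ^ n := Nat.choose_le_two_pow _ _
    have h2 : (2 ^ n + 1) ^ k * n.choose k ≤ (2 ^ n + 1) ^ k * 2 ^ n :=
      Nat.mul_le_mul_left _ h1
    calc _ < (2 ^ n + 1) ^ k + (2 ^ n + 1) ^ k * 2 ^ n := add_lt_add_of_lt_of_le ih h2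
      _ = (2 ^ n + 1) ^ k * (2 ^ n + 1) := by ring

theorem choose_eq (n k : ℕ) :
    n.choose k = ((2 ^ n + 2) ^ n / (2 ^ n + 1) ^ k) % (2 ^ n + 1) := by
  obtain ⟨B, hB⟩ : ∃ B, B = 2 ^ n + 1 := ⟨_, rfl⟩
  have hB0 : 0 < B := by rw [hB]; positivity
  have h1 : 2 ^ n + 2 = B + 1 := by rw [hB]
  rw [h1, ← hB]
  have hexp : (B + 1) ^ n = ∑ i ∈ Finset.range (n + 1), B ^ i * n.choose i := by
    rw [add_pow]
    refine Finset.sum_congr rfl fun i _ => ?_
    rw [one_pow, mul_one, Nat.cast_id]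
  rcases le_or_gt k n with hk | hk
  · obtain ⟨m, rfl⟩ : ∃ m, n = k + m := ⟨n - k, by omega⟩
    have h2 : (B + 1) ^ (k + m) = (∑ i ∈ Finset.range k, B ^ i * (k + m).choose i) +
        B ^ k * ((k + m).choose k +
          B * ∑ i ∈ Finset.range m, B ^ i * (k + m).choose (k + (i + 1))) := by
      rw [hexp, show k + m + 1 = k + (m + 1) by ring, Finset.sum_range_add,
        Finset.sum_range_succ']
      congr 1
      rw [mul_add, ← mul_assoc, ← pow_succ, Finset.mul_sum, add_zero, add_comm]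
      congr 1
      refine Finset.sum_congr rfl fun i _ => ?_
      rw [← mul_assoc, ← pow_add]
      congr 2
      ring
    have hlow := low_lt (k + m) k
    rw [← hB] at hlow
    have hpos : 0 < B ^ k := pow_pos hB0 k
    have hC : (k + m).choose k < B := by
      rw [hB]
      exact Nat.lt_succ_of_le (Nat.choose_le_two_pow _ _)
    rw [h2, Nat.add_mul_div_left _ _ hpos, Nat.div_eq_of_lt hlow, zero_add,
      Nat.add_mul_mod_self_left, Nat.mod_eq_of_lt hC]
  · have hlow := low_lt n (n + 1)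
    rw [← hB, ← hexp] at hlow
    have h3 : B ^ (n + 1) ≤ B ^ k := Nat.pow_le_pow_right hB0 hk
    rw [Nat.choose_eq_zero_of_lt hk, Nat.div_eq_of_lt (lt_of_lt_of_le hlow h3), Nat.zero_mod]

theorem choose_dioph {α : Type} {f g : (α → ℕ) → ℕ} (df : DiophFn f) (dg : DiophFn g) :
    DiophFn fun v => (f v).choose (g v) := by
  have h : (fun v => (f v).choose (g v)) =
      fun v => ((2 ^ f v + 2) ^ f v / (2 ^ f v + 1) ^ g v) % (2 ^ f v + 1) :=
    funext fun v => choose_eq _ _
  rw [h]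
  have hp : DiophFn fun v => 2 ^ f v := pow_dioph (const_dioph 2) df
  have hp1 : DiophFn fun v => 2 ^ f v + 1 := add_dioph hp (const_dioph 1)
  have hp2 : DiophFn fun v => 2 ^ f v + 2 := add_dioph hp (const_dioph 2)
  exact mod_dioph (div_dioph (pow_dioph hp2 df) (pow_dioph hp1 dg)) hp1

end Pool.Agent.Work.MP_90e0ad_ag.GR
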