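import Mathlib

/-!
Module DpComp (S-M). PROOF. dioph_compF: the set is {v | exists x : beta -> N, (forall b, x b = g b v)
and x in S}; use Dioph.ex_dioph, reindex_dioph (Sum.inr), and a finite intersection of eq_dioph
(DiophList.forall with the list of all b : beta, or induction over a finite type). diophFn_compF: apply
dioph_compF to the graph (type Option beta, also finite) with the functions v none (proj_dioph) and
g b (v o some) (reindex_diophFn).
-/

set_option autoImplicit false

namespace Pool.Agent.Work.MP_90e0ad_ag.GR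

open Dioph

theorem dioph_compF {α β : Type} [Finite β] {S : Set (β → ℕ)} (d : Dioph S)
    (g : β → (α → ℕ) → ℕ) (dg : ∀ b, DiophFn (g b)) : Dioph {v | (fun b => g b v) ∈ S} := by
  obtain ⟨n, ⟨e'⟩⟩ := Finite.exists_equiv_fin β
  let e : β ≃ Fin2 n := e'.trans
    ⟨Fin2.ofFin, Fin2.toFin, fun i => Fin2.toFin_ofFin i, fun i => Fin2.ofFin_toFin i⟩
  have d1 : Dioph {w : Fin2 n → ℕ | w ∘ e ∈ S} := reindex_dioph _ e d
  have d2 := dioph_comp (n := n) d1 (fun i => g (e.symm i))
    ((vectorAllP_iff_forall _ _).2 (fun i => dg (e.symm i)))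
  refine Dioph.ext d2 (fun v => ?_)
  have h : ((fun i => g (e.symm i) v) ∘ e) = fun b => g b v := by
    funext b
    simp
  show ((fun i => g (e.symm i) v) ∘ e) ∈ S ↔ _
  rw [h]
  rfl

theorem diophFn_compF {α β : Type} [Finite β] {f : (β → ℕ) → ℕ} (df : DiophFn f)
    (g : β → (α → ℕ) → ℕ) (dg : ∀ b, DiophFn (g b)) : DiophFn fun v => f (fun b => g b v) := by
  have d2 := dioph_compF (α := Option α) (β := Option β) df
    (fun o => Option.casesOn o (fun v => v none) (fun b v => g b (v ∘ some))) (by
      rintro (_ | b)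
      · exact proj_dioph none
      · exact reindex_diophFn _ (dg b))
  exact d2

end Pool.Agent.Work.MP_90e0ad_ag.GR
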