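import Pool.Agent.Work.MP_90e0ad_ag.GR.DpChoose

/-!
Module DpFact (M). PROOF of factorial_eq. For n = 0: r = 1 (0^0 = 1, so r = (1+1)*0+0+1 = 1) and
1 / C(1,0) = 1. Let n >= 1, r as below. C(r,n) = (r)_n / n! with (r)_n = r (r-1) ... (r-n+1) <= r^n, so
r^n / C(r,n) = n! r^n / (r)_n >= n!. Further (r)_n >= (r-n)^n and (1 - n/r)^n >= 1 - n^2/r (Bernoulli,
one_add_mul_le_pow), so n! r^n <= n! (r)_n / (1 - n^2/r), i.e. r^n (r - n^2) <= r (r)_n, hence
n! r^n / (r)_n <= n! r / (r - n^2) = n! + n! n^2 / (r - n^2) < n! + 1 because r > n^2 (n! + 1)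
(n! <= n^n, Nat.factorial_le_pow or similar). Everything can be done with natural numbers or in the reals;
use Nat.div_eq_of_lt_le or Nat.div_eq_iff. Nat.descFactorial_eq_factorial_mul_choose is useful.
The second theorem: rewrite by the first; pow_dioph, div_dioph, choose_dioph.
-/

set_option autoImplicit false

namespace Pool.Agent.Work.MP_90e0ad_ag.GR

open Dioph Nat

theorem factorial_eq (n : ℕ) :
    n ! = ((n ^ n + 1) * n ^ 2 + n + 1) ^ n / ((n ^ n + 1) * n ^ 2 + n + 1).choose n := by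
  rcases Nat.eq_zero_or_pos n with rfl | hn
  · simp
  set r := (n ^ n + 1) * n ^ 2 + n + 1 with hr
  have hnr : n ≤ r := by
    rw [hr]
    have := Nat.zero_le ((n ^ n + 1) * n ^ 2)
    omega
  have hC : 0 < r.choose n := Nat.choose_pos hnr
  have hD : r.descFactorial n = n ! * r.choose n := Nat.descFactorial_eq_factorial_mul_choose r n
  have h1 : n ! * r.choose n ≤ r ^ n := by
    rw [← hD]
    exact Nat.descFactorial_le_pow r n
  have h2 : r ^ n < (n ! + 1) * r.choose n := by
    have hf : 0 < n ! := Nat.factorial_pos n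
    have hs : (r + 1 - n) ^ n ≤ r.descFactorial n := Nat.pow_sub_le_descFactorial r n
    have key : n ! * r ^ n < (n ! + 1) * (r + 1 - n) ^ n := by
      have hfn : n ! ≤ n ^ n := Nat.factorial_le_pow n
      have hrR : (0 : ℝ) < (r : ℝ) := by
        have : 0 < r := lt_of_lt_of_le hn hnr
        exact_mod_cast this
      have hbig : ((n ! : ℝ) + 1) * (n * (n - 1)) < r := by
        have e1 : (r : ℝ) = ((n : ℝ) ^ n + 1) * (n : ℝ) ^ 2 + n + 1 := by
          rw [hr]
          push_cast
          ring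
        have e2 : (n ! : ℝ) ≤ (n : ℝ) ^ n := by exact_mod_cast hfn
        have e3 : (1 : ℝ) ≤ n := by exact_mod_cast hn
        have e4 : (0 : ℝ) ≤ (n ! : ℝ) := by positivity
        have e5 : (n : ℝ) * (n - 1) ≤ (n : ℝ) ^ 2 := by nlinarith
        have e6 : (0 : ℝ) ≤ (n : ℝ) * (n - 1) := mul_nonneg (by linarith) (by linarith)
        calc ((n ! : ℝ) + 1) * (n * (n - 1)) ≤ ((n : ℝ) ^ n + 1) * (n : ℝ) ^ 2 :=
              mul_le_mul (by linarith) e5 e6 (by positivity)
          _ < r := by
              rw [e1]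
              linarith
      have hB := one_add_mul_le_pow (a := -(((n : ℝ) - 1) / r)) (by
        have e3 : (n : ℝ) ≤ r := by exact_mod_cast hnr
        have e4 : ((n : ℝ) - 1) / r ≤ 1 := by
          rw [div_le_one hrR]
          linarith
        linarith) n
      have e1 : 1 + -(((n : ℝ) - 1) / r) = ((r : ℝ) + 1 - n) / r := by
        field_simp
        ring
      rw [e1, div_pow] at hB
      have hrn : (0 : ℝ) < (r : ℝ) ^ n := pow_pos hrR n
      have e2 : (n ! : ℝ) * (r : ℝ) ^ n < ((n ! : ℝ) + 1) * ((r : ℝ) + 1 - n) ^ n := by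
        have e3 : (n ! : ℝ) < ((n ! : ℝ) + 1) * (1 + (n : ℝ) * -(((n : ℝ) - 1) / r)) := by
          have e4 : ((n ! : ℝ) + 1) * (1 + (n : ℝ) * -(((n : ℝ) - 1) / r)) =
              (n ! : ℝ) + 1 - (((n ! : ℝ) + 1) * (n * (n - 1))) / r := by
            ring
          rw [e4]
          have e5 : (((n ! : ℝ) + 1) * (n * (n - 1))) / r < 1 := by
            rw [div_lt_one hrR]
            exact hbig
          linarith
        have e4 : (n ! : ℝ) < ((n ! : ℝ) + 1) * (((r : ℝ) + 1 - n) ^ n / (r : ℝ) ^ n) :=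
          lt_of_lt_of_le e3 (mul_le_mul_of_nonneg_left hB (by positivity))
        have e5 : ((n ! : ℝ) + 1) * (((r : ℝ) + 1 - n) ^ n / (r : ℝ) ^ n) =
            ((n ! : ℝ) + 1) * ((r : ℝ) + 1 - n) ^ n / (r : ℝ) ^ n := by ring
        rw [e5, lt_div_iff₀ hrn] at e4
        exact e4
      have e3 : ((r + 1 - n : ℕ) : ℝ) = (r : ℝ) + 1 - n := by
        rw [Nat.cast_sub (by omega)]
        push_cast
        ring
      rw [← e3] at e2
      exact_mod_cast e2
    have h3 : n ! * r ^ n < n ! * ((n ! + 1) * r.choose n) := by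
      calc n ! * r ^ n < (n ! + 1) * (r + 1 - n) ^ n := key
        _ ≤ (n ! + 1) * r.descFactorial n := Nat.mul_le_mul_left _ hs
        _ = n ! * ((n ! + 1) * r.choose n) := by
            rw [hD]
            ring
    exact Nat.lt_of_mul_lt_mul_left h3
  symm
  rw [Nat.div_eq_iff hC]
  constructor
  · exact h1
  · have h4 : (n ! + 1) * r.choose n = n ! * r.choose n + r.choose n := by ring
    omega

theorem factorial_dioph {α : Type} {f : (α → ℕ) → ℕ} (df : DiophFn f) :
    DiophFn fun v => (f v)! := by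
  have h : (fun v => (f v)!) = fun v =>
      (((f v) ^ (f v) + 1) * (f v) ^ 2 + f v + 1) ^ (f v) /
        (((f v) ^ (f v) + 1) * (f v) ^ 2 + f v + 1).choose (f v) := by
    funext v
    exact factorial_eq (f v)
  rw [h]
  have h1 : DiophFn fun v : α → ℕ => ((f v) ^ (f v) + 1) * (f v) ^ 2 + f v + 1 :=
    add_dioph (add_dioph (mul_dioph (add_dioph (pow_dioph df df) (const_dioph 1))
      (pow_dioph df (const_dioph 2))) df) (const_dioph 1)
  exact div_dioph (pow_dioph h1 df) (choose_dioph h1 df)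

end Pool.Agent.Work.MP_90e0ad_ag.GR
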