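import Pool.Agent.Work.MP_90e0ad_ag.GR.DpPrim

/-!
Module DpHalt (M): a Diophantine set of natural numbers whose complement is not recursively enumerable.
PROOF. K = {n | (Code.eval (Denumerable.ofNat Code n) 0).Dom}. If n not in K were REPred in n, then, composing
with the computable encode : Code -> N, the predicate c |-> not (eval c 0).Dom would be REPred,
contradicting ComputablePred.halting_problem_not_re 0. Dioph: n in K iff exists k,
evaln k (ofNat Code n) 0 is some (Code.evaln_complete, evaln_sound), iff exists k with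
F(n,k) not 0, F(n,k) = encode (evaln k (ofNat Code n) 0) (encode none = 0, encode (some x) = x + 1).
F is primitive recursive (Code.evaln_prim composed, Primrec.encode, Primrec.ofNat), so
Nat.Primrec'.of_prim / prim_iff2 gives Nat.Primrec' (fun v : Vector N 2 => F v.head v.tail.head), and
primrec'_dioph gives DiophFn (fun v : Fin 2 -> N => F (v 0) (v 1)). Then ex1_dioph after reindexing and
ne_dioph with const 0.
-/

set_option autoImplicit false

namespace Pool.Agent.Work.MP_90e0ad_ag.GR

open Dioph

private noncomputable def FF (n k : ℕ) : ℕ :=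
  Encodable.encode (Nat.Partrec.Code.evaln k (Denumerable.ofNat Nat.Partrec.Code n) 0)

private theorem FF_prim : Primrec₂ FF := by
  unfold FF
  have h1 : Primrec (fun p : ℕ × ℕ =>
      ((p.2, Denumerable.ofNat Nat.Partrec.Code p.1), (0 : ℕ))) :=
    ((Primrec.snd).pair ((Primrec.ofNat Nat.Partrec.Code).comp Primrec.fst)).pair (Primrec.const 0)
  exact Primrec.encode.comp (Nat.Partrec.Code.primrec_evaln.comp h1)

private theorem FF_dioph : DiophFn (fun v : Fin 2 → ℕ => FF (v 0) (v 1)) := by
  have h1 := primrec'_dioph (Nat.Primrec'.prim_iff₂.2 FF_prim)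
  exact h1

private theorem FF_mem (n : ℕ) :
    (Nat.Partrec.Code.eval (Denumerable.ofNat Nat.Partrec.Code n) 0).Dom ↔ ∃ k, FF n k ≠ 0 := by
  constructor
  · intro h
    obtain ⟨k, hk⟩ := Nat.Partrec.Code.evaln_complete.1 (Part.get_mem h)
    refine ⟨k, ?_⟩
    unfold FF
    rw [Option.mem_def.1 hk]
    simp
  · rintro ⟨k, hk⟩
    unfold FF at hk
    cases h : Nat.Partrec.Code.evaln k (Denumerable.ofNat Nat.Partrec.Code n) 0 with
    | none => rw [h] at hk; simp at hk
    | some x =>
      have := Nat.Partrec.Code.evaln_sound (Option.mem_def.2 h)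
      exact Part.dom_iff_mem.2 ⟨x, this⟩

theorem halt_dioph : ∃ K : Set ℕ, (¬ REPred fun n : ℕ => n ∉ K) ∧
    Dioph {v : Fin 1 → ℕ | v 0 ∈ K} := by
  refine ⟨{n | (Nat.Partrec.Code.eval (Denumerable.ofNat Nat.Partrec.Code n) 0).Dom}, ?_, ?_⟩
  · intro h
    apply ComputablePred.halting_problem_not_re 0
    have h1 : Computable (fun c : Nat.Partrec.Code => Encodable.encode c) := Computable.encode
    have h2 : REPred (fun c : Nat.Partrec.Code => Encodable.encode c ∉
        {n | (Nat.Partrec.Code.eval (Denumerable.ofNat Nat.Partrec.Code n) 0).Dom}) := by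
      unfold REPred at h ⊢
      exact (Partrec.comp h h1)
    refine h2.of_eq (fun c => ?_)
    simp
  · let ρ : Fin 2 → Option (Fin 1) := ![some 0, none]
    have h1 : DiophFn (fun v : Option (Fin 1) → ℕ => FF (v (ρ 0)) (v (ρ 1))) :=
      reindex_diophFn ρ FF_dioph
    have h2 := ne_dioph h1 (const_dioph (α := Option (Fin 1)) 0)
    have h3 := ex1_dioph h2
    refine Dioph.ext h3 (fun v => ?_)
    show (∃ x, FF (v 0) x ≠ 0) ↔ _
    exact (FF_mem (v 0)).symm

end Pool.Agent.Work.MP_90e0ad_ag.GR
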