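import Pool.Agent.Work.MP_90e0ad_ag.GR.DpHalt
import Pool.Agent.Work.MP_90e0ad_ag.GR.DpFin
import Pool.Agent.Work.MP_90e0ad_ag.GR.DpPoly

/-!
Module DpOut (M): the theorem of Davis, Putnam, Robinson and Matiyasevich in the form we need.
PROOF. Take K from halt_dioph, dioph_fin gives m0 and p : Poly (Fin 1 + Fin m0), poly_mv gives
P0 : MvPolynomial (Fin 1 + Fin m0) Z. Put m = m0 * 4 (finProdFinEquiv : Fin m0 x Fin 4 equiv Fin (m0 * 4))
and let P be P0 with inl 0 replaced by X none and inr i replaced by the sum of the four squares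
X (some (i,l))^2, l < 4 (MvPolynomial.aeval / bind1; eval of it by MvPolynomial.eval_bind1 or aeval
computations). For every integer point x the value of P is the value of p at the natural numbers
sum_l x(i,l)^2 (Int.toNat or natAbs), and by Nat.sum_four_squares every natural number is such a sum with
natural entries. So n in K iff there is a natural zero iff there is an integer zero.
-/

set_option autoImplicit false

namespace Pool.Agent.Work.MP_90e0ad_ag.GR

open Dioph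

private theorem dpout_core {m0 : ℕ} (p : Poly (Fin 1 ⊕ Fin m0))
    (P0 : MvPolynomial (Fin 1 ⊕ Fin m0) ℤ)
    (hP0 : ∀ x : Fin 1 ⊕ Fin m0 → ℕ, p x = MvPolynomial.eval (fun i => (x i : ℤ)) P0) :
    ∃ P : MvPolynomial (Option (Fin (m0 * 4))) ℤ, ∀ (n : ℕ) (x : Fin (m0 * 4) → ℤ),
      MvPolynomial.eval (Option.elim' (n : ℤ) x) P =
        p (Sum.elim (fun _ => n) fun i => ∑ l : Fin 4, (x (finProdFinEquiv (i, l))).natAbs ^ 2) := by
  refine ⟨MvPolynomial.bind₁ (Sum.elim (fun _ => MvPolynomial.X none)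
    (fun i => ∑ l : Fin 4, MvPolynomial.X (some (finProdFinEquiv (i, l))) ^ 2)) P0, ?_⟩
  intro n x
  rw [hP0]
  have h1 : ∀ (w : Option (Fin (m0 * 4)) → ℤ) (Q : MvPolynomial (Option (Fin (m0 * 4))) ℤ),
      MvPolynomial.eval w Q = MvPolynomial.aeval w Q := fun w Q => by
    rw [MvPolynomial.aeval_eq_eval]
  rw [h1, MvPolynomial.aeval_bind₁, MvPolynomial.aeval_eq_eval]
  congr 2
  funext i
  rcases i with i | i
  · simp
  · simp [Option.elim']

private theorem dprm0 (K : Set ℕ) (hK : ¬ REPred fun n : ℕ => n ∉ K) (m0 : ℕ)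
    (p : Poly (Fin 1 ⊕ Fin m0))
    (hp : ∀ v : Fin 1 → ℕ, v ∈ {v : Fin 1 → ℕ | v 0 ∈ K} ↔ ∃ t : Fin m0 → ℕ, p (Sum.elim v t) = 0)
    (P0 : MvPolynomial (Fin 1 ⊕ Fin m0) ℤ)
    (hP0 : ∀ x : Fin 1 ⊕ Fin m0 → ℕ, p x = MvPolynomial.eval (fun i => (x i : ℤ)) P0) :
    ∃ (m : ℕ) (P : MvPolynomial (Option (Fin m)) ℤ),
    (¬ REPred fun n : ℕ => ¬ ∃ x : Fin m → ℕ,
      MvPolynomial.eval (Option.elim' (n : ℤ) fun i => (x i : ℤ)) P = 0) ∧
    ∀ (n : ℕ) (x : Fin m → ℤ), MvPolynomial.eval (Option.elim' (n : ℤ) x) P = 0 →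
      ∃ x' : Fin m → ℕ, MvPolynomial.eval (Option.elim' (n : ℤ) fun i => (x' i : ℤ)) P = 0 := by
  obtain ⟨P, hP⟩ := dpout_core p P0 hP0
  have h1 : ∀ n : ℕ, (∃ x : Fin (m0 * 4) → ℕ,
      MvPolynomial.eval (Option.elim' (n : ℤ) fun i => (x i : ℤ)) P = 0) ↔ n ∈ K := by
    intro n
    have h2 := hp (fun _ => n)
    constructor
    · rintro ⟨x, hx⟩
      rw [hP] at hx
      exact h2.mpr ⟨_, hx⟩
    · intro hn
      obtain ⟨t, ht⟩ := h2.mp hn
      choose a b c d habcd using fun i => Nat.sum_four_squares (t i)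
      refine ⟨fun j => ![a (finProdFinEquiv.symm j).1, b (finProdFinEquiv.symm j).1,
        c (finProdFinEquiv.symm j).1, d (finProdFinEquiv.symm j).1] (finProdFinEquiv.symm j).2, ?_⟩
      rw [hP]
      have h3 : (fun i : Fin m0 => ∑ l : Fin 4, (((![a (finProdFinEquiv.symm
          (finProdFinEquiv (i, l))).1, b (finProdFinEquiv.symm (finProdFinEquiv (i, l))).1,
          c (finProdFinEquiv.symm (finProdFinEquiv (i, l))).1,
          d (finProdFinEquiv.symm (finProdFinEquiv (i, l))).1]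
          (finProdFinEquiv.symm (finProdFinEquiv (i, l))).2 : ℕ) : ℤ)).natAbs ^ 2) = t := by
        funext i
        rw [← habcd i]
        simp [Fin.sum_univ_four]
      rw [h3]
      exact ht
  refine ⟨m0 * 4, P, ?_, ?_⟩
  · intro h
    apply hK
    refine h.of_eq ?_
    intro n
    exact not_congr (h1 n)
  · intro n x hx
    rw [hP] at hx
    exact (h1 n).mpr ((hp (fun _ => n)).mpr ⟨_, hx⟩)

theorem dprm : ∃ (m : ℕ) (P : MvPolynomial (Option (Fin m)) ℤ),
    (¬ REPred fun n : ℕ => ¬ ∃ x : Fin m → ℕ,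
      MvPolynomial.eval (Option.elim' (n : ℤ) fun i => (x i : ℤ)) P = 0) ∧
    ∀ (n : ℕ) (x : Fin m → ℤ), MvPolynomial.eval (Option.elim' (n : ℤ) x) P = 0 →
      ∃ x' : Fin m → ℕ, MvPolynomial.eval (Option.elim' (n : ℤ) fun i => (x' i : ℤ)) P = 0 := by
  obtain ⟨K, hK, hd⟩ := halt_dioph
  obtain ⟨m0, p, hp⟩ := dioph_fin hd
  obtain ⟨P0, hP0⟩ := poly_mv p
  exact dprm0 K hK m0 p hp P0 hP0

end Pool.Agent.Work.MP_90e0ad_ag.GR
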