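import Pool.Agent.Work.MP_90e0ad_ag.GR.DpRec

/-!
Module DpPrim (S-M): all primitive recursive functions are Diophantine. PROOF. Induction on Nat.Primrec':
zero, succ, get: const_dioph, proj_dioph, add_dioph. comp: diophFn_compF with beta = Fin n (note
List.Vector.ofFn and List.Vector.get_ofFn, List.Vector.ofFn_get, ext). prec: rec_dioph with alpha = Fin n
after composing with v => (v 0 , v o succ): the function w : Fin (n+1) -> N maps to
Nat.rec (f (tail w)) (fun y IH => g (y ::_v IH ::_v tail w)) (w 0). Apply rec_dioph with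
alpha = Fin (n+1), f' w = f (tail w), h w = w 0,
g' u = g (u none ::_v u (some none) ::_v (u o some o some o Fin.succ)), all by diophFn_compF or
reindex_diophFn.
-/

set_option autoImplicit false

namespace Pool.Agent.Work.MP_90e0ad_ag.GR

open Dioph

theorem primrec'_dioph {n : ℕ} {f : List.Vector ℕ n → ℕ} (hf : Nat.Primrec' f) :
    DiophFn fun v : Fin n → ℕ => f (List.Vector.ofFn v) := by
  induction hf with
  | zero => exact const_dioph 0
  | succ =>
    have h : (fun v : Fin 1 → ℕ => Nat.succ (List.Vector.ofFn v).head) = fun v => v 0 + 1 := by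
      funext v
      rfl
    rw [h]
    exact add_dioph (proj_dioph 0) (const_dioph 1)
  | get i =>
    simp only [List.Vector.get_ofFn]
    exact proj_dioph i
  | comp g _ _ ihf ihg => exact diophFn_compF ihf (fun b v => g b (List.Vector.ofFn v)) ihg
  | @prec n f g _ _ ihf ihg =>
    let ρ : Fin (n + 2) → Option (Option (Fin (n + 1))) :=
      Fin.cons none (Fin.cons (some none) fun i => some (some i.succ))
    have h1 := rec_dioph (reindex_diophFn (Fin.succ : Fin n → Fin (n + 1)) ihf)
      (proj_dioph (0 : Fin (n + 1))) (reindex_diophFn ρ ihg)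
    have h2 : (fun v : Fin (n + 1) → ℕ => (Nat.rec (f (List.Vector.ofFn (v ∘ Fin.succ)))
        (fun y IH => g (List.Vector.ofFn ((Option.elim' y (Option.elim' IH v)) ∘ ρ))) (v 0) : ℕ)) =
        fun v : Fin (n + 1) → ℕ => (Nat.rec (f (List.Vector.ofFn v).tail)
          (fun y IH => g (y ::ᵥ IH ::ᵥ (List.Vector.ofFn v).tail)) (List.Vector.ofFn v).head : ℕ) := by
      funext v
      rfl
    rw [h2] at h1
    exact h1

end Pool.Agent.Work.MP_90e0ad_ag.GR
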