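import Pool.Agent.Work.MP_90e0ad_ag.GR.DpFact

/-!
Module DpProd (M). PROOF. Let y = f v, t = g v. If t = 0 the product is 1. Let t >= 1,
M = t (1+yt)^y + 1, q = M - (1+yt)^y (a natural number >= 1). Then t q = tM - (M-1), so t q = 1 mod M and
t (q+k) = 1 + kt mod M. Hence prod_{k=1}^y (1+kt) = t^y prod_{k=1}^y (q+k) = t^y y! C(q+y, y) mod M
(Nat.ascFactorial_eq_factorial_mul_choose or Nat.descFactorial...). The product is <= (1+yt)^y <
M, so it EQUALS (t^y y! C(q+y,y)) % M. First prove the pure identity prodSucc_eq.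
DiophFn: the graph {v : Option alpha -> N | prod = v none} is the union of
{t = 0 and v none = 1} and {0 < t and v none = formula} (Dioph.ext, Dioph.union, Dioph.inter, eq_dioph,
lt_dioph, const_dioph; the functions v => f (v o some) are DiophFn by reindex_diophFn).
-/

set_option autoImplicit false

namespace Pool.Agent.Work.MP_90e0ad_ag.GR

open Dioph Nat

private theorem prod_cong (M : ℕ) (f g : ℕ → ℕ) (n : ℕ) (h : ∀ k, f k ≡ g k [MOD M]) :
    ∏ k ∈ Finset.range n, f k ≡ ∏ k ∈ Finset.range n, g k [MOD M] := by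
  induction n with
  | zero => exact Nat.ModEq.refl _
  | succ n ih =>
    rw [Finset.prod_range_succ, Finset.prod_range_succ]
    exact ih.mul (h n)

theorem prodSucc_eq (y t : ℕ) (ht : 0 < t) :
    ∏ k ∈ Finset.range y, (1 + (k + 1) * t) =
      (t ^ y * y ! * ((t * (1 + y * t) ^ y + 1 - (1 + y * t) ^ y) + y).choose y) %
        (t * (1 + y * t) ^ y + 1) := by
  obtain ⟨A, hA⟩ : ∃ A, A = (1 + y * t) ^ y := ⟨_, rfl⟩
  rw [← hA]
  have hA1 : 1 ≤ A := by
    rw [hA]
    exact Nat.one_le_pow _ _ (by omega)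
  have hAt : A ≤ t * A := Nat.le_mul_of_pos_left A ht
  obtain ⟨q, hq⟩ : ∃ q, q = t * A + 1 - A := ⟨_, rfl⟩
  rw [← hq]
  have hqA : q + A = t * A + 1 := by omega
  obtain ⟨M, hM⟩ : ∃ M, M = t * A + 1 := ⟨_, rfl⟩
  rw [← hM]
  rw [← hM] at hqA
  have htq : t * q ≡ 1 [MOD M] := by
    have h1 : t * q + M = t * M + 1 := by
      have h2 : t * q + t * A = t * M := by rw [← mul_add, hqA]
      omega
    have h2 : t * q + M ≡ t * q [MOD M] := by
      show (t * q + M) % M = (t * q) % M
      exact Nat.add_mod_right _ _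
    have h3 : t * M + 1 ≡ 1 [MOD M] := by
      show (t * M + 1) % M = 1 % M
      rw [add_comm]
      exact Nat.add_mul_mod_self_right _ _ _
    exact h2.symm.trans (h1 ▸ h3)
  have hle : ∏ k ∈ Finset.range y, (1 + (k + 1) * t) ≤ A := by
    calc ∏ k ∈ Finset.range y, (1 + (k + 1) * t) ≤ ∏ _k ∈ Finset.range y, (1 + y * t) := by
          refine Finset.prod_le_prod' fun k hk => ?_
          have h1 : k + 1 ≤ y := Finset.mem_range.1 hk
          have h2 : (k + 1) * t ≤ y * t := Nat.mul_le_mul_right _ h1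
          omega
      _ = A := by rw [Finset.prod_const, Finset.card_range, hA]
  have hcong : ∏ k ∈ Finset.range y, (1 + (k + 1) * t) ≡
      ∏ k ∈ Finset.range y, (t * (q + 1 + k)) [MOD M] := by
    refine prod_cong _ _ _ _ fun k => ?_
    have h1 : t * (q + 1 + k) = t * q + (k + 1) * t := by ring
    rw [h1]
    exact (htq.symm).add_right _
  have hval : ∏ k ∈ Finset.range y, (t * (q + 1 + k)) = t ^ y * y ! * (q + y).choose y := by
    rw [Finset.prod_mul_distrib, Finset.prod_const, Finset.card_range,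
      ← Nat.ascFactorial_eq_prod_range, Nat.ascFactorial_eq_factorial_mul_choose, mul_assoc]
  rw [hval] at hcong
  have hlt : ∏ k ∈ Finset.range y, (1 + (k + 1) * t) < M := by omega
  have h5 : (∏ k ∈ Finset.range y, (1 + (k + 1) * t)) % M =
      (t ^ y * y ! * (q + y).choose y) % M := hcong
  rw [Nat.mod_eq_of_lt hlt] at h5
  exact h5

theorem prodSucc_dioph {α : Type} {f g : (α → ℕ) → ℕ} (df : DiophFn f) (dg : DiophFn g) :
    DiophFn fun v => ∏ k ∈ Finset.range (f v), (1 + (k + 1) * g v) := by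
  have h : (fun v => ∏ k ∈ Finset.range (f v), (1 + (k + 1) * g v)) =
      fun v => (g v ^ f v * (f v) ! * ((g v * (1 + f v * g v) ^ f v + 1 -
        (1 + f v * g v) ^ f v) + f v).choose (f v)) %
        (g v * (1 + f v * g v) ^ f v + 1) + (1 - g v) := by
    funext v
    rcases Nat.eq_zero_or_pos (g v) with h0 | h0
    · rw [h0]
      simp [Nat.mod_one]
    · rw [prodSucc_eq _ _ h0]
      have h1 : 1 - g v = 0 := by omega
      rw [h1, add_zero]
  rw [h]
  have h1 : DiophFn fun v => (1 + f v * g v) ^ f v :=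
    pow_dioph (add_dioph (const_dioph 1) (mul_dioph df dg)) df
  have h2 : DiophFn fun v => g v * (1 + f v * g v) ^ f v + 1 :=
    add_dioph (mul_dioph dg h1) (const_dioph 1)
  have h3 : DiophFn fun v => ((g v * (1 + f v * g v) ^ f v + 1 -
      (1 + f v * g v) ^ f v) + f v).choose (f v) :=
    choose_dioph (add_dioph (sub_dioph h2 h1) df) df
  exact add_dioph (mod_dioph (mul_dioph (mul_dioph (pow_dioph dg df) (factorial_dioph df)) h3) h2)
    (sub_dioph (const_dioph 1) dg)

end Pool.Agent.Work.MP_90e0ad_ag.GR
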