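import Pool.Agent.Work.MP_90e0ad_ag.GR.DpBall
import Pool.Agent.Work.MP_90e0ad_ag.GR.DpComp

/-!
Module DpRec (M): primitive recursion preserves Diophantine functions.
PROOF. Let R(v) be the value. Then R(v) = z iff there are c, d with
 (1) c % (d + 1) = f v, (2) forall k < h v, c % ((k+2) d + 1) = g (k, c % ((k+1) d + 1), v),
 (3) c % ((h v + 1) d + 1) = z.
(<=): by induction on i <= h v, c % ((i+1) d + 1) = Nat.rec (f v) .. i. (=>): the Goedel beta function:
Nat.beta_unbeta_coe (Mathlib.Logic.Godel.GodelBetaFunction), Nat.beta n i =
n.unpair.1 % ((i + 1) * n.unpair.2 + 1), gives c, d for the list of the values 0..h v.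
The graph is Diophantine: ex1_dioph twice, ball_dioph for (2) (bound h), mod_dioph, eq_dioph and
diophFn_compF to substitute into g (all types are finite: Option (Option (Option alpha)) and so on).
-/

set_option autoImplicit false

namespace Pool.Agent.Work.MP_90e0ad_ag.GR

open Dioph

private theorem rec_iff (n a : ℕ) (G : ℕ → ℕ → ℕ) (z : ℕ) :
    (Nat.rec a G n : ℕ) = z ↔ ∃ d c : ℕ, c % (d + 1) = a ∧
      (∀ k < n, c % ((k + 2) * d + 1) = G k (c % ((k + 1) * d + 1))) ∧
      c % ((n + 1) * d + 1) = z := by
  constructor
  · rintro rfl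
    set l : List ℕ := (List.range (n + 1)).map (fun i => (Nat.rec a G i : ℕ)) with hl
    have hlen : l.length = n + 1 := by simp [hl]
    have hb : ∀ i, i ≤ n → (Nat.unbeta l).unpair.1 % ((i + 1) * (Nat.unbeta l).unpair.2 + 1) =
        (Nat.rec a G i : ℕ) := by
      intro i hi
      have h1 := Nat.beta_unbeta_coe l ⟨i, by omega⟩
      have h2 : l[(⟨i, by omega⟩ : Fin l.length)] = (Nat.rec a G i : ℕ) := by
        simp [hl]
      rw [h2] at h1
      exact h1
    refine ⟨(Nat.unbeta l).unpair.2, (Nat.unbeta l).unpair.1, ?_, fun k hk => ?_, hb n le_rfl⟩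
    · have h1 := hb 0 (Nat.zero_le _)
      rw [zero_add, one_mul] at h1
      exact h1
    · have h1 := hb (k + 1) hk
      have h2 := hb k hk.le
      rw [h2]
      exact h1
  · rintro ⟨d, c, h1, h2, h3⟩
    have h4 : ∀ i, i ≤ n → c % ((i + 1) * d + 1) = (Nat.rec a G i : ℕ) := by
      intro i
      induction i with
      | zero =>
        intro _
        rw [zero_add, one_mul]
        exact h1
      | succ i ih =>
        intro hi
        have h5 := h2 i hi
        rw [ih (by omega)] at h5
        exact h5
    rw [← h4 n le_rfl]
    exact h3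

theorem rec_dioph {α : Type} [Finite α] {f h : (α → ℕ) → ℕ} {g : (Option (Option α) → ℕ) → ℕ}
    (df : DiophFn f) (dh : DiophFn h) (dg : DiophFn g) :
    DiophFn fun v : α → ℕ => (Nat.rec (f v)
      (fun y IH => g (Option.elim' y (Option.elim' IH v))) (h v) : ℕ) := by
  -- the variables are `c`, `d`, `z`, `v`
  have hk : ∀ {γ : Type} {p q : (γ → ℕ) → ℕ} (n : ℕ) (_ : DiophFn p) (_ : DiophFn q),
      DiophFn fun x : γ → ℕ => (p x + n) * q x + 1 := fun n dp dq =>
    add_dioph (mul_dioph (add_dioph dp (const_dioph n)) dq) (const_dioph 1)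
  have d1 : Dioph {x : Option (Option (Option α)) → ℕ | x none % (x (some none) + 1) =
      f (fun a => x (some (some (some a))))} :=
    eq_dioph (mod_dioph (proj_dioph none) (add_dioph (proj_dioph (some none)) (const_dioph 1)))
      (reindex_diophFn (fun a => some (some (some a))) df)
  have d3 : Dioph {x : Option (Option (Option α)) → ℕ |
      x none % ((h (fun a => x (some (some (some a)))) + 1) * x (some none) + 1) =
        x (some (some none))} :=
    eq_dioph (mod_dioph (proj_dioph none)
      (hk 1 (reindex_diophFn (fun a => some (some (some a))) dh) (proj_dioph (some none))))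
      (proj_dioph (some (some none)))
  have d0 : Dioph {y : Option (Option (Option (Option α))) → ℕ |
      y (some none) % ((y none + 2) * y (some (some none)) + 1) =
        g (fun b => (Option.elim' (y none) (Option.elim'
          (y (some none) % ((y none + 1) * y (some (some none)) + 1))
          (fun a => y (some (some (some (some a)))))) : Option (Option α) → ℕ) b)} := by
    refine eq_dioph (mod_dioph (proj_dioph (some none))
      (hk 2 (proj_dioph none) (proj_dioph (some (some none))))) ?_
    refine diophFn_compF dg (fun (b : Option (Option α))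
      (y : Option (Option (Option (Option α))) → ℕ) => (Option.elim' (y none) (Option.elim'
          (y (some none) % ((y none + 1) * y (some (some none)) + 1))
          (fun a => y (some (some (some (some a)))))) : Option (Option α) → ℕ) b) ?_
    intro b
    rcases b with _ | _ | a
    · exact proj_dioph none
    · exact mod_dioph (proj_dioph (some none))
        (hk 1 (proj_dioph none) (proj_dioph (some (some none))))
    · exact proj_dioph (some (some (some (some a))))
  have d2 := ball_dioph d0 (f := fun x : Option (Option (Option α)) → ℕ =>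
    h (fun a => x (some (some (some a))))) (reindex_diophFn (fun a => some (some (some a))) dh)
  have d4 := ex1_dioph (ex1_dioph (d1.inter (d2.inter d3)))
  refine Dioph.ext d4 fun v => ?_
  constructor
  · rintro ⟨d, c, e1, e2, e3⟩
    exact (rec_iff _ _ _ _).2 ⟨d, c, e1, e2, e3⟩
  · intro hv
    obtain ⟨d, c, e1, e2, e3⟩ := (rec_iff _ _ _ _).1 hv
    exact ⟨d, c, e1, e2, e3⟩

end Pool.Agent.Work.MP_90e0ad_ag.GR
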