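import Pool.Agent.Work.MP_90e0ad_ag.GR.FermPol

/-!
Module Ferm (M): the cone over the Fermat quartic. PROOF. If b is identically 0 then (a-c)(a+c)(a-Ic)(a+Ic) = 0 and a = alpha c by dom.
Otherwise fermPol. If P0 = 0 then N c = 0, so N = 0 (dom), (a/c)' = 0 where c is not 0, so a = alpha c on a ball and everywhere by the identity theorem. Let
P0 be nonzero. From the three formulas b^3 (P1 c - P0 a) = 0, so P1 c = P0 a, and P2 c = P0 b (dom). Hence
(P1^4 - P2^4 - P0^4) c^4 = P0^4 (a^4 - b^4 - c^4) = 0, so P1^4 - P2^4 = P0^4 as polynomials (dom, Polynomial.funext).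
P2 is nonzero (else b = 0). If P1 = 0 then a = 0 and alpha = 0 works. Otherwise P0^4 + P2^4 = P1^4 with all three nonzero: divide by the
gcd (EuclideanDomain.gcd P0 P2; it divides P1 since its fourth power divides P1^4: the ring is a UFD / pow_dvd_pow_iff) and apply
Polynomial.flt (n = 4; Mathlib.NumberTheory.FLT.Polynomial or similar: search Polynomial.flt): P_i = G p_i with constants
p_i, so P1 = (p1/p0) P0 and P0 (a - (p1/p0) c) = 0, a = (p1/p0) c.
-/

set_option autoImplicit false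

noncomputable section

namespace Pool.Agent.Work.MP_90e0ad_ag.GR

private theorem ferm_pd (P : Polynomial ℂ) : Differentiable ℂ fun z => P.eval z :=
  P.differentiable

private theorem ferm_zero {P : Polynomial ℂ} (h : ∀ z, P.eval z = 0) : P = 0 :=
  Polynomial.funext fun z => by rw [h z, Polynomial.eval_zero]

private theorem ferm_triv {a c : ℂ → ℂ} (ha : Differentiable ℂ a) (hc : Differentiable ℂ c)
    (h : ∀ z, a z ^ 4 = c z ^ 4) : ∃ α : ℂ, ∀ z, a z = α * c z := by
  have hd : ∀ ζ : ℂ, Differentiable ℂ fun z => a z + ζ * c z :=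
    fun ζ => ha.add (hc.const_mul ζ)
  have hI : Complex.I ^ 2 = -1 := Complex.I_sq
  have h1 : ∀ z, ((a z + (-1) * c z) * (a z + 1 * c z)) *
      ((a z + (-Complex.I) * c z) * (a z + Complex.I * c z)) = 0 := by
    intro z
    linear_combination h z - (a z ^ 2 - c z ^ 2) * c z ^ 2 * hI
  rcases dom ((hd _).mul (hd _)) ((hd _).mul (hd _)) h1 with h2 | h2
  · rcases dom (hd _) (hd _) h2 with h3 | h3
    · exact ⟨1, fun z => by linear_combination h3 z⟩
    · exact ⟨-1, fun z => by linear_combination h3 z⟩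
  · rcases dom (hd _) (hd _) h2 with h3 | h3
    · exact ⟨Complex.I, fun z => by linear_combination h3 z⟩
    · exact ⟨-Complex.I, fun z => by linear_combination h3 z⟩

private theorem ferm_loc {a c : ℂ → ℂ} (ha : Differentiable ℂ a) (hc : Differentiable ℂ c)
    (hc0 : ∃ z, c z ≠ 0) (h : ∀ z, (deriv a z * c z - a z * deriv c z) * c z = 0) :
    ∃ α : ℂ, ∀ z, a z = α * c z := by
  obtain ⟨z₀, hz₀⟩ := hc0
  have hopen : IsOpen {z | c z ≠ 0} := isOpen_ne_fun hc.continuous continuous_const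
  obtain ⟨r, hr, hball⟩ := Metric.isOpen_iff.1 hopen z₀ hz₀
  have hconst : ∀ z ∈ Metric.ball z₀ r, a z / c z = a z₀ / c z₀ := by
    intro z hz
    refine IsOpen.is_const_of_deriv_eq_zero (f := fun z => a z / c z) Metric.isOpen_ball
      (convex_ball z₀ r).isPreconnected ?_ ?_ hz (Metric.mem_ball_self hr)
    · exact fun w hw => ((ha w).div (hc w) (hball hw)).differentiableWithinAt
    · intro w hw
      have hw0 : c w ≠ 0 := hball hw
      have h1 : deriv (fun z => a z / c z) w = (deriv a w * c w - a w * deriv c w) / c w ^ 2 :=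
        ((ha w).hasDerivAt.div (hc w).hasDerivAt hw0).deriv
      have h2 : deriv a w * c w - a w * deriv c w = 0 := by
        rcases mul_eq_zero.1 (h w) with h3 | h3
        · exact h3
        · exact absurd h3 hw0
      rw [h1, h2, zero_div]
      rfl
  refine ⟨a z₀ / c z₀, fun z => ?_⟩
  have hd : Differentiable ℂ fun z => a z₀ / c z₀ * c z := hc.const_mul _
  have h3 : a =ᶠ[nhds z₀] fun z => a z₀ / c z₀ * c z := by
    filter_upwards [Metric.ball_mem_nhds z₀ hr] with w hw
    rw [← hconst w hw, div_mul_cancel₀ _ (hball hw)]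
  have h4 : AnalyticOnNhd ℂ a Set.univ := fun w _ => ha.analyticAt w
  have h5 : AnalyticOnNhd ℂ (fun z => a z₀ / c z₀ * c z) Set.univ := fun w _ => hd.analyticAt w
  exact congrFun (h4.eq_of_eventuallyEq h5 h3) z

theorem ferm {a b c : ℂ → ℂ} (ha : a ∈ FinOrd) (hb : b ∈ FinOrd) (hc : c ∈ FinOrd)
    (hc0 : ∃ z, c z ≠ 0) (h : ∀ z, a z ^ 4 - b z ^ 4 = c z ^ 4) :
    ∃ α : ℂ, ∀ z, a z = α * c z := by
  by_cases hb0 : ∃ z, b z ≠ 0
  swap
  · push Not at hb0
    refine ferm_triv ha.1 hc.1 fun z => ?_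
    have h1 := h z
    rw [hb0 z] at h1
    linear_combination h1
  obtain ⟨P₀, P₁, P₂, e₀, e₁, e₂⟩ := fermPol ha hb hc hb0 hc0 h
  have hb3 : ¬ ∀ z, b z ^ 3 = 0 := by
    intro h1
    obtain ⟨z, hz⟩ := hb0
    exact hz (pow_eq_zero_iff (by norm_num) |>.1 (h1 z))
  have k1 : ∀ z, P₁.eval z * c z - P₀.eval z * a z = 0 := by
    rcases dom (f := fun z => P₁.eval z * c z - P₀.eval z * a z) (g := fun z => b z ^ 3)
      (((ferm_pd P₁).mul hc.1).sub ((ferm_pd P₀).mul ha.1)) (hb.1.pow 3) (fun z => by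
        linear_combination a z * e₀ z - c z * e₁ z) with h1 | h1
    · exact h1
    · exact absurd h1 hb3
  have k2 : ∀ z, P₂.eval z * c z - P₀.eval z * b z = 0 := by
    rcases dom (f := fun z => P₂.eval z * c z - P₀.eval z * b z) (g := fun z => b z ^ 3)
      (((ferm_pd P₂).mul hc.1).sub ((ferm_pd P₀).mul hb.1)) (hb.1.pow 3) (fun z => by
        linear_combination b z * e₀ z - c z * e₂ z) with h1 | h1
    · exact h1
    · exact absurd h1 hb3
  by_cases hP0 : P₀ = 0
  · refine ferm_loc ha.1 hc.1 hc0 fun z => ?_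
    rw [e₀ z, hP0, Polynomial.eval_zero, zero_mul]
  have hP0' : ¬ ∀ z, P₀.eval z = 0 := fun h1 => hP0 (ferm_zero h1)
  have k3 : P₀ ^ 4 + P₂ ^ 4 = P₁ ^ 4 := by
    apply Polynomial.funext
    intro z
    have hc4 : ¬ ∀ z, c z ^ 4 = 0 := by
      intro h1
      obtain ⟨z, hz⟩ := hc0
      exact hz (pow_eq_zero_iff (by norm_num) |>.1 (h1 z))
    rcases dom (f := fun z => (P₀ ^ 4 + P₂ ^ 4 - P₁ ^ 4).eval z) (g := fun z => c z ^ 4)
      (ferm_pd _) (hc.1.pow 4) (fun z => by
        have h1 : P₁.eval z * c z = P₀.eval z * a z := by linear_combination k1 z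
        have h2 : P₂.eval z * c z = P₀.eval z * b z := by linear_combination k2 z
        have h3 : (P₀ ^ 4 + P₂ ^ 4 - P₁ ^ 4).eval z * c z ^ 4 =
            P₀.eval z ^ 4 * c z ^ 4 + (P₂.eval z * c z) ^ 4 - (P₁.eval z * c z) ^ 4 := by
          simp only [Polynomial.eval_sub, Polynomial.eval_add, Polynomial.eval_pow]
          ring
        show (P₀ ^ 4 + P₂ ^ 4 - P₁ ^ 4).eval z * c z ^ 4 = 0
        rw [h3, h1, h2]
        linear_combination -(P₀.eval z ^ 4) * h z) with h1 | h1
    · have h2 := h1 z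
      simp only [Polynomial.eval_sub] at h2
      exact sub_eq_zero.1 h2
    · exact absurd h1 hc4
  have hP2 : P₂ ≠ 0 := by
    rintro rfl
    have h1 : ∀ z, P₀.eval z * b z = 0 := by
      intro z
      have h2 := k2 z
      rw [Polynomial.eval_zero] at h2
      linear_combination -h2
    rcases dom (ferm_pd P₀) hb.1 h1 with h2 | h2
    · exact hP0' h2
    · obtain ⟨z, hz⟩ := hb0
      exact hz (h2 z)
  by_cases hP1 : P₁ = 0
  · refine ⟨0, fun z => ?_⟩
    have h1 : ∀ z, P₀.eval z * a z = 0 := by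
      intro z
      have h2 := k1 z
      rw [hP1, Polynomial.eval_zero] at h2
      linear_combination -h2
    rcases dom (ferm_pd P₀) ha.1 h1 with h2 | h2
    · exact absurd h2 hP0'
    · rw [h2 z, zero_mul]
  obtain ⟨d, u₀, u₂, u₁, ⟨h0, -, h1⟩, hu0, -, hu1⟩ :=
    fermatLastTheoremWith'_polynomial (k := ℂ) (n := 4) (by norm_num) (by norm_num)
      P₀ P₂ P₁ hP0 hP2 hP1 k3
  obtain ⟨p₀, hp0, hp0'⟩ := Polynomial.isUnit_iff.1 hu0
  obtain ⟨p₁, -, hp1'⟩ := Polynomial.isUnit_iff.1 hu1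
  have hd : ¬ ∀ z, d.eval z = 0 := by
    intro h2
    exact hP0 (by rw [h0, ferm_zero h2, mul_zero])
  have h3 : ∀ z, d.eval z * (p₁ * c z - p₀ * a z) = 0 := by
    intro z
    have h4 := k1 z
    rw [h0, h1, ← hp0', ← hp1'] at h4
    simp only [Polynomial.eval_mul, Polynomial.eval_C] at h4
    linear_combination h4
  rcases dom (g := fun z => p₁ * c z - p₀ * a z) (ferm_pd d)
    ((hc.1.const_mul p₁).sub (ha.1.const_mul p₀)) h3 with h4 | h4
  · exact absurd h4 hd
  · have hp : p₀ ≠ 0 := hp0.ne_zero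
    refine ⟨p₁ / p₀, fun z => ?_⟩
    have h5 : p₁ * c z - p₀ * a z = 0 := h4 z
    field_simp
    linear_combination -h5

end Pool.Agent.Work.MP_90e0ad_ag.GR
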