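import Mathlib

/-!
Module FermBd (S-M): an inequality for complex numbers. PROOF. g^4 = f^4 - 1 = (f-1)(f+1)(f-I)(f+I), so |g|^4 = d1 d2 d3 d4 with d_i the
four distances. Let d be the smallest distance (the point z).
(i) |f| >= 2: |g|^4 >= |f|^4 - 1 >= (15/16)|f|^4 and |g|^4 <= (17/16) |f|^4, so max <= 1.02 |f|, |g|^3 >= 0.9 |f|^3, quotient <= 1.2/|f|^2 <=
0.6/|f|, and 1/|f-1| >= 1/(1.5 |f|).
(ii) |f| <= 2, d <= 1/2: the three other distances are >= sqrt 2 - 1/2 >= 0.9, so |g|^4 >= 0.729 d, |g|^3 >= 0.78 d^(3/4) >= 0.78 d (or: |g|^4 >= 0.729 d with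
|g| <= 2.04 gives |g|^3 >= 0.35 d), max <= 2.04, quotient <= 6/d <= 100/d.
(iii) |f| <= 2, d >= 1/2: |g|^4 >= 1/16, |g|^3 >= 1/8, quotient <= 17, and 1/|f-1| >= 1/3.
-/

set_option autoImplicit false

namespace Pool.Agent.Work.MP_90e0ad_ag.GR

private theorem two_far {a b : ℂ} {f : ℂ} (h : 49 / 25 ≤ ‖a - b‖ ^ 2) :
    7 / 5 ≤ ‖f - a‖ + ‖f - b‖ := by
  have h1 : 7 / 5 ≤ ‖a - b‖ := by
    by_contra hc
    push Not at hc
    have := norm_nonneg (a - b)
    nlinarith
  have h2 : ‖a - b‖ ≤ ‖f - a‖ + ‖f - b‖ := by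
    have h3 : a - b = (f - b) - (f - a) := by ring
    rw [h3]
    linarith [norm_sub_le (f - b) (f - a)]
  linarith

theorem fermBd {f g : ℂ} (h : f ^ 4 - g ^ 4 = 1) (hg : g ≠ 0) :
    max 1 (max ‖f‖ ‖g‖) / ‖g‖ ^ 3 ≤ 100 * (1 / ‖f - 1‖ + 1 / ‖f + 1‖ +
      1 / ‖f - Complex.I‖ + 1 / ‖f + Complex.I‖) := by
  have hG : 0 < ‖g‖ := norm_pos_iff.2 hg
  have hfac : g ^ 4 = (f - 1) * (f + 1) * ((f - Complex.I) * (f + Complex.I)) := by
    have hI : Complex.I ^ 2 = -1 := Complex.I_sq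
    linear_combination -h + (f ^ 2 - 1) * hI
  have hfn : ‖g‖ ^ 4 = ‖f - 1‖ * ‖f + 1‖ * (‖f - Complex.I‖ * ‖f + Complex.I‖) := by
    rw [← norm_pow, hfac, norm_mul, norm_mul, norm_mul]
  have hup : ‖g‖ ^ 4 ≤ ‖f‖ ^ 4 + 1 := by
    have h1 : g ^ 4 = f ^ 4 - 1 := by linear_combination -h
    rw [← norm_pow, h1]
    exact (norm_sub_le _ _).trans (by rw [norm_pow, norm_one])
  have hlo : ‖f‖ ^ 4 ≤ ‖g‖ ^ 4 + 1 := by
    have h1 : f ^ 4 = g ^ 4 + 1 := by linear_combination h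
    rw [← norm_pow, h1]
    exact (norm_add_le _ _).trans (by rw [norm_pow, norm_one])
  have hP : 0 < ‖g‖ ^ 4 := by positivity
  have hne : ∀ a b c d : ℝ, 0 ≤ a → 0 ≤ b → 0 ≤ c → 0 ≤ d → 0 < a * b * (c * d) →
      0 < a ∧ 0 < b ∧ 0 < c ∧ 0 < d := by
    intro a b c d ha hb hc hd h
    refine ⟨lt_of_le_of_ne ha ?_, lt_of_le_of_ne hb ?_, lt_of_le_of_ne hc ?_,
      lt_of_le_of_ne hd ?_⟩ <;> (rintro rfl; simp at h)
  obtain ⟨h1, h2, h3, h4⟩ := hne _ _ _ _ (norm_nonneg (f - 1)) (norm_nonneg (f + 1))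
    (norm_nonneg (f - Complex.I)) (norm_nonneg (f + Complex.I)) (hfn ▸ hP)
  rcases le_total 2 ‖f‖ with hF | hF
  · have hF0 : 0 < ‖f‖ := by linarith
    have hF4 : 16 ≤ ‖f‖ ^ 4 := by nlinarith [pow_le_pow_left₀ (by norm_num : (0:ℝ) ≤ 2) hF 4]
    have hGu : ‖g‖ ≤ 2 * ‖f‖ := by
      by_contra hc
      push Not at hc
      have := pow_lt_pow_left₀ hc (by positivity) (n := 4) (by norm_num)
      nlinarith
    have hGl : ‖f‖ / 2 ≤ ‖g‖ := by
      by_contra hc
      push Not at hc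
      have := pow_lt_pow_left₀ hc (by positivity) (n := 4) (by norm_num)
      nlinarith
    have hmax : max 1 (max ‖f‖ ‖g‖) ≤ 2 * ‖f‖ :=
      max_le (by linarith) (max_le (by linarith) hGu)
    have hG3 : (‖f‖ / 2) ^ 3 ≤ ‖g‖ ^ 3 := pow_le_pow_left₀ (by positivity) hGl 3
    have hq : max 1 (max ‖f‖ ‖g‖) / ‖g‖ ^ 3 ≤ 2 * ‖f‖ / (‖f‖ / 2) ^ 3 :=
      div_le_div₀ (by positivity) hmax (by positivity) hG3
    have hd1 : ‖f - 1‖ ≤ ‖f‖ + 1 := (norm_sub_le _ _).trans (by rw [norm_one])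
    have hd2 : 1 / (‖f‖ + 1) ≤ 1 / ‖f - 1‖ := one_div_le_one_div_of_le h1 hd1
    have hlast : 2 * ‖f‖ / (‖f‖ / 2) ^ 3 ≤ 100 * (1 / (‖f‖ + 1)) := by
      rw [mul_one_div, div_le_div_iff₀ (by positivity) (by positivity)]
      nlinarith [mul_pos hF0 hF0, mul_pos (mul_pos hF0 hF0) hF0]
    have hn2 : 0 ≤ 1 / ‖f + 1‖ := by positivity
    have hn3 : 0 ≤ 1 / ‖f - Complex.I‖ := by positivity
    have hn4 : 0 ≤ 1 / ‖f + Complex.I‖ := by positivity
    linarith
  · have hF4 : ‖f‖ ^ 4 ≤ 16 := by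
      have := pow_le_pow_left₀ (norm_nonneg f) hF 4
      linarith
    have hGu : ‖g‖ ≤ 3 := by
      by_contra hc
      push Not at hc
      have := pow_lt_pow_left₀ hc (by positivity) (n := 4) (by norm_num)
      linarith
    have hmax : max 1 (max ‖f‖ ‖g‖) ≤ 3 :=
      max_le (by linarith) (max_le (by linarith) hGu)
    have e12 : 7 / 5 ≤ ‖f - 1‖ + ‖f + 1‖ := by
      have := two_far (a := 1) (b := -1) (f := f) (by norm_num)
      rwa [sub_neg_eq_add] at this
    have e34 : 7 / 5 ≤ ‖f - Complex.I‖ + ‖f + Complex.I‖ := by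
      have := two_far (a := Complex.I) (b := -Complex.I) (f := f) (by
        rw [← Complex.normSq_eq_norm_sq, Complex.normSq_apply]
        norm_num)
      rwa [sub_neg_eq_add] at this
    have e13 : 7 / 5 ≤ ‖f - 1‖ + ‖f - Complex.I‖ := two_far (by
        rw [← Complex.normSq_eq_norm_sq, Complex.normSq_apply]
        norm_num)
    have e14 : 7 / 5 ≤ ‖f - 1‖ + ‖f + Complex.I‖ := by
      have := two_far (a := 1) (b := -Complex.I) (f := f) (by
        rw [← Complex.normSq_eq_norm_sq, Complex.normSq_apply]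
        norm_num)
      rwa [sub_neg_eq_add] at this
    have e23 : 7 / 5 ≤ ‖f + 1‖ + ‖f - Complex.I‖ := by
      have := two_far (a := -1) (b := Complex.I) (f := f) (by
        rw [← Complex.normSq_eq_norm_sq, Complex.normSq_apply]
        norm_num)
      rwa [sub_neg_eq_add] at this
    have e24 : 7 / 5 ≤ ‖f + 1‖ + ‖f + Complex.I‖ := by
      have := two_far (a := -1) (b := -Complex.I) (f := f) (by
        rw [← Complex.normSq_eq_norm_sq, Complex.normSq_apply]
        norm_num)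
      rwa [sub_neg_eq_add, sub_neg_eq_add] at this
    generalize ‖f - 1‖ = a at *
    generalize ‖f + 1‖ = b at *
    generalize ‖f - Complex.I‖ = c at *
    generalize ‖f + Complex.I‖ = d at *
    have hsum : 9 / 100 ≤ b * c * d + a * c * d + a * b * d + a * b * c := by
      have k3 : ∀ x y z : ℝ, 7 / 10 ≤ x → 7 / 10 ≤ y → 7 / 10 ≤ z → 9 / 100 ≤ x * y * z := by
        intro x y z hx hy hz
        have hxy : 49 / 100 ≤ x * y := by nlinarith
        nlinarith
      have p1 : 0 < b * c * d := by positivity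
      have p2 : 0 < a * c * d := by positivity
      have p3 : 0 < a * b * d := by positivity
      have p4 : 0 < a * b * c := by positivity
      rcases le_total (7 / 10) a with ha | ha
      · rcases le_total (7 / 10) b with hb | hb
        · rcases le_total (7 / 10) c with hc | hc
          · linarith [k3 a b c ha hb hc]
          · linarith [k3 a b d ha hb (by linarith)]
        · linarith [k3 a c d ha (by linarith) (by linarith)]
      · linarith [k3 b c d (by linarith) (by linarith) (by linarith)]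
    have hq : max 1 (max ‖f‖ ‖g‖) / ‖g‖ ^ 3 ≤ 9 / ‖g‖ ^ 4 := by
      rw [div_le_div_iff₀ (by positivity) (by positivity)]
      have : ‖g‖ ^ 4 = ‖g‖ * ‖g‖ ^ 3 := by ring
      rw [this, ← mul_assoc]
      apply mul_le_mul_of_nonneg_right _ (by positivity)
      nlinarith [le_max_left 1 (max ‖f‖ ‖g‖)]
    refine hq.trans ?_
    rw [hfn]
    have hid : 100 * (1 / a + 1 / b + 1 / c + 1 / d) =
        100 * (b * c * d + a * c * d + a * b * d + a * b * c) / (a * b * (c * d)) := by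
      field_simp
    rw [hid]
    apply div_le_div_of_nonneg_right _ (by positivity)
    linarith

end Pool.Agent.Work.MP_90e0ad_ag.GR
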