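import Pool.Agent.Work.MP_90e0ad_ag.GR.QuotOrd

/-!
Module FermOrd (M): holomorphic differentials on the Fermat quartic. PROOF. Let N = a' c - a c'. At z0 let m = min(ord a, ord b, ord c), finite.
a = t^m a1, b = t^m b1, c = t^m c1 (t = z - z0). Then N = t^(2m) (a1' c1 - a1 c1'), a1^4 - b1^4 = c1^4 near z0 and
a1^3 (a1' c1 - a1 c1') = b1^3 (b1' c1 - b1 c1'). If b1(z0) is not 0 then N = t^(2m) b1^3 K with K = (a1' c1 - a1 c1')/b1^3. If b1(z0) = 0 then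
a1(z0) is not 0 (else c1(z0) = 0 also) and N = t^(2m) b1^3 K with K = (b1' c1 - b1 c1')/a1^3. In both cases N x = b^3 K x1 for x = a, b, c.
-/

set_option autoImplicit false

namespace Pool.Agent.Work.MP_90e0ad_ag.GR

open Filter Topology

private theorem fo_deriv {a a₁ : ℂ → ℂ} {z₀ : ℂ} {m : ℕ} (ha₁ : AnalyticAt ℂ a₁ z₀)
    (h : ∀ᶠ z in 𝓝 z₀, a z = (z - z₀) ^ m * a₁ z) :
    ∀ᶠ z in 𝓝 z₀, deriv a z = m * (z - z₀) ^ (m - 1) * a₁ z + (z - z₀) ^ m * deriv a₁ z := by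
  have h1 : deriv a =ᶠ[𝓝 z₀] deriv (fun z => (z - z₀) ^ m * a₁ z) := EventuallyEq.deriv h
  filter_upwards [h1, ha₁.eventually_analyticAt] with z hz1 hz2
  rw [hz1]
  have h2 : HasDerivAt (fun z : ℂ => (z - z₀) ^ m) (m * (z - z₀) ^ (m - 1)) z := by
    have := ((hasDerivAt_id' z).sub_const z₀).fun_pow m
    simpa using this
  exact (h2.mul hz2.differentiableAt.hasDerivAt).deriv

private theorem fo_wr {a c a₁ c₁ : ℂ → ℂ} {z₀ : ℂ} {m : ℕ} (ha₁ : AnalyticAt ℂ a₁ z₀)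
    (hc₁ : AnalyticAt ℂ c₁ z₀)
    (ha : ∀ᶠ z in 𝓝 z₀, a z = (z - z₀) ^ m * a₁ z)
    (hc : ∀ᶠ z in 𝓝 z₀, c z = (z - z₀) ^ m * c₁ z) :
    ∀ᶠ z in 𝓝 z₀, deriv a z * c z - a z * deriv c z =
      (z - z₀) ^ m * (z - z₀) ^ m * (deriv a₁ z * c₁ z - a₁ z * deriv c₁ z) := by
  filter_upwards [ha, hc, fo_deriv ha₁ ha, fo_deriv hc₁ hc] with z h1 h2 h3 h4
  rw [h1, h2, h3, h4]
  ring

private theorem fo_val {a₁ : ℂ → ℂ} {a : ℂ → ℂ} {z₀ : ℂ} {m : ℕ} (haz : AnalyticAt ℂ a z₀)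
    (ha₁ : AnalyticAt ℂ a₁ z₀)
    (ha : ∀ᶠ z in 𝓝 z₀, a z = (z - z₀) ^ m * a₁ z) (h0 : a₁ z₀ = 0) :
    ((m + 1 : ℕ) : ℕ∞) ≤ analyticOrderAt a z₀ := by
  have h1 : ((1 : ℕ) : ℕ∞) ≤ analyticOrderAt a₁ z₀ := by
    have := ha₁.analyticOrderAt_ne_zero.2 h0
    rw [Nat.cast_one]
    exact Order.one_le_iff_pos.2 (pos_iff_ne_zero.2 this)
  obtain ⟨g, hg, hge⟩ := (natCast_le_analyticOrderAt ha₁).1 h1
  refine (natCast_le_analyticOrderAt haz).2 ⟨g, hg, ?_⟩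
  filter_upwards [ha, hge] with z hz1 hz2
  rw [hz1, hz2, smul_eq_mul, smul_eq_mul, pow_one, pow_succ]
  ring

private theorem fo_fac {a b c : ℂ → ℂ} (ha : Differentiable ℂ a) (hb : Differentiable ℂ b)
    (hc : Differentiable ℂ c) (hb0 : ∃ z, b z ≠ 0) (z₀ : ℂ) :
    ∃ m : ℕ, ∃ a₁ b₁ c₁ : ℂ → ℂ, AnalyticAt ℂ a₁ z₀ ∧ AnalyticAt ℂ b₁ z₀ ∧ AnalyticAt ℂ c₁ z₀ ∧
      (∀ᶠ z in 𝓝 z₀, a z = (z - z₀) ^ m * a₁ z) ∧ (∀ᶠ z in 𝓝 z₀, b z = (z - z₀) ^ m * b₁ z) ∧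
      (∀ᶠ z in 𝓝 z₀, c z = (z - z₀) ^ m * c₁ z) ∧ ¬ (a₁ z₀ = 0 ∧ b₁ z₀ = 0 ∧ c₁ z₀ = 0) := by
  have haz := ha.analyticAt z₀
  have hbz := hb.analyticAt z₀
  have hcz := hc.analyticAt z₀
  have hfin : analyticOrderAt b z₀ ≠ ⊤ := by
    intro htop
    have hb' : AnalyticOnNhd ℂ b Set.univ := fun z _ => hb.analyticAt z
    rw [analyticOrderAt_eq_top] at htop
    obtain ⟨z₁, hz₁⟩ := hb0
    have := hb'.eqOn_zero_of_preconnected_of_eventuallyEq_zero isPreconnected_univ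
      (Set.mem_univ z₀) htop
    exact hz₁ (this (Set.mem_univ z₁))
  set M : ℕ∞ := min (analyticOrderAt a z₀) (min (analyticOrderAt b z₀) (analyticOrderAt c z₀))
    with hM
  have hMtop : M ≠ ⊤ := ne_top_of_le_ne_top hfin (le_trans (min_le_right _ _) (min_le_left _ _))
  obtain ⟨m, hm⟩ := ENat.ne_top_iff_exists.1 hMtop
  have hma : (m : ℕ∞) ≤ analyticOrderAt a z₀ := by rw [hm]; exact min_le_left _ _
  have hmb : (m : ℕ∞) ≤ analyticOrderAt b z₀ := by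
    rw [hm]; exact le_trans (min_le_right _ _) (min_le_left _ _)
  have hmc : (m : ℕ∞) ≤ analyticOrderAt c z₀ := by
    rw [hm]; exact le_trans (min_le_right _ _) (min_le_right _ _)
  obtain ⟨a₁, ha₁, hae⟩ := (natCast_le_analyticOrderAt haz).1 hma
  obtain ⟨b₁, hb₁, hbe⟩ := (natCast_le_analyticOrderAt hbz).1 hmb
  obtain ⟨c₁, hc₁, hce⟩ := (natCast_le_analyticOrderAt hcz).1 hmc
  simp only [smul_eq_mul] at hae hbe hce
  refine ⟨m, a₁, b₁, c₁, ha₁, hb₁, hc₁, hae, hbe, hce, ?_⟩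
  rintro ⟨h1, h2, h3⟩
  have h4 : ((m + 1 : ℕ) : ℕ∞) ≤ M :=
    le_min (fo_val haz ha₁ hae h1) (le_min (fo_val hbz hb₁ hbe h2) (fo_val hcz hc₁ hce h3))
  rw [← hm] at h4
  have h5 : m + 1 ≤ m := by exact_mod_cast h4
  omega

private theorem fo_key {a b c : ℂ → ℂ} (ha : Differentiable ℂ a) (hb : Differentiable ℂ b)
    (hc : Differentiable ℂ c) (hb0 : ∃ z, b z ≠ 0)
    (h : ∀ z, a z ^ 4 - b z ^ 4 = c z ^ 4) (z₀ : ℂ) :
    ∃ Ka Kb Kc : ℂ → ℂ, AnalyticAt ℂ Ka z₀ ∧ AnalyticAt ℂ Kb z₀ ∧ AnalyticAt ℂ Kc z₀ ∧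
      (∀ᶠ z in 𝓝 z₀, (deriv a z * c z - a z * deriv c z) * a z = b z ^ 3 * Ka z) ∧
      (∀ᶠ z in 𝓝 z₀, (deriv a z * c z - a z * deriv c z) * b z = b z ^ 3 * Kb z) ∧
      (∀ᶠ z in 𝓝 z₀, (deriv a z * c z - a z * deriv c z) * c z = b z ^ 3 * Kc z) := by
  obtain ⟨m, a₁, b₁, c₁, ha₁, hb₁, hc₁, hae, hbe, hce, hne⟩ := fo_fac ha hb hc hb0 z₀
  -- the reduced equation
  have hred : ∀ᶠ z in 𝓝 z₀, a₁ z ^ 4 - b₁ z ^ 4 = c₁ z ^ 4 := by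
    have hL : AnalyticAt ℂ (fun z => a₁ z ^ 4 - b₁ z ^ 4) z₀ := (ha₁.fun_pow 4).fun_sub (hb₁.fun_pow 4)
    have hR : AnalyticAt ℂ (fun z => c₁ z ^ 4) z₀ := hc₁.fun_pow 4
    refine (hL.frequently_eq_iff_eventually_eq hR).1 (Eventually.frequently ?_)
    filter_upwards [hae.filter_mono nhdsWithin_le_nhds, hbe.filter_mono nhdsWithin_le_nhds,
      hce.filter_mono nhdsWithin_le_nhds, self_mem_nhdsWithin] with z h1 h2 h3 h4
    have ht : (z - z₀) ^ m ≠ 0 := pow_ne_zero _ (sub_ne_zero.2 h4)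
    have h5 := h z
    rw [h1, h2, h3] at h5
    have ht4 : ((z - z₀) ^ m) ^ 4 ≠ 0 := pow_ne_zero _ ht
    apply mul_left_cancel₀ ht4
    linear_combination h5
  have hred0 : a₁ z₀ ^ 4 - b₁ z₀ ^ 4 = c₁ z₀ ^ 4 := hred.self_of_nhds
  have hdred : ∀ᶠ z in 𝓝 z₀, a₁ z ^ 3 * (deriv a₁ z * c₁ z - a₁ z * deriv c₁ z) =
      b₁ z ^ 3 * (deriv b₁ z * c₁ z - b₁ z * deriv c₁ z) := by
    have h1 : deriv (fun z => a₁ z ^ 4 - b₁ z ^ 4) =ᶠ[𝓝 z₀] deriv (fun z => c₁ z ^ 4) :=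
      EventuallyEq.deriv hred
    filter_upwards [h1, hred, ha₁.eventually_analyticAt, hb₁.eventually_analyticAt,
      hc₁.eventually_analyticAt] with z h2 h3 h4 h5 h6
    have h7 : HasDerivAt (fun z => a₁ z ^ 4 - b₁ z ^ 4)
        (4 * a₁ z ^ 3 * deriv a₁ z - 4 * b₁ z ^ 3 * deriv b₁ z) z := by
      have := (h4.differentiableAt.hasDerivAt.fun_pow 4).fun_sub
        (h5.differentiableAt.hasDerivAt.fun_pow 4)
      simpa using this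
    have h8 : HasDerivAt (fun z => c₁ z ^ 4) (4 * c₁ z ^ 3 * deriv c₁ z) z := by
      have := h6.differentiableAt.hasDerivAt.fun_pow 4
      simpa using this
    rw [h7.deriv, h8.deriv] at h2
    linear_combination (c₁ z / 4) * h2 - deriv c₁ z * h3
  -- the cofactor
  obtain ⟨K, hK, hKe⟩ : ∃ K : ℂ → ℂ, AnalyticAt ℂ K z₀ ∧
      ∀ᶠ z in 𝓝 z₀, deriv a₁ z * c₁ z - a₁ z * deriv c₁ z = b₁ z ^ 3 * K z := by
    by_cases hb1 : b₁ z₀ = 0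
    · have ha1 : a₁ z₀ ≠ 0 := by
        intro ha1
        rw [ha1, hb1] at hred0
        have : c₁ z₀ = 0 := by
          have h9 : c₁ z₀ ^ 4 = 0 := by rw [← hred0]; ring
          exact (pow_eq_zero_iff (by norm_num)).1 h9
        exact hne ⟨ha1, hb1, this⟩
      refine ⟨fun z => (deriv b₁ z * c₁ z - b₁ z * deriv c₁ z) / a₁ z ^ 3, ?_, ?_⟩
      · exact ((hb₁.deriv.fun_mul hc₁).fun_sub (hb₁.fun_mul hc₁.deriv)).fun_div (ha₁.fun_pow 3)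
          (pow_ne_zero _ ha1)
      · filter_upwards [hdred, ha₁.continuousAt.eventually_ne ha1] with z h1 h2
        field_simp
        linear_combination h1
    · refine ⟨fun z => (deriv a₁ z * c₁ z - a₁ z * deriv c₁ z) / b₁ z ^ 3, ?_, ?_⟩
      · exact ((ha₁.deriv.fun_mul hc₁).fun_sub (ha₁.fun_mul hc₁.deriv)).fun_div (hb₁.fun_pow 3)
          (pow_ne_zero _ hb1)
      · filter_upwards [hb₁.continuousAt.eventually_ne hb1] with z h2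
        field_simp
  have hN := fo_wr ha₁ hc₁ hae hce
  refine ⟨fun z => K z * a₁ z, fun z => K z * b₁ z, fun z => K z * c₁ z,
    hK.fun_mul ha₁, hK.fun_mul hb₁, hK.fun_mul hc₁, ?_, ?_, ?_⟩
  · filter_upwards [hN, hKe, hae, hbe] with z h1 h2 h3 h4
    rw [h1, h2, h3, h4]
    ring
  · filter_upwards [hN, hKe, hbe] with z h1 h2 h4
    rw [h1, h2, h4]
    ring
  · filter_upwards [hN, hKe, hce, hbe] with z h1 h2 h3 h4
    rw [h1, h2, h3, h4]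
    ring

private theorem fo_quot {N x b : ℂ → ℂ} (hNx : Differentiable ℂ fun z => N z * x z)
    (hb : Differentiable ℂ b) (hb0 : ∃ z, b z ≠ 0)
    (h : ∀ z₀, ∃ K : ℂ → ℂ, AnalyticAt ℂ K z₀ ∧ ∀ᶠ z in 𝓝 z₀, N z * x z = b z ^ 3 * K z) :
    ∃ H : ℂ → ℂ, Differentiable ℂ H ∧ ∀ z, N z * x z = H z * b z ^ 3 := by
  have hb3 : Differentiable ℂ fun z => b z ^ 3 := hb.fun_pow 3
  refine quotOrd hNx hb3 ?_ ?_
  · obtain ⟨z, hz⟩ := hb0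
    exact ⟨z, pow_ne_zero _ hz⟩
  · intro z₀
    obtain ⟨K, hK, hKe⟩ := h z₀
    have h1 : analyticOrderAt (fun z => N z * x z) z₀ =
        analyticOrderAt ((fun z => b z ^ 3) * K) z₀ := analyticOrderAt_congr hKe
    rw [h1, analyticOrderAt_mul (hb3.analyticAt z₀) hK]
    exact le_self_add

theorem fermOrd {a b c : ℂ → ℂ} (ha : Differentiable ℂ a) (hb : Differentiable ℂ b)
    (hc : Differentiable ℂ c) (hb0 : ∃ z, b z ≠ 0) (hc0 : ∃ z, c z ≠ 0)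
    (h : ∀ z, a z ^ 4 - b z ^ 4 = c z ^ 4) :
    ∃ H₀ H₁ H₂ : ℂ → ℂ, Differentiable ℂ H₀ ∧ Differentiable ℂ H₁ ∧ Differentiable ℂ H₂ ∧
      (∀ z, (deriv a z * c z - a z * deriv c z) * c z = H₀ z * b z ^ 3) ∧
      (∀ z, (deriv a z * c z - a z * deriv c z) * a z = H₁ z * b z ^ 3) ∧
      (∀ z, (deriv a z * c z - a z * deriv c z) * b z = H₂ z * b z ^ 3) := by
  have hda : Differentiable ℂ (deriv a) := fun z => (ha.analyticAt z).deriv.differentiableAt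
  have hdc : Differentiable ℂ (deriv c) := fun z => (hc.analyticAt z).deriv.differentiableAt
  have hN : Differentiable ℂ fun z => deriv a z * c z - a z * deriv c z :=
    (hda.fun_mul hc).fun_sub (ha.fun_mul hdc)
  have hkey := fo_key ha hb hc hb0 h
  obtain ⟨H₀, hH₀, h0⟩ := fo_quot (N := fun z => deriv a z * c z - a z * deriv c z) (x := c)
    (hN.fun_mul hc) hb hb0 (fun z₀ => by
      obtain ⟨Ka, Kb, Kc, _, _, h3, _, _, h6⟩ := hkey z₀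
      exact ⟨Kc, h3, h6⟩)
  obtain ⟨H₁, hH₁, h1⟩ := fo_quot (N := fun z => deriv a z * c z - a z * deriv c z) (x := a)
    (hN.fun_mul ha) hb hb0 (fun z₀ => by
      obtain ⟨Ka, Kb, Kc, h1, _, _, h4, _, _⟩ := hkey z₀
      exact ⟨Ka, h1, h4⟩)
  obtain ⟨H₂, hH₂, h2⟩ := fo_quot (N := fun z => deriv a z * c z - a z * deriv c z) (x := b)
    (hN.fun_mul hb) hb hb0 (fun z₀ => by
      obtain ⟨Ka, Kb, Kc, _, h2, _, _, h5, _⟩ := hkey z₀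
      exact ⟨Kb, h2, h5⟩)
  exact ⟨H₀, H₁, H₂, hH₀, hH₁, hH₂, h0, h1, h2⟩

end Pool.Agent.Work.MP_90e0ad_ag.GR
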