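import Pool.Agent.Work.MP_90e0ad_ag.GR.Defs

/-!
Module Norm (S-M): normal forms and closure properties of the two classes.
PROOFS. ordNorm: given rho < 1, C take rho' = max rho (1/2), C' = max C 0 (note 1 + |z| >= 1, so
C (1+|z|)^rho <= C' (1+|z|)^rho'). finNorm: the same with rho' = max rho 1.
Sum: |f+g| <= 2 exp(C (1+|z|)^rho) <= exp((C+1)(1+|z|)^rho). Product: add the C. Constant c: C = |c|.
Derivative: Cauchy estimate on the circle |w - z| = 1: |f'(z)| <= exp(C (2+|z|)^rho) <=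
exp(C 2^rho (1+|z|)^rho) for rho >= 0. Translation f(z + c): 1 + |z+c| <= (1+|c|)(1+|z|).
Polynomials (in OrdLT1): |P(z)| <= A (1+|z|)^n <= exp(C (1+|z|)^(1/2)) (Real.log_le_rpow_div or
Real.exp lower bounds), or by induction from z itself and closure.
-/

set_option autoImplicit false

noncomputable section

namespace Pool.Agent.Work.MP_90e0ad_ag.GR

private theorem x1 (z : ℂ) : (1 : ℝ) ≤ 1 + ‖z‖ := by
  have := norm_nonneg z
  linarith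

private theorem bnd (z : ℂ) {ρ ρ' C C' : ℝ} (hρ : ρ ≤ ρ') (hC : C ≤ C') (hC' : 0 ≤ C') :
    Real.exp (C * (1 + ‖z‖) ^ ρ) ≤ Real.exp (C' * (1 + ‖z‖) ^ ρ') := by
  apply Real.exp_le_exp.2
  have h0 : (0 : ℝ) ≤ (1 + ‖z‖) ^ ρ := Real.rpow_nonneg (by have := x1 z; linarith) _
  calc C * (1 + ‖z‖) ^ ρ ≤ C' * (1 + ‖z‖) ^ ρ := mul_le_mul_of_nonneg_right hC h0
    _ ≤ C' * (1 + ‖z‖) ^ ρ' :=
      mul_le_mul_of_nonneg_left (Real.rpow_le_rpow_of_exponent_le (x1 z) hρ) hC'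

private theorem addB {f g : ℂ → ℂ} {ρ C D : ℝ} (hρ : 0 ≤ ρ) (hC : 0 ≤ C) (hD : 0 ≤ D)
    (hf : ∀ z, ‖f z‖ ≤ Real.exp (C * (1 + ‖z‖) ^ ρ))
    (hg : ∀ z, ‖g z‖ ≤ Real.exp (D * (1 + ‖z‖) ^ ρ)) (z : ℂ) :
    ‖f z + g z‖ ≤ Real.exp ((C + D + 1) * (1 + ‖z‖) ^ ρ) := by
  have h1 : (1 : ℝ) ≤ (1 + ‖z‖) ^ ρ := Real.one_le_rpow (x1 z) hρ
  have h2 : Real.exp (C * (1 + ‖z‖) ^ ρ) ≤ Real.exp ((C + D) * (1 + ‖z‖) ^ ρ) :=
    bnd z le_rfl (by linarith) (by linarith)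
  have h3 : Real.exp (D * (1 + ‖z‖) ^ ρ) ≤ Real.exp ((C + D) * (1 + ‖z‖) ^ ρ) :=
    bnd z le_rfl (by linarith) (by linarith)
  have h4 : (2 : ℝ) ≤ Real.exp (1 * (1 + ‖z‖) ^ ρ) := by
    have h5 := Real.add_one_le_exp (1 * (1 + ‖z‖) ^ ρ)
    linarith
  have h5 : Real.exp ((C + D + 1) * (1 + ‖z‖) ^ ρ) =
      Real.exp (1 * (1 + ‖z‖) ^ ρ) * Real.exp ((C + D) * (1 + ‖z‖) ^ ρ) := by
    rw [← Real.exp_add]
    congr 1
    ring
  have h6 : 0 ≤ Real.exp ((C + D) * (1 + ‖z‖) ^ ρ) := (Real.exp_pos _).le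
  calc ‖f z + g z‖ ≤ ‖f z‖ + ‖g z‖ := norm_add_le _ _
    _ ≤ 2 * Real.exp ((C + D) * (1 + ‖z‖) ^ ρ) := by
        have := hf z
        have := hg z
        linarith
    _ ≤ Real.exp ((C + D + 1) * (1 + ‖z‖) ^ ρ) := by
        rw [h5]
        exact mul_le_mul_of_nonneg_right h4 h6

private theorem mulB {f g : ℂ → ℂ} {ρ C D : ℝ}
    (hf : ∀ z, ‖f z‖ ≤ Real.exp (C * (1 + ‖z‖) ^ ρ))
    (hg : ∀ z, ‖g z‖ ≤ Real.exp (D * (1 + ‖z‖) ^ ρ)) (z : ℂ) :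
    ‖f z * g z‖ ≤ Real.exp ((C + D) * (1 + ‖z‖) ^ ρ) := by
  rw [norm_mul, add_mul, Real.exp_add]
  exact mul_le_mul (hf z) (hg z) (norm_nonneg _) (Real.exp_pos _).le

private theorem constB (c z : ℂ) {ρ : ℝ} (hρ : 0 ≤ ρ) : ‖c‖ ≤ Real.exp (‖c‖ * (1 + ‖z‖) ^ ρ) := by
  have h1 : (1 : ℝ) ≤ (1 + ‖z‖) ^ ρ := Real.one_le_rpow (x1 z) hρ
  have h2 := Real.add_one_le_exp (‖c‖ * (1 + ‖z‖) ^ ρ)
  have h3 : ‖c‖ * 1 ≤ ‖c‖ * (1 + ‖z‖) ^ ρ := mul_le_mul_of_nonneg_left h1 (norm_nonneg _)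
  linarith

theorem ordNorm {f : ℂ → ℂ} (hf : f ∈ OrdLT1) : ∃ ρ C : ℝ, 0 < ρ ∧ ρ < 1 ∧ 0 ≤ C ∧
    ∀ z, ‖f z‖ ≤ Real.exp (C * (1 + ‖z‖) ^ ρ) := by
  obtain ⟨-, ρ, C, hρ, h⟩ := hf
  refine ⟨max ρ (1 / 2), max C 0, lt_max_of_lt_right (by norm_num), max_lt hρ (by norm_num),
    le_max_right _ _, fun z => (h z).trans (bnd z (le_max_left _ _) (le_max_left _ _)
      (le_max_right _ _))⟩

theorem finNorm {f : ℂ → ℂ} (hf : f ∈ FinOrd) : ∃ ρ C : ℝ, 1 ≤ ρ ∧ 0 ≤ C ∧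
    ∀ z, ‖f z‖ ≤ Real.exp (C * (1 + ‖z‖) ^ ρ) := by
  obtain ⟨-, ρ, C, h⟩ := hf
  exact ⟨max ρ 1, max C 0, le_max_right _ _, le_max_right _ _,
    fun z => (h z).trans (bnd z (le_max_left _ _) (le_max_left _ _) (le_max_right _ _))⟩

/-- a common pair for finitely many functions -/
theorem ordNormL (F : List (ℂ → ℂ)) (hF : ∀ f ∈ F, f ∈ OrdLT1) : ∃ ρ C : ℝ, 0 < ρ ∧ ρ < 1 ∧ 0 ≤ C ∧
    ∀ f ∈ F, ∀ z, ‖f z‖ ≤ Real.exp (C * (1 + ‖z‖) ^ ρ) := by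
  induction F with
  | nil => exact ⟨1 / 2, 0, by norm_num, by norm_num, le_rfl, fun f hf => absurd hf List.not_mem_nil⟩
  | cons g F ih =>
    obtain ⟨ρ, C, h0, h1, hC, h⟩ := ih fun f hf => hF f (List.mem_cons_of_mem _ hf)
    obtain ⟨ρ', C', h0', h1', hC', h'⟩ := ordNorm (hF g List.mem_cons_self)
    refine ⟨max ρ ρ', max C C', lt_max_of_lt_left h0, max_lt h1 h1', le_max_of_le_left hC,
      fun f hf z => ?_⟩
    rcases List.mem_cons.1 hf with rfl | hf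
    · exact (h' z).trans (bnd z (le_max_right _ _) (le_max_right _ _) (le_max_of_le_left hC))
    · exact (h f hf z).trans (bnd z (le_max_left _ _) (le_max_left _ _) (le_max_of_le_left hC))

theorem finNormL (F : List (ℂ → ℂ)) (hF : ∀ f ∈ F, f ∈ FinOrd) : ∃ ρ C : ℝ, 1 ≤ ρ ∧ 0 ≤ C ∧
    ∀ f ∈ F, ∀ z, ‖f z‖ ≤ Real.exp (C * (1 + ‖z‖) ^ ρ) := by
  induction F with
  | nil => exact ⟨1, 0, le_rfl, le_rfl, fun f hf => absurd hf List.not_mem_nil⟩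
  | cons g F ih =>
    obtain ⟨ρ, C, h0, hC, h⟩ := ih fun f hf => hF f (List.mem_cons_of_mem _ hf)
    obtain ⟨ρ', C', h0', hC', h'⟩ := finNorm (hF g List.mem_cons_self)
    refine ⟨max ρ ρ', max C C', le_max_of_le_left h0, le_max_of_le_left hC,
      fun f hf z => ?_⟩
    rcases List.mem_cons.1 hf with rfl | hf
    · exact (h' z).trans (bnd z (le_max_right _ _) (le_max_right _ _) (le_max_of_le_left hC))
    · exact (h f hf z).trans (bnd z (le_max_left _ _) (le_max_left _ _) (le_max_of_le_left hC))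

theorem ord_sub_fin : OrdLT1 ⊆ FinOrd := by
  rintro f ⟨hd, ρ, C, -, h⟩
  exact ⟨hd, ρ, C, h⟩

theorem ord_const (c : ℂ) : (fun _ => c) ∈ OrdLT1 :=
  ⟨differentiable_const c, 0, ‖c‖, one_pos, fun z => constB c z le_rfl⟩

theorem ord_id : (fun z => z) ∈ OrdLT1 := by
  refine ⟨differentiable_id, 1 / 2, 2, by norm_num, fun z => ?_⟩
  have h0 : (0 : ℝ) ≤ 1 + ‖z‖ := by
    have := x1 z
    linarith
  have h1 : ((1 + ‖z‖) ^ (1 / 2 : ℝ)) ^ 2 = 1 + ‖z‖ := by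
    rw [← Real.rpow_natCast, ← Real.rpow_mul h0]
    norm_num
  have h2 : (0 : ℝ) ≤ (1 + ‖z‖) ^ (1 / 2 : ℝ) := Real.rpow_nonneg h0 _
  have h3 := Real.add_one_le_exp ((1 + ‖z‖) ^ (1 / 2 : ℝ))
  have h4 : Real.exp (2 * (1 + ‖z‖) ^ (1 / 2 : ℝ)) = Real.exp ((1 + ‖z‖) ^ (1 / 2 : ℝ)) ^ 2 := by
    rw [← Real.exp_nat_mul]
    norm_num
  rw [h4]
  have h5 := norm_nonneg z
  nlinarith

theorem ord_add {f g : ℂ → ℂ} (hf : f ∈ OrdLT1) (hg : g ∈ OrdLT1) :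
    (fun z => f z + g z) ∈ OrdLT1 := by
  obtain ⟨ρ, C, h0, h1, hC, h⟩ := ordNormL [f, g] (by
    intro x hx
    rcases List.mem_cons.1 hx with rfl | hx
    · exact hf
    · rw [List.mem_singleton.1 hx]
      exact hg)
  exact ⟨hf.1.add hg.1, ρ, C + C + 1, h1, addB h0.le hC hC (h f List.mem_cons_self)
    (h g (List.mem_cons_of_mem _ List.mem_cons_self))⟩

theorem ord_mul {f g : ℂ → ℂ} (hf : f ∈ OrdLT1) (hg : g ∈ OrdLT1) :
    (fun z => f z * g z) ∈ OrdLT1 := by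
  obtain ⟨ρ, C, h0, h1, hC, h⟩ := ordNormL [f, g] (by
    intro x hx
    rcases List.mem_cons.1 hx with rfl | hx
    · exact hf
    · rw [List.mem_singleton.1 hx]
      exact hg)
  exact ⟨hf.1.mul hg.1, ρ, C + C, h1, mulB (h f List.mem_cons_self)
    (h g (List.mem_cons_of_mem _ List.mem_cons_self))⟩

/-- a bound after a change of the argument -/
private theorem chgB {ρ C K : ℝ} (hρ : 0 ≤ ρ) (hC : 0 ≤ C) (hK : 0 ≤ K) {z w : ℂ}
    (h : 1 + ‖w‖ ≤ K * (1 + ‖z‖)) :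
    Real.exp (C * (1 + ‖w‖) ^ ρ) ≤ Real.exp ((C * K ^ ρ) * (1 + ‖z‖) ^ ρ) := by
  apply Real.exp_le_exp.2
  have h0 : (0 : ℝ) ≤ 1 + ‖z‖ := by
    have := x1 z
    linarith
  have h0' : (0 : ℝ) ≤ 1 + ‖w‖ := by
    have := x1 w
    linarith
  rw [mul_assoc, ← Real.mul_rpow hK h0]
  exact mul_le_mul_of_nonneg_left (Real.rpow_le_rpow h0' h hρ) hC

theorem ord_deriv {f : ℂ → ℂ} (hf : f ∈ OrdLT1) : deriv f ∈ OrdLT1 := by
  obtain ⟨ρ, C, h0, h1, hC, h⟩ := ordNorm hf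
  have hd := hf.1
  refine ⟨?_, ρ, C * 2 ^ ρ, h1, fun z => ?_⟩
  · exact differentiableOn_univ.1 ((differentiableOn_univ.2 hd).deriv isOpen_univ)
  · have h2 : ∀ w ∈ Metric.sphere z 1, ‖f w‖ ≤ Real.exp ((C * 2 ^ ρ) * (1 + ‖z‖) ^ ρ) := by
      intro w hw
      refine (h w).trans (chgB h0.le hC (by norm_num) ?_)
      have h3 : ‖w - z‖ = 1 := by
        rw [← dist_eq_norm]
        exact hw
      have h4 : ‖w‖ ≤ ‖w - z‖ + ‖z‖ := by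
        have := norm_add_le (w - z) z
        rwa [sub_add_cancel] at this
      have h5 := norm_nonneg z
      linarith
    have h3 := Complex.norm_deriv_le_of_forall_mem_sphere_norm_le (c := z) (R := 1) one_pos
      hd.diffContOnCl h2
    rw [div_one] at h3
    exact h3

theorem ord_trans {f : ℂ → ℂ} (hf : f ∈ OrdLT1) (c : ℂ) : (fun z => f (z + c)) ∈ OrdLT1 := by
  obtain ⟨ρ, C, h0, h1, hC, h⟩ := ordNorm hf
  refine ⟨hf.1.comp (differentiable_id.add_const c), ρ, C * (1 + ‖c‖) ^ ρ, h1, fun z => ?_⟩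
  refine (h (z + c)).trans (chgB h0.le hC (by have := norm_nonneg c; linarith) ?_)
  have h2 := norm_add_le z c
  have h3 := norm_nonneg z
  have h4 := norm_nonneg c
  nlinarith

theorem fin_const (c : ℂ) : (fun _ => c) ∈ FinOrd := ord_sub_fin (ord_const c)

theorem fin_add {f g : ℂ → ℂ} (hf : f ∈ FinOrd) (hg : g ∈ FinOrd) :
    (fun z => f z + g z) ∈ FinOrd := by
  obtain ⟨ρ, C, h0, hC, h⟩ := finNormL [f, g] (by
    intro x hx
    rcases List.mem_cons.1 hx with rfl | hx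
    · exact hf
    · rw [List.mem_singleton.1 hx]
      exact hg)
  exact ⟨hf.1.add hg.1, ρ, C + C + 1, addB (by linarith) hC hC (h f List.mem_cons_self)
    (h g (List.mem_cons_of_mem _ List.mem_cons_self))⟩

theorem fin_mul {f g : ℂ → ℂ} (hf : f ∈ FinOrd) (hg : g ∈ FinOrd) :
    (fun z => f z * g z) ∈ FinOrd := by
  obtain ⟨ρ, C, h0, hC, h⟩ := finNormL [f, g] (by
    intro x hx
    rcases List.mem_cons.1 hx with rfl | hx
    · exact hf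
    · rw [List.mem_singleton.1 hx]
      exact hg)
  exact ⟨hf.1.mul hg.1, ρ, C + C, mulB (h f List.mem_cons_self)
    (h g (List.mem_cons_of_mem _ List.mem_cons_self))⟩

end Pool.Agent.Work.MP_90e0ad_ag.GR
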