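import Pool.Agent.Work.MP_90e0ad_ag.GR.Ld
import Pool.Agent.Work.MP_90e0ad_ag.GR.Norm

/-!
Module LdC (S-M): centred versions of Ld for the two classes. PROOF. Apply ld to the translates
z |-> f(z + c) (growth: ord_trans / 1 + |z + c| <= (1+|c|)(1+|z|); deriv of a translate: deriv_comp_add_const).
ldOrd: with rho < 1 from ordNormL choose eps = (1-rho)/2, so rho - 1 + eps = -(1-rho)/2 = -delta.
ldFin: with rho from finNormL take eps = 1 and a natural number M >= rho (r >= 1).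
-/

set_option autoImplicit false

namespace Pool.Agent.Work.MP_90e0ad_ag.GR

private theorem ldc_gen (F : List (ℂ → ℂ)) {ρ C : ℝ} (hρ : 0 < ρ) (hC : 0 ≤ C)
    (hd : ∀ f ∈ F, Differentiable ℂ f)
    (hF : ∀ f ∈ F, ∀ z, ‖f z‖ ≤ Real.exp (C * (1 + ‖z‖) ^ ρ)) {ε : ℝ} (hε : 0 < ε)
    (c : ℂ) (hc : ∀ f ∈ F, f c ≠ 0) (R₀ : ℝ) :
    ∃ r : ℝ, R₀ ≤ r ∧ 1 ≤ r ∧
      ∀ f ∈ F, ∀ z, ‖z - c‖ = r → f z ≠ 0 ∧ ‖deriv f z‖ ≤ r ^ (ρ - 1 + ε) * ‖f z‖ := by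
  have h1 : ∀ g ∈ F.map (fun (f : ℂ → ℂ) (z : ℂ) => f (z + c)), Differentiable ℂ g ∧
      (∀ z, ‖g z‖ ≤ Real.exp (C * (1 + ‖c‖) ^ ρ * (1 + ‖z‖) ^ ρ)) ∧ g 0 ≠ 0 := by
    intro g hg
    obtain ⟨f, hf, rfl⟩ := List.mem_map.1 hg
    refine ⟨?_, ?_, ?_⟩
    · exact (hd f hf).comp (differentiable_id.add_const c)
    · intro z
      refine (hF f hf (z + c)).trans (Real.exp_le_exp.2 ?_)
      rw [mul_assoc, ← Real.mul_rpow (by positivity) (by positivity)]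
      refine mul_le_mul_of_nonneg_left (Real.rpow_le_rpow (by positivity) ?_ hρ.le) hC
      have h2 := norm_add_le z c
      nlinarith [norm_nonneg z, norm_nonneg c, mul_nonneg (norm_nonneg z) (norm_nonneg c)]
    · show f (0 + c) ≠ 0
      rw [zero_add]
      exact hc f hf
  obtain ⟨r, hr0, hr1, hr⟩ := ld (F.map fun (f : ℂ → ℂ) (z : ℂ) => f (z + c)) hρ h1 hε R₀
  refine ⟨r, hr0, hr1, fun f hf z hz => ?_⟩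
  have h2 := hr (fun z => f (z + c)) (List.mem_map.2 ⟨f, hf, rfl⟩) (z - c) hz
  rw [deriv_comp_add_const] at h2
  simp only [sub_add_cancel] at h2
  exact h2

theorem ldOrd (F : List (ℂ → ℂ)) (hF : ∀ f ∈ F, f ∈ OrdLT1) :
    ∃ δ : ℝ, 0 < δ ∧ ∀ c : ℂ, (∀ f ∈ F, f c ≠ 0) → ∀ R₀ : ℝ, ∃ r : ℝ, R₀ ≤ r ∧ 1 ≤ r ∧
      ∀ f ∈ F, ∀ z, ‖z - c‖ = r → f z ≠ 0 ∧ ‖deriv f z‖ ≤ r ^ (-δ) * ‖f z‖ := by
  obtain ⟨ρ, C, h0, h1, hC, hb⟩ := ordNormL F hF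
  refine ⟨(1 - ρ) / 2, by linarith, fun c hc R₀ => ?_⟩
  obtain ⟨r, hr0, hr1, hr⟩ := ldc_gen F h0 hC (fun f hf => (hF f hf).1) hb
    (ε := (1 - ρ) / 2) (by linarith) c hc R₀
  refine ⟨r, hr0, hr1, fun f hf z hz => ?_⟩
  have h2 := hr f hf z hz
  have h3 : ρ - 1 + (1 - ρ) / 2 = -((1 - ρ) / 2) := by ring
  rw [h3] at h2
  exact h2

theorem ldFin (F : List (ℂ → ℂ)) (hF : ∀ f ∈ F, f ∈ FinOrd) :
    ∃ M : ℕ, ∀ c : ℂ, (∀ f ∈ F, f c ≠ 0) → ∀ R₀ : ℝ, ∃ r : ℝ, R₀ ≤ r ∧ 1 ≤ r ∧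
      ∀ f ∈ F, ∀ z, ‖z - c‖ = r → f z ≠ 0 ∧ ‖deriv f z‖ ≤ r ^ M * ‖f z‖ := by
  obtain ⟨ρ, C, h0, hC, hb⟩ := finNormL F hF
  refine ⟨⌈ρ⌉₊, fun c hc R₀ => ?_⟩
  obtain ⟨r, hr0, hr1, hr⟩ := ldc_gen F (lt_of_lt_of_le one_pos h0) hC (fun f hf => (hF f hf).1)
    hb (ε := 1) one_pos c hc R₀
  refine ⟨r, hr0, hr1, fun f hf z hz => ?_⟩
  obtain ⟨h2, h3⟩ := hr f hf z hz
  refine ⟨h2, h3.trans ?_⟩
  refine mul_le_mul_of_nonneg_right ?_ (norm_nonneg _)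
  rw [← Real.rpow_natCast]
  refine Real.rpow_le_rpow_of_exponent_le hr1 ?_
  have h4 := Nat.le_ceil ρ
  linarith

end Pool.Agent.Work.MP_90e0ad_ag.GR
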