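import Mathlib

/-!
Module GrowP (M). PROOFS. growP: fix R >= 1 and apply Complex.borelCaratheodory on the ball of radius 2R to g
(bound of Re g: A = |C| (1+2R)^rho + 1): on |z| <= R, |g z| <= 2A R / R + 3 |g 0| <= C' R^rho for
large R (C' independent of R). By Cauchy's estimate (Complex.norm_iteratedDeriv_le_of_forall_mem_sphere_norm_le)
|g^(n)(0)| <= n! C' R^(rho - n) -> 0 for n > rho, so all Taylor coefficients with n > rho vanish, and
g(z) = sum_n g^(n)(0)/n! z^n (Complex.taylorSeries_eq_of_entire or hasSum_taylorSeries_of_entire) is a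
polynomial of degree <= floor rho.
circP: the same with Cauchy's estimates on the circles |z - c| = r: the derivatives of order > M at c vanish.
(P is the Taylor polynomial at c, composed with X - C c.)
circZ: by the maximum principle |h| <= eps on |z - c| <= r, for every eps.
-/

set_option autoImplicit false

namespace Pool.Agent.Work.MP_90e0ad_ag.GR

open Complex Metric Set in
private theorem polyOf {g : ℂ → ℂ} (hg : Differentiable ℂ g) (c : ℂ) (N : ℕ)
    (H : ∀ n, N < n → iteratedDeriv n g c = 0) :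
    ∃ P : Polynomial ℂ, P.natDegree ≤ N ∧ ∀ z, g z = P.eval z := by
  refine ⟨∑ n ∈ Finset.range (N + 1), Polynomial.C ((n.factorial : ℂ)⁻¹ * iteratedDeriv n g c) *
    (Polynomial.X - Polynomial.C c) ^ n, ?_, ?_⟩
  · apply Polynomial.natDegree_sum_le_of_forall_le
    intro n hn
    have hn' : n ≤ N := Nat.lt_succ_iff.1 (Finset.mem_range.1 hn)
    refine (Polynomial.natDegree_C_mul_le _ _).trans ?_
    refine (Polynomial.natDegree_pow_le).trans ?_
    rw [Polynomial.natDegree_X_sub_C, mul_one]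
    exact hn'
  · intro z
    have h1 := Complex.hasSum_taylorSeries_of_entire hg c z
    have h2 : HasSum (fun n : ℕ => (n.factorial : ℂ)⁻¹ • (z - c) ^ n • iteratedDeriv n g c)
        (∑ n ∈ Finset.range (N + 1), (n.factorial : ℂ)⁻¹ • (z - c) ^ n • iteratedDeriv n g c) := by
      apply hasSum_sum_of_ne_finset_zero
      intro n hn
      rw [H n (by simpa using hn)]
      simp
    rw [h1.unique h2, Polynomial.eval_finsetSum]
    apply Finset.sum_congr rfl
    intro n _
    simp only [Polynomial.eval_mul, Polynomial.eval_C, Polynomial.eval_pow, Polynomial.eval_sub,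
      Polynomial.eval_X, smul_eq_mul]
    ring

open Complex Metric Set Filter in
theorem growP {g : ℂ → ℂ} (hg : Differentiable ℂ g) {C ρ : ℝ} (hρ : 0 ≤ ρ)
    (h : ∀ z, (g z).re ≤ C * (1 + ‖z‖) ^ ρ) :
    ∃ P : Polynomial ℂ, (P.natDegree : ℝ) ≤ ρ ∧ ∀ z, g z = P.eval z := by
  have key : ∀ n, ⌊ρ⌋₊ < n → iteratedDeriv n g 0 = 0 := by
    intro n hn
    have hn' : ρ < n := (Nat.floor_lt hρ).1 hn
    set K : ℝ := 2 * |C| * 3 ^ ρ + 2 + 3 * ‖g 0‖ with hK
    have hb : ∀ R : ℝ, 1 ≤ R → ‖iteratedDeriv n g 0‖ ≤ n.factorial * K * R ^ (-(n - ρ)) := by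
      intro R hR
      have hR0 : 0 < R := by linarith
      have hM : 0 < |C| * (1 + 2 * R) ^ ρ + 1 := by positivity
      have hmaps : MapsTo g (ball 0 (2 * R)) {z | z.re ≤ |C| * (1 + 2 * R) ^ ρ + 1} := by
        intro z hz
        have hz1 : ‖z‖ ≤ 2 * R := (mem_ball_zero_iff.1 hz).le
        have h1 := h z
        have h2 : C * (1 + ‖z‖) ^ ρ ≤ |C| * (1 + ‖z‖) ^ ρ :=
          mul_le_mul_of_nonneg_right (le_abs_self C) (by positivity)
        have h3 : (1 + ‖z‖) ^ ρ ≤ (1 + 2 * R) ^ ρ :=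
          Real.rpow_le_rpow (by positivity) (by linarith) hρ
        have h4 : |C| * (1 + ‖z‖) ^ ρ ≤ |C| * (1 + 2 * R) ^ ρ :=
          mul_le_mul_of_nonneg_left h3 (abs_nonneg C)
        show (g z).re ≤ |C| * (1 + 2 * R) ^ ρ + 1
        linarith
      have hC : ∀ z ∈ sphere (0 : ℂ) R, ‖g z‖ ≤ K * R ^ ρ := by
        intro z hz
        have hz1 : ‖z‖ = R := by simpa using hz
        have h1 := borelCaratheodory hM (hg.differentiableOn) hmaps (by positivity)
          (mem_ball_zero_iff.2 (by rw [hz1]; linarith) : z ∈ ball (0 : ℂ) (2 * R))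
        rw [hz1] at h1
        have h2 : 2 * R - R = R := by ring
        have h3 : 2 * R + R = 3 * R := by ring
        rw [h2, h3] at h1
        have h4 : 2 * (|C| * (1 + 2 * R) ^ ρ + 1) * R / R = 2 * (|C| * (1 + 2 * R) ^ ρ + 1) := by
          field_simp
        have h5 : ‖g 0‖ * (3 * R) / R = 3 * ‖g 0‖ := by
          field_simp
        rw [h4, h5] at h1
        have h6 : (1 + 2 * R) ^ ρ ≤ 3 ^ ρ * R ^ ρ := by
          rw [← Real.mul_rpow (by norm_num) hR0.le]
          exact Real.rpow_le_rpow (by positivity) (by linarith) hρ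
        have h7 : |C| * (1 + 2 * R) ^ ρ ≤ |C| * (3 ^ ρ * R ^ ρ) :=
          mul_le_mul_of_nonneg_left h6 (abs_nonneg C)
        have h8 : 1 ≤ R ^ ρ := Real.one_le_rpow hR hρ
        have h9 : 0 ≤ ‖g 0‖ := norm_nonneg _
        calc ‖g z‖ ≤ 2 * (|C| * (1 + 2 * R) ^ ρ + 1) + 3 * ‖g 0‖ := h1
          _ ≤ 2 * |C| * 3 ^ ρ * R ^ ρ + 2 * R ^ ρ + 3 * ‖g 0‖ * R ^ ρ := by
              have h10 : 3 * ‖g 0‖ ≤ 3 * ‖g 0‖ * R ^ ρ := le_mul_of_one_le_right (by positivity) h8
              linarith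
          _ = K * R ^ ρ := by rw [hK]; ring
      have h11 := norm_iteratedDeriv_le_of_forall_mem_sphere_norm_le n hR0
        (hg.diffContOnCl (s := ball 0 R)) hC
      refine h11.trans (le_of_eq ?_)
      rw [neg_sub, Real.rpow_sub hR0, Real.rpow_natCast]
      ring
    have hlim : Tendsto (fun R : ℝ => n.factorial * K * R ^ (-((n : ℝ) - ρ))) atTop (nhds 0) := by
      have h1 := (tendsto_rpow_neg_atTop (by linarith : 0 < (n : ℝ) - ρ)).const_mul
        (n.factorial * K)
      rwa [mul_zero] at h1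
    have h2 : ‖iteratedDeriv n g 0‖ ≤ 0 :=
      ge_of_tendsto hlim ((eventually_ge_atTop 1).mono fun R hR => hb R hR)
    exact norm_le_zero_iff.1 h2
  obtain ⟨P, hP1, hP2⟩ := polyOf hg 0 ⌊ρ⌋₊ key
  exact ⟨P, (Nat.cast_le.2 hP1).trans (Nat.floor_le hρ), hP2⟩

open Complex Metric Set in
theorem circP {h : ℂ → ℂ} (hh : Differentiable ℂ h) (c : ℂ) (K : ℝ) (M : ℕ)
    (H : ∀ R₀ : ℝ, ∃ r : ℝ, R₀ ≤ r ∧ ∀ z, ‖z - c‖ = r → ‖h z‖ ≤ K * r ^ M) :
    ∃ P : Polynomial ℂ, ∀ z, h z = P.eval z := by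
  have key : ∀ n, M < n → iteratedDeriv n h c = 0 := by
    intro n hn
    by_contra hne
    have hpos : 0 < ‖iteratedDeriv n h c‖ := norm_pos_iff.2 hne
    obtain ⟨r, hr, hr2⟩ := H (max 1 (n.factorial * |K| / ‖iteratedDeriv n h c‖ + 1))
    have hr1 : 1 ≤ r := (le_max_left _ _).trans hr
    have hr3 : n.factorial * |K| / ‖iteratedDeriv n h c‖ + 1 ≤ r := (le_max_right _ _).trans hr
    have hr0 : 0 < r := by linarith
    have h1 := norm_iteratedDeriv_le_of_forall_mem_sphere_norm_le n hr0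
      (hh.diffContOnCl (s := ball c r)) (C := |K| * r ^ M) (by
        intro z hz
        have hz1 : ‖z - c‖ = r := by simpa [dist_eq_norm] using hz
        exact (hr2 z hz1).trans (mul_le_mul_of_nonneg_right (le_abs_self K) (by positivity)))
    rw [le_div_iff₀ (by positivity)] at h1
    have h2 : r ^ M * r ≤ r ^ n := by
      rw [← pow_succ]
      exact pow_le_pow_right₀ hr1 hn
    have h3 : ‖iteratedDeriv n h c‖ * (r ^ M * r) ≤ n.factorial * (|K| * r ^ M) :=
      (mul_le_mul_of_nonneg_left h2 hpos.le).trans h1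
    have h4 : 0 < r ^ M := by positivity
    have h5 : ‖iteratedDeriv n h c‖ * r ≤ n.factorial * |K| := by
      refine le_of_mul_le_mul_right ?_ h4
      calc ‖iteratedDeriv n h c‖ * r * r ^ M = ‖iteratedDeriv n h c‖ * (r ^ M * r) := by ring
        _ ≤ n.factorial * (|K| * r ^ M) := h3
        _ = n.factorial * |K| * r ^ M := by ring
    have h6 : n.factorial * |K| + ‖iteratedDeriv n h c‖ ≤ ‖iteratedDeriv n h c‖ * r := by
      calc n.factorial * |K| + ‖iteratedDeriv n h c‖
          = ‖iteratedDeriv n h c‖ * (n.factorial * |K| / ‖iteratedDeriv n h c‖ + 1) := by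
            field_simp
        _ ≤ ‖iteratedDeriv n h c‖ * r := mul_le_mul_of_nonneg_left hr3 hpos.le
    linarith
  obtain ⟨P, _, hP2⟩ := polyOf hh c M key
  exact ⟨P, hP2⟩

open Complex Metric Set in
theorem circZ {h : ℂ → ℂ} (hh : Differentiable ℂ h) (c : ℂ)
    (H : ∀ ε : ℝ, 0 < ε → ∀ R₀ : ℝ, ∃ r : ℝ, R₀ ≤ r ∧ ∀ z, ‖z - c‖ = r → ‖h z‖ ≤ ε) :
    ∀ z, h z = 0 := by
  intro z
  have h1 : ‖h z‖ ≤ 0 := by
    apply le_of_forall_pos_le_add
    intro ε hε
    rw [zero_add]
    obtain ⟨r, hr, hr2⟩ := H ε hε (‖z - c‖ + 1)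
    have hr0 : 0 < r := by linarith [norm_nonneg (z - c)]
    apply norm_le_of_forall_mem_frontier_norm_le (isBounded_ball (x := c) (r := r))
      (hh.diffContOnCl (s := ball c r))
    · intro w hw
      rw [frontier_ball c hr0.ne'] at hw
      exact hr2 w (by simpa [dist_eq_norm] using hw)
    · apply subset_closure
      rw [mem_ball, dist_eq_norm]
      linarith
  exact norm_le_zero_iff.1 h1

end Pool.Agent.Work.MP_90e0ad_ag.GR
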