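import Pool.Agent.Work.MP_90e0ad_ag.GR.Norm
import Pool.Agent.Work.MP_90e0ad_ag.GR.GrowP
import Pool.Agent.Work.MP_e97a4d_nt.Picard

/-!
Module Zf (S-M): functions without zeros. PROOFS. By Picard.exists_log f = exp g, Re g = log |f| <= C (1+|z|)^rho, so g is a
polynomial P with natDegree <= rho (growP). For rho < 1 the degree is 0, so f is constant. surj: if f omits the
value a then f - a has no zeros, so it is constant. dom: the ring of entire functions is a domain: if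
f z g z = 0 for all z and f z0 is not 0, then g vanishes near z0, hence everywhere (identity theorem,
AnalyticOnNhd.eq_of_eventuallyEq). bddConst is Liouville for values in a bounded set.
-/

set_option autoImplicit false

noncomputable section

namespace Pool.Agent.Work.MP_90e0ad_ag.GR

private theorem zf_log {f : ℂ → ℂ} (hf : Differentiable ℂ f) (h0 : ∀ z, f z ≠ 0) {ρ C : ℝ}
    (hρ : 0 ≤ ρ) (hC : ∀ z, ‖f z‖ ≤ Real.exp (C * (1 + ‖z‖) ^ ρ)) :
    ∃ P : Polynomial ℂ, (P.natDegree : ℝ) ≤ ρ ∧ ∀ z, f z = Complex.exp (P.eval z) := by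
  obtain ⟨g, hg, hfg⟩ := Pool.Agent.Work.MP_e97a4d_nt.Picard.exists_log f hf h0
  obtain ⟨P, hP, hgP⟩ := growP hg (C := C) hρ (fun z => by
    have h1 := hC z
    rw [hfg z, Complex.norm_exp] at h1
    exact Real.exp_le_exp.1 h1)
  exact ⟨P, hP, fun z => by rw [hfg z, hgP z]⟩

theorem zfOrd {f : ℂ → ℂ} (hf : f ∈ OrdLT1) (h0 : ∀ z, f z ≠ 0) : ∀ z w, f z = f w := by
  obtain ⟨ρ, C, hρ, hρ1, _, hC⟩ := ordNorm hf
  obtain ⟨P, hP, hfP⟩ := zf_log hf.1 h0 hρ.le hC
  have h1 : (P.natDegree : ℝ) < 1 := lt_of_le_of_lt hP hρ1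
  have h2 : P.natDegree = 0 := by
    have h3 : P.natDegree < 1 := by exact_mod_cast h1
    omega
  rw [Polynomial.eq_C_of_natDegree_eq_zero h2] at hfP
  intro z w
  rw [hfP z, hfP w, Polynomial.eval_C, Polynomial.eval_C]

theorem zfFin {f : ℂ → ℂ} (hf : f ∈ FinOrd) (h0 : ∀ z, f z ≠ 0) :
    ∃ P : Polynomial ℂ, ∀ z, f z = Complex.exp (P.eval z) := by
  obtain ⟨ρ, C, hρ, _, hC⟩ := finNorm hf
  obtain ⟨P, _, hfP⟩ := zf_log hf.1 h0 (by linarith) hC
  exact ⟨P, hfP⟩

theorem surjOrd {f : ℂ → ℂ} (hf : f ∈ OrdLT1) (hn : ∃ z w, f z ≠ f w) (a : ℂ) : ∃ z, f z = a := by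
  by_contra hcon
  push Not at hcon
  have h1 : (fun z => f z + (-a)) ∈ OrdLT1 := ord_add hf (ord_const (-a))
  have h2 := zfOrd h1 (fun z h => hcon z (by linear_combination h))
  obtain ⟨z, w, hzw⟩ := hn
  exact hzw (add_right_cancel (h2 z w))

theorem dom {f g : ℂ → ℂ} (hf : Differentiable ℂ f) (hg : Differentiable ℂ g)
    (h : ∀ z, f z * g z = 0) : (∀ z, f z = 0) ∨ ∀ z, g z = 0 := by
  by_cases h0 : ∀ z, f z = 0
  · exact Or.inl h0
  · right
    push Not at h0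
    obtain ⟨z₀, hz₀⟩ := h0
    have h1 : ∀ᶠ z in nhds z₀, f z ≠ 0 := hf.continuous.continuousAt.eventually_ne hz₀
    have h2 : g =ᶠ[nhds z₀] (fun _ => (0 : ℂ)) := by
      filter_upwards [h1] with z hz
      exact (mul_eq_zero.1 (h z)).resolve_left hz
    have hga : AnalyticOnNhd ℂ g Set.univ := fun z _ => hg.analyticAt z
    have h3 := hga.eq_of_eventuallyEq (fun z _ => analyticAt_const) h2
    intro z
    rw [h3]

end Pool.Agent.Work.MP_90e0ad_ag.GR
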