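import Pool.Agent.Work.MP_90e0ad_ag.GR.FermOrd
import Pool.Agent.Work.MP_90e0ad_ag.GR.FermBd
import Pool.Agent.Work.MP_90e0ad_ag.GR.LdC
import Pool.Agent.Work.MP_90e0ad_ag.GR.Zf

/-!
Module FermPol (M): for functions of finite order the three functions of FermOrd are polynomials. PROOF. Consider the functions
a - c, a + c, a - I c, a + I c, b, c, all in FinOrd. None is identically 0: if a = zeta c, zeta^4 = 1, then b^4 = 0. Choose a point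
c0 where none vanishes (dom) and ldFin: M and arbitrarily large r such that on |z - c0| = r none vanishes and
|f'| <= r^M |f| for all six. On such a circle let f = a/c, g = b/c, f^4 - g^4 = 1, g not 0. With N = a' c - a c':
H0 = N c / b^3 = (N/c^2) / g^3, H1 = f (N/c^2) / g^3, H2 = g (N/c^2)/ g^3, and for zeta^4 = 1
(N/c^2)/(f - zeta) = (a - zeta c)'/(a - zeta c) - c'/c has norm <= 2 r^M. By fermBd
|H_i| <= |N/c^2| max(1,|f|,|g|)/|g|^3 <= 100 * 4 * 2 r^M = 800 r^M. Now circP.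
-/

set_option autoImplicit false

noncomputable section

namespace Pool.Agent.Work.MP_90e0ad_ag.GR

private theorem fp_num {a b c N : ℂ} {K : ℝ} (h : a ^ 4 - b ^ 4 = c ^ 4) (hb : b ≠ 0)
    (hc : c ≠ 0)
    (hN : ∀ ζ : ℂ, ζ = -1 ∨ ζ = 1 ∨ ζ = -Complex.I ∨ ζ = Complex.I →
      a + ζ * c ≠ 0 ∧ ‖N‖ ≤ K * ‖a + ζ * c‖ * ‖c‖) {x : ℂ} (hx : x = c ∨ x = a ∨ x = b) :
    ‖N‖ * ‖x‖ ≤ 400 * K * ‖b‖ ^ 3 := by
  have hc' : 0 < ‖c‖ := norm_pos_iff.2 hc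
  have hb' : 0 < ‖b‖ := norm_pos_iff.2 hb
  have hfg : (a / c) ^ 4 - (b / c) ^ 4 = 1 := by
    field_simp
    exact h
  have hg : b / c ≠ 0 := div_ne_zero hb hc
  have h1 := fermBd hfg hg
  have key : ∀ ζ : ℂ, ζ = -1 ∨ ζ = 1 ∨ ζ = -Complex.I ∨ ζ = Complex.I →
      ‖N‖ / ‖c‖ ^ 2 * (1 / ‖a / c + ζ‖) ≤ K := by
    intro ζ hζ
    obtain ⟨h2, h3⟩ := hN ζ hζ
    have h4 : a / c + ζ = (a + ζ * c) / c := by
      field_simp
    have h5 : 0 < ‖a + ζ * c‖ := norm_pos_iff.2 h2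
    rw [h4, norm_div, mul_one_div, div_le_iff₀ (div_pos h5 hc'), div_le_iff₀ (by positivity)]
    refine h3.trans (le_of_eq ?_)
    field_simp
  have k1 := key (-1) (Or.inl rfl)
  have k2 := key 1 (Or.inr (Or.inl rfl))
  have k3 := key (-Complex.I) (Or.inr (Or.inr (Or.inl rfl)))
  have k4 := key Complex.I (Or.inr (Or.inr (Or.inr rfl)))
  rw [← sub_eq_add_neg] at k1 k3
  have h6 : 0 ≤ ‖N‖ / ‖c‖ ^ 2 := by positivity
  have h7 := mul_le_mul_of_nonneg_left h1 h6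
  have h8 : ‖x‖ / ‖c‖ ≤ max 1 (max ‖a / c‖ ‖b / c‖) := by
    rcases hx with rfl | rfl | rfl
    · rw [div_self hc'.ne']
      exact le_max_left _ _
    · rw [← norm_div]
      exact (le_max_left _ _).trans (le_max_right _ _)
    · rw [← norm_div]
      exact (le_max_right _ _).trans (le_max_right _ _)
  have hg' : 0 < ‖b / c‖ ^ 3 := pow_pos (norm_pos_iff.2 hg) 3
  have h9 : ‖N‖ / ‖c‖ ^ 2 * ((‖x‖ / ‖c‖) / ‖b / c‖ ^ 3) ≤ 400 * K := by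
    calc ‖N‖ / ‖c‖ ^ 2 * ((‖x‖ / ‖c‖) / ‖b / c‖ ^ 3)
        ≤ ‖N‖ / ‖c‖ ^ 2 * (max 1 (max ‖a / c‖ ‖b / c‖) / ‖b / c‖ ^ 3) :=
          mul_le_mul_of_nonneg_left (div_le_div_of_nonneg_right h8 hg'.le) h6
      _ ≤ ‖N‖ / ‖c‖ ^ 2 * (100 * (1 / ‖a / c - 1‖ + 1 / ‖a / c + 1‖ +
            1 / ‖a / c - Complex.I‖ + 1 / ‖a / c + Complex.I‖)) := h7
      _ ≤ 400 * K := by linarith
  have h10 : ‖N‖ / ‖c‖ ^ 2 * ((‖x‖ / ‖c‖) / ‖b / c‖ ^ 3) = ‖N‖ * ‖x‖ / ‖b‖ ^ 3 := by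
    rw [norm_div]
    field_simp
  rw [h10, div_le_iff₀ (pow_pos hb' 3)] at h9
  exact h9

private theorem fp_pt (F : List (ℂ → ℂ)) (hF : ∀ f ∈ F, Differentiable ℂ f ∧ ∃ z, f z ≠ 0) :
    ∃ g : ℂ → ℂ, Differentiable ℂ g ∧ (∃ z, g z ≠ 0) ∧ ∀ z, g z ≠ 0 → ∀ f ∈ F, f z ≠ 0 := by
  induction F with
  | nil =>
    exact ⟨fun _ => 1, differentiable_const _, ⟨0, one_ne_zero⟩,
      fun _ _ f hf => absurd hf List.not_mem_nil⟩
  | cons f F ih =>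
    obtain ⟨g, hg, ⟨z₁, hz₁⟩, hgF⟩ := ih fun f hf => hF f (List.mem_cons_of_mem _ hf)
    obtain ⟨hf, z₂, hz₂⟩ := hF f List.mem_cons_self
    refine ⟨fun z => f z * g z, hf.mul hg, ?_, ?_⟩
    · by_contra hcon
      push Not at hcon
      rcases dom hf hg hcon with h1 | h1
      · exact hz₂ (h1 z₂)
      · exact hz₁ (h1 z₁)
    · intro z hz f' hf'
      rcases List.mem_cons.1 hf' with rfl | hf'
      · exact left_ne_zero_of_mul hz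
      · exact hgF z (right_ne_zero_of_mul hz) f' hf'

theorem fermPol {a b c : ℂ → ℂ} (ha : a ∈ FinOrd) (hb : b ∈ FinOrd) (hc : c ∈ FinOrd)
    (hb0 : ∃ z, b z ≠ 0) (hc0 : ∃ z, c z ≠ 0) (h : ∀ z, a z ^ 4 - b z ^ 4 = c z ^ 4) :
    ∃ P₀ P₁ P₂ : Polynomial ℂ,
      (∀ z, (deriv a z * c z - a z * deriv c z) * c z = P₀.eval z * b z ^ 3) ∧
      (∀ z, (deriv a z * c z - a z * deriv c z) * a z = P₁.eval z * b z ^ 3) ∧
      (∀ z, (deriv a z * c z - a z * deriv c z) * b z = P₂.eval z * b z ^ 3) := by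
  obtain ⟨H₀, H₁, H₂, hH₀, hH₁, hH₂, e₀, e₁, e₂⟩ := fermOrd ha.1 hb.1 hc.1 hb0 hc0 h
  have hq : ∀ ζ : ℂ, (fun z => a z + ζ * c z) ∈ FinOrd := fun ζ => fin_add ha (fin_mul (fin_const ζ) hc)
  have hζ4 : ∀ ζ : ℂ, ζ = -1 ∨ ζ = 1 ∨ ζ = -Complex.I ∨ ζ = Complex.I → ζ ^ 4 = 1 := by
    rintro ζ (rfl | rfl | rfl | rfl)
    · norm_num
    · norm_num
    · rw [neg_pow, Complex.I_pow_four]
      norm_num
    · exact Complex.I_pow_four
  have hqne : ∀ ζ : ℂ, ζ = -1 ∨ ζ = 1 ∨ ζ = -Complex.I ∨ ζ = Complex.I →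
      ∃ z, (fun z => a z + ζ * c z) z ≠ 0 := by
    intro ζ hζ
    by_contra hcon
    push Not at hcon
    obtain ⟨z, hz⟩ := hb0
    apply hz
    have h1 : a z = -(ζ * c z) := eq_neg_of_add_eq_zero_left (hcon z)
    have h2 := h z
    rw [h1, neg_pow, mul_pow, hζ4 ζ hζ] at h2
    have h3 : b z ^ 4 = 0 := by linear_combination -h2
    exact pow_eq_zero_iff (by norm_num) |>.1 h3
  set F : List (ℂ → ℂ) := [fun z => a z + (-1) * c z, fun z => a z + 1 * c z,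
    fun z => a z + (-Complex.I) * c z, fun z => a z + Complex.I * c z, b, c] with hFdef
  have hFmem : ∀ f ∈ F, f ∈ FinOrd ∧ ∃ z, f z ≠ 0 := by
    intro f hf
    simp only [hFdef, List.mem_cons, List.not_mem_nil, or_false] at hf
    rcases hf with rfl | rfl | rfl | rfl | rfl | rfl
    · exact ⟨hq _, hqne _ (Or.inl rfl)⟩
    · exact ⟨hq _, hqne _ (Or.inr (Or.inl rfl))⟩
    · exact ⟨hq _, hqne _ (Or.inr (Or.inr (Or.inl rfl)))⟩
    · exact ⟨hq _, hqne _ (Or.inr (Or.inr (Or.inr rfl)))⟩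
    · exact ⟨hb, hb0⟩
    · exact ⟨hc, hc0⟩
  obtain ⟨g, -, ⟨c₀, hc₀⟩, hgF⟩ := fp_pt F fun f hf => ⟨(hFmem f hf).1.1, (hFmem f hf).2⟩
  obtain ⟨M, hM⟩ := ldFin F fun f hf => (hFmem f hf).1
  have hM' := hM c₀ (hgF c₀ hc₀)
  have hbF : b ∈ F := by simp [hFdef]
  have hcF : c ∈ F := by simp [hFdef]
  have hqF : ∀ ζ : ℂ, ζ = -1 ∨ ζ = 1 ∨ ζ = -Complex.I ∨ ζ = Complex.I →
      (fun z => a z + ζ * c z) ∈ F := by
    rintro ζ (rfl | rfl | rfl | rfl) <;> simp [hFdef]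
  -- the bound
  have main : ∀ (x H : ℂ → ℂ), (∀ z, x z = c z ∨ x z = a z ∨ x z = b z) →
      (∀ z, (deriv a z * c z - a z * deriv c z) * x z = H z * b z ^ 3) →
      ∀ R₀ : ℝ, ∃ r : ℝ, R₀ ≤ r ∧ ∀ z, ‖z - c₀‖ = r → ‖H z‖ ≤ 800 * r ^ M := by
    intro x H hx hH R₀
    obtain ⟨r, hr0, hr1, hr⟩ := hM' R₀
    refine ⟨r, hr0, fun z hz => ?_⟩
    have hbz : b z ≠ 0 := (hr b hbF z hz).1
    obtain ⟨hcz, hcd⟩ := hr c hcF z hz
    have h1 := fp_num (N := deriv a z * c z - a z * deriv c z) (K := 2 * r ^ M) (h z) hbz hcz (by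
      intro ζ hζ
      obtain ⟨h2, h3⟩ := hr _ (hqF ζ hζ) z hz
      refine ⟨h2, ?_⟩
      have h4 : deriv (fun z => a z + ζ * c z) z = deriv a z + ζ * deriv c z := by
        rw [deriv_fun_add (ha.1 z) ((hc.1 z).const_mul ζ), deriv_const_mul ζ (hc.1 z)]
      rw [h4] at h3
      have h5 : deriv a z * c z - a z * deriv c z =
          (deriv a z + ζ * deriv c z) * c z - (a z + ζ * c z) * deriv c z := by ring
      rw [h5]
      refine (norm_sub_le _ _).trans ?_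
      rw [norm_mul, norm_mul]
      have h6 := mul_le_mul_of_nonneg_right h3 (norm_nonneg (c z))
      have h7 := mul_le_mul_of_nonneg_left hcd (norm_nonneg (a z + ζ * c z))
      linarith) (hx z)
    rw [← norm_mul, hH z, norm_mul, norm_pow] at h1
    have h2 : 0 < ‖b z‖ ^ 3 := pow_pos (norm_pos_iff.2 hbz) 3
    have h3 := le_of_mul_le_mul_right h1 h2
    linarith
  obtain ⟨P₀, hP₀⟩ := circP hH₀ c₀ 800 M (main c H₀ (fun z => Or.inl rfl) e₀)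
  obtain ⟨P₁, hP₁⟩ := circP hH₁ c₀ 800 M (main a H₁ (fun z => Or.inr (Or.inl rfl)) e₁)
  obtain ⟨P₂, hP₂⟩ := circP hH₂ c₀ 800 M (main b H₂ (fun z => Or.inr (Or.inr rfl)) e₂)
  exact ⟨P₀, P₁, P₂, fun z => by rw [e₀ z, hP₀ z], fun z => by rw [e₁ z, hP₁ z],
    fun z => by rw [e₂ z, hP₂ z]⟩

end Pool.Agent.Work.MP_90e0ad_ag.GR
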