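import Mathlib

/-!
Module HomD (S-M): homogenization in the variables x_j. Variables of Dh: none = W, some none = s, some (some j) = y_j. PROOF. Let d be larger than the total degree of every
monomial of D (d = D.totalDegree + 1). Dh = sum over the support of D of coeff_e W^(e none) prod_j y_j^(e (some j)) s^(d - sum_j e (some j)). Then for all W, s, x:
the value at (W, s, s x_j) is s^d times the value of D at (W, x). Alternatively prove the existence of such Dh for every d >= totalDegree + 1 by induction on D
(MvPolynomial.induction_on'' or: the set of D for which for all large d such a Dh exists is closed under +, *, contains C and X).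
-/

set_option autoImplicit false

namespace Pool.Agent.Work.MP_90e0ad_ag.GR

private theorem homD_aux {m : ℕ} (D : MvPolynomial (Option (Fin m)) ℤ) :
    ∃ d₀ : ℕ, ∀ d : ℕ, d₀ ≤ d → ∃ Dh : MvPolynomial (Option (Option (Fin m))) ℤ,
      ∀ (W s : ℂ) (x : Fin m → ℂ),
        MvPolynomial.aeval (Option.elim' W (Option.elim' s fun j => s * x j)) Dh =
          s ^ d * MvPolynomial.aeval (Option.elim' W x) D := by
  induction D using MvPolynomial.induction_on with
  | C a =>
    refine ⟨0, fun d _ => ⟨MvPolynomial.C a * MvPolynomial.X (some none) ^ d, ?_⟩⟩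
    intro W s x
    rw [map_mul, map_pow, MvPolynomial.aeval_X]
    simp only [MvPolynomial.aeval_C, Option.elim'_some, Option.elim'_none]
    ring
  | add p q hp hq =>
    obtain ⟨d1, h1⟩ := hp
    obtain ⟨d2, h2⟩ := hq
    refine ⟨max d1 d2, fun d hd => ?_⟩
    obtain ⟨P, hP⟩ := h1 d (le_trans (le_max_left _ _) hd)
    obtain ⟨Q, hQ⟩ := h2 d (le_trans (le_max_right _ _) hd)
    refine ⟨P + Q, ?_⟩
    intro W s x
    rw [map_add, map_add, hP, hQ]
    ring
  | mul_X p i hp =>
    obtain ⟨d1, h1⟩ := hp
    cases i with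
    | none =>
      refine ⟨d1, fun d hd => ?_⟩
      obtain ⟨P, hP⟩ := h1 d hd
      refine ⟨P * MvPolynomial.X none, ?_⟩
      intro W s x
      rw [map_mul, map_mul, hP, MvPolynomial.aeval_X, MvPolynomial.aeval_X]
      simp only [Option.elim'_none]
      ring
    | some j =>
      refine ⟨d1 + 1, fun d hd => ?_⟩
      obtain ⟨P, hP⟩ := h1 (d - 1) (by omega)
      refine ⟨P * MvPolynomial.X (some (some j)), ?_⟩
      intro W s x
      rw [map_mul, map_mul, hP, MvPolynomial.aeval_X, MvPolynomial.aeval_X]
      simp only [Option.elim'_some]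
      have hdd : d = (d - 1) + 1 := by omega
      rw [hdd, pow_succ]
      simp only [Nat.add_sub_cancel]
      ring

theorem homD {m : ℕ} (D : MvPolynomial (Option (Fin m)) ℤ) :
    ∃ (d : ℕ) (Dh : MvPolynomial (Option (Option (Fin m))) ℤ), 1 ≤ d ∧
      ∀ (W s : ℂ) (x : Fin m → ℂ),
        MvPolynomial.aeval (Option.elim' W (Option.elim' s fun j => s * x j)) Dh =
          s ^ d * MvPolynomial.aeval (Option.elim' W x) D := by
  obtain ⟨d₀, h⟩ := homD_aux D
  obtain ⟨Dh, hDh⟩ := h (d₀ + 1) (by omega)
  exact ⟨d₀ + 1, Dh, by omega, hDh⟩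

end Pool.Agent.Work.MP_90e0ad_ag.GR
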