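import Mathlib

/-!
Module UnitK (M): rigidity of units. PROOF. Let u = exp P, v = exp Q, D = (v - 1) - kappa (u - 1). Let z0 be a point with P z0 = 2 pi i n, n an integer; u(z0) = 1,
(u+1)^4 = 16 there. The right hand side D (u+1)^4 has the form (u-1)^2 R, so it vanishes at z0 with its first derivative (u - 1 vanishes at z0), hence D(z0) = 0 and D'(z0) = 0:
exp(Q z0) = 1 and Q'(z0) exp(Q z0) - kappa P'(z0) = 0, i.e. (Q' - kappa P')(z0) = 0. For every integer n there is such a z0 (P is not constant, Complex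
is algebraically closed: IsAlgClosed.exists_root of P - C (2 pi i n)), different for different n, so the polynomial Q' - kappa P' has infinitely many roots and is 0;
Q = kappa P + C b. From exp(Q z0) = 1 for n = 0: b = 2 pi i l; for n = 1: kappa 2 pi i + b in 2 pi i Z, so kappa = k is an integer. Then
exp(Q z) = exp(k P z + b) = exp(P z)^k.
-/

set_option autoImplicit false

namespace Pool.Agent.Work.MP_90e0ad_ag.GR

open Complex

private theorem unitK_loc {P Q : Polynomial ℂ} {κ : ℂ} {R : ℂ → ℂ}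
    (hR : Differentiable ℂ R)
    (h : ∀ z, (exp (P.eval z) - 1) ^ 2 * R z =
      ((exp (Q.eval z) - 1) - κ * (exp (P.eval z) - 1)) * (exp (P.eval z) + 1) ^ 4)
    (z₀ : ℂ) (hz : exp (P.eval z₀) = 1) :
    exp (Q.eval z₀) = 1 ∧ (Q.derivative - Polynomial.C κ * P.derivative).IsRoot z₀ := by
  have h0 := h z₀
  rw [hz] at h0
  have hQ : exp (Q.eval z₀) = 1 := by linear_combination (-1 / 16 : ℂ) * h0
  refine ⟨hQ, ?_⟩
  have hu : HasDerivAt (fun z => exp (P.eval z)) (exp (P.eval z₀) * P.derivative.eval z₀) z₀ :=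
    (P.hasDerivAt z₀).cexp
  have hv : HasDerivAt (fun z => exp (Q.eval z)) (exp (Q.eval z₀) * Q.derivative.eval z₀) z₀ :=
    (Q.hasDerivAt z₀).cexp
  have hR' := (hR z₀).hasDerivAt
  have hL := ((hu.sub_const 1).pow 2).mul hR'
  have hRt := ((hv.sub_const 1).sub ((hu.sub_const 1).const_mul κ)).mul ((hu.add_const 1).pow 4)
  have hfun : ((fun z => exp (P.eval z) - 1) ^ 2 * R) =
      (((fun z => exp (Q.eval z) - 1) - (fun z => κ * (exp (P.eval z) - 1))) *
        (fun z => exp (P.eval z) + 1) ^ 4) := by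
    funext z
    exact h z
  rw [hfun] at hL
  have hE := hL.unique hRt
  simp only [Pi.pow_apply, Pi.sub_apply, hz, hQ] at hE
  rw [Polynomial.IsRoot.def, Polynomial.eval_sub, Polynomial.eval_mul, Polynomial.eval_C]
  norm_num at hE
  exact hE

theorem unitK {P Q : Polynomial ℂ} (hP : 1 ≤ P.natDegree) {κ : ℂ} {R : ℂ → ℂ}
    (hR : Differentiable ℂ R)
    (h : ∀ z, (exp (P.eval z) - 1) ^ 2 * R z =
      ((exp (Q.eval z) - 1) - κ * (exp (P.eval z) - 1)) * (exp (P.eval z) + 1) ^ 4) :
    ∃ k : ℤ, κ = k ∧ ∀ z, exp (Q.eval z) = exp (P.eval z) ^ k := by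
  have h2pi : (2 * (Real.pi : ℂ) * I) ≠ 0 := two_pi_I_ne_zero
  have hex : ∀ n : ℤ, ∃ z, P.eval z = n * (2 * (Real.pi : ℂ) * I) := by
    intro n
    have hdeg : (P - Polynomial.C (n * (2 * (Real.pi : ℂ) * I))).degree ≠ 0 := by
      rw [Polynomial.degree_sub_C]
      · intro h1
        have := Polynomial.natDegree_eq_zero_iff_degree_le_zero.2 h1.le
        omega
      · rw [← Polynomial.natDegree_pos_iff_degree_pos]
        omega
    obtain ⟨z, hz⟩ := IsAlgClosed.exists_root _ hdeg
    refine ⟨z, ?_⟩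
    rw [Polynomial.IsRoot.def, Polynomial.eval_sub, Polynomial.eval_C] at hz
    exact sub_eq_zero.1 hz
  choose w hw using hex
  have hexp : ∀ n : ℤ, exp (P.eval (w n)) = 1 := by
    intro n
    rw [hw n]
    exact exp_int_mul_two_pi_mul_I n
  have hloc := fun n : ℤ => unitK_loc hR h (w n) (hexp n)
  have hinj : Function.Injective w := by
    intro m n hmn
    have h1 : (m : ℂ) * (2 * (Real.pi : ℂ) * I) = n * (2 * (Real.pi : ℂ) * I) := by
      rw [← hw m, ← hw n, hmn]
    have h2 := mul_right_cancel₀ h2pi h1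
    exact_mod_cast h2
  have hzero : Q.derivative - Polynomial.C κ * P.derivative = 0 := by
    apply Polynomial.eq_zero_of_infinite_isRoot
    exact Set.infinite_of_injective_forall_mem hinj (fun n => (hloc n).2)
  have hder : (Q - Polynomial.C κ * P).derivative = 0 := by
    rw [Polynomial.derivative_sub, Polynomial.derivative_C_mul]
    exact hzero
  obtain ⟨b, hb⟩ : ∃ b : ℂ, Q - Polynomial.C κ * P = Polynomial.C b :=
    ⟨_, Polynomial.eq_C_of_derivative_eq_zero hder⟩
  have hQe : ∀ z, Q.eval z = κ * P.eval z + b := by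
    intro z
    have := congrArg (Polynomial.eval z) hb
    rw [Polynomial.eval_sub, Polynomial.eval_mul, Polynomial.eval_C, Polynomial.eval_C] at this
    linear_combination this
  have h0 := (hloc 0).1
  rw [hQe, hw 0] at h0
  have h1 := (hloc 1).1
  rw [hQe, hw 1] at h1
  obtain ⟨l, hl⟩ := exp_eq_one_iff.1 h0
  obtain ⟨m, hm⟩ := exp_eq_one_iff.1 h1
  have hb' : b = l * (2 * (Real.pi : ℂ) * I) := by
    rw [← hl]; push_cast; ring
  have hκ : κ = ((m - l : ℤ) : ℂ) := by
    rw [hb'] at hm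
    have h3 : κ * (2 * (Real.pi : ℂ) * I) = ((m - l : ℤ) : ℂ) * (2 * (Real.pi : ℂ) * I) := by
      push_cast at hm ⊢
      linear_combination hm
    exact mul_right_cancel₀ h2pi h3
  refine ⟨m - l, hκ, fun z => ?_⟩
  rw [hQe z, exp_add, hb', exp_int_mul_two_pi_mul_I, mul_one, hκ, exp_int_mul]

end Pool.Agent.Work.MP_90e0ad_ag.GR
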