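import Pool.Agent.Work.MP_90e0ad_ag.GR.VarII
import Pool.Agent.Work.MP_90e0ad_ag.GR.Ferm
import Pool.Agent.Work.MP_90e0ad_ag.GR.UnitK
import Pool.Agent.Work.MP_90e0ad_ag.GR.Zf
import Pool.Agent.Work.MP_e97a4d_nt.Picard

/-!
Module RedIIb (M): no solution, then every curve of finite order through the base point is constant. PROOF. Let f be a curve in pts, coordinates in FinOrd, f z0 = base point. W = n.
u u' = 1, so u = exp P (zfFin).
Case A: P constant (natDegree 0), so u = u(z0) = -1 everywhere. By e6 v_j is never 0 and never 2, so it is constant (little Picard: v_j - 1 omits -1 and 1); L_j omits 1 and 2, so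
2 L_j - 3 omits -1 and 1, so L_j is constant = L_j(z0) = 0. M_j^4 = 0 by e3, 4 R_j = 0 by e4, v'_j = 1/v_j, u' = -1. So f is constant.
Case B: natDegree P >= 1. c = u + 1 is in FinOrd and not identically 0. ferm (a = L_j, b = M_j): L_j = alpha_j (u+1). v_j = exp Q_j (zfFin). e4 becomes
(u-1)^2 R_j = ((v_j - 1) - alpha_j^4 (u-1)) (u+1)^4, so unitK gives alpha_j^4 = k_j in Z and v_j = u^(k_j). At z0: 1 = (-1)^(k_j), so k_j = 2 x_j is even.
e5: L_j^4 = s x_j with s = 2 (u+1)^4, so 0 = s^d D(n, x); at a point with u not -1 this gives D(n,x) = 0 with x : Fin m -> Z (cast), contradiction.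
The conclusion f z = f w: all coordinates are constant (index i < 3+5m is 0, 1, 2 or 3+5j+r, r < 5).
-/

set_option autoImplicit false

noncomputable section

namespace Pool.Agent.Work.MP_90e0ad_ag.GR

private theorem caseA {m : ℕ} {Dh : MvPolynomial (Option (Option (Fin m))) ℤ} {n : ℕ}
    {u u' : ℂ → ℂ} {v v' L M R : Fin m → ℂ → ℂ}
    (hv : ∀ j, Differentiable ℂ (v j)) (hL : ∀ j, Differentiable ℂ (L j))
    (hP : ∀ z, PtII m Dh n (u z) (u' z) (fun j => v j z) (fun j => v' j z) (fun j => L j z)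
      (fun j => M j z) (fun j => R j z)) {z₀ : ℂ}
    (hv0 : ∀ j, v j z₀ = 1) (hL0 : ∀ j, L j z₀ = 0) (hu : ∀ z, u z = -1) :
    ∀ z, u z = -1 ∧ u' z = -1 ∧ ∀ j, v j z = 1 ∧ v' j z = 1 ∧ L j z = 0 ∧ M j z = 0 ∧
      R j z = 0 := by
  have h6 : ∀ z j, v j z ≠ 2 ∧ L j z ≠ 1 ∧ L j z ≠ 2 := by
    intro z j
    rcases (hP z).e6 with h | h
    · exact absurd (by rw [hu z]; ring) h
    · exact h j
  have hvc : ∀ j z, v j z = 1 := by
    intro j z
    have h1 := Pool.Agent.Work.MP_e97a4d_nt.Picard.little_picard (fun z => v j z - 1)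
      ((hv j).sub_const 1) (fun z h => (h6 z j).1 (by
        have h2 : v j z - 1 = 1 := h
        linear_combination h2)) (fun z h => by
        have h2 : v j z - 1 = -1 := h
        have h3 : v j z = 0 := by linear_combination h2
        have h4 : v j z * v' j z = 1 := (hP z).e2 j
        rw [h3, zero_mul] at h4
        exact zero_ne_one h4) z z₀
    have h2 : v j z - 1 = v j z₀ - 1 := h1
    rw [hv0 j] at h2
    linear_combination h2
  have hLc : ∀ j z, L j z = 0 := by
    intro j z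
    have h1 := Pool.Agent.Work.MP_e97a4d_nt.Picard.little_picard (fun z => 2 * L j z - 3)
      (((hL j).const_mul 2).sub_const 3) (fun z h => (h6 z j).2.2 (by
        have h2 : 2 * L j z - 3 = 1 := h
        linear_combination h2 / 2)) (fun z h => (h6 z j).2.1 (by
        have h2 : 2 * L j z - 3 = -1 := h
        linear_combination h2 / 2)) z z₀
    have h2 : 2 * L j z - 3 = 2 * L j z₀ - 3 := h1
    rw [hL0 j] at h2
    linear_combination h2 / 2
  intro z
  refine ⟨hu z, ?_, fun j => ⟨hvc j z, ?_, hLc j z, ?_, ?_⟩⟩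
  · have h1 : u z * u' z = 1 := (hP z).e1
    rw [hu z] at h1
    linear_combination -h1
  · have h1 : v j z * v' j z = 1 := (hP z).e2 j
    rw [hvc j z, one_mul] at h1
    exact h1
  · have h1 : L j z ^ 4 - M j z ^ 4 = (u z + 1) ^ 4 := (hP z).e3 j
    rw [hLc j z, hu z] at h1
    have h2 : M j z ^ 4 = 0 := by linear_combination -h1
    exact pow_eq_zero_iff (by norm_num) |>.1 h2
  · have h1 : (u z - 1) ^ 2 * R j z = (v j z - 1) * (u z + 1) ^ 4 - L j z ^ 4 * (u z - 1) :=
      (hP z).e4 j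
    rw [hvc j z, hLc j z, hu z] at h1
    linear_combination h1 / 4

private theorem caseB {m : ℕ} {D : MvPolynomial (Option (Fin m)) ℤ}
    {Dh : MvPolynomial (Option (Option (Fin m))) ℤ} {d : ℕ}
    (hDh : ∀ (W s : ℂ) (x : Fin m → ℂ),
      MvPolynomial.aeval (Option.elim' W (Option.elim' s fun j => s * x j)) Dh =
        s ^ d * MvPolynomial.aeval (Option.elim' W x) D) {n : ℕ}
    {u u' : ℂ → ℂ} {v v' L M R : Fin m → ℂ → ℂ} (huF : u ∈ FinOrd)
    (hv : ∀ j, v j ∈ FinOrd) (hL : ∀ j, L j ∈ FinOrd) (hM : ∀ j, M j ∈ FinOrd)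
    (hR : ∀ j, R j ∈ FinOrd)
    (hP : ∀ z, PtII m Dh n (u z) (u' z) (fun j => v j z) (fun j => v' j z) (fun j => L j z)
      (fun j => M j z) (fun j => R j z)) {z₀ : ℂ} (hu0 : u z₀ = -1)
    (hv0 : ∀ j, v j z₀ = 1) {P : Polynomial ℂ} (hu : ∀ z, u z = Complex.exp (P.eval z))
    (hd : 1 ≤ P.natDegree) :
    ∃ x : Fin m → ℤ, MvPolynomial.eval (Option.elim' (n : ℤ) x) D = 0 := by
  -- a point with `u ≠ -1`
  have hne : ∃ z, u z + 1 ≠ 0 := by
    obtain ⟨z, hz⟩ := IsAlgClosed.exists_root P (by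
      intro h
      have h1 : P.natDegree = 0 := Polynomial.natDegree_eq_of_degree_eq_some h
      omega)
    refine ⟨z, ?_⟩
    have h1 : P.eval z = 0 := hz
    rw [hu z, h1, Complex.exp_zero]
    norm_num
  have hc : (fun z => u z + 1) ∈ FinOrd := fin_add huF (fin_const 1)
  have key : ∀ j, ∃ k : ℤ, (∀ z, L j z ^ 4 = 2 * (u z + 1) ^ 4 * k) := by
    intro j
    obtain ⟨α, hα⟩ := ferm (hL j) (hM j) hc hne (fun z => (hP z).e3 j)
    obtain ⟨Q, hQ⟩ := zfFin (hv j) (fun z h => by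
      have h4 : v j z * v' j z = 1 := (hP z).e2 j
      rw [h, zero_mul] at h4
      exact zero_ne_one h4)
    obtain ⟨k, hk, hvk⟩ := unitK (P := P) (Q := Q) hd (κ := α ^ 4) (hR j).1 (fun z => by
      have h1 : (u z - 1) ^ 2 * R j z = (v j z - 1) * (u z + 1) ^ 4 - L j z ^ 4 * (u z - 1) :=
        (hP z).e4 j
      have h2 : L j z = α * (u z + 1) := hα z
      rw [← hu z, ← hQ z, h1, h2]
      ring)
    have h1 := hvk z₀
    rw [← hu z₀, ← hQ z₀, hu0, hv0 j] at h1
    have h2 : Even k := by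
      by_contra ho
      rw [Int.not_even_iff_odd] at ho
      rw [ho.neg_one_zpow] at h1
      norm_num at h1
    obtain ⟨r, hr⟩ := h2
    refine ⟨r, fun z => ?_⟩
    have h3 : L j z = α * (u z + 1) := hα z
    rw [h3, mul_pow, hk, hr]
    push_cast
    ring
  choose x hx using key
  refine ⟨x, ?_⟩
  obtain ⟨z, hz⟩ := hne
  have h5 : MvPolynomial.aeval (Option.elim' (n : ℂ) (Option.elim' (2 * (u z + 1) ^ 4)
    fun j => L j z ^ 4)) Dh = 0 := (hP z).e5
  have h6 : (fun j => L j z ^ 4) = fun j => 2 * (u z + 1) ^ 4 * ((x j : ℤ) : ℂ) := by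
    funext j
    exact hx j z
  rw [h6, hDh] at h5
  have hs : (2 * (u z + 1) ^ 4) ^ d ≠ 0 :=
    pow_ne_zero _ (mul_ne_zero two_ne_zero (pow_ne_zero _ hz))
  have h7 := (mul_eq_zero.1 h5).resolve_left hs
  have h8 : MvPolynomial.aeval (Option.elim' (n : ℂ) fun j => ((x j : ℤ) : ℂ)) D =
      ((MvPolynomial.eval (Option.elim' (n : ℤ) x) D : ℤ) : ℂ) := by
    have h9 := MvPolynomial.eval₂_comp (Int.castRingHom ℂ) (Option.elim' (n : ℤ) x) D
    rw [eq_intCast] at h9
    rw [h9, MvPolynomial.aeval_def]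
    congr 1
    funext o
    cases o with
    | none => simp [Option.elim']
    | some j => simp [Option.elim']
  rw [h8] at h7
  exact_mod_cast h7

theorem redIIb {m : ℕ} {D : MvPolynomial (Option (Fin m)) ℤ}
    {Dh : MvPolynomial (Option (Option (Fin m))) ℤ} {d : ℕ}
    (hDh : ∀ (W s : ℂ) (x : Fin m → ℂ),
      MvPolynomial.aeval (Option.elim' W (Option.elim' s fun j => s * x j)) Dh =
        s ^ d * MvPolynomial.aeval (Option.elim' W x) D)
    {L G : List Pol} {n : ℕ}
    (H : ∀ x : Fin (3 + 5 * m) → ℂ, x ∈ pts (3 + 5 * m, eqW n :: L, G) ↔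
      pad x 0 = n ∧ PtII m Dh n (pad x 1) (pad x 2) (fun j => pad x (3 + 5 * j))
        (fun j => pad x (4 + 5 * j)) (fun j => pad x (5 + 5 * j)) (fun j => pad x (6 + 5 * j))
        (fun j => pad x (7 + 5 * j)))
    {𝒢 : Set (ℂ → ℂ)} (h𝒢 : 𝒢 ⊆ FinOrd)
    (hx : ¬ ∃ x : Fin m → ℤ, MvPolynomial.eval (Option.elim' (n : ℤ) x) D = 0) :
    HypAt 𝒢 ((3 + 5 * m, eqW n :: L, G), ptII m n) := by
  intro f hf hpts hbase z w
  obtain ⟨z₀, hz₀⟩ := hbase
  have hpad : ∀ z i (hi : i < 3 + 5 * m), pad (f z) i = f z ⟨i, hi⟩ := by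
    intro z i hi
    unfold pad
    exact dif_pos hi
  have hfin : ∀ i, (fun z => pad (f z) i) ∈ FinOrd := by
    intro i
    by_cases hi : i < 3 + 5 * m
    · have e : (fun z => pad (f z) i) = fun z => f z ⟨i, hi⟩ := by
        funext z
        exact hpad z i hi
      rw [e]
      exact h𝒢 (hf ⟨i, hi⟩)
    · have e : (fun z => pad (f z) i) = fun _ => (0 : ℂ) := by
        funext z
        unfold pad
        exact dif_neg hi
      rw [e]
      exact fin_const 0
  have hP := fun z => (H (f z)).1 (hpts z)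
  obtain ⟨g0, g1, g2, gj⟩ := ptII_get m n
  have hb : ∀ i, i < 3 + 5 * m → pad (f z₀) i = (((ptII m n).getD i 0 : ℤ) : ℂ) := by
    intro i hi
    rw [hpad z₀ i hi]
    exact hz₀ ⟨i, hi⟩
  have hu0 : pad (f z₀) 1 = -1 := by
    rw [hb 1 (by omega), g1]
    norm_num
  have hv0 : ∀ j : Fin m, pad (f z₀) (3 + 5 * (j : ℕ)) = 1 := by
    intro j
    rw [hb _ (by have := j.2; omega), (gj j j.2).1]
    norm_num
  have hL0 : ∀ j : Fin m, pad (f z₀) (5 + 5 * (j : ℕ)) = 0 := by
    intro j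
    rw [hb _ (by have := j.2; omega), (gj j j.2).2.2.1]
    norm_num
  obtain ⟨P, hu⟩ := zfFin (hfin 1) (fun z h => by
    have h4 : pad (f z) 1 * pad (f z) 2 = 1 := (hP z).2.e1
    rw [h, zero_mul] at h4
    exact zero_ne_one h4)
  by_cases hd : 1 ≤ P.natDegree
  · exact absurd (caseB hDh (u := fun z => pad (f z) 1) (u' := fun z => pad (f z) 2)
      (v := fun j z => pad (f z) (3 + 5 * (j : ℕ))) (v' := fun j z => pad (f z) (4 + 5 * (j : ℕ)))
      (L := fun j z => pad (f z) (5 + 5 * (j : ℕ))) (M := fun j z => pad (f z) (6 + 5 * (j : ℕ)))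
      (R := fun j z => pad (f z) (7 + 5 * (j : ℕ))) (hfin 1) (fun j => hfin _) (fun j => hfin _)
      (fun j => hfin _) (fun j => hfin _) (fun z => (hP z).2) hu0 hv0 hu hd) hx
  · have hd0 : P.natDegree = 0 := by omega
    have huc : ∀ z, pad (f z) 1 = -1 := by
      intro z
      rw [Polynomial.eq_C_of_natDegree_eq_zero hd0] at hu
      have h1 : pad (f z) 1 = pad (f z₀) 1 := by
        rw [hu z, hu z₀, Polynomial.eval_C, Polynomial.eval_C]
      rw [h1, hu0]
    have hA := caseA (u := fun z => pad (f z) 1) (u' := fun z => pad (f z) 2)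
      (v := fun j z => pad (f z) (3 + 5 * (j : ℕ))) (v' := fun j z => pad (f z) (4 + 5 * (j : ℕ)))
      (L := fun j z => pad (f z) (5 + 5 * (j : ℕ))) (M := fun j z => pad (f z) (6 + 5 * (j : ℕ)))
      (R := fun j z => pad (f z) (7 + 5 * (j : ℕ))) (fun j => (hfin _).1) (fun j => (hfin _).1)
      (fun z => (hP z).2) hv0 hL0 huc
    have hall : ∀ i, i < 3 + 5 * m → pad (f z) i = pad (f w) i := by
      intro i hi
      obtain ⟨z1, z2, zj⟩ := hA z
      obtain ⟨w1, w2, wj⟩ := hA w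
      have hc : i = 0 ∨ i = 1 ∨ i = 2 ∨ ∃ j : Fin m, i = 3 + 5 * (j : ℕ) ∨ i = 4 + 5 * (j : ℕ) ∨
          i = 5 + 5 * (j : ℕ) ∨ i = 6 + 5 * (j : ℕ) ∨ i = 7 + 5 * (j : ℕ) := by
        by_cases h3 : i < 3
        · omega
        · right; right; right
          have hj : (i - 3) / 5 < m := by omega
          refine ⟨⟨(i - 3) / 5, hj⟩, ?_⟩
          simp only
          omega
      rcases hc with rfl | rfl | rfl | ⟨j, rfl | rfl | rfl | rfl | rfl⟩
      · rw [(hP z).1, (hP w).1]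
      · exact z1.trans w1.symm
      · exact z2.trans w2.symm
      · exact (zj j).1.trans (wj j).1.symm
      · exact (zj j).2.1.trans (wj j).2.1.symm
      · exact (zj j).2.2.1.trans (wj j).2.2.1.symm
      · exact (zj j).2.2.2.1.trans (wj j).2.2.2.1.symm
      · exact (zj j).2.2.2.2.trans (wj j).2.2.2.2.symm
    funext i
    have h1 := hall i i.2
    rw [hpad z i i.2, hpad w i i.2] at h1
    exact h1

end Pool.Agent.Work.MP_90e0ad_ag.GR
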