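import Pool.Agent.Work.MP_90e0ad_ag.GR.VarII

/-!
Module RedIIf (M): a solution gives a nonconstant curve through the base point. PROOF. Let x : Fin m -> N be a zero of D(n, .), k_j = 2 x_j. Choose complex numbers alpha_j, beta_j
with alpha_j^4 = k_j, beta_j^4 = k_j - 1. Curve: W = n, u = -e^z, u' = -e^(-z), v_j = u^(k_j) = (e^z)^(2 x_j), v'_j = (e^(-z))^(2 x_j), L_j = alpha_j (u+1), M_j = beta_j (u+1),
R_j = (u+1)^4 S_j(u) where (first lemma polS) u^k - 1 - k (u-1) = (u-1)^2 S_k(u) with a polynomial S_k.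
Each coordinate is P(e^z) + Q(e^(-z)) with polynomials P, Q (one of them 0). e3: (alpha^4 - beta^4)(u+1)^4. e4: (u+1)^4 (u^k - 1 - k(u-1)). e5: L_j^4 = s x_j with s = 2 (u+1)^4, hDh gives
s^d D(n, x) = 0. e6: if u = -1 then v_j = 1, L_j = 0. At z = 0 the point is ptII m n (ptII_get). Not constant: u(0) = -1, u(1) = -e.
-/

set_option autoImplicit false

noncomputable section

namespace Pool.Agent.Work.MP_90e0ad_ag.GR

theorem polS (k : ℕ) : ∃ S : Polynomial ℂ, ∀ u : ℂ,
    u ^ k - 1 - k * (u - 1) = (u - 1) ^ 2 * S.eval u := by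
  induction k with
  | zero =>
    refine ⟨0, fun u => ?_⟩
    simp
  | succ k ih =>
    obtain ⟨S, hS⟩ := ih
    refine ⟨Polynomial.X * S + Polynomial.C (k : ℂ), fun u => ?_⟩
    simp only [Polynomial.eval_add, Polynomial.eval_mul, Polynomial.eval_X, Polynomial.eval_C]
    have h1 := hS u
    push_cast
    linear_combination u * h1

private theorem idx {T : Type} (a b c : T) (d0 d1 d2 d3 d4 : ℕ → T) : ∃ F : ℕ → T,
    F 0 = a ∧ F 1 = b ∧ F 2 = c ∧ (∀ j, F (3 + 5 * j) = d0 j) ∧ (∀ j, F (4 + 5 * j) = d1 j) ∧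
      (∀ j, F (5 + 5 * j) = d2 j) ∧ (∀ j, F (6 + 5 * j) = d3 j) ∧ ∀ j, F (7 + 5 * j) = d4 j := by
  refine ⟨fun i => if i = 0 then a else if i = 1 then b else if i = 2 then c else
    if i % 5 = 3 then d0 (i / 5) else if i % 5 = 4 then d1 (i / 5) else
    if i % 5 = 0 then d2 (i / 5 - 1) else if i % 5 = 1 then d3 (i / 5 - 1) else d4 (i / 5 - 1),
    rfl, rfl, rfl, fun j => ?_, fun j => ?_, fun j => ?_, fun j => ?_, fun j => ?_⟩
  · have h1 : (3 + 5 * j) % 5 = 3 := by omega
    have h2 : (3 + 5 * j) / 5 = j := by omega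
    show (if 3 + 5 * j = 0 then a else if 3 + 5 * j = 1 then b else if 3 + 5 * j = 2 then c else
      if (3 + 5 * j) % 5 = 3 then d0 ((3 + 5 * j) / 5) else _) = _
    rw [if_neg (by omega), if_neg (by omega), if_neg (by omega), if_pos h1, h2]
  · have h2 : (4 + 5 * j) / 5 = j := by omega
    show (if 4 + 5 * j = 0 then a else if 4 + 5 * j = 1 then b else if 4 + 5 * j = 2 then c else
      if (4 + 5 * j) % 5 = 3 then _ else if (4 + 5 * j) % 5 = 4 then d1 ((4 + 5 * j) / 5) else _) = _
    rw [if_neg (by omega), if_neg (by omega), if_neg (by omega), if_neg (by omega),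
      if_pos (by omega), h2]
  · have h2 : (5 + 5 * j) / 5 - 1 = j := by omega
    show (if 5 + 5 * j = 0 then a else if 5 + 5 * j = 1 then b else if 5 + 5 * j = 2 then c else
      if (5 + 5 * j) % 5 = 3 then _ else if (5 + 5 * j) % 5 = 4 then _ else
      if (5 + 5 * j) % 5 = 0 then d2 ((5 + 5 * j) / 5 - 1) else _) = _
    rw [if_neg (by omega), if_neg (by omega), if_neg (by omega), if_neg (by omega),
      if_neg (by omega), if_pos (by omega), h2]
  · have h2 : (6 + 5 * j) / 5 - 1 = j := by omega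
    show (if 6 + 5 * j = 0 then a else if 6 + 5 * j = 1 then b else if 6 + 5 * j = 2 then c else
      if (6 + 5 * j) % 5 = 3 then _ else if (6 + 5 * j) % 5 = 4 then _ else
      if (6 + 5 * j) % 5 = 0 then _ else if (6 + 5 * j) % 5 = 1 then d3 ((6 + 5 * j) / 5 - 1)
      else _) = _
    rw [if_neg (by omega), if_neg (by omega), if_neg (by omega), if_neg (by omega),
      if_neg (by omega), if_neg (by omega), if_pos (by omega), h2]
  · have h2 : (7 + 5 * j) / 5 - 1 = j := by omega
    show (if 7 + 5 * j = 0 then a else if 7 + 5 * j = 1 then b else if 7 + 5 * j = 2 then c else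
      if (7 + 5 * j) % 5 = 3 then _ else if (7 + 5 * j) % 5 = 4 then _ else
      if (7 + 5 * j) % 5 = 0 then _ else if (7 + 5 * j) % 5 = 1 then _
      else d4 ((7 + 5 * j) / 5 - 1)) = _
    rw [if_neg (by omega), if_neg (by omega), if_neg (by omega), if_neg (by omega),
      if_neg (by omega), if_neg (by omega), if_neg (by omega), h2]

private theorem castD {m : ℕ} (D : MvPolynomial (Option (Fin m)) ℤ) (n : ℕ) (x : Fin m → ℕ) :
    MvPolynomial.aeval (Option.elim' (n : ℂ) fun j => (x j : ℂ)) D =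
      ((MvPolynomial.eval (Option.elim' (n : ℤ) fun i => (x i : ℤ)) D : ℤ) : ℂ) := by
  induction D using MvPolynomial.induction_on with
  | C a => rw [MvPolynomial.aeval_C, MvPolynomial.eval_C]; rfl
  | add p q hp hq => rw [map_add, map_add, hp, hq, Int.cast_add]
  | mul_X p i hp =>
    rw [map_mul, map_mul, hp, MvPolynomial.aeval_X, MvPolynomial.eval_X, Int.cast_mul]
    cases i with
    | none =>
      show _ * (n : ℂ) = _ * (((n : ℤ) : ℤ) : ℂ)
      rw [Int.cast_natCast]
    | some j =>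
      show _ * (x j : ℂ) = _ * (((x j : ℤ) : ℤ) : ℂ)
      rw [Int.cast_natCast]

theorem redIIf {m : ℕ} {D : MvPolynomial (Option (Fin m)) ℤ}
    {Dh : MvPolynomial (Option (Option (Fin m))) ℤ} {d : ℕ}
    (hDh : ∀ (W s : ℂ) (x : Fin m → ℂ),
      MvPolynomial.aeval (Option.elim' W (Option.elim' s fun j => s * x j)) Dh =
        s ^ d * MvPolynomial.aeval (Option.elim' W x) D)
    {L G : List Pol} {n : ℕ}
    (H : ∀ x : Fin (3 + 5 * m) → ℂ, x ∈ pts (3 + 5 * m, eqW n :: L, G) ↔
      pad x 0 = n ∧ PtII m Dh n (pad x 1) (pad x 2) (fun j => pad x (3 + 5 * j))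
        (fun j => pad x (4 + 5 * j)) (fun j => pad x (5 + 5 * j)) (fun j => pad x (6 + 5 * j))
        (fun j => pad x (7 + 5 * j)))
    {𝒢 : Set (ℂ → ℂ)}
    (h𝒢 : ∀ P Q : Polynomial ℂ,
      (fun z : ℂ => P.eval (Complex.exp z) + Q.eval (Complex.exp (-z))) ∈ 𝒢)
    (hx : ∃ x : Fin m → ℕ, MvPolynomial.eval (Option.elim' (n : ℤ) fun i => (x i : ℤ)) D = 0) :
    ¬ HypAt 𝒢 ((3 + 5 * m, eqW n :: L, G), ptII m n) := by
  obtain ⟨x, hx⟩ := hx
  set x' : ℕ → ℕ := fun i => if h : i < m then x ⟨i, h⟩ else 0 with hx'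
  have hx'e : ∀ j : Fin m, x' j = x j := by
    intro j
    rw [hx']
    exact dif_pos j.2
  choose α hα using fun j : ℕ => IsAlgClosed.exists_pow_nat_eq (2 * (x' j : ℂ)) (n := 4) (by norm_num)
  choose β hβ using fun j : ℕ =>
    IsAlgClosed.exists_pow_nat_eq (2 * (x' j : ℂ) - 1) (n := 4) (by norm_num)
  choose S hS using fun j : ℕ => polS (2 * x' j)
  obtain ⟨F, F0, F1, F2, F3, F4, F5, F6, F7⟩ := idx (T := Polynomial ℂ × Polynomial ℂ)
    (Polynomial.C (n : ℂ), 0) (-Polynomial.X, 0) (0, -Polynomial.X)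
    (fun j => (Polynomial.X ^ (2 * x' j), 0)) (fun j => (0, Polynomial.X ^ (2 * x' j)))
    (fun j => (Polynomial.C (α j) * (1 - Polynomial.X), 0))
    (fun j => (Polynomial.C (β j) * (1 - Polynomial.X), 0))
    (fun j => ((1 - Polynomial.X) ^ 4 * (S j).comp (-Polynomial.X), 0))
  set y : ℂ → ℕ → ℂ := fun z i => (F i).1.eval (Complex.exp z) + (F i).2.eval (Complex.exp (-z))
    with hy
  have y0 : ∀ z, y z 0 = n := by
    intro z
    simp only [hy, F0, Polynomial.eval_C, Polynomial.eval_zero, add_zero]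
  have y1 : ∀ z, y z 1 = -Complex.exp z := by
    intro z
    simp only [hy, F1, Polynomial.eval_neg, Polynomial.eval_X, Polynomial.eval_zero, add_zero]
  have y2 : ∀ z, y z 2 = -Complex.exp (-z) := by
    intro z
    simp only [hy, F2, Polynomial.eval_neg, Polynomial.eval_X, Polynomial.eval_zero, zero_add]
  have y3 : ∀ z j, y z (3 + 5 * j) = Complex.exp z ^ (2 * x' j) := by
    intro z j
    simp only [hy, F3, Polynomial.eval_pow, Polynomial.eval_X, Polynomial.eval_zero, add_zero]
  have y4 : ∀ z j, y z (4 + 5 * j) = Complex.exp (-z) ^ (2 * x' j) := by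
    intro z j
    simp only [hy, F4, Polynomial.eval_pow, Polynomial.eval_X, Polynomial.eval_zero, zero_add]
  have y5 : ∀ z j, y z (5 + 5 * j) = α j * (1 - Complex.exp z) := by
    intro z j
    simp only [hy, F5, Polynomial.eval_mul, Polynomial.eval_C, Polynomial.eval_sub,
      Polynomial.eval_one, Polynomial.eval_X, Polynomial.eval_zero, add_zero]
  have y6 : ∀ z j, y z (6 + 5 * j) = β j * (1 - Complex.exp z) := by
    intro z j
    simp only [hy, F6, Polynomial.eval_mul, Polynomial.eval_C, Polynomial.eval_sub,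
      Polynomial.eval_one, Polynomial.eval_X, Polynomial.eval_zero, add_zero]
  have y7 : ∀ z j, y z (7 + 5 * j) = (1 - Complex.exp z) ^ 4 * (S j).eval (-Complex.exp z) := by
    intro z j
    simp only [hy, F7, Polynomial.eval_mul, Polynomial.eval_pow, Polynomial.eval_sub,
      Polynomial.eval_one, Polynomial.eval_X, Polynomial.eval_zero, add_zero,
      Polynomial.eval_comp, Polynomial.eval_neg]
  intro hH
  have hend := hH (fun z (i : Fin (3 + 5 * m)) => y z i) (fun i => h𝒢 _ _) (by
    intro z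
    refine (H _).2 ?_
    have pd : ∀ i, i < 3 + 5 * m → pad (fun i : Fin (3 + 5 * m) => y z i) i = y z i :=
      fun i hi => pad_restrict _ (y z) i hi
    have hexp : Complex.exp z * Complex.exp (-z) = 1 := by
      rw [← Complex.exp_add, add_neg_cancel, Complex.exp_zero]
    have q1 : pad (fun i : Fin (3 + 5 * m) => y z i) 1 = -Complex.exp z := by
      rw [pd 1 (by omega), y1]
    have q2 : pad (fun i : Fin (3 + 5 * m) => y z i) 2 = -Complex.exp (-z) := by
      rw [pd 2 (by omega), y2]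
    have q3 : (fun j : Fin m => pad (fun i : Fin (3 + 5 * m) => y z i) (3 + 5 * j)) =
        fun j => Complex.exp z ^ (2 * x j) := by
      funext j
      rw [pd _ (by omega), y3, hx'e]
    have q4 : (fun j : Fin m => pad (fun i : Fin (3 + 5 * m) => y z i) (4 + 5 * j)) =
        fun j => Complex.exp (-z) ^ (2 * x j) := by
      funext j
      rw [pd _ (by omega), y4, hx'e]
    have q5 : (fun j : Fin m => pad (fun i : Fin (3 + 5 * m) => y z i) (5 + 5 * j)) =
        fun j : Fin m => α j * (1 - Complex.exp z) := by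
      funext j
      rw [pd _ (by omega), y5]
    have q6 : (fun j : Fin m => pad (fun i : Fin (3 + 5 * m) => y z i) (6 + 5 * j)) =
        fun j : Fin m => β j * (1 - Complex.exp z) := by
      funext j
      rw [pd _ (by omega), y6]
    have q7 : (fun j : Fin m => pad (fun i : Fin (3 + 5 * m) => y z i) (7 + 5 * j)) =
        fun j : Fin m => (1 - Complex.exp z) ^ 4 * (S j).eval (-Complex.exp z) := by
      funext j
      rw [pd _ (by omega), y7]
    rw [q1, q2, q3, q4, q5, q6, q7]
    refine ⟨by rw [pd 0 (by omega), y0], ?_, ?_, ?_, ?_, ?_, ?_⟩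
    · rw [neg_mul_neg, hexp]
    · intro j
      rw [← mul_pow, hexp, one_pow]
    · intro j
      have h1 := hα j
      have h2 := hβ j
      rw [mul_pow, mul_pow, h1, h2]
      ring
    · intro j
      have h1 := hα j
      have h2 := hS j (-Complex.exp z)
      rw [hx'e] at h1 h2
      rw [(even_two_mul (x j)).neg_pow] at h2
      push_cast at h2
      rw [mul_pow, h1]
      linear_combination -(1 - Complex.exp z) ^ 4 * h2
    · have h1 : (fun j : Fin m => (α j * (1 - Complex.exp z)) ^ 4) =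
          fun j : Fin m => (2 * (-Complex.exp z + 1) ^ 4) * (x j : ℂ) := by
        funext j
        have h1 := hα j
        rw [hx'e] at h1
        rw [mul_pow, h1]
        ring
      rw [h1, hDh, castD, hx, Int.cast_zero, mul_zero]
    · by_cases h1 : -Complex.exp z + 1 = 0
      · right
        intro j
        have h2 : Complex.exp z = 1 := by linear_combination -h1
        rw [h2, one_pow, sub_self, mul_zero]
        norm_num
      · exact Or.inl h1) ⟨0, by
    obtain ⟨b0, b1, b2, b3⟩ := ptII_get m n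
    intro i
    show y 0 i = (((ptII m n).getD i 0 : ℤ) : ℂ)
    obtain ⟨i, hi⟩ := i
    show y 0 i = (((ptII m n).getD i 0 : ℤ) : ℂ)
    have hi' : i < 3 + 5 * m := hi
    have hcase : i = 0 ∨ i = 1 ∨ i = 2 ∨ ∃ j < m, i = 3 + 5 * j ∨ i = 4 + 5 * j ∨ i = 5 + 5 * j ∨
        i = 6 + 5 * j ∨ i = 7 + 5 * j := by
      by_cases h0 : i < 3
      · omega
      · right
        right
        right
        refine ⟨(i - 3) / 5, ?_, ?_⟩
        · omega
        · omega
    rcases hcase with rfl | rfl | rfl | ⟨j, hj, hij⟩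
    · rw [y0, b0, Int.cast_natCast]
    · rw [y1, b1, Complex.exp_zero]
      norm_num
    · rw [y2, b2, neg_zero, Complex.exp_zero]
      norm_num
    · obtain ⟨c3, c4, c5, c6, c7⟩ := b3 j hj
      rcases hij with rfl | rfl | rfl | rfl | rfl
      · rw [y3, c3, Complex.exp_zero, one_pow, Int.cast_one]
      · rw [y4, c4, neg_zero, Complex.exp_zero, one_pow, Int.cast_one]
      · rw [y5, c5, Complex.exp_zero, sub_self, mul_zero, Int.cast_zero]
      · rw [y6, c6, Complex.exp_zero, sub_self, mul_zero, Int.cast_zero]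
      · rw [y7, c7, Complex.exp_zero, sub_self, Int.cast_zero]
        ring⟩ 0 1
  have h1 := congrFun hend ⟨1, by show 1 < 3 + 5 * m; omega⟩
  have h2 : y 0 1 = y 1 1 := h1
  rw [y1, y1, Complex.exp_zero, neg_inj] at h2
  have h3 : ((1 : ℝ) : ℂ) = ((Real.exp 1 : ℝ) : ℂ) := by
    rw [Complex.ofReal_exp, Complex.ofReal_one]
    exact h2
  have h4 : (1 : ℝ) = Real.exp 1 := Complex.ofReal_injective h3
  have h5 := Real.add_one_lt_exp (one_ne_zero : (1 : ℝ) ≠ 0)
  linarith

end Pool.Agent.Work.MP_90e0ad_ag.GR
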