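import Mathlib

/-!
Module Jen (S): Jensen's inequality. PROOF. Mathlib's AnalyticOnNhd.circleAverage_log_norm: the sum has nonnegative
terms (divisor of an analytic function >= 0: AnalyticOnNhd.divisor_nonneg; log (r * |c-u|^(-1)) >= 0 for u in the
closed ball, and for u = c the divisor is 0 or the term is 0). Integrability:
MeromorphicOn.circleIntegrable_log_norm (see the proof of AnalyticOnNhd.sum_divisor_le in
Mathlib.Analysis.Complex.JensenFormula).
-/

set_option autoImplicit false

namespace Pool.Agent.Work.MP_90e0ad_ag.GR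

theorem jen_int {h : ℂ → ℂ} (hh : Differentiable ℂ h) (c : ℂ) (r : ℝ) :
    CircleIntegrable (fun z => Real.log ‖h z‖) c r := by
  have h1 : AnalyticOnNhd ℂ h (Metric.sphere c |r|) := fun z _ => hh.analyticAt z
  exact h1.meromorphicOn.circleIntegrable_log_norm

theorem jen {h : ℂ → ℂ} (hh : Differentiable ℂ h) {c : ℂ} (hc : h c ≠ 0) {r : ℝ} (hr : 0 < r) :
    Real.log ‖h c‖ ≤ Real.circleAverage (fun z => Real.log ‖h z‖) c r := by
  have h1 : AnalyticOnNhd ℂ h (Metric.closedBall c |r|) := fun z _ => hh.analyticAt z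
  have h2 := h1.circleAverage_log_norm hr.ne' hc
  have h3 : (0 : ℝ) ≤ ∑ᶠ u, (MeromorphicOn.divisor h (Metric.closedBall c |r|) u : ℝ) *
      Real.log (r * ‖c - u‖⁻¹) := by
    refine finsum_nonneg fun u => ?_
    by_cases hu : u ∈ Metric.closedBall c |r|
    · refine mul_nonneg (mod_cast MeromorphicOn.AnalyticOnNhd.divisor_nonneg h1 u) ?_
      by_cases huc : u = c
      · rw [huc, sub_self, norm_zero, inv_zero, mul_zero, Real.log_zero]
      · have h4 : 0 < ‖c - u‖ := norm_pos_iff.2 (sub_ne_zero.2 (Ne.symm huc))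
        refine Real.log_nonneg ?_
        rw [← div_eq_mul_inv, one_le_div h4, ← dist_eq_norm, dist_comm]
        rw [Metric.mem_closedBall, abs_of_pos hr] at hu
        exact hu
    · rw [Function.locallyFinsuppWithin.apply_eq_zero_of_notMem _ hu]
      simp
  rw [h2]
  linarith

end Pool.Agent.Work.MP_90e0ad_ag.GR
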