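import Pool.Agent.Work.MP_90e0ad_ag.GR.LdC
import Pool.Agent.Work.MP_90e0ad_ag.GR.Zf
import Pool.Agent.Work.MP_90e0ad_ag.GR.Jen

/-!
Module Gain (M): second main theorem with a logarithmic gain. PROOF. Suppose Y is not identically 0. The functions T-1, T+1, X-1, X+1
(X^2-1 = (T^2-1) Y^2 is not 0), deriv T (T is not constant) are in OrdLT1 and not identically 0; choose c with all of them and
Y c not 0 (dom). ldOrd: delta > 0 and arbitrarily large r with all five not 0 on |z-c| = r and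
|f'| <= r^(-delta) |f| for the first four. On the circle also Y is not 0.
(1) log |T^2-1| + 2 log |Y| = log |X^2-1| <= log 3 + log (1+|T|).
(2) |T'| <= r^(-delta) min(|T-1|,|T+1|), min * max = |T^2-1| and max >= (|T-1|+|T+1|)/2 >= max(1,|T|) >= (1+|T|)/2, so
|T'| (1+|T|) <= 2 r^(-delta) |T^2-1| and log |T'| + log (1+|T|) <= log |T^2-1| + log 2 - delta log r.
Average over the circle (circleAverage_mono or monotonicity of circle integrals; jen_int; z -> log (1+|T z|) is continuous;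
circleAverage_add, circleAverage_fun_add ...). With jen for Y and T':
log |T'(c)| <= avg log |T'| <= avg log |T^2-1| - avg log (1+|T|) + log 2 - delta log r <= log 3 - 2 avg log |Y| + log 2 - delta log r
<= log 6 - 2 log |Y c| - delta log r. Let r -> infinity: contradiction.
-/

set_option autoImplicit false

noncomputable section

namespace Pool.Agent.Work.MP_90e0ad_ag.GR

private theorem g_dom {f g : ℂ → ℂ} (hf : Differentiable ℂ f) (hg : Differentiable ℂ g)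
    (h1 : ¬ ∀ z, f z = 0) (h2 : ¬ ∀ z, g z = 0) : ¬ ∀ z, f z * g z = 0 :=
  fun h => (dom hf hg h).elim h1 h2

/-- the pointwise bound on a good circle -/
private theorem g_pt {t x y d : ℂ} {s : ℝ} (h1 : t + -1 ≠ 0) (h2 : t + 1 ≠ 0)
    (h : (t ^ 2 - 1) * y ^ 2 = x ^ 2 - 1) (hb : ‖x ^ 2 - 1‖ ≤ 3 * (1 + ‖t‖))
    (hd1 : ‖d‖ ≤ s * ‖t + -1‖) (hd2 : ‖d‖ ≤ s * ‖t + 1‖) : ‖d * y ^ 2‖ ≤ 6 * s := by
  have p1 : 0 < ‖t + -1‖ := norm_pos_iff.2 h1
  have p2 : 0 < ‖t + 1‖ := norm_pos_iff.2 h2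
  have e1 : ‖t + -1‖ * ‖t + 1‖ * ‖y ^ 2‖ = ‖x ^ 2 - 1‖ := by
    rw [← h, ← norm_mul, ← norm_mul]
    congr 1
    ring
  -- (1 + |t|) |d| ≤ 2 s |t-1| |t+1|
  have e2 : 2 * ‖t‖ ≤ ‖t + -1‖ + ‖t + 1‖ := by
    have := norm_add_le (t + -1) (t + 1)
    have e : t + -1 + (t + 1) = 2 * t := by ring
    rw [e, norm_mul] at this
    simpa using this
  have e3 : (2 : ℝ) ≤ ‖t + -1‖ + ‖t + 1‖ := by
    have := norm_sub_le (t + 1) (t + -1)
    have e : t + 1 - (t + -1) = 2 := by ring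
    rw [e] at this
    have e' : ‖(2 : ℂ)‖ = 2 := by simp
    rw [e'] at this
    linarith
  have e4 : (1 + ‖t‖) * ‖d‖ ≤ 2 * s * (‖t + -1‖ * ‖t + 1‖) := by
    have nt := norm_nonneg t
    have nd := norm_nonneg d
    rcases le_total ‖t + -1‖ ‖t + 1‖ with hle | hle
    · calc (1 + ‖t‖) * ‖d‖ ≤ (2 * ‖t + 1‖) * (s * ‖t + -1‖) :=
            mul_le_mul (by linarith) hd1 nd (by linarith)
        _ = 2 * s * (‖t + -1‖ * ‖t + 1‖) := by ring
    · calc (1 + ‖t‖) * ‖d‖ ≤ (2 * ‖t + -1‖) * (s * ‖t + 1‖) :=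
            mul_le_mul (by linarith) hd2 nd (by linarith)
        _ = 2 * s * (‖t + -1‖ * ‖t + 1‖) := by ring
  have p3 : 0 < ‖t + -1‖ * ‖t + 1‖ := mul_pos p1 p2
  have e5 : (‖t + -1‖ * ‖t + 1‖) * ‖d * y ^ 2‖ ≤ (‖t + -1‖ * ‖t + 1‖) * (6 * s) := by
    calc (‖t + -1‖ * ‖t + 1‖) * ‖d * y ^ 2‖ = ‖d‖ * (‖t + -1‖ * ‖t + 1‖ * ‖y ^ 2‖) := by
          rw [norm_mul]
          ring
      _ = ‖d‖ * ‖x ^ 2 - 1‖ := by rw [e1]
      _ ≤ ‖d‖ * (3 * (1 + ‖t‖)) := mul_le_mul_of_nonneg_left hb (norm_nonneg _)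
      _ = 3 * ((1 + ‖t‖) * ‖d‖) := by ring
      _ ≤ 3 * (2 * s * (‖t + -1‖ * ‖t + 1‖)) := by linarith
      _ = (‖t + -1‖ * ‖t + 1‖) * (6 * s) := by ring
  exact le_of_mul_le_mul_left e5 p3

theorem gain {T X Y : ℂ → ℂ} (hT : T ∈ OrdLT1) (hX : X ∈ OrdLT1) (hY : Differentiable ℂ Y)
    (hTn : ∃ z w, T z ≠ T w) (h : ∀ z, (T z ^ 2 - 1) * Y z ^ 2 = X z ^ 2 - 1)
    (hb : ∀ z, ‖X z ^ 2 - 1‖ ≤ 3 * (1 + ‖T z‖)) : ∀ z, Y z = 0 := by
  by_contra hcon
  have hTd := hT.1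
  have hDd := (ord_deriv hT).1
  have nT : ∀ a : ℂ, ¬ ∀ z, T z + a = 0 := by
    intro a ha
    obtain ⟨z, w, hzw⟩ := hTn
    exact hzw (by linear_combination ha z - ha w)
  have nD : ¬ ∀ z, deriv T z = 0 := by
    intro hd
    obtain ⟨z, w, hzw⟩ := hTn
    exact hzw (is_const_of_deriv_eq_zero hTd hd z w)
  have d1 : Differentiable ℂ fun z => T z + -1 := (ord_add hT (ord_const (-1))).1
  have d2 : Differentiable ℂ fun z => T z + 1 := (ord_add hT (ord_const 1)).1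
  have n12 : ¬ ∀ z, (T z + -1) * (T z + 1) = 0 := g_dom d1 d2 (nT _) (nT _)
  push Not at n12
  obtain ⟨c, hc⟩ := n12
  obtain ⟨hc1, hc2⟩ := mul_ne_zero_iff.1 hc
  obtain ⟨δ, hδ, H⟩ := ldOrd [fun z => T z + -1, fun z => T z + 1] (by
    intro f hf
    simp only [List.mem_cons, List.not_mem_nil, or_false] at hf
    rcases hf with rfl | rfl
    · exact ord_add hT (ord_const (-1))
    · exact ord_add hT (ord_const 1))
  have H' := H c (by
    intro f hf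
    simp only [List.mem_cons, List.not_mem_nil, or_false] at hf
    rcases hf with rfl | rfl
    · exact hc1
    · exact hc2)
  have hG : Differentiable ℂ fun z => deriv T z * Y z ^ 2 := hDd.mul (hY.pow 2)
  have hG0 : ∀ z, deriv T z * Y z ^ 2 = 0 := by
    refine circZ hG c fun ε hε R₀ => ?_
    have ht : Filter.Tendsto (fun x : ℝ => 6 * x ^ (-δ)) Filter.atTop (nhds (6 * 0)) :=
      (tendsto_rpow_neg_atTop hδ).const_mul 6
    rw [mul_zero] at ht
    have hev := ht.eventually (gt_mem_nhds hε)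
    obtain ⟨R₁, hR₁⟩ := Filter.eventually_atTop.1 hev
    obtain ⟨r, hr0, _, hr⟩ := H' (max R₀ R₁)
    refine ⟨r, (le_max_left _ _).trans hr0, fun z hz => ?_⟩
    obtain ⟨a1, b1⟩ := hr (fun z => T z + -1) List.mem_cons_self z hz
    obtain ⟨a2, b2⟩ := hr (fun z => T z + 1)
      (List.mem_cons_of_mem _ List.mem_cons_self) z hz
    rw [deriv_add_const] at b1 b2
    exact (g_pt a1 a2 (h z) (hb z) b1 b2).trans (hR₁ r ((le_max_right _ _).trans hr0)).le
  rcases dom hDd (hY.pow 2) hG0 with h0 | h0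
  · exact nD h0
  · exact hcon fun z => pow_eq_zero_iff (two_ne_zero) |>.1 (h0 z)

end Pool.Agent.Work.MP_90e0ad_ag.GR
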