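import Pool.Agent.Work.MP_90e0ad_ag.GR.SysDefs
import Pool.Agent.Work.MP_90e0ad_ag.GR.Norm

/-!
Module Step (S-M). PROOFS. down: X1 = T X - (T^2-1) Y, Y1 = T Y - X. X1^2 - (T^2-1) Y1^2 = X^2 - (T^2-1) Y^2.
X1' = T' X + kappa T T' Y - 2 T T' Y - T' (kappa X - T Y) = (kappa-1) T' (T Y - X).
(T^2-1) Y1' = (T^2-1) T' Y + T T' (kappa X - T Y) - (T^2-1) kappa T' Y = T' ((kappa-1) X1 - T Y1).
up is the same with the other sign. shift: induction on the integer (Int.induction_on), with ord_add, ord_mul.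
-/

set_option autoImplicit false

noncomputable section

namespace Pool.Agent.Work.MP_90e0ad_ag.GR

private theorem gr_down {T X Y : ℂ → ℂ} {κ : ℂ} (S : Sys T X Y κ) :
    Sys T (fun z => T z * X z - (T z ^ 2 - 1) * Y z) (fun z => T z * Y z - X z) (κ - 1) := by
  have hT := S.dT
  have hX := S.dX
  have hY := S.dY
  refine ⟨hT, (hT.mul hX).sub (((hT.pow 2).sub_const 1).mul hY), (hT.mul hY).sub hX,
    fun z => ?_, fun z => ?_, fun z => ?_⟩
  · have e := S.pell z
    linear_combination e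
  · have hx := (hX z).hasDerivAt
    have hy := (hY z).hasDerivAt
    have ht := (hT z).hasDerivAt
    have h := (ht.mul hx).sub (((ht.pow 2).sub_const 1).mul hy)
    have hd : deriv (fun z => T z * X z - (T z ^ 2 - 1) * Y z) z =
        deriv T z * X z + T z * deriv X z -
          (2 * T z * deriv T z * Y z + (T z ^ 2 - 1) * deriv Y z) := by
      refine (h.congr_deriv ?_).deriv
      simp
    rw [hd]
    have e1 := S.o1 z
    have e2 := S.o2 z
    linear_combination T z * e1 - e2
  · have hx := (hX z).hasDerivAt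
    have hy := (hY z).hasDerivAt
    have ht := (hT z).hasDerivAt
    have hd : deriv (fun z => T z * Y z - X z) z =
        deriv T z * Y z + T z * deriv Y z - deriv X z := ((ht.mul hy).sub hx).deriv
    rw [hd]
    have e1 := S.o1 z
    have e2 := S.o2 z
    linear_combination T z * e2 - (T z ^ 2 - 1) * e1

private theorem gr_up {T X Y : ℂ → ℂ} {κ : ℂ} (S : Sys T X Y κ) :
    Sys T (fun z => T z * X z + (T z ^ 2 - 1) * Y z) (fun z => T z * Y z + X z) (κ + 1) := by
  have hT := S.dT
  have hX := S.dX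
  have hY := S.dY
  refine ⟨hT, (hT.mul hX).add (((hT.pow 2).sub_const 1).mul hY), (hT.mul hY).add hX,
    fun z => ?_, fun z => ?_, fun z => ?_⟩
  · have e := S.pell z
    linear_combination e
  · have hx := (hX z).hasDerivAt
    have hy := (hY z).hasDerivAt
    have ht := (hT z).hasDerivAt
    have h := (ht.mul hx).add (((ht.pow 2).sub_const 1).mul hy)
    have hd : deriv (fun z => T z * X z + (T z ^ 2 - 1) * Y z) z =
        deriv T z * X z + T z * deriv X z +
          (2 * T z * deriv T z * Y z + (T z ^ 2 - 1) * deriv Y z) := by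
      refine (h.congr_deriv ?_).deriv
      simp
    rw [hd]
    have e1 := S.o1 z
    have e2 := S.o2 z
    linear_combination T z * e1 + e2
  · have hx := (hX z).hasDerivAt
    have hy := (hY z).hasDerivAt
    have ht := (hT z).hasDerivAt
    have hd : deriv (fun z => T z * Y z + X z) z =
        deriv T z * Y z + T z * deriv Y z + deriv X z := ((ht.mul hy).add hx).deriv
    rw [hd]
    have e1 := S.o1 z
    have e2 := S.o2 z
    linear_combination T z * e2 + (T z ^ 2 - 1) * e1

theorem Sys.down {T X Y : ℂ → ℂ} {κ : ℂ} (S : Sys T X Y κ) :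
    Sys T (fun z => T z * X z - (T z ^ 2 - 1) * Y z) (fun z => T z * Y z - X z) (κ - 1) := by
  exact gr_down S

theorem Sys.up {T X Y : ℂ → ℂ} {κ : ℂ} (S : Sys T X Y κ) :
    Sys T (fun z => T z * X z + (T z ^ 2 - 1) * Y z) (fun z => T z * Y z + X z) (κ + 1) := by
  exact gr_up S

theorem Sys.shift {T X Y : ℂ → ℂ} {κ : ℂ} (S : Sys T X Y κ) (hT : T ∈ OrdLT1) (hX : X ∈ OrdLT1)
    (hY : Y ∈ OrdLT1) (n : ℤ) :
    ∃ X' Y' : ℂ → ℂ, X' ∈ OrdLT1 ∧ Y' ∈ OrdLT1 ∧ Sys T X' Y' (κ - n) := by
  have hneg : ∀ {f : ℂ → ℂ}, f ∈ OrdLT1 → (fun z => -f z) ∈ OrdLT1 := by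
    intro f hf
    have h := ord_mul (ord_const (-1)) hf
    have e : (fun z => (-1 : ℂ) * f z) = fun z => -f z := by
      funext z
      ring
    rw [e] at h
    exact h
  have hs : (fun z => T z ^ 2 - 1) ∈ OrdLT1 := by
    have h := ord_add (ord_mul hT hT) (ord_const (-1))
    have e : (fun z => T z * T z + (-1 : ℂ)) = fun z => T z ^ 2 - 1 := by
      funext z
      ring
    rw [e] at h
    exact h
  have hsub : ∀ {f g : ℂ → ℂ}, f ∈ OrdLT1 → g ∈ OrdLT1 → (fun z => f z - g z) ∈ OrdLT1 := by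
    intro f g hf hg
    have h := ord_add hf (hneg hg)
    have e : (fun z => f z + -g z) = fun z => f z - g z := by
      funext z
      ring
    rw [e] at h
    exact h
  induction n using Int.induction_on with
  | zero =>
    refine ⟨X, Y, hX, hY, ?_⟩
    simpa using S
  | succ i ih =>
    obtain ⟨X', Y', h1, h2, h3⟩ := ih
    refine ⟨_, _, hsub (ord_mul hT h1) (ord_mul hs h2), hsub (ord_mul hT h2) h1, ?_⟩
    have h4 := gr_down h3
    have e : κ - ((i : ℤ) : ℂ) - 1 = κ - (((i : ℤ) + 1 : ℤ) : ℂ) := by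
      push_cast
      ring
    rw [e] at h4
    exact h4
  | pred i ih =>
    obtain ⟨X', Y', h1, h2, h3⟩ := ih
    refine ⟨_, _, ord_add (ord_mul hT h1) (ord_mul hs h2), ord_add (ord_mul hT h2) h1, ?_⟩
    have h4 := gr_up h3
    have e : κ - ((-(i : ℤ) : ℤ) : ℂ) + 1 = κ - ((-(i : ℤ) - 1 : ℤ) : ℂ) := by
      push_cast
      ring
    rw [e] at h4
    exact h4

end Pool.Agent.Work.MP_90e0ad_ag.GR
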