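import Pool.Agent.Work.MP_90e0ad_ag.GR.SysNul

/-!
Module SysBd (S-M). PROOFS. sysReal: compare imaginary parts in sysNul: im kappa * log |T+w| = 0 for all z and w. If
im kappa is not 0 then |T z + w| = 1 = |T z - w| for all z, so |T z| <= 1 and T is constant by Liouville
(Differentiable.apply_eq_apply_of_bounded), a contradiction.
sysBd: kappa = a real, |a| <= 1/2: |X + wY| = |T+w|^a, |X - wY| = |T-w|^a = |T+w|^(-a) (log_sub, log_sub2), and
m = max(|T+w|, |T-w|) >= 1 as the product is 1, so |X| <= m^(1/2), m <= 2|T| + 1 (|w|^2 <= |T|^2 + 1), so |X|^2 <= 2|T| + 1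
and |X^2 - 1| <= 2|T| + 2.
-/

set_option autoImplicit false

noncomputable section

namespace Pool.Agent.Work.MP_90e0ad_ag.GR

private theorem gr_im {κ : ℂ} {a b : ℝ} (h : (a : ℂ) = (starRingEnd ℂ κ) * (b : ℂ)) :
    0 = κ.im * b := by
  have h2 := congrArg Complex.im h
  simp only [Complex.ofReal_im, Complex.mul_im, Complex.conj_re, Complex.conj_im,
    Complex.ofReal_re, mul_zero, zero_add] at h2
  linarith

private theorem gr_log {x : ℂ} (h : Real.log ‖x‖ = 0) : ‖x‖ ≤ 1 := by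
  rcases Real.log_eq_zero.1 h with h | h | h
  · rw [h]
    exact zero_le_one
  · exact h.le
  · rw [h]
    norm_num

private theorem gr_real {T X Y : ℂ → ℂ} {κ : ℂ} (S : Sys T X Y κ) (hT : T ∈ OrdLT1)
    (hTn : ∃ z w, T z ≠ T w) : κ.im = 0 := by
  by_contra him
  obtain ⟨z₁, z₂, hne⟩ := hTn
  apply hne
  have hb : ∀ z, ‖T z‖ ≤ 1 := by
    intro z
    have hw := rt_sq (T z)
    have h0 := sysNul S hT ⟨z₁, z₂, hne⟩ hw
    have h1 : Real.log ‖T z + rt (T z)‖ = 0 := by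
      have h2 := gr_im h0
      rcases mul_eq_zero.1 h2.symm with h3 | h3
      · exact absurd h3 him
      · exact h3
    have h2 : Real.log ‖T z - rt (T z)‖ = 0 := by
      rw [log_sub hw, h1, neg_zero]
    have h3 : ‖T z + rt (T z)‖ ≤ 1 := gr_log h1
    have h4 : ‖T z - rt (T z)‖ ≤ 1 := gr_log h2
    have h5 : ‖2 * T z‖ ≤ ‖T z + rt (T z)‖ + ‖T z - rt (T z)‖ := by
      refine le_trans (le_of_eq ?_) (norm_add_le _ _)
      congr 1
      ring
    rw [norm_mul] at h5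
    have h6 : ‖(2 : ℂ)‖ = 2 := by simp
    rw [h6] at h5
    linarith
  have hbd : Bornology.IsBounded (Set.range T) := by
    refine (Metric.isBounded_closedBall (x := (0 : ℂ)) (r := 1)).subset ?_
    rintro _ ⟨z, rfl⟩
    rw [mem_closedBall_zero_iff]
    exact hb z
  exact Differentiable.apply_eq_apply_of_bounded S.dT hbd z₁ z₂

theorem sysReal {T X Y : ℂ → ℂ} {κ : ℂ} (S : Sys T X Y κ) (hT : T ∈ OrdLT1)
    (hTn : ∃ z w, T z ≠ T w) : κ.im = 0 := by
  exact gr_real S hT hTn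

theorem sysBd {T X Y : ℂ → ℂ} {κ : ℂ} (S : Sys T X Y κ) (hT : T ∈ OrdLT1)
    (hTn : ∃ z w, T z ≠ T w) (hκ : |κ.re| ≤ 1 / 2) (z : ℂ) :
    ‖X z ^ 2 - 1‖ ≤ 3 * (1 + ‖T z‖) := by
  have hr := gr_real S hT hTn
  have hw := rt_sq (T z)
  have h0 := sysNul S hT hTn hw
  set l : ℝ := Real.log ‖T z + rt (T z)‖ with hl
  have h1 : Real.log ‖X z + rt (T z) * Y z‖ = κ.re * l := by
    have h2 := congrArg Complex.re h0
    simpa [Complex.mul_re] using h2
  have h2 : Real.log ‖X z - rt (T z) * Y z‖ = -(κ.re * l) := by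
    rw [log_sub2 hw (S.pell z), h1]
  have hn1 : X z + rt (T z) * Y z ≠ 0 := add_ne2 hw (S.pell z)
  have hn2 : X z - rt (T z) * Y z ≠ 0 := by
    intro h
    have h3 := S.pell z
    have h4 : (X z + rt (T z) * Y z) * (X z - rt (T z) * Y z) = 1 := by
      linear_combination h3 - Y z ^ 2 * hw
    rw [h, mul_zero] at h4
    exact zero_ne_one h4
  have h3 : ‖X z + rt (T z) * Y z‖ = Real.exp (κ.re * l) := by
    rw [← h1, Real.exp_log (norm_pos_iff.2 hn1)]
  have h4 : ‖X z - rt (T z) * Y z‖ = Real.exp (-(κ.re * l)) := by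
    rw [← h2, Real.exp_log (norm_pos_iff.2 hn2)]
  have h5 : |κ.re * l| ≤ |l| / 2 := by
    rw [abs_mul]
    have := mul_le_mul_of_nonneg_right hκ (abs_nonneg l)
    linarith
  have h6 : Real.exp (κ.re * l) ≤ Real.exp (|l| / 2) :=
    Real.exp_le_exp.2 ((le_abs_self _).trans h5)
  have h7 : Real.exp (-(κ.re * l)) ≤ Real.exp (|l| / 2) :=
    Real.exp_le_exp.2 ((neg_le_abs _).trans h5)
  have h8 : ‖2 * X z‖ ≤ ‖X z + rt (T z) * Y z‖ + ‖X z - rt (T z) * Y z‖ := by
    refine le_trans (le_of_eq ?_) (norm_add_le _ _)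
    congr 1
    ring
  rw [norm_mul] at h8
  have h9 : ‖(2 : ℂ)‖ = 2 := by simp
  rw [h9] at h8
  have h10 : ‖X z‖ ≤ Real.exp (|l| / 2) := by linarith
  have h11 : ‖X z‖ ^ 2 ≤ Real.exp |l| := by
    have e : Real.exp |l| = Real.exp (|l| / 2) ^ 2 := by
      rw [← Real.exp_nat_mul]
      congr 1
      push_cast
      ring
    rw [e]
    exact pow_le_pow_left₀ (norm_nonneg _) h10 2
  have h12 : Real.exp |l| ≤ 2 * ‖T z‖ + 1 := by
    have h13 : (0 : ℝ) < 2 * ‖T z‖ + 1 := by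
      have := norm_nonneg (T z)
      linarith
    rw [← Real.exp_log h13]
    exact Real.exp_le_exp.2 (log_le hw)
  have h14 : ‖X z ^ 2 - 1‖ ≤ ‖X z‖ ^ 2 + 1 := by
    refine (norm_sub_le _ _).trans ?_
    rw [norm_pow, norm_one]
  have := norm_nonneg (T z)
  linarith

end Pool.Agent.Work.MP_90e0ad_ag.GR
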