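import Pool.Agent.Work.MP_90e0ad_ag.GR.PellZ
import Pool.Agent.Work.MP_90e0ad_ag.GR.SysBd
import Pool.Agent.Work.MP_90e0ad_ag.GR.Gain
import Pool.Agent.Work.MP_90e0ad_ag.GR.Step

/-!
Module Rigid (S-M). PROOFS. sysInt: kappa is real (sysReal). Let n = round (re kappa), (X',Y') from shift for kappa' = kappa - n, so
|re kappa'| <= 1/2. sysBd and gain (with h from pell) give Y' = 0, so X'^2 = 1 by pell, and o2 gives
0 = T' kappa' X' at every z; T' is not identically 0 (T not constant: is_const_of_deriv_eq_zero), so kappa' = 0, kappa = n.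
rigid: if Y is identically 0 then at a point with T = 1 (surjOrd) h2 gives k^2 = 0, k = 0. Otherwise pellZ gives kappa
with kappa^2 = k^2 and Sys, sysInt gives kappa = n, so k = n or k = -n.
-/

set_option autoImplicit false

noncomputable section

namespace Pool.Agent.Work.MP_90e0ad_ag.GR

theorem sysInt {T X Y : ℂ → ℂ} {κ : ℂ} (S : Sys T X Y κ) (hT : T ∈ OrdLT1) (hX : X ∈ OrdLT1)
    (hY : Y ∈ OrdLT1) (hTn : ∃ z w, T z ≠ T w) : ∃ n : ℤ, κ = n := by
  have him := sysReal S hT hTn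
  obtain ⟨X', Y', hX', hY', S'⟩ := Sys.shift S hT hX hY (round κ.re)
  have hre : |(κ - (round κ.re : ℤ)).re| ≤ 1 / 2 := by
    have h1 := abs_sub_round κ.re
    simpa using h1
  have hb := sysBd S' hT hTn hre
  have hY0 : ∀ z, Y' z = 0 := gain hT hX' hY'.1 hTn
    (fun z => by linear_combination S'.pell z * (-1)) hb
  have hYf : Y' = fun _ => 0 := funext hY0
  by_cases hk : κ - (round κ.re : ℤ) = 0
  · exact ⟨round κ.re, sub_eq_zero.1 hk⟩
  · exfalso
    have hD : ∀ z, deriv T z = 0 := by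
      intro z
      have h2 := S'.o2 z
      have h3 := S'.pell z
      rw [hY0 z] at h2 h3
      have h4 : deriv Y' z = 0 := by
        rw [hYf]
        simp
      rw [h4] at h2
      have h5 : X' z ≠ 0 := by
        intro h6
        rw [h6] at h3
        simp at h3
      have h7 : deriv T z * ((κ - (round κ.re : ℤ)) * X' z) = 0 := by
        linear_combination h2 * (-1)
      rcases mul_eq_zero.1 h7 with h8 | h8
      · exact h8
      · exact absurd h8 (mul_ne_zero hk h5)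
    obtain ⟨z, w, hzw⟩ := hTn
    exact hzw (is_const_of_deriv_eq_zero hT.1 hD z w)

theorem rigid {T X Y Z : ℂ → ℂ} (hT : T ∈ OrdLT1) (hX : X ∈ OrdLT1) (hY : Y ∈ OrdLT1)
    (hZ : Differentiable ℂ Z) {k : ℂ} (h1 : ∀ z, X z ^ 2 - (T z ^ 2 - 1) * Y z ^ 2 = 1)
    (h2 : ∀ z, Y z ^ 2 = k ^ 2 + (T z ^ 2 - 1) * Z z) (hTn : ∃ z w, T z ≠ T w) :
    ∃ n : ℤ, k = n := by
  by_cases hY0 : ∀ z, Y z = 0
  · obtain ⟨z, hz⟩ := surjOrd hT hTn 1
    have h3 := h2 z
    rw [hY0 z, hz] at h3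
    refine ⟨0, ?_⟩
    have h4 : k ^ 2 = 0 := by linear_combination h3 * (-1)
    rw [Int.cast_zero]
    exact (pow_eq_zero_iff two_ne_zero).1 h4
  · push Not at hY0
    obtain ⟨κ, hκ, S⟩ := pellZ hT hX hY.1 hZ h1 h2 hTn hY0
    obtain ⟨n, hn⟩ := sysInt S hT hX hY hTn
    rcases sq_eq_sq_iff_eq_or_eq_neg.1 hκ with h3 | h3
    · exact ⟨n, by rw [← h3, hn]⟩
    · refine ⟨-n, ?_⟩
      rw [Int.cast_neg, ← hn, h3, neg_neg]

end Pool.Agent.Work.MP_90e0ad_ag.GR
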