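import Pool.Agent.Work.MP_90e0ad_ag.GR.VarI
import Pool.Agent.Work.MP_90e0ad_ag.GR.Rigid

/-!
Module RedIb (M): no solution, then every curve is constant. PROOF. Let f be a curve in pts with coordinates in the class, inside OrdLT1. Put W = pad (f z) 0 and so on; each
coordinate i < 2+4m is in OrdLT1 (pad (f z) i = f z i). W = n. K_j: 2 K_j - 1 has no zeros and is in OrdLT1 (ord_add, ord_mul, ord_const), so K_j = k_j is constant (zfOrd).
Case A: T not constant. rigid gives k_j in Z for every j, so e3 gives an integer zero of D(n, .): contradiction with hx (cast back: aeval at casts = cast of eval, Int.cast_injective).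
Case B: T = t constant, t^2 not 1. Let d^2 = t^2 - 1, d not 0. (X_j - d Y_j)(X_j + d Y_j) = 1, so both factors have no zeros and are in OrdLT1, hence constant; so are X_j, Y_j, and
Z_j = (Y_j^2 - k_j^2)/(t^2-1).
Case C: t^2 = 1. X_j^2 = 1, so (X_j - 1)(X_j + 1) = 0 and X_j is constant (dom). Y_j^2 = k_j^2, the same. By e5, 3 Z_j - 1 has no zeros, so Z_j is constant.
In cases B and C all coordinates are constant: f z = f w (funext; every index i < 2+4m is 0, 1 or 2+4j+r with r < 4: j = (i-2)/4).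
-/

set_option autoImplicit false

noncomputable section

namespace Pool.Agent.Work.MP_90e0ad_ag.GR

private theorem rb_pad_ord {N : ℕ} {f : ℂ → Fin N → ℂ} {𝒢 : Set (ℂ → ℂ)} (h𝒢 : 𝒢 ⊆ OrdLT1)
    (hf : ∀ i, (fun z => f z i) ∈ 𝒢) (i : ℕ) : (fun z => pad (f z) i) ∈ OrdLT1 := by
  by_cases h : i < N
  · have h1 : (fun z => pad (f z) i) = fun z => f z ⟨i, h⟩ := by
      funext z
      simp only [pad, dif_pos h]
    rw [h1]
    exact h𝒢 (hf ⟨i, h⟩)
  · have h1 : (fun z => pad (f z) i) = fun _ => (0 : ℂ) := by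
      funext z
      simp only [pad, dif_neg h]
    rw [h1]
    exact ord_const 0

private theorem rb_lin {a : ℂ → ℂ} (ha : a ∈ OrdLT1) (p q : ℂ) :
    (fun z => p * a z + q) ∈ OrdLT1 :=
  ord_add (ord_mul (ord_const p) ha) (ord_const q)

private theorem rb_const {a : ℂ → ℂ} (ha : a ∈ OrdLT1) {p q : ℂ} (hp : p ≠ 0)
    (h0 : ∀ z, p * a z + q ≠ 0) : ∀ z w, a z = a w := by
  intro z w
  have h1 := zfOrd (rb_lin ha p q) h0 z w
  have h2 : p * a z + q = p * a w + q := h1
  exact mul_left_cancel₀ hp (add_right_cancel h2)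

private theorem rb_cast {m : ℕ} (D : MvPolynomial (Option (Fin m)) ℤ) (n : ℕ) (x : Fin m → ℤ)
    (K : Fin m → ℂ) (hK : ∀ j, K j = (x j : ℂ))
    (h : MvPolynomial.aeval (Option.elim' (n : ℂ) K) D = 0) :
    MvPolynomial.eval (Option.elim' (n : ℤ) x) D = 0 := by
  have h1 : (Option.elim' (n : ℂ) K) =
      ⇑(algebraMap ℤ ℂ) ∘ (Option.elim' (n : ℤ) x) := by
    funext o
    cases o with
    | none => simp
    | some j => simp [hK j]
  rw [h1, MvPolynomial.aeval_algebraMap_apply] at h
  have h2 : (MvPolynomial.aeval (Option.elim' (n : ℤ) x)) D = 0 := by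
    have h3 : ((MvPolynomial.aeval (Option.elim' (n : ℤ) x) D : ℤ) : ℂ) = 0 := by
      simpa using h
    exact_mod_cast h3
  simpa [MvPolynomial.coe_aeval_eq_eval] using h2

private theorem rb_caseB {X Y : ℂ → ℂ} (hX : X ∈ OrdLT1) (hY : Y ∈ OrdLT1) {t : ℂ}
    (ht : t ^ 2 - 1 ≠ 0) (h : ∀ z, X z ^ 2 - (t ^ 2 - 1) * Y z ^ 2 = 1) :
    (∀ z w, X z = X w) ∧ ∀ z w, Y z = Y w := by
  obtain ⟨d, hd⟩ := IsAlgClosed.exists_pow_nat_eq (t ^ 2 - 1) (n := 2) (by norm_num)
  have hd0 : d ≠ 0 := by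
    intro h0
    rw [h0] at hd
    exact ht (by rw [← hd]; norm_num)
  have hm : ∀ z, (X z + (-d) * Y z) * (X z + d * Y z) = 1 := by
    intro z
    have h1 := h z
    rw [← hd] at h1
    linear_combination h1
  have h1 : (fun z => X z + (-d) * Y z) ∈ OrdLT1 := ord_add hX (ord_mul (ord_const (-d)) hY)
  have h2 : (fun z => X z + d * Y z) ∈ OrdLT1 := ord_add hX (ord_mul (ord_const d) hY)
  have c1 := zfOrd h1 (fun z h0 => by
    have h3 := hm z
    have h4 : X z + (-d) * Y z = 0 := h0
    rw [h4, zero_mul] at h3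
    exact zero_ne_one h3)
  have c2 := zfOrd h2 (fun z h0 => by
    have h3 := hm z
    have h4 : X z + d * Y z = 0 := h0
    rw [h4, mul_zero] at h3
    exact zero_ne_one h3)
  constructor
  · intro z w
    have e1 : X z + (-d) * Y z = X w + (-d) * Y w := c1 z w
    have e2 : X z + d * Y z = X w + d * Y w := c2 z w
    linear_combination (1 / 2) * e1 + (1 / 2) * e2
  · intro z w
    have e1 : X z + (-d) * Y z = X w + (-d) * Y w := c1 z w
    have e2 : X z + d * Y z = X w + d * Y w := c2 z w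
    have e3 : d * Y z = d * Y w := by linear_combination (-1 / 2) * e1 + (1 / 2) * e2
    exact mul_left_cancel₀ hd0 e3

private theorem rb_sq {X : ℂ → ℂ} (hX : Differentiable ℂ X) {k : ℂ} (h : ∀ z, X z ^ 2 = k ^ 2) :
    ∀ z w, X z = X w := by
  have h1 : ∀ z, (X z - k) * (X z + k) = 0 := by
    intro z
    linear_combination h z
  rcases dom (f := fun z => X z - k) (g := fun z => X z + k) (hX.sub_const k) (hX.add_const k) h1
    with h2 | h2
  · intro z w
    have e1 : X z - k = 0 := h2 z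
    have e2 : X w - k = 0 := h2 w
    linear_combination e1 - e2
  · intro z w
    have e1 : X z + k = 0 := h2 z
    have e2 : X w + k = 0 := h2 w
    linear_combination e1 - e2

theorem redIb {m : ℕ} {D : MvPolynomial (Option (Fin m)) ℤ} {L G : List Pol} {n : ℕ}
    (H : ∀ x : Fin (2 + 4 * m) → ℂ, x ∈ pts (2 + 4 * m, eqW n :: L, G) ↔
      pad x 0 = n ∧ PtI m D n (pad x 1) (fun j => pad x (2 + 4 * j)) (fun j => pad x (3 + 4 * j))
        (fun j => pad x (4 + 4 * j)) (fun j => pad x (5 + 4 * j)))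
    {𝒢 : Set (ℂ → ℂ)} (h𝒢 : 𝒢 ⊆ OrdLT1)
    (hx : ¬ ∃ x : Fin m → ℤ, MvPolynomial.eval (Option.elim' (n : ℤ) x) D = 0) :
    Hyp 𝒢 (2 + 4 * m, eqW n :: L, G) := by
  intro f hf hpts z w
  have hP := fun z => (H (f z)).1 (hpts z)
  have hord := rb_pad_ord h𝒢 hf
  have hK : ∀ (j : Fin m) (z w : ℂ), pad (f z) (5 + 4 * j) = pad (f w) (5 + 4 * j) := by
    intro j
    exact rb_const (hord (5 + 4 * j)) (p := 2) (q := -1) two_ne_zero (fun z => by
      have h1 := (hP z).2.e4 j
      intro h2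
      exact h1 (by linear_combination h2))
  have hall : (∀ z w, pad (f z) 1 = pad (f w) 1) ∧ ∀ j : Fin m,
      (∀ z w, pad (f z) (2 + 4 * j) = pad (f w) (2 + 4 * j)) ∧
      (∀ z w, pad (f z) (3 + 4 * j) = pad (f w) (3 + 4 * j)) ∧
      (∀ z w, pad (f z) (4 + 4 * j) = pad (f w) (4 + 4 * j)) := by
    by_cases hT : ∀ z w, pad (f z) 1 = pad (f w) 1
    · refine ⟨hT, fun j => ?_⟩
      by_cases ht : pad (f 0) 1 ^ 2 - 1 = 0
      · refine ⟨rb_sq (hord _).1 (k := 1) (fun z => ?_), rb_sq (hord _).1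
          (k := pad (f 0) (5 + 4 * j)) (fun z => ?_), ?_⟩
        · have h1 := (hP z).2.e1 j
          rw [hT z 0, ht] at h1
          linear_combination h1
        · have h1 := (hP z).2.e2 j
          rw [hT z 0, ht, hK j z 0] at h1
          linear_combination h1
        · refine rb_const (hord (4 + 4 * j)) (p := 3) (q := -1) three_ne_zero (fun z => ?_)
          rcases (hP z).2.e5 with h1 | h1
          · exact absurd (by rw [hT z 0, ht]) h1
          · intro h2
            exact h1 j (by linear_combination h2)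
      · obtain ⟨c1, c2⟩ := rb_caseB (hord (2 + 4 * j)) (hord (3 + 4 * j)) ht (fun z => by
          have h1 := (hP z).2.e1 j
          rw [hT z 0] at h1
          exact h1)
        refine ⟨c1, c2, fun z w => ?_⟩
        have h1 := (hP z).2.e2 j
        have h2 := (hP w).2.e2 j
        rw [hT z 0, hK j z w, c2 z w] at h1
        rw [hT w 0] at h2
        have h3 : (pad (f 0) 1 ^ 2 - 1) * pad (f z) (4 + 4 * j) =
            (pad (f 0) 1 ^ 2 - 1) * pad (f w) (4 + 4 * j) := by
          linear_combination h2 - h1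
        exact mul_left_cancel₀ ht h3
    · exfalso
      push Not at hT
      have hk : ∀ j : Fin m, ∃ k : ℤ, pad (f 0) (5 + 4 * j) = k := by
        intro j
        refine rigid (hord 1) (hord (2 + 4 * j)) (hord (3 + 4 * j)) (hord (4 + 4 * j)).1
          (fun z => (hP z).2.e1 j) (fun z => ?_) hT
        have h1 := (hP z).2.e2 j
        rw [hK j z 0] at h1
        exact h1
      choose x hxk using hk
      exact hx ⟨x, rb_cast D n x _ hxk (hP 0).2.e3⟩
  have key : ∀ i : ℕ, i < 2 + 4 * m → pad (f z) i = pad (f w) i := by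
    intro i hi
    rcases Nat.lt_or_ge i 2 with h2 | h2
    · have h3 : i = 0 ∨ i = 1 := by omega
      rcases h3 with h3 | h3
      · rw [h3, (hP z).1, (hP w).1]
      · rw [h3]
        exact hall.1 z w
    · have hj : (i - 2) / 4 < m := by omega
      have h3 : i = 2 + 4 * ((i - 2) / 4) ∨ i = 3 + 4 * ((i - 2) / 4) ∨
          i = 4 + 4 * ((i - 2) / 4) ∨ i = 5 + 4 * ((i - 2) / 4) := by omega
      rcases h3 with h3 | h3 | h3 | h3
      · rw [h3]
        exact (hall.2 ⟨(i - 2) / 4, hj⟩).1 z w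
      · rw [h3]
        exact (hall.2 ⟨(i - 2) / 4, hj⟩).2.1 z w
      · rw [h3]
        exact (hall.2 ⟨(i - 2) / 4, hj⟩).2.2 z w
      · rw [h3]
        exact hK ⟨(i - 2) / 4, hj⟩ z w
  funext i
  have h1 := key i i.2
  have h2 : ∀ y : ℂ, pad (f y) (i : ℕ) = f y i := by
    intro y
    have h3 : (i : ℕ) < 2 + 4 * m := i.2
    simp only [pad, dif_pos h3]
  rw [h2, h2] at h1
  exact h1

end Pool.Agent.Work.MP_90e0ad_ag.GR
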