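import Pool.Agent.Work.MP_90e0ad_ag.GR.VarI
import Pool.Agent.Work.MP_90e0ad_ag.GR.ChebZ

/-!
Module RedIf (M): a solution gives a nonconstant polynomial curve. PROOF. Let x : Fin m -> N be a zero of D(n, .). For j < m take A_j, B_j, E_j from chebZ (x j).
Curve: W = n, T = z, X_j = A_j(z), Y_j = B_j(z), Z_j = E_j(z), K_j = x j; written as f z i = y_z i with
y_z : N -> C, y_z 0 = n, y_z 1 = z, and for i >= 2 with q = (i-2)/4, r = (i-2)%4 the entry of index q (if q < m) (pad_restrict). Every coordinate is of the form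
aeval z P, P in Z[X], so it is in the class. Membership in pts by H: e1, e2: evaluate chebZ; e3: aeval at integers = cast of eval (MvPolynomial.aeval_def, eval2 with Int.cast,
map); e4: 2 x - 1 is not 0 (parity); e5: if z^2 = 1, i.e. z = 1 or -1, then E_j(z) is an integer, so 3 E_j(z) - 1 is not 0. The curve is not constant: coordinate 1 is z.
-/

set_option autoImplicit false

noncomputable section

namespace Pool.Agent.Work.MP_90e0ad_ag.GR

private theorem rif_mv {σ : Type} (v : σ → ℤ) (D : MvPolynomial σ ℤ) :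
    MvPolynomial.aeval (fun i => ((v i : ℤ) : ℂ)) D = ((MvPolynomial.eval v D : ℤ) : ℂ) := by
  have h := MvPolynomial.aeval_algebraMap_apply (B := ℂ) v D
  have h2 : MvPolynomial.aeval v D = MvPolynomial.eval v D := by
    rw [← MvPolynomial.coe_aeval_eq_eval]
    rfl
  rw [h2] at h
  exact h

private theorem rif_pol (c : ℤ) (P : Polynomial ℤ) :
    Polynomial.aeval ((c : ℤ) : ℂ) P = ((P.eval c : ℤ) : ℂ) := by
  have h := Polynomial.aeval_algebraMap_apply ℂ c P
  rw [Polynomial.coe_aeval_eq_eval] at h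
  exact h

/-- the coordinates of the curve -/
private def rifP {m : ℕ} (n : ℕ) (x : Fin m → ℕ) (A B E : Fin m → Polynomial ℤ) (i : ℕ) :
    Polynomial ℤ :=
  if i = 0 then Polynomial.C (n : ℤ) else if i = 1 then Polynomial.X else
    if h : (i - 2) / 4 < m then
      if (i - 2) % 4 = 0 then A ⟨(i - 2) / 4, h⟩ else
      if (i - 2) % 4 = 1 then B ⟨(i - 2) / 4, h⟩ else
      if (i - 2) % 4 = 2 then E ⟨(i - 2) / 4, h⟩ else Polynomial.C (x ⟨(i - 2) / 4, h⟩ : ℤ)
    else 0

private theorem rifP_X {m : ℕ} (n : ℕ) (x : Fin m → ℕ) (A B E : Fin m → Polynomial ℤ)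
    (j : Fin m) : rifP n x A B E (2 + 4 * j) = A j := by
  have h0 : ¬ (2 + 4 * (j : ℕ) = 0) := by omega
  have h1 : ¬ (2 + 4 * (j : ℕ) = 1) := by omega
  have h2 : (2 + 4 * (j : ℕ) - 2) / 4 = j := by omega
  have h3 : (2 + 4 * (j : ℕ) - 2) / 4 < m := by rw [h2]; exact j.2
  have h4 : (2 + 4 * (j : ℕ) - 2) % 4 = 0 := by omega
  rw [rifP, if_neg h0, if_neg h1, dif_pos h3, if_pos h4]
  exact congrArg A (Fin.ext h2)

private theorem rifP_Y {m : ℕ} (n : ℕ) (x : Fin m → ℕ) (A B E : Fin m → Polynomial ℤ)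
    (j : Fin m) : rifP n x A B E (3 + 4 * j) = B j := by
  have h0 : ¬ (3 + 4 * (j : ℕ) = 0) := by omega
  have h1 : ¬ (3 + 4 * (j : ℕ) = 1) := by omega
  have h2 : (3 + 4 * (j : ℕ) - 2) / 4 = j := by omega
  have h3 : (3 + 4 * (j : ℕ) - 2) / 4 < m := by rw [h2]; exact j.2
  have h4 : ¬ ((3 + 4 * (j : ℕ) - 2) % 4 = 0) := by omega
  have h5 : (3 + 4 * (j : ℕ) - 2) % 4 = 1 := by omega
  rw [rifP, if_neg h0, if_neg h1, dif_pos h3, if_neg h4, if_pos h5]
  exact congrArg B (Fin.ext h2)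

private theorem rifP_Z {m : ℕ} (n : ℕ) (x : Fin m → ℕ) (A B E : Fin m → Polynomial ℤ)
    (j : Fin m) : rifP n x A B E (4 + 4 * j) = E j := by
  have h0 : ¬ (4 + 4 * (j : ℕ) = 0) := by omega
  have h1 : ¬ (4 + 4 * (j : ℕ) = 1) := by omega
  have h2 : (4 + 4 * (j : ℕ) - 2) / 4 = j := by omega
  have h3 : (4 + 4 * (j : ℕ) - 2) / 4 < m := by rw [h2]; exact j.2
  have h4 : ¬ ((4 + 4 * (j : ℕ) - 2) % 4 = 0) := by omega
  have h5 : ¬ ((4 + 4 * (j : ℕ) - 2) % 4 = 1) := by omega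
  have h6 : (4 + 4 * (j : ℕ) - 2) % 4 = 2 := by omega
  rw [rifP, if_neg h0, if_neg h1, dif_pos h3, if_neg h4, if_neg h5, if_pos h6]
  exact congrArg E (Fin.ext h2)

private theorem rifP_K {m : ℕ} (n : ℕ) (x : Fin m → ℕ) (A B E : Fin m → Polynomial ℤ)
    (j : Fin m) : rifP n x A B E (5 + 4 * j) = Polynomial.C (x j : ℤ) := by
  have h0 : ¬ (5 + 4 * (j : ℕ) = 0) := by omega
  have h1 : ¬ (5 + 4 * (j : ℕ) = 1) := by omega
  have h2 : (5 + 4 * (j : ℕ) - 2) / 4 = j := by omega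
  have h3 : (5 + 4 * (j : ℕ) - 2) / 4 < m := by rw [h2]; exact j.2
  have h4 : ¬ ((5 + 4 * (j : ℕ) - 2) % 4 = 0) := by omega
  have h5 : ¬ ((5 + 4 * (j : ℕ) - 2) % 4 = 1) := by omega
  have h6 : ¬ ((5 + 4 * (j : ℕ) - 2) % 4 = 2) := by omega
  rw [rifP, if_neg h0, if_neg h1, dif_pos h3, if_neg h4, if_neg h5, if_neg h6]
  exact congrArg (fun k : Fin m => Polynomial.C (x k : ℤ)) (Fin.ext h2)

theorem redIf {m : ℕ} {D : MvPolynomial (Option (Fin m)) ℤ} {L G : List Pol} {n : ℕ}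
    (H : ∀ x : Fin (2 + 4 * m) → ℂ, x ∈ pts (2 + 4 * m, eqW n :: L, G) ↔
      pad x 0 = n ∧ PtI m D n (pad x 1) (fun j => pad x (2 + 4 * j)) (fun j => pad x (3 + 4 * j))
        (fun j => pad x (4 + 4 * j)) (fun j => pad x (5 + 4 * j)))
    {𝒢 : Set (ℂ → ℂ)} (h𝒢 : ∀ P : Polynomial ℤ, (fun z : ℂ => Polynomial.aeval z P) ∈ 𝒢)
    (hx : ∃ x : Fin m → ℕ, MvPolynomial.eval (Option.elim' (n : ℤ) fun i => (x i : ℤ)) D = 0) :
    ¬ Hyp 𝒢 (2 + 4 * m, eqW n :: L, G) := by
  classical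
  obtain ⟨x, hx⟩ := hx
  choose A B E hA hB using fun j : Fin m => chebZ (x j)
  intro hyp
  have hpad : ∀ (z : ℂ) (i : ℕ), i < 2 + 4 * m →
      pad (fun i : Fin (2 + 4 * m) => Polynomial.aeval z (rifP n x A B E i)) i =
        Polynomial.aeval z (rifP n x A B E i) := by
    intro z i hi
    rw [pad, dif_pos hi]
  have hK : ∀ (z : ℂ) (j : Fin m), Polynomial.aeval z (rifP n x A B E (5 + 4 * j)) =
      (((x j : ℕ) : ℤ) : ℂ) := by
    intro z j
    rw [rifP_K, Polynomial.aeval_C]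
    rfl
  have hmem : ∀ z : ℂ, (fun i : Fin (2 + 4 * m) => Polynomial.aeval z (rifP n x A B E i)) ∈
      pts (2 + 4 * m, eqW n :: L, G) := by
    intro z
    rw [H]
    have e0 : pad (fun i : Fin (2 + 4 * m) => Polynomial.aeval z (rifP n x A B E i)) 0 =
        (n : ℂ) := by
      rw [hpad z 0 (by omega)]
      have : rifP n x A B E 0 = Polynomial.C (n : ℤ) := by rw [rifP, if_pos rfl]
      rw [this, Polynomial.aeval_C]
      simp
    have e1 : pad (fun i : Fin (2 + 4 * m) => Polynomial.aeval z (rifP n x A B E i)) 1 = z := by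
      rw [hpad z 1 (by omega)]
      have : rifP n x A B E 1 = Polynomial.X := by
        rw [rifP, if_neg (by omega), if_pos rfl]
      rw [this, Polynomial.aeval_X]
    have eX : ∀ j : Fin m, pad (fun i : Fin (2 + 4 * m) =>
        Polynomial.aeval z (rifP n x A B E i)) (2 + 4 * j) = Polynomial.aeval z (A j) := by
      intro j
      rw [hpad z _ (by omega), rifP_X]
    have eY : ∀ j : Fin m, pad (fun i : Fin (2 + 4 * m) =>
        Polynomial.aeval z (rifP n x A B E i)) (3 + 4 * j) = Polynomial.aeval z (B j) := by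
      intro j
      rw [hpad z _ (by omega), rifP_Y]
    have eZ : ∀ j : Fin m, pad (fun i : Fin (2 + 4 * m) =>
        Polynomial.aeval z (rifP n x A B E i)) (4 + 4 * j) = Polynomial.aeval z (E j) := by
      intro j
      rw [hpad z _ (by omega), rifP_Z]
    have eK : ∀ j : Fin m, pad (fun i : Fin (2 + 4 * m) =>
        Polynomial.aeval z (rifP n x A B E i)) (5 + 4 * j) = (((x j : ℕ) : ℤ) : ℂ) := by
      intro j
      rw [hpad z _ (by omega), hK]
    refine ⟨e0, ⟨fun j => ?_, fun j => ?_, ?_, fun j => ?_, ?_⟩⟩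
    · show pad _ (2 + 4 * (j : ℕ)) ^ 2 - (pad _ 1 ^ 2 - 1) * pad _ (3 + 4 * (j : ℕ)) ^ 2 = 1
      rw [eX, eY, e1]
      have h := congrArg (fun P => Polynomial.aeval z P) (hA j)
      simpa using h
    · show pad _ (3 + 4 * (j : ℕ)) ^ 2 = pad _ (5 + 4 * (j : ℕ)) ^ 2 +
        (pad _ 1 ^ 2 - 1) * pad _ (4 + 4 * (j : ℕ))
      rw [eY, eK, e1, eZ]
      have h := congrArg (fun P => Polynomial.aeval z P) (hB j)
      simpa using h
    · have h1 : (Option.elim' (n : ℂ) fun j : Fin m =>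
          pad (fun i : Fin (2 + 4 * m) => Polynomial.aeval z (rifP n x A B E i))
            (5 + 4 * j)) =
          fun o => (((Option.elim' (n : ℤ) fun i : Fin m => ((x i : ℕ) : ℤ)) o : ℤ) : ℂ) := by
        funext o
        cases o with
        | none => simp
        | some j =>
          rw [Option.elim'_some, Option.elim'_some, eK]
      rw [h1, rif_mv, hx]
      simp
    · show 2 * pad _ (5 + 4 * (j : ℕ)) - 1 ≠ 0
      rw [eK]
      intro h
      have h2 : (2 * ((x j : ℕ) : ℤ) - 1 : ℤ) = 0 := by exact_mod_cast h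
      omega
    · by_cases hz : z ^ 2 - 1 = 0
      · right
        intro j
        show 3 * pad _ (4 + 4 * (j : ℕ)) - 1 ≠ 0
        rw [eZ]
        obtain ⟨c, hc⟩ : ∃ c : ℤ, z = (c : ℂ) := by
          have h1 : (z - 1) * (z + 1) = 0 := by
            rw [← hz]
            ring
          rcases mul_eq_zero.1 h1 with h | h
          · exact ⟨1, by rw [sub_eq_zero.1 h]; simp⟩
          · exact ⟨-1, by rw [eq_neg_of_add_eq_zero_left h]; simp⟩
        rw [hc, rif_pol]
        intro h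
        have h2 : (3 * ((E j).eval c) - 1 : ℤ) = 0 := by exact_mod_cast h
        omega
      · left
        rw [e1]
        exact hz
  have h01 := hyp (fun z i => Polynomial.aeval z (rifP n x A B E i)) (fun i => h𝒢 _) hmem 0 1
  have h1 := congrFun h01 ⟨1, by omega⟩
  have h2 : rifP n x A B E 1 = Polynomial.X := by
    rw [rifP, if_neg (by omega), if_pos rfl]
  change Polynomial.aeval (0 : ℂ) (rifP n x A B E 1) = Polynomial.aeval (1 : ℂ)
    (rifP n x A B E 1) at h1
  rw [h2, Polynomial.aeval_X, Polynomial.aeval_X] at h1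
  exact zero_ne_one h1

end Pool.Agent.Work.MP_90e0ad_ag.GR
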