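import Pool.Agent.Work.MP_90e0ad_ag.GR.DpOut
import Pool.Agent.Work.MP_90e0ad_ag.GR.RedIf
import Pool.Agent.Work.MP_90e0ad_ag.GR.RedIb
import Pool.Agent.Work.MP_90e0ad_ag.GR.RedIIf
import Pool.Agent.Work.MP_90e0ad_ag.GR.RedIIb
import Pool.Agent.Work.MP_90e0ad_ag.GR.HomD
import Pool.Agent.Work.MP_90e0ad_ag.GR.Comp

/-!
Module Final (S-M). PROOF. Take m, P from dprm, D = P. final1: L, G from varI. For every n: Hyp G (2+4m, eqW n :: L, G) iff no natural zero (redIf; redIb with the second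
part of dprm). If Hyp were REPred then so would be its composition with the computable map comp_input (REPred.comp? or unfold: REPred p means Partrec of the partial function;
Partrec.comp with Computable; ComputablePred... ), i.e. the complement set of dprm: contradiction. final2: the same with homD, varII, redIIf, redIIb, comp_inputAt.
-/

set_option autoImplicit false

noncomputable section

namespace Pool.Agent.Work.MP_90e0ad_ag.GR

theorem final1 {𝒢 : Set (ℂ → ℂ)}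
    (h1 : ∀ P : Polynomial ℤ, (fun z : ℂ => Polynomial.aeval z P) ∈ 𝒢) (h2 : 𝒢 ⊆ OrdLT1) :
    ¬ REPred fun I : Input => Hyp 𝒢 I := by
  intro hre
  obtain ⟨m, P, hP, hZ⟩ := dprm
  obtain ⟨L, G, H⟩ := varI m P
  have h3 : REPred fun n : ℕ => Hyp 𝒢 ((2 + 4 * m, eqW n :: L, G) : Input) :=
    Partrec.comp hre (comp_input (2 + 4 * m) L G)
  refine hP (h3.of_eq fun n => ⟨fun h hx => ?_, fun hno => ?_⟩)
  · exact redIf (H n) h1 hx h
  · exact redIb (H n) h2 fun ⟨x, hx⟩ => hno (hZ n x hx)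

theorem final2 {𝒢 : Set (ℂ → ℂ)}
    (h1 : ∀ P Q : Polynomial ℂ,
      (fun z : ℂ => P.eval (Complex.exp z) + Q.eval (Complex.exp (-z))) ∈ 𝒢) (h2 : 𝒢 ⊆ FinOrd) :
    ¬ REPred fun I : Input × List ℤ => HypAt 𝒢 I := by
  intro hre
  obtain ⟨m, P, hP, hZ⟩ := dprm
  obtain ⟨d, Dh, _, hDh⟩ := homD P
  obtain ⟨L, G, H⟩ := varII m Dh
  have h3 : REPred fun n : ℕ =>
      HypAt 𝒢 (((3 + 5 * m, eqW n :: L, G), ptII m n) : Input × List ℤ) :=
    Partrec.comp hre (comp_inputAt (3 + 5 * m) m L G)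
  refine hP (h3.of_eq fun n => ⟨fun h hx => ?_, fun hno => ?_⟩)
  · exact redIIf hDh (H n) h1 hx h
  · exact redIIb hDh (H n) h2 fun ⟨x, hx⟩ => hno (hZ n x hx)

end Pool.Agent.Work.MP_90e0ad_ag.GR
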