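import Pool.Agent.Work.MP_90e0ad_ag.GR.Final

set_option autoImplicit false

noncomputable section

namespace Pool.Agent.Work.MP_90e0ad_ag.GR

theorem final : ∃ K : Set ℕ, (¬ REPred fun n : ℕ => n ∉ K) ∧
    (∃ (N : ℕ) (L G : List Pol), ∀ 𝒢 : Set (ℂ → ℂ),
      (∀ P : Polynomial ℤ, (fun z : ℂ => Polynomial.aeval z P) ∈ 𝒢) → 𝒢 ⊆ OrdLT1 →
      (∀ n : ℕ, Hyp 𝒢 (N, eqW n :: L, G) ↔ n ∉ K) ∧ ¬ REPred fun I : Input => Hyp 𝒢 I) ∧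
    (∃ (N : ℕ) (L G : List Pol) (p : List ℤ), ∀ 𝒢 : Set (ℂ → ℂ),
      (∀ P Q : Polynomial ℂ,
        (fun z : ℂ => P.eval (Complex.exp z) + Q.eval (Complex.exp (-z))) ∈ 𝒢) → 𝒢 ⊆ FinOrd →
      (∀ n : ℕ, HypAt 𝒢 ((N, eqW n :: L, G), (n : ℤ) :: p) ↔ n ∉ K) ∧
        ¬ REPred fun I : Input × List ℤ => HypAt 𝒢 I) := by
  obtain ⟨m, P, hP, hZ⟩ := dprm
  refine ⟨{n | ∃ x : Fin m → ℕ,
      MvPolynomial.eval (Option.elim' (n : ℤ) fun i => (x i : ℤ)) P = 0}, hP, ?_, ?_⟩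
  · obtain ⟨L, G, H⟩ := varI m P
    refine ⟨2 + 4 * m, L, G, fun 𝒢 h1 h2 => ⟨fun n => ⟨fun h hx => ?_, fun hno => ?_⟩,
      final1 h1 h2⟩⟩
    · exact redIf (H n) h1 hx h
    · exact redIb (H n) h2 fun ⟨x, hx⟩ => hno (hZ n x hx)
  · obtain ⟨d, Dh, _, hDh⟩ := homD P
    obtain ⟨L, G, H⟩ := varII m Dh
    refine ⟨3 + 5 * m, L, G, -1 :: -1 :: (List.replicate m [(1 : ℤ), 1, 0, 0, 0]).flatten,
      fun 𝒢 h1 h2 => ⟨fun n => ⟨fun h hx => ?_, fun hno => ?_⟩, final2 h1 h2⟩⟩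
    · exact redIIf hDh (H n) h1 hx h
    · exact redIIb hDh (H n) h2 fun ⟨x, hx⟩ => hno (hZ n x hx)

end Pool.Agent.Work.MP_90e0ad_ag.GR
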