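import Mathlib

/-!
Module LdRad (M): choice of a good radius. PROOF. For y real the integral of |r - y|^(-p) over
R/4 <= r <= R/2 is at most 2 * int_0^(R/4) s^(-p) ds = 2 (R/4)^(1-p) / (1-p) (if y lies outside the interval
replace y by the nearest end point; split at y otherwise). Hence the average over the interval (length R/4)
of phi(r) = sum_{y in x} |r - y|^(-p) is at most n * 2 * 4^p R^(-p) / (1-p), n = length x, so there is r in the
interval, different from all y in x (a finite set has measure zero), with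
phi(r) <= n * 2 * 4^p R^(-p) / (1-p) (MeasureTheory: exists_le_average or: otherwise the integral would
be larger; for n = 0 everything is trivial). Since p <= 1,
sum 1/|r-y| <= (sum |r-y|^(-p))^(1/p) (Real.rpow_add_rpow_le_add type inequality: (sum s_j)^p <= sum s_j^p for
s_j >= 0, 0 < p <= 1, by induction), so the sum is at most K (n+1)^(1/p) / R with
K = (2 * 4^p / (1-p))^(1/p).
An alternative without integrals: a grid of 4n+4 equidistant radii and a double counting with the same
exponent p, or with harmonic sums (any K is allowed, only the exponent 1/p matters).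
-/

set_option autoImplicit false

namespace Pool.Agent.Work.MP_90e0ad_ag.GR

open Set in
private theorem mvtS (G G' : ℝ → ℝ) (S : Finset ℝ) : ∀ a b : ℝ, a < b → Continuous G →
    (∀ r ∈ Ioo a b, r ∉ S → HasDerivAt G (G' r) r) →
    ∃ r ∈ Ioo a b, r ∉ S ∧ G' r ≤ (G b - G a) / (b - a) := by
  induction S using Finset.induction_on with
  | empty =>
    intro a b hab hG hd
    obtain ⟨c, hc, hc2⟩ := exists_hasDerivAt_eq_slope G G' hab hG.continuousOn
      (fun r hr => hd r hr (Finset.notMem_empty r))
    exact ⟨c, hc, Finset.notMem_empty c, hc2.le⟩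
  | insert s T hs ih =>
    intro a b hab hG hd
    by_cases hsI : s ∈ Ioo a b
    · rcases le_total ((G s - G a) / (s - a)) ((G b - G a) / (b - a)) with h | h
      · obtain ⟨r, hr, hrT, hr2⟩ := ih a s hsI.1 hG (fun r hr hrT =>
          hd r ⟨hr.1, hr.2.trans hsI.2⟩ (by
            rw [Finset.mem_insert, not_or]
            exact ⟨hr.2.ne, hrT⟩))
        refine ⟨r, ⟨hr.1, hr.2.trans hsI.2⟩, ?_, hr2.trans h⟩
        rw [Finset.mem_insert, not_or]
        exact ⟨hr.2.ne, hrT⟩
      · obtain ⟨r, hr, hrT, hr2⟩ := ih s b hsI.2 hG (fun r hr hrT =>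
          hd r ⟨hsI.1.trans hr.1, hr.2⟩ (by
            rw [Finset.mem_insert, not_or]
            exact ⟨hr.1.ne', hrT⟩))
        refine ⟨r, ⟨hsI.1.trans hr.1, hr.2⟩, ?_, hr2.trans ?_⟩
        · rw [Finset.mem_insert, not_or]
          exact ⟨hr.1.ne', hrT⟩
        · have h1 : 0 < s - a := sub_pos.2 hsI.1
          have h2 : 0 < b - s := sub_pos.2 hsI.2
          have h3 : 0 < b - a := sub_pos.2 hab
          rw [div_le_div_iff₀ h3 h1] at h
          rw [div_le_div_iff₀ h2 h3]
          nlinarith
    · obtain ⟨r, hr, hrT, hr2⟩ := ih a b hab hG (fun r hr hrT =>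
          hd r hr (by
            rw [Finset.mem_insert, not_or]
            exact ⟨fun h => hsI (h ▸ hr), hrT⟩))
      refine ⟨r, hr, ?_, hr2⟩
      rw [Finset.mem_insert, not_or]
      exact ⟨fun h => hsI (h ▸ hr), hrT⟩

private noncomputable def FF (q t : ℝ) : ℝ := (max t 0) ^ q - (max (-t) 0) ^ q

private theorem FF_cont {q : ℝ} (hq : 0 < q) : Continuous (FF q) := by
  unfold FF
  have h1 : Continuous fun t : ℝ => (max t 0) ^ q :=
    (continuous_id.max continuous_const).rpow_const (fun _ => Or.inr hq.le)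
  have h2 : Continuous fun t : ℝ => (max (-t) 0) ^ q :=
    (continuous_neg.max continuous_const).rpow_const (fun _ => Or.inr hq.le)
  exact h1.sub h2

private theorem FF_deriv {q t : ℝ} (hq : 0 < q) (ht : t ≠ 0) :
    HasDerivAt (FF q) (q * |t| ^ (q - 1)) t := by
  rcases lt_or_gt_of_ne ht with h | h
  · have h1 : HasDerivAt (fun t : ℝ => -((-t) ^ q)) (q * |t| ^ (q - 1)) t := by
      have h2 := (Real.hasDerivAt_rpow_const (x := -t) (p := q) (Or.inl (by linarith))).comp t
        (hasDerivAt_neg t)
      have h3 := h2.neg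
      rw [abs_of_neg h]
      refine h3.congr_deriv ?_
      ring
    refine h1.congr_of_eventuallyEq ?_
    filter_upwards [eventually_lt_nhds h] with s hs
    rw [FF, max_eq_right hs.le, max_eq_left (by linarith), Real.zero_rpow hq.ne', zero_sub]
  · have h1 : HasDerivAt (fun t : ℝ => t ^ q) (q * |t| ^ (q - 1)) t := by
      rw [abs_of_pos h]
      exact Real.hasDerivAt_rpow_const (Or.inl h.ne')
    refine h1.congr_of_eventuallyEq ?_
    filter_upwards [eventually_gt_nhds h] with s hs
    rw [FF, max_eq_left hs.le, max_eq_right (by linarith), Real.zero_rpow hq.ne', sub_zero]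

private theorem FF_bd {q u v : ℝ} (hq : 0 < q) (hq1 : q ≤ 1) (h : v ≤ u) :
    FF q u - FF q v ≤ 2 * (u - v) ^ q := by
  have key : ∀ a b c : ℝ, 0 ≤ a → 0 ≤ b → 0 ≤ c → a ≤ b + c → a ^ q ≤ b ^ q + c ^ q := by
    intro a b c ha hb hc habc
    exact (Real.rpow_le_rpow ha habc hq.le).trans (Real.rpow_add_le_add_rpow hb hc hq.le hq1)
  have h1 := key (max u 0) (max v 0) (u - v) (le_max_right _ _) (le_max_right _ _)
    (sub_nonneg.2 h) (max_le (by linarith [le_max_left v 0]) (by
      have := le_max_right v 0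
      linarith))
  have h2 := key (max (-v) 0) (max (-u) 0) (u - v) (le_max_right _ _) (le_max_right _ _)
    (sub_nonneg.2 h) (max_le (by linarith [le_max_left (-u) 0]) (by
      have := le_max_right (-u) 0
      linarith))
  unfold FF
  linarith

private theorem listPow {p : ℝ} (hp0 : 0 < p) (hp1 : p ≤ 1) (x : List ℝ) (hx : ∀ y ∈ x, 0 ≤ y) :
    x.sum ^ p ≤ (x.map fun y => y ^ p).sum := by
  induction x with
  | nil => simp [Real.zero_rpow hp0.ne']
  | cons a t ih =>
    have ht : ∀ y ∈ t, 0 ≤ y := fun y hy => hx y (List.mem_cons_of_mem _ hy)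
    have ha : 0 ≤ a := hx a List.mem_cons_self
    rw [List.sum_cons, List.map_cons, List.sum_cons]
    exact (Real.rpow_add_le_add_rpow ha (List.sum_nonneg ht) hp0.le hp1).trans
      (add_le_add_right (ih ht) _)

private theorem GG_cont {q : ℝ} (hq : 0 < q) (x : List ℝ) :
    Continuous fun r => (x.map fun y => FF q (r - y)).sum := by
  induction x with
  | nil => simpa using continuous_const
  | cons a t ih =>
    simp only [List.map_cons, List.sum_cons]
    exact ((FF_cont hq).comp (continuous_id.sub continuous_const)).add ih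

private theorem GG_deriv {q r : ℝ} (hq : 0 < q) (x : List ℝ) (hx : ∀ y ∈ x, r ≠ y) :
    HasDerivAt (fun r => (x.map fun y => FF q (r - y)).sum)
      (q * (x.map fun y => |r - y| ^ (q - 1)).sum) r := by
  induction x with
  | nil => simpa using hasDerivAt_const r (0 : ℝ)
  | cons a t ih =>
    simp only [List.map_cons, List.sum_cons]
    have h1 := ih (fun y hy => hx y (List.mem_cons_of_mem _ hy))
    have h2 : r - a ≠ 0 := sub_ne_zero.2 (hx a List.mem_cons_self)
    have h3 := (FF_deriv hq h2).comp r ((hasDerivAt_id r).sub_const a)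
    have h4 := h3.add h1
    refine h4.congr_deriv ?_
    ring

private theorem GG_bd {q a b : ℝ} (hq : 0 < q) (hq1 : q ≤ 1) (hab : a ≤ b) (x : List ℝ) :
    (x.map fun y => FF q (b - y)).sum - (x.map fun y => FF q (a - y)).sum ≤
      2 * x.length * (b - a) ^ q := by
  induction x with
  | nil => simp
  | cons c t ih =>
    simp only [List.map_cons, List.sum_cons, List.length_cons, Nat.cast_add, Nat.cast_one]
    have h1 := FF_bd hq hq1 (sub_le_sub_right hab c)
    rw [sub_sub_sub_cancel_right] at h1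
    nlinarith

theorem ldRad {p : ℝ} (hp0 : 0 < p) (hp1 : p < 1) : ∃ K : ℝ, 0 < K ∧
    ∀ (x : List ℝ) (R : ℝ), 0 < R → ∃ r : ℝ, R / 4 ≤ r ∧ r ≤ R / 2 ∧ (∀ y ∈ x, r ≠ y) ∧
      (x.map fun y => 1 / |r - y|).sum ≤ K * ((x.length : ℝ) + 1) ^ (1 / p) / R := by
  have hq : 0 < 1 - p := by linarith
  refine ⟨4 * (2 / (1 - p)) ^ (1 / p), by positivity, ?_⟩
  intro x R hR
  classical
  obtain ⟨r, hr, hrx, hr2⟩ := mvtS (fun r => (x.map fun y => FF (1 - p) (r - y)).sum)
    (fun r => (1 - p) * (x.map fun y => |r - y| ^ ((1 - p) - 1)).sum) x.toFinset (R / 4) (R / 2)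
    (by linarith) (GG_cont hq x) (fun r _ hrx => GG_deriv hq x (fun y hy h => hrx (by
      rw [h]
      exact List.mem_toFinset.2 hy)))
  have hne : ∀ y ∈ x, r ≠ y := fun y hy h => hrx (by
      rw [h]
      exact List.mem_toFinset.2 hy)
  refine ⟨r, hr.1.le, hr.2.le, hne, ?_⟩
  have h1 := GG_bd hq (by linarith : 1 - p ≤ 1) (by linarith : R / 4 ≤ R / 2) x
  have hL : R / 2 - R / 4 = R / 4 := by ring
  rw [hL] at h1
  have hR4 : 0 < R / 4 := by positivity
  have h2 : (1 - p) * (x.map fun y => |r - y| ^ ((1 - p) - 1)).sum ≤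
      2 * x.length * (R / 4) ^ (1 - p) / (R / 4) := by
    refine hr2.trans ?_
    rw [hL]
    exact div_le_div_of_nonneg_right h1 hR4.le
  have h3 : (R / 4) ^ (1 - p) / (R / 4) = (R / 4) ^ (-p) := by
    rw [show (-p) = (1 - p) - 1 by ring, Real.rpow_sub_one hR4.ne']
  have h4 : (x.map fun y => |r - y| ^ (-p)).sum ≤ 2 / (1 - p) * (x.length + 1) * (R / 4) ^ (-p) := by
    have h5 : (1 - p) - 1 = -p := by ring
    rw [h5, mul_div_assoc, h3] at h2
    have h6 : 0 ≤ (R / 4) ^ (-p) := by positivity
    have h7 : (x.map fun y => |r - y| ^ (-p)).sum ≤ 2 * x.length * (R / 4) ^ (-p) / (1 - p) := by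
      rw [le_div_iff₀ hq, mul_comm]
      exact h2
    refine h7.trans ?_
    have h8 : 2 / (1 - p) * ((x.length : ℝ) + 1) * (R / 4) ^ (-p) =
        2 * (x.length + 1) * (R / 4) ^ (-p) / (1 - p) := by
      field_simp
    rw [h8]
    apply div_le_div_of_nonneg_right _ hq.le
    nlinarith
  have h9 := listPow hp0 hp1.le (x.map fun y => 1 / |r - y|) (by
    intro y hy
    obtain ⟨z, _, rfl⟩ := List.mem_map.1 hy
    positivity)
  rw [List.map_map] at h9
  have h10 : (x.map ((fun y => y ^ p) ∘ fun y => 1 / |r - y|)) = x.map fun y => |r - y| ^ (-p) := by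
    apply List.map_congr_left
    intro y _
    simp only [Function.comp_apply]
    rw [one_div, Real.inv_rpow (abs_nonneg _), Real.rpow_neg (abs_nonneg _)]
  rw [h10] at h9
  have hs0 : 0 ≤ (x.map fun y => 1 / |r - y|).sum := List.sum_nonneg (by
    intro y hy
    obtain ⟨z, _, rfl⟩ := List.mem_map.1 hy
    positivity)
  have h11 := Real.rpow_le_rpow (by positivity) (h9.trans h4) (by positivity : 0 ≤ 1 / p)
  rw [← Real.rpow_mul hs0, mul_one_div_cancel hp0.ne', Real.rpow_one] at h11
  refine h11.trans (le_of_eq ?_)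
  have hn : (0 : ℝ) ≤ (x.length : ℝ) + 1 := by positivity
  rw [Real.mul_rpow (by positivity) (by positivity), Real.mul_rpow (by positivity) hn,
    ← Real.rpow_mul hR4.le]
  have h12 : -p * (1 / p) = -1 := by field_simp
  rw [h12, Real.rpow_neg_one]
  field_simp

end Pool.Agent.Work.MP_90e0ad_ag.GR
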