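import Mathlib

/-!
Module LdSum (S). PROOF. Induction on the list a (generalizing f): for f = (z - w) f1 we have
f' = f1 + (z - w) f1', so |f'(z)| <= |f(z)| / |z - w| + |z - w| |f1'(z)| and the induction hypothesis for f1.
For a = [] we have f = g.
-/

set_option autoImplicit false

namespace Pool.Agent.Work.MP_90e0ad_ag.GR

private theorem diff_prod (a : List ℂ) :
    Differentiable ℂ fun z : ℂ => (a.map fun w => z - w).prod := by
  induction a with
  | nil =>
    simp only [List.map_nil, List.prod_nil]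
    exact differentiable_const 1
  | cons w a ih =>
    simp only [List.map_cons, List.prod_cons]
    exact (differentiable_id.sub_const w).mul ih

theorem ldSum {f g : ℂ → ℂ} {a : List ℂ} (hg : Differentiable ℂ g)
    (hf : ∀ z, f z = (a.map fun w => z - w).prod * g z) {z : ℂ} {B : ℝ} (hz : ∀ w ∈ a, z ≠ w)
    (hgz : ‖deriv g z‖ ≤ B * ‖g z‖) :
    ‖deriv f z‖ ≤ ((a.map fun w => 1 / ‖z - w‖).sum + B) * ‖f z‖ := by
  induction a generalizing f with
  | nil =>
    have h1 : f = g := by
      funext x
      rw [hf x]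
      simp
    rw [h1]
    simpa using hgz
  | cons w a ih =>
    set f1 : ℂ → ℂ := fun x => (a.map fun w => x - w).prod * g x with hf1
    have h1 := ih (f := f1) (fun _ => rfl) (fun u hu => hz u (List.mem_cons_of_mem _ hu))
    have hd1 : Differentiable ℂ f1 := (diff_prod a).mul hg
    have h2 : f = fun x => (x - w) * f1 x := by
      funext x
      rw [hf x, hf1]
      simp only [List.map_cons, List.prod_cons]
      ring
    have h3 : deriv f z = f1 z + (z - w) * deriv f1 z := by
      have h4 : HasDerivAt (fun x => (x - w) * f1 x) (1 * f1 z + (z - w) * deriv f1 z) z :=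
        ((hasDerivAt_id z).sub_const w).mul (hd1 z).hasDerivAt
      rw [h2, h4.deriv, one_mul]
    have hne : z - w ≠ 0 := sub_ne_zero.2 (hz w List.mem_cons_self)
    have hpos : 0 < ‖z - w‖ := norm_pos_iff.2 hne
    have h5 : ‖f z‖ = ‖z - w‖ * ‖f1 z‖ := by
      rw [h2, norm_mul]
    have h6 : 1 / ‖z - w‖ * ‖f z‖ = ‖f1 z‖ := by
      rw [h5]
      field_simp
    rw [h3, List.map_cons, List.sum_cons]
    calc ‖f1 z + (z - w) * deriv f1 z‖ ≤ ‖f1 z‖ + ‖z - w‖ * ‖deriv f1 z‖ := by
          rw [← norm_mul]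
          exact norm_add_le _ _
      _ ≤ ‖f1 z‖ + ‖z - w‖ * (((a.map fun w => 1 / ‖z - w‖).sum + B) * ‖f1 z‖) := by gcongr
      _ = 1 / ‖z - w‖ * ‖f z‖ + ((a.map fun w => 1 / ‖z - w‖).sum + B) * ‖f z‖ := by
          rw [h6, h5]
          ring
      _ = _ := by ring

end Pool.Agent.Work.MP_90e0ad_ag.GR
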