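import Mathlib

/-!
Module LdZf (M): the logarithmic derivative of a zero free function. PROOF. On the ball |z| < R the function
g'/g is differentiable, so it has a primitive h with h(0) = 0 (DifferentiableOn.isExactOn_ball or
similar; compare exists_log in Pool/Agent/Work/MP_e97a4d_nt/Picard.lean), and g = g(0) exp h there (the
derivative of g exp(-h) vanishes). Re h = log(|g z| / |g 0|) <= A. Mathlib's
Complex.borelCaratheodory_zero (with M = A; if its hypothesis is the strict inequality Re < M use A + eps and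
let eps -> 0, or first prove the bound with A + 1/k) gives |h(z)| <= 2 A |z| / (R - |z|) <= 6 A for
|z| <= 3R/4. Cauchy's estimate on the circle of radius R/4 around z, |z| <= R/2 (use radius slightly smaller
or Complex.norm_deriv_le_of_forall_mem_sphere_norm_le): |h'(z)| <= 6A / (R/4) = 24 A / R. Finally
g' = h' g. The constant 32 leaves room.
-/

set_option autoImplicit false

namespace Pool.Agent.Work.MP_90e0ad_ag.GR

open Complex Metric Set in
theorem ldZf {g : ℂ → ℂ} (hg : Differentiable ℂ g) {R A : ℝ} (hR : 0 < R) (hA : 0 < A)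
    (h0 : ∀ z, ‖z‖ ≤ R → g z ≠ 0) (hb : ∀ z, ‖z‖ ≤ R → ‖g z‖ ≤ Real.exp A * ‖g 0‖) :
    ∀ z, ‖z‖ ≤ R / 2 → ‖deriv g z‖ ≤ 32 * A / R * ‖g z‖ := by
  have hd : Differentiable ℂ (deriv g) := fun z => (hg.analyticAt z).deriv.differentiableAt
  have hz0 : ∀ z ∈ ball (0 : ℂ) R, g z ≠ 0 := fun z hz => h0 z (mem_ball_zero_iff.1 hz).le
  have hq : DifferentiableOn ℂ (fun z => deriv g z / g z) (ball 0 R) := fun z hz =>
    ((hd z).div (hg z) (hz0 z hz)).differentiableWithinAt
  obtain ⟨h, hh0, hh⟩ := (hq.isExactOn_ball).with_val_at 0 0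
  have hder : ∀ z ∈ ball (0 : ℂ) R, HasDerivAt (fun z => g z * exp (-h z)) 0 z := by
    intro z hz
    have h1 := (hg z).hasDerivAt
    have h2 := hh z hz
    have h3 := h1.mul (h2.neg.cexp)
    refine h3.congr_deriv ?_
    have h4 := hz0 z hz
    field_simp
    ring
  have h00 : (0 : ℂ) ∈ ball (0 : ℂ) R := mem_ball_self hR
  have hconst : ∀ z ∈ ball (0 : ℂ) R, g z = g 0 * exp (h z) := by
    intro z hz
    have h1 : g z * exp (-h z) = g 0 * exp (-h 0) := by
      apply isOpen_ball.is_const_of_deriv_eq_zero (convex_ball (0 : ℂ) R).isPreconnected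
        (f := fun z => g z * exp (-h z))
      · exact fun w hw => (hder w hw).differentiableAt.differentiableWithinAt
      · exact fun w hw => (hder w hw).deriv
      · exact hz
      · exact h00
    rw [hh0, neg_zero, exp_zero, mul_one] at h1
    rw [← h1, mul_assoc, ← exp_add, neg_add_cancel, exp_zero, mul_one]
  have hg0 : 0 < ‖g 0‖ := norm_pos_iff.2 (hz0 0 h00)
  have hre : MapsTo h (ball 0 R) {z | z.re ≤ A} := by
    intro z hz
    have h1 := hb z (mem_ball_zero_iff.1 hz).le
    rw [hconst z hz, norm_mul, norm_exp, mul_comm] at h1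
    exact Real.exp_le_exp.1 (le_of_mul_le_mul_right h1 hg0)
  have hhd : DifferentiableOn ℂ h (ball 0 R) := fun z hz =>
    (hh z hz).differentiableAt.differentiableWithinAt
  have hbd : ∀ z : ℂ, ‖z‖ ≤ 3 * R / 4 → ‖h z‖ ≤ 6 * A := by
    intro z hz
    have hz1 : z ∈ ball (0 : ℂ) R := mem_ball_zero_iff.2 (by linarith)
    refine (borelCaratheodory_zero hA hhd hre hR hz1 hh0).trans ?_
    rw [div_le_iff₀ (by linarith)]
    nlinarith [norm_nonneg z]
  intro z hz
  have hz1 : z ∈ ball (0 : ℂ) R := mem_ball_zero_iff.2 (by linarith)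
  have hsub : closedBall z (R / 4) ⊆ ball 0 R := by
    intro w hw
    rw [mem_ball_zero_iff]
    have h1 : ‖w - z‖ ≤ R / 4 := by simpa [dist_eq_norm] using hw
    have h2 : ‖w‖ ≤ ‖w - z‖ + ‖z‖ := norm_le_norm_sub_add w z
    linarith
  have hD : DiffContOnCl ℂ h (ball z (R / 4)) := by
    apply DifferentiableOn.diffContOnCl
    rw [closure_ball z (by positivity)]
    exact hhd.mono hsub
  have hC : ∀ w ∈ sphere z (R / 4), ‖h w‖ ≤ 6 * A := by
    intro w hw
    apply hbd
    have h1 : ‖w - z‖ = R / 4 := by simpa [dist_eq_norm] using hw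
    have h2 : ‖w‖ ≤ ‖w - z‖ + ‖z‖ := norm_le_norm_sub_add w z
    linarith
  have h5 := norm_deriv_le_of_forall_mem_sphere_norm_le (by positivity : 0 < R / 4) hD hC
  rw [(hh z hz1).deriv, norm_div] at h5
  have h6 : 0 < ‖g z‖ := norm_pos_iff.2 (hz0 z hz1)
  rw [div_le_iff₀ h6] at h5
  have h7 : 6 * A / (R / 4) ≤ 32 * A / R := by
    rw [div_le_div_iff₀ (by positivity) hR]
    nlinarith [mul_pos hA hR]
  exact h5.trans (mul_le_mul_of_nonneg_right h7 h6.le)

end Pool.Agent.Work.MP_90e0ad_ag.GR
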