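import Pool.Agent.Work.MP_90e0ad_ag.GR.LdFac
import Pool.Agent.Work.MP_90e0ad_ag.GR.LdZf
import Pool.Agent.Work.MP_90e0ad_ag.GR.LdRad
import Pool.Agent.Work.MP_90e0ad_ag.GR.LdSum

/-!
Module Ld (M): the logarithmic derivatives of finitely many entire functions on a good circle.
PROOF. We may assume C >= 0 (replace C by max C 0). For R large put M = exp(C (1+4R)^rho). For f in F
apply ldFac: list a_f, function g_f. Then 3^(length a_f) |f 0| <= M, so length a_f <= C1 R^rho; and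
|g_f| |f 0| <= M |g_f 0| on |z| <= R, i.e. hb of ldZf with
A = C (1+4R)^rho + log(1/|f 0|) + 1 made positive (e.g. A = C (1+4R)^rho + |log |f 0|| + 1), so
|g_f'| <= (32 A / R) |g_f| <= C2 R^(rho-1) |g_f| on |z| <= R/2. Let x be the list of all |w|, w in a_f, f in F;
its length is <= C3 R^rho. Choose p < 1 with rho / p < rho + eps and apply ldRad: r in [R/4, R/2]. For |z| = r
we have |z - w| >= |r - |w|| > 0 for all w in all a_f, so f z is not 0 (also g_f z is not 0 as r <= R) and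
by ldSum |f'(z)| <= (sum_w 1/|r-|w|| + C2 R^(rho-1)) |f(z)| <= (K (C3 R^rho + 1)^(1/p) / R + C2 R^(rho-1)) |f z|
<= C4 R^(rho/p - 1) |f z| <= r^(rho-1+eps) |f z| for R large (2r <= R <= 4r). Choose R >= 4 R0 and
R >= 4.
-/

set_option autoImplicit false

namespace Pool.Agent.Work.MP_90e0ad_ag.GR

private theorem ld_log3 : (1 : ℝ) ≤ Real.log 3 := by
  rw [Real.le_log_iff_exp_le (by norm_num)]
  have := Real.exp_one_lt_d9
  linarith

private theorem ld_one {f : ℂ → ℂ} {ρ C : ℝ} (hρ : 0 < ρ) (hC : 0 ≤ C) (hf : Differentiable ℂ f)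
    (hb : ∀ z, ‖f z‖ ≤ Real.exp (C * (1 + ‖z‖) ^ ρ)) (h0 : f 0 ≠ 0) :
    ∃ c : ℝ, 0 < c ∧ ∀ R : ℝ, 1 ≤ R → ∃ a : List ℝ, (a.length : ℝ) ≤ c * R ^ ρ ∧
      ∀ r, r ≤ R / 2 → (∀ y ∈ a, r ≠ y) → ∀ z, ‖z‖ = r →
        f z ≠ 0 ∧ ‖deriv f z‖ ≤ ((a.map fun y => 1 / |r - y|).sum + c * R ^ ρ / R) * ‖f z‖ := by
  have h5 : (0 : ℝ) ≤ (5 : ℝ) ^ ρ := by positivity
  have hf0 : 0 < ‖f 0‖ := norm_pos_iff.2 h0
  obtain ⟨L, hL⟩ : ∃ L, L = |Real.log ‖f 0‖| := ⟨_, rfl⟩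
  have hL0 : 0 ≤ L := by rw [hL]; exact abs_nonneg _
  have hLl : -Real.log ‖f 0‖ ≤ L := by rw [hL]; exact neg_le_abs _
  obtain ⟨E, hE⟩ : ∃ E, E = C * (5 : ℝ) ^ ρ + L + 1 := ⟨_, rfl⟩
  have hEpos : 0 < E := by
    rw [hE]
    have := mul_nonneg hC h5
    linarith
  refine ⟨32 * E, by linarith, fun R hR => ?_⟩
  have hRpos : 0 < R := by linarith
  have hRρ : 1 ≤ R ^ ρ := Real.one_le_rpow hR hρ.le
  have hM : ∀ z, ‖z‖ ≤ 4 * R → ‖f z‖ ≤ Real.exp (C * ((5 : ℝ) ^ ρ * R ^ ρ)) := by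
    intro z hz
    refine (hb z).trans (Real.exp_le_exp.2 (mul_le_mul_of_nonneg_left ?_ hC))
    rw [← Real.mul_rpow (by norm_num) hRpos.le]
    exact Real.rpow_le_rpow (by positivity) (by linarith) hρ.le
  obtain ⟨a, g, hg, hfg, haR, hg0, hlen, hgb⟩ := ldFac hf h0 hRpos hM
  -- exponent bound
  have hexp : C * ((5 : ℝ) ^ ρ * R ^ ρ) - Real.log ‖f 0‖ ≤ E * R ^ ρ := by
    rw [hE]
    nlinarith [mul_le_mul_of_nonneg_left hRρ hL0]
  refine ⟨a.map fun w => ‖w‖, ?_, ?_⟩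
  · rw [List.length_map]
    have h1 := Real.log_le_log (by positivity) hlen
    rw [Real.log_exp, Real.log_mul hf0.ne' (by positivity), Real.log_pow] at h1
    have h2 : (a.length : ℝ) ≤ a.length * Real.log 3 := by
      have := ld_log3
      nlinarith [(Nat.cast_nonneg a.length : (0 : ℝ) ≤ a.length)]
    have h3 : (a.length : ℝ) ≤ E * R ^ ρ := by linarith
    have h4 : 0 ≤ E * R ^ ρ := by positivity
    linarith
  · intro r hr hne z hz
    have hzR : ‖z‖ ≤ R / 2 := hz ▸ hr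
    have hzw : ∀ w ∈ a, z ≠ w := by
      intro w hw h
      exact hne ‖w‖ (List.mem_map.2 ⟨w, hw, rfl⟩) (by rw [← hz, h])
    have hgz : g z ≠ 0 := hg0 z (by linarith)
    have hA : 0 < E * R ^ ρ := by positivity
    have hgA : ∀ z, ‖z‖ ≤ R → ‖g z‖ ≤ Real.exp (E * R ^ ρ) * ‖g 0‖ := by
      intro z hz
      have h1 := hgb z (by linarith)
      have h2 : Real.exp (C * ((5 : ℝ) ^ ρ * R ^ ρ)) ≤ Real.exp (E * R ^ ρ) * ‖f 0‖ := by
        have h3 : ‖f 0‖ = Real.exp (Real.log ‖f 0‖) := (Real.exp_log hf0).symm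
        rw [h3, ← Real.exp_add, Real.exp_le_exp]
        linarith
      have h4 : ‖g z‖ * ‖f 0‖ ≤ Real.exp (E * R ^ ρ) * ‖g 0‖ * ‖f 0‖ := by
        refine h1.trans ?_
        have := mul_le_mul_of_nonneg_right h2 (norm_nonneg (g 0))
        linarith
      exact le_of_mul_le_mul_right h4 hf0
    have hd := ldZf hg hRpos hA hg0 hgA z hzR
    have hs := ldSum hg hfg hzw hd
    have hfz : f z ≠ 0 := by
      rw [hfg z]
      refine mul_ne_zero ?_ hgz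
      intro h0
      have h := List.prod_eq_zero_iff.1 h0
      obtain ⟨w, hw, hw0⟩ := List.mem_map.1 h
      exact hzw w hw (sub_eq_zero.1 hw0)
    refine ⟨hfz, hs.trans (mul_le_mul_of_nonneg_right ?_ (norm_nonneg _))⟩
    have h1 : (a.map fun w => 1 / ‖z - w‖).sum ≤
        ((a.map fun w => ‖w‖).map fun y => 1 / |r - y|).sum := by
      rw [List.map_map]
      refine List.sum_le_sum fun w hw => ?_
      have h2 : |r - ‖w‖| ≤ ‖z - w‖ := by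
        rw [← hz]
        exact abs_norm_sub_norm_le z w
      have h3 : 0 < |r - ‖w‖| :=
        abs_pos.2 (sub_ne_zero.2 (hne ‖w‖ (List.mem_map.2 ⟨w, hw, rfl⟩)))
      exact one_div_le_one_div_of_le h3 h2
    have h2 : 32 * (E * R ^ ρ) / R = 32 * E * R ^ ρ / R := by ring
    rw [h2]
    linarith

private theorem ld_nn (a : List ℝ) (r : ℝ) : 0 ≤ (a.map fun y => 1 / |r - y|).sum := by
  refine List.sum_nonneg fun x hx => ?_
  obtain ⟨y, _, rfl⟩ := List.mem_map.1 hx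
  positivity

private theorem ld_all (F : List (ℂ → ℂ)) {ρ C : ℝ} (hρ : 0 < ρ) (hC : 0 ≤ C)
    (hF : ∀ f ∈ F, Differentiable ℂ f ∧ (∀ z, ‖f z‖ ≤ Real.exp (C * (1 + ‖z‖) ^ ρ)) ∧ f 0 ≠ 0) :
    ∃ c : ℝ, 0 < c ∧ ∀ R : ℝ, 1 ≤ R → ∃ a : List ℝ, (a.length : ℝ) ≤ c * R ^ ρ ∧
      ∀ r, r ≤ R / 2 → (∀ y ∈ a, r ≠ y) → ∀ f ∈ F, ∀ z, ‖z‖ = r →
        f z ≠ 0 ∧ ‖deriv f z‖ ≤ ((a.map fun y => 1 / |r - y|).sum + c * R ^ ρ / R) * ‖f z‖ := by
  induction F with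
  | nil =>
    refine ⟨1, one_pos, fun R hR => ⟨[], ?_, fun r _ _ f hf => absurd hf (List.not_mem_nil)⟩⟩
    have : (0 : ℝ) ≤ R ^ ρ := Real.rpow_nonneg (by linarith) _
    simpa using this
  | cons f F ih =>
    obtain ⟨c1, hc1, h1⟩ := ld_one hρ hC (hF f (by simp)).1 (hF f (by simp)).2.1
      (hF f (by simp)).2.2
    obtain ⟨c2, hc2, h2⟩ := ih fun g hg => hF g (List.mem_cons_of_mem _ hg)
    refine ⟨c1 + c2, by linarith, fun R hR => ?_⟩
    obtain ⟨a1, hl1, ha1⟩ := h1 R hR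
    obtain ⟨a2, hl2, ha2⟩ := h2 R hR
    have hRρ : (0 : ℝ) ≤ R ^ ρ := Real.rpow_nonneg (by linarith) _
    have hRp : 0 < R := by linarith
    refine ⟨a1 ++ a2, ?_, ?_⟩
    · rw [List.length_append]
      push_cast
      linarith
    · intro r hr hne g hg z hz
      have hsum : ((a1 ++ a2).map fun y => 1 / |r - y|).sum =
          (a1.map fun y => 1 / |r - y|).sum + (a2.map fun y => 1 / |r - y|).sum := by
        rw [List.map_append, List.sum_append]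
      have hn1 := ld_nn a1 r
      have hn2 := ld_nn a2 r
      have hq1 : 0 ≤ c1 * R ^ ρ / R := by positivity
      have hq2 : 0 ≤ c2 * R ^ ρ / R := by positivity
      have hq : (c1 + c2) * R ^ ρ / R = c1 * R ^ ρ / R + c2 * R ^ ρ / R := by ring
      rcases List.mem_cons.1 hg with rfl | hg'
      · obtain ⟨h3, h4⟩ := ha1 r hr (fun y hy => hne y (List.mem_append_left _ hy)) z hz
        refine ⟨h3, h4.trans (mul_le_mul_of_nonneg_right ?_ (norm_nonneg _))⟩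
        rw [hsum, hq]
        linarith
      · obtain ⟨h3, h4⟩ := ha2 r hr (fun y hy => hne y (List.mem_append_right _ hy)) g hg' z hz
        refine ⟨h3, h4.trans (mul_le_mul_of_nonneg_right ?_ (norm_nonneg _))⟩
        rw [hsum, hq]
        linarith

theorem ld (F : List (ℂ → ℂ)) {ρ C : ℝ} (hρ : 0 < ρ)
    (hF : ∀ f ∈ F, Differentiable ℂ f ∧ (∀ z, ‖f z‖ ≤ Real.exp (C * (1 + ‖z‖) ^ ρ)) ∧ f 0 ≠ 0)
    {ε : ℝ} (hε : 0 < ε) (R₀ : ℝ) :
    ∃ r : ℝ, R₀ ≤ r ∧ 1 ≤ r ∧ ∀ f ∈ F, ∀ z, ‖z‖ = r →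
      f z ≠ 0 ∧ ‖deriv f z‖ ≤ r ^ (ρ - 1 + ε) * ‖f z‖ := by
  obtain ⟨C', hC', hCC⟩ : ∃ C' : ℝ, 0 ≤ C' ∧ C ≤ C' := ⟨max C 0, le_max_right _ _, le_max_left _ _⟩
  obtain ⟨c, hc, hall⟩ := ld_all F hρ hC' fun f hf => ⟨(hF f hf).1, fun z =>
    ((hF f hf).2.1 z).trans (Real.exp_le_exp.2 (mul_le_mul_of_nonneg_right hCC (by positivity))),
    (hF f hf).2.2⟩
  -- the exponent `p`
  have hρ2 : 0 < ρ + ε / 2 := by positivity
  have hp0 : 0 < ρ / (ρ + ε / 2) := by positivity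
  have hp1 : ρ / (ρ + ε / 2) < 1 := by
    rw [div_lt_one hρ2]
    linarith
  obtain ⟨K, hK, hrad⟩ := ldRad hp0 hp1
  obtain ⟨q, hq⟩ : ∃ q, q = 1 / (ρ / (ρ + ε / 2)) := ⟨_, rfl⟩
  rw [← hq] at hrad
  have hq0 : 0 < q := by rw [hq]; positivity
  have hρq : ρ * q = ρ + ε / 2 := by
    rw [hq]
    field_simp
  obtain ⟨s, hs⟩ : ∃ s, s = ρ + ε / 2 - 1 := ⟨_, rfl⟩
  obtain ⟨C4, hC4⟩ : ∃ C4, C4 = K * (c + 1) ^ q + c := ⟨_, rfl⟩
  have hC4p : 0 < C4 := by rw [hC4]; positivity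
  obtain ⟨D, hD⟩ : ∃ D, D = C4 * (4 : ℝ) ^ |s| := ⟨_, rfl⟩
  have hDp : 0 < D := by rw [hD]; positivity
  obtain ⟨T, hT0, hT1, hTD⟩ : ∃ T : ℝ, R₀ ≤ T ∧ 1 ≤ T ∧ D ^ (2 / ε) ≤ T :=
    ⟨max R₀ (max 1 (D ^ (2 / ε))), le_max_left _ _, (le_max_left _ _).trans (le_max_right _ _),
      (le_max_right _ _).trans (le_max_right _ _)⟩
  have hR1 : (1 : ℝ) ≤ 4 * T := by linarith
  have hRp : (0 : ℝ) < 4 * T := by linarith
  obtain ⟨a, hla, ha⟩ := hall (4 * T) hR1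
  obtain ⟨r, hr1, hr2, hne, hsum⟩ := hrad a (4 * T) hRp
  have hrT : T ≤ r := by linarith
  have hrp : 0 < r := by linarith
  refine ⟨r, hT0.trans hrT, hT1.trans hrT, fun f hf z hz => ?_⟩
  obtain ⟨h1, h2⟩ := ha r hr2 hne f hf z hz
  refine ⟨h1, h2.trans (mul_le_mul_of_nonneg_right ?_ (norm_nonneg _))⟩
  have hRρ : (1 : ℝ) ≤ (4 * T) ^ ρ := Real.one_le_rpow hR1 hρ.le
  -- bound of the sum
  have h3 : ((a.length : ℝ) + 1) ^ q ≤ (c + 1) ^ q * (4 * T) ^ (ρ + ε / 2) := by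
    have h4 : (a.length : ℝ) + 1 ≤ (c + 1) * (4 * T) ^ ρ := by nlinarith
    calc ((a.length : ℝ) + 1) ^ q ≤ ((c + 1) * (4 * T) ^ ρ) ^ q :=
          Real.rpow_le_rpow (by positivity) h4 hq0.le
      _ = (c + 1) ^ q * (4 * T) ^ (ρ + ε / 2) := by
          rw [Real.mul_rpow (by positivity) (by positivity), ← Real.rpow_mul hRp.le, hρq]
  have h5 : (4 * T) ^ ρ ≤ (4 * T) ^ (ρ + ε / 2) :=
    Real.rpow_le_rpow_of_exponent_le hR1 (by linarith)
  have h6 : (4 * T) ^ (ρ + ε / 2) / (4 * T) = (4 * T) ^ s := by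
    rw [hs, Real.rpow_sub_one hRp.ne']
  have h7 : (a.map fun y => 1 / |r - y|).sum + c * (4 * T) ^ ρ / (4 * T) ≤ C4 * (4 * T) ^ s := by
    have h8 : K * ((a.length : ℝ) + 1) ^ q / (4 * T) ≤
        K * (c + 1) ^ q * ((4 * T) ^ (ρ + ε / 2) / (4 * T)) := by
      rw [← mul_div_assoc, mul_assoc]
      exact div_le_div_of_nonneg_right (mul_le_mul_of_nonneg_left h3 hK.le) hRp.le
    have h9 : c * (4 * T) ^ ρ / (4 * T) ≤ c * ((4 * T) ^ (ρ + ε / 2) / (4 * T)) := by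
      rw [← mul_div_assoc]
      exact div_le_div_of_nonneg_right (mul_le_mul_of_nonneg_left h5 hc.le) hRp.le
    rw [h6] at h8 h9
    rw [hC4]
    linarith
  refine h7.trans ?_
  -- from `4 T` to `r`
  have h8 : (4 * T) ^ s ≤ (4 : ℝ) ^ |s| * r ^ s := by
    have h9 : 4 * T = 4 * T / r * r := by field_simp
    have h10 : 1 ≤ 4 * T / r := by
      rw [le_div_iff₀ hrp]
      linarith
    have h11 : 4 * T / r ≤ 4 := by
      rw [div_le_iff₀ hrp]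
      linarith
    calc (4 * T) ^ s = (4 * T / r * r) ^ s := by rw [← h9]
      _ = (4 * T / r) ^ s * r ^ s := Real.mul_rpow (by positivity) hrp.le
      _ ≤ (4 : ℝ) ^ |s| * r ^ s := by
        refine mul_le_mul_of_nonneg_right ?_ (by positivity)
        calc (4 * T / r) ^ s ≤ (4 * T / r) ^ |s| :=
              Real.rpow_le_rpow_of_exponent_le h10 (le_abs_self s)
          _ ≤ (4 : ℝ) ^ |s| := Real.rpow_le_rpow (by positivity) h11 (abs_nonneg s)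
  have h9 : D ≤ r ^ (ε / 2) := by
    calc D = (D ^ (2 / ε)) ^ (ε / 2) := by
          rw [← Real.rpow_mul hDp.le]
          have : 2 / ε * (ε / 2) = 1 := by field_simp
          rw [this, Real.rpow_one]
      _ ≤ r ^ (ε / 2) := Real.rpow_le_rpow (by positivity) (hTD.trans hrT) (by positivity)
  calc C4 * (4 * T) ^ s ≤ C4 * ((4 : ℝ) ^ |s| * r ^ s) := mul_le_mul_of_nonneg_left h8 hC4p.le
    _ = D * r ^ s := by rw [hD]; ring
    _ ≤ r ^ (ε / 2) * r ^ s := mul_le_mul_of_nonneg_right h9 (by positivity)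
    _ = r ^ (ρ - 1 + ε) := by
      rw [← Real.rpow_add hrp, hs]
      congr 1
      ring

end Pool.Agent.Work.MP_90e0ad_ag.GR
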