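import Mathlib

/-!
Module LdFac (M): splitting off the zeros in a disc. PROOF. Call a pair (a, g), a a list in the closed disc
|w| <= R, g entire, f = prod (z - w) g, admissible; ([], f) is admissible. For an admissible pair with
n = length a: on |z| = 4R every |z - w| >= 3R, so |g| <= M / (3R)^n there and by the maximum principle
(Complex.norm_le_of_forall_mem_frontier_norm_le or exists_mem_frontier...) on |z| <= 4R. Moreover
|f 0| = prod |w| |g 0| <= R^n |g 0|. Hence |f 0| 3^n <= R^n 3^n |g 0| <= R^n 3^n M / (3R)^n = M, so n is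
bounded (3^n -> infinity, |f 0| > 0), and |g z| |f 0| <= (M / (3R)^n) R^n |g 0| <= M |g 0| for
|z| <= 4R. Take an admissible pair with n maximal. If g had a zero w with |w| <= R then g = (z - w) dslope g w
with dslope g w entire (the differentiability of dslope: Complex.differentiableOn_dslope on univ), and
(w :: a, dslope g w) would be admissible with n + 1. So g has no zero in the disc.
-/

set_option autoImplicit false

namespace Pool.Agent.Work.MP_90e0ad_ag.GR

private theorem lf_low (a : List ℂ) {R : ℝ} (hR : 0 < R) (h : ∀ w ∈ a, ‖w‖ ≤ R) {z : ℂ}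
    (hz : ‖z‖ = 4 * R) : (3 * R) ^ a.length ≤ ‖(a.map fun w => z - w).prod‖ := by
  induction a with
  | nil => simp
  | cons w a ih =>
    have h1 := ih fun u hu => h u (List.mem_cons_of_mem w hu)
    have h2 := h w List.mem_cons_self
    have h3 : 3 * R ≤ ‖z - w‖ := by
      have := norm_sub_norm_le z w
      linarith
    rw [List.map_cons, List.prod_cons, List.length_cons, pow_succ', norm_mul]
    exact mul_le_mul h3 h1 (by positivity) (norm_nonneg _)

private theorem lf_up (a : List ℂ) {R : ℝ} (hR : 0 < R) (h : ∀ w ∈ a, ‖w‖ ≤ R) :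
    ‖(a.map fun w => (0 : ℂ) - w).prod‖ ≤ R ^ a.length := by
  induction a with
  | nil => simp
  | cons w a ih =>
    have h1 := ih fun u hu => h u (List.mem_cons_of_mem w hu)
    have h2 := h w List.mem_cons_self
    rw [List.map_cons, List.prod_cons, List.length_cons, pow_succ', norm_mul, zero_sub, norm_neg]
    exact mul_le_mul h2 h1 (norm_nonneg _) hR.le

private theorem lf_bd {f : ℂ → ℂ} {R M : ℝ} (hR : 0 < R)
    (hM : ∀ z, ‖z‖ ≤ 4 * R → ‖f z‖ ≤ M) {a : List ℂ} {g : ℂ → ℂ} (hg : Differentiable ℂ g)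
    (hfg : ∀ z, f z = (a.map fun w => z - w).prod * g z) (ha : ∀ w ∈ a, ‖w‖ ≤ R) (z : ℂ)
    (hz : ‖z‖ ≤ 4 * R) : ‖g z‖ * (3 * R) ^ a.length ≤ M := by
  have hpos : (0 : ℝ) < (3 * R) ^ a.length := by positivity
  rw [← le_div_iff₀ hpos]
  have h4 : (4 * R) ≠ 0 := by positivity
  refine Complex.norm_le_of_forall_mem_frontier_norm_le (U := Metric.ball 0 (4 * R))
    Metric.isBounded_ball hg.diffContOnCl ?_ ?_
  · intro u hu
    rw [frontier_ball _ h4, mem_sphere_zero_iff_norm] at hu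
    rw [le_div_iff₀ hpos]
    have h1 := lf_low a hR ha hu
    have h2 := hM u hu.le
    rw [hfg u, norm_mul] at h2
    calc ‖g u‖ * (3 * R) ^ a.length ≤ ‖g u‖ * ‖(a.map fun w => u - w).prod‖ := by gcongr
      _ ≤ M := by rw [mul_comm]; exact h2
  · rw [closure_ball _ h4, mem_closedBall_zero_iff]
    exact hz

private theorem lf_zero {f : ℂ → ℂ} {R : ℝ} (hR : 0 < R) {a : List ℂ} {g : ℂ → ℂ}
    (hfg : ∀ z, f z = (a.map fun w => z - w).prod * g z) (ha : ∀ w ∈ a, ‖w‖ ≤ R) :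
    ‖f 0‖ ≤ R ^ a.length * ‖g 0‖ := by
  rw [hfg 0, norm_mul]
  have := lf_up a hR ha
  gcongr

theorem ldFac {f : ℂ → ℂ} (hf : Differentiable ℂ f) (h0 : f 0 ≠ 0) {R M : ℝ} (hR : 0 < R)
    (hM : ∀ z, ‖z‖ ≤ 4 * R → ‖f z‖ ≤ M) :
    ∃ (a : List ℂ) (g : ℂ → ℂ), Differentiable ℂ g ∧
      (∀ z, f z = (a.map fun w => z - w).prod * g z) ∧ (∀ w ∈ a, ‖w‖ ≤ R) ∧
      (∀ z, ‖z‖ ≤ R → g z ≠ 0) ∧ ‖f 0‖ * 3 ^ a.length ≤ M ∧
      ∀ z, ‖z‖ ≤ 4 * R → ‖g z‖ * ‖f 0‖ ≤ M * ‖g 0‖ := by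
  classical
  have hf0 : 0 < ‖f 0‖ := norm_pos_iff.2 h0
  let P : ℕ → Prop := fun n => ∃ (a : List ℂ) (g : ℂ → ℂ), Differentiable ℂ g ∧
    (∀ z, f z = (a.map fun w => z - w).prod * g z) ∧ (∀ w ∈ a, ‖w‖ ≤ R) ∧ a.length = n
  have hlen : ∀ (a : List ℂ) (g : ℂ → ℂ), Differentiable ℂ g →
      (∀ z, f z = (a.map fun w => z - w).prod * g z) → (∀ w ∈ a, ‖w‖ ≤ R) →
      ‖f 0‖ * 3 ^ a.length ≤ M := by
    intro a g hg hfg ha
    have h1 := lf_bd hR hM hg hfg ha 0 (by rw [norm_zero]; positivity)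
    have h2 := lf_zero hR hfg ha
    calc ‖f 0‖ * 3 ^ a.length ≤ (R ^ a.length * ‖g 0‖) * 3 ^ a.length := by gcongr
      _ = ‖g 0‖ * (3 * R) ^ a.length := by rw [mul_pow]; ring
      _ ≤ M := h1
  obtain ⟨N, hN⟩ : ∃ N : ℕ, M < ‖f 0‖ * 3 ^ N := by
    obtain ⟨N, hN⟩ := pow_unbounded_of_one_lt (M / ‖f 0‖) (show (1 : ℝ) < 3 by norm_num)
    refine ⟨N, ?_⟩
    rw [div_lt_iff₀ hf0] at hN
    linarith
  have hP : ∀ n, P n → n < N := by
    rintro n ⟨a, g, hg, hfg, ha, rfl⟩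
    by_contra hcon
    push Not at hcon
    have h1 := hlen a g hg hfg ha
    have h2 : (3 : ℝ) ^ N ≤ 3 ^ a.length := pow_le_pow_right₀ (by norm_num) hcon
    have h3 : ‖f 0‖ * 3 ^ N ≤ ‖f 0‖ * 3 ^ a.length := by gcongr
    linarith
  have hP0 : P 0 := ⟨[], f, hf, fun z => by simp, by simp, rfl⟩
  obtain ⟨a, g, hg, hfg, ha, hn⟩ := Nat.findGreatest_spec (P := P) (Nat.zero_le N) hP0
  have hM0 : 0 ≤ M := (norm_nonneg (f 0)).trans (hM 0 (by rw [norm_zero]; positivity))
  refine ⟨a, g, hg, hfg, ha, ?_, hlen a g hg hfg ha, ?_⟩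
  · intro w hw hgw
    have hd : Differentiable ℂ (dslope g w) := by
      rw [← differentiableOn_univ] at hg ⊢
      exact (Complex.differentiableOn_dslope Filter.univ_mem).2 hg
    have h1 : P (Nat.findGreatest P N + 1) := by
      refine ⟨w :: a, dslope g w, hd, fun z => ?_, ?_, ?_⟩
      · have h2 : (z - w) * dslope g w z = g z := by
          have := sub_smul_dslope g w z
          rw [smul_eq_mul, hgw, sub_zero] at this
          exact this
        rw [List.map_cons, List.prod_cons, hfg z, ← h2]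
        ring
      · intro u hu
        rcases List.mem_cons.1 hu with rfl | hu
        · exact hw
        · exact ha u hu
      · rw [List.length_cons, hn]
    have h2 := hP _ h1
    exact Nat.findGreatest_is_greatest (P := P) (n := N) (Nat.lt_succ_self _) h2.le h1
  · intro z hz
    have h1 := lf_bd hR hM hg hfg ha z hz
    have h2 := lf_zero hR hfg ha
    have h3 : (1 : ℝ) ≤ 3 ^ a.length := one_le_pow₀ (by norm_num)
    have h4 : ‖g z‖ * R ^ a.length ≤ M := by
      calc ‖g z‖ * R ^ a.length ≤ (‖g z‖ * R ^ a.length) * 3 ^ a.length :=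
            le_mul_of_one_le_right (by positivity) h3
        _ = ‖g z‖ * (3 * R) ^ a.length := by rw [mul_pow]; ring
        _ ≤ M := h1
    calc ‖g z‖ * ‖f 0‖ ≤ ‖g z‖ * (R ^ a.length * ‖g 0‖) := by gcongr
      _ = (‖g z‖ * R ^ a.length) * ‖g 0‖ := by ring
      _ ≤ M * ‖g 0‖ := by gcongr

end Pool.Agent.Work.MP_90e0ad_ag.GR
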