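import Mathlib

/-!
Module PellW (S-M): algebra in the ring of entire functions. PROOF. Differentiating the Pell equation:
X X' = Y (T T' Y + (T^2-1) Y'). Put E = X (T T' Y + (T^2-1) Y') - (T^2-1) Y X'. Then
Y E = X^2 X' - (T^2-1) Y^2 X' = X' by the Pell equation. With F = X Y' - Y X' we have
E = X T T' Y + (T^2-1) F, and X^2 T^2 Y^2 = (1 + (T^2-1) Y^2) T^2 Y^2 = k^2 + (T^2-1) (Z + Y^2 + T^2 Y^4) (use
T^2 Y^2 = Y^2 + (T^2-1) Y^2 and Y^2 = k^2 + (T^2-1) Z). Hence E^2 = k^2 T'^2 + (T^2-1) W with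
W = T'^2 (Z + Y^2 + T^2 Y^4) + 2 X T T' Y F + (T^2-1) F^2. (linear_combination at each z; the derivative of
an entire function is entire: Differentiable.deriv or analyticAt.)
-/

set_option autoImplicit false

namespace Pool.Agent.Work.MP_90e0ad_ag.GR

private theorem gr_pellD {T X Y : ℂ → ℂ} (hT : Differentiable ℂ T) (hX : Differentiable ℂ X)
    (hY : Differentiable ℂ Y) (h1 : ∀ z, X z ^ 2 - (T z ^ 2 - 1) * Y z ^ 2 = 1) (z : ℂ) :
    X z * deriv X z = Y z * (T z * deriv T z * Y z + (T z ^ 2 - 1) * deriv Y z) := by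
  have hx := (hX z).hasDerivAt
  have hy := (hY z).hasDerivAt
  have ht := (hT z).hasDerivAt
  have h := (hx.pow 2).sub (((ht.pow 2).sub_const 1).mul (hy.pow 2))
  have hc : HasDerivAt (X ^ 2 - (fun x => (T ^ 2) x - 1) * Y ^ 2) 0 z := by
    have : (X ^ 2 - (fun x => (T ^ 2) x - 1) * Y ^ 2) = fun _ => (1 : ℂ) := by
      funext w
      exact h1 w
    rw [this]
    exact hasDerivAt_const z 1
  have e := h.unique hc
  simp only [Nat.cast_ofNat, Nat.add_one_sub_one, pow_one, Pi.pow_apply] at e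
  linear_combination e / 2

theorem pellW {T X Y Z : ℂ → ℂ} (hT : Differentiable ℂ T) (hX : Differentiable ℂ X)
    (hY : Differentiable ℂ Y) (hZ : Differentiable ℂ Z) {k : ℂ}
    (h1 : ∀ z, X z ^ 2 - (T z ^ 2 - 1) * Y z ^ 2 = 1)
    (h2 : ∀ z, Y z ^ 2 = k ^ 2 + (T z ^ 2 - 1) * Z z) :
    ∃ E W : ℂ → ℂ, Differentiable ℂ E ∧ Differentiable ℂ W ∧ (∀ z, deriv X z = Y z * E z) ∧
      ∀ z, E z ^ 2 = k ^ 2 * deriv T z ^ 2 + (T z ^ 2 - 1) * W z := by
  have hdT : Differentiable ℂ (deriv T) := fun z => (hT.analyticAt z).deriv.differentiableAt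
  have hdX : Differentiable ℂ (deriv X) := fun z => (hX.analyticAt z).deriv.differentiableAt
  have hdY : Differentiable ℂ (deriv Y) := fun z => (hY.analyticAt z).deriv.differentiableAt
  have hF : Differentiable ℂ (fun z => X z * deriv Y z - Y z * deriv X z) :=
    (hX.mul hdY).sub (hY.mul hdX)
  refine ⟨fun z => X z * (T z * deriv T z * Y z + (T z ^ 2 - 1) * deriv Y z) -
      (T z ^ 2 - 1) * Y z * deriv X z,
    fun z => deriv T z ^ 2 * (Z z + Y z ^ 2 + T z ^ 2 * Y z ^ 4) +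
      2 * X z * T z * deriv T z * Y z * (X z * deriv Y z - Y z * deriv X z) +
      (T z ^ 2 - 1) * (X z * deriv Y z - Y z * deriv X z) ^ 2, ?_, ?_, fun z => ?_, fun z => ?_⟩
  · exact (hX.mul (((hT.mul hdT).mul hY).add (((hT.pow 2).sub_const 1).mul hdY))).sub
      ((((hT.pow 2).sub_const 1).mul hY).mul hdX)
  · exact (((hdT.pow 2).mul ((hZ.add (hY.pow 2)).add ((hT.pow 2).mul (hY.pow 4)))).add
      (((((hX.const_mul 2).mul hT).mul hdT).mul hY).mul hF)).add
      (((hT.pow 2).sub_const 1).mul (hF.pow 2))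
  · have d := gr_pellD hT hX hY h1 z
    have e := h1 z
    linear_combination (-deriv X z) * e + X z * d
  · have e := h1 z
    have e2 := h2 z
    linear_combination deriv T z ^ 2 * (T z ^ 2 * Y z ^ 2 * e + e2)

/-- the derivative of the Pell equation -/
theorem pellD {T X Y : ℂ → ℂ} (hT : Differentiable ℂ T) (hX : Differentiable ℂ X)
    (hY : Differentiable ℂ Y) (h1 : ∀ z, X z ^ 2 - (T z ^ 2 - 1) * Y z ^ 2 = 1) (z : ℂ) :
    X z * deriv X z = Y z * (T z * deriv T z * Y z + (T z ^ 2 - 1) * deriv Y z) := by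
  exact gr_pellD hT hX hY h1 z

end Pool.Agent.Work.MP_90e0ad_ag.GR
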