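import Pool.Agent.Work.MP_90e0ad_ag.GR.Defs

/-! Definitions: the differential system. -/

set_option autoImplicit false

noncomputable section

namespace Pool.Agent.Work.MP_90e0ad_ag.GR

/-- (X,Y) solves the Pell equation over T and moves with exponent kappa. -/
structure Sys (T X Y : ℂ → ℂ) (κ : ℂ) : Prop where
  dT : Differentiable ℂ T
  dX : Differentiable ℂ X
  dY : Differentiable ℂ Y
  pell : ∀ z, X z ^ 2 - (T z ^ 2 - 1) * Y z ^ 2 = 1
  o1 : ∀ z, deriv X z = κ * deriv T z * Y z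
  o2 : ∀ z, (T z ^ 2 - 1) * deriv Y z = deriv T z * (κ * X z - T z * Y z)

/-- a square root of t^2 - 1 -/
def rt (t : ℂ) : ℂ := (t ^ 2 - 1) ^ (1 / 2 : ℂ)

/-- the function psi -/
def psi (T X Y : ℂ → ℂ) (κ : ℂ) (z : ℂ) : ℂ :=
  ((Real.log ‖X z + rt (T z) * Y z‖ : ℂ) -
    (starRingEnd ℂ κ) * (Real.log ‖T z + rt (T z)‖ : ℂ)) ^ 2

end Pool.Agent.Work.MP_90e0ad_ag.GR
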