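import Pool.Agent.Work.MP_90e0ad_ag.GR.PellW
import Pool.Agent.Work.MP_90e0ad_ag.GR.SysDefs
import Pool.Agent.Work.MP_90e0ad_ag.GR.LdC
import Pool.Agent.Work.MP_90e0ad_ag.GR.Zf

/-!
Module PellZ (M). PROOF. Take E, W from pellW. CLAIM W = 0. The functions X-1, X+1, T-1, T+1 are in OrdLT1 and
not identically 0: T is not constant; X^2 - 1 = (T^2-1) Y^2 is not identically 0 by dom. So there is a point
c where all four are not 0 (dom again for products). By ldOrd there are delta > 0 and arbitrarily large r such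
that on |z - c| = r all four are not 0 and |f'| <= r^(-delta) |f|. On such a circle Y is not 0 (as
(T^2-1) Y^2 = X^2-1 is not 0), E = X'/Y, and
W = (E^2 - k^2 T'^2)/(T^2-1) = X'^2/((T^2-1) Y^2) - k^2 T'^2/(T^2-1)
  = (X'/(X-1)) (X'/(X+1)) - k^2 (T'/(T-1)) (T'/(T+1)), so |W| <= (1 + |k|^2) r^(-2 delta) -> 0.
By circZ, W = 0. Hence (E - k T')(E + k T') = 0 and by dom E = kappa T' with kappa = k or -k, so
X' = kappa T' Y: this is o1. o2: from pellD, kappa X T' Y = Y (T T' Y + (T^2-1) Y'); cancel Y (dom).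
-/

set_option autoImplicit false

noncomputable section

namespace Pool.Agent.Work.MP_90e0ad_ag.GR

/-- a function of the class whose values are not all equal is not constant -/
private theorem pellZ_sq {T : ℂ → ℂ} (hT : Differentiable ℂ T) (hTn : ∃ z w, T z ≠ T w)
    (h : ∀ z, T z ^ 2 - 1 = 0) : False := by
  obtain ⟨z, w, hzw⟩ := hTn
  rcases dom (hT.sub_const 1) (hT.add_const 1) (fun z => by
    have := h z
    linear_combination this) with h1 | h1
  · apply hzw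
    have a := h1 z
    have b := h1 w
    linear_combination a - b
  · apply hzw
    have a := h1 z
    have b := h1 w
    linear_combination a - b

private theorem pellZ_deriv_add {f : ℂ → ℂ} (a z : ℂ) :
    deriv (fun z => f z + a) z = deriv f z := deriv_add_const a

/-- the bound for W on a good circle, pointwise -/
private theorem pellZ_W {x y t e w k x' t' : ℂ} {q : ℝ} (hq : 0 ≤ q)
    (h1 : x ^ 2 - (t ^ 2 - 1) * y ^ 2 = 1) (hx : x' = y * e)
    (he : e ^ 2 = k ^ 2 * t' ^ 2 + (t ^ 2 - 1) * w)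
    (a1 : x + (-1) ≠ 0) (a2 : x + 1 ≠ 0) (a3 : t + (-1) ≠ 0) (a4 : t + 1 ≠ 0)
    (b1 : ‖x'‖ ≤ q * ‖x + (-1)‖) (b2 : ‖x'‖ ≤ q * ‖x + 1‖)
    (b3 : ‖t'‖ ≤ q * ‖t + (-1)‖) (b4 : ‖t'‖ ≤ q * ‖t + 1‖) :
    ‖w‖ ≤ (1 + ‖k‖ ^ 2) * (q * q) := by
  set A : ℂ := (x + (-1)) * (x + 1) with hA
  set B : ℂ := (t + (-1)) * (t + 1) with hB
  have hA0 : A ≠ 0 := mul_ne_zero a1 a2
  have hB0 : B ≠ 0 := mul_ne_zero a3 a4
  have hAp : 0 < ‖A‖ := norm_pos_iff.2 hA0
  have hBp : 0 < ‖B‖ := norm_pos_iff.2 hB0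
  have key : A * B * w = x' ^ 2 * B - k ^ 2 * t' ^ 2 * A := by
    rw [hx, hA, hB]
    linear_combination (k ^ 2 * t' ^ 2 + (t ^ 2 - 1) * w) * h1 - (y ^ 2 * (t ^ 2 - 1)) * he
  have c1 : ‖x' ^ 2‖ ≤ q * q * ‖A‖ := by
    rw [norm_pow, hA, norm_mul, sq]
    calc ‖x'‖ * ‖x'‖ ≤ (q * ‖x + (-1)‖) * (q * ‖x + 1‖) :=
          mul_le_mul b1 b2 (norm_nonneg _) (by positivity)
      _ = q * q * (‖x + (-1)‖ * ‖x + 1‖) := by ring
  have c2 : ‖t' ^ 2‖ ≤ q * q * ‖B‖ := by
    rw [norm_pow, hB, norm_mul, sq]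
    calc ‖t'‖ * ‖t'‖ ≤ (q * ‖t + (-1)‖) * (q * ‖t + 1‖) :=
          mul_le_mul b3 b4 (norm_nonneg _) (by positivity)
      _ = q * q * (‖t + (-1)‖ * ‖t + 1‖) := by ring
  have h3 : ‖A‖ * ‖B‖ * ‖w‖ ≤ ‖A‖ * ‖B‖ * ((1 + ‖k‖ ^ 2) * (q * q)) := by
    calc ‖A‖ * ‖B‖ * ‖w‖ = ‖x' ^ 2 * B - k ^ 2 * t' ^ 2 * A‖ := by
          rw [← key, norm_mul (A * B) w, norm_mul A B]
      _ ≤ ‖x' ^ 2 * B‖ + ‖k ^ 2 * t' ^ 2 * A‖ := norm_sub_le _ _
      _ = ‖x' ^ 2‖ * ‖B‖ + ‖k‖ ^ 2 * ‖t' ^ 2‖ * ‖A‖ := by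
          rw [norm_mul (x' ^ 2) B, norm_mul (k ^ 2 * t' ^ 2) A, norm_mul (k ^ 2) (t' ^ 2),
            norm_pow k]
      _ ≤ (q * q * ‖A‖) * ‖B‖ + ‖k‖ ^ 2 * (q * q * ‖B‖) * ‖A‖ := by
          gcongr
      _ = ‖A‖ * ‖B‖ * ((1 + ‖k‖ ^ 2) * (q * q)) := by ring
  exact le_of_mul_le_mul_left h3 (mul_pos hAp hBp)

theorem pellZ {T X Y Z : ℂ → ℂ} (hT : T ∈ OrdLT1) (hX : X ∈ OrdLT1) (hY : Differentiable ℂ Y)
    (hZ : Differentiable ℂ Z) {k : ℂ} (h1 : ∀ z, X z ^ 2 - (T z ^ 2 - 1) * Y z ^ 2 = 1)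
    (h2 : ∀ z, Y z ^ 2 = k ^ 2 + (T z ^ 2 - 1) * Z z) (hTn : ∃ z w, T z ≠ T w)
    (hY0 : ∃ z, Y z ≠ 0) : ∃ κ : ℂ, κ ^ 2 = k ^ 2 ∧ Sys T X Y κ := by
  obtain ⟨E, W, hE, hW, hXE, hEW⟩ := pellW hT.1 hX.1 hY hZ h1 h2
  have hdT : Differentiable ℂ (deriv T) := fun z => (hT.1.analyticAt z).deriv.differentiableAt
  -- a good centre
  have hcen : ∃ c, (T c ^ 2 - 1) * Y c ≠ 0 := by
    by_contra hcon
    push Not at hcon
    rcases dom ((hT.1.pow 2).sub_const 1) hY hcon with h | h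
    · exact pellZ_sq hT.1 hTn h
    · obtain ⟨z, hz⟩ := hY0
      exact hz (h z)
  obtain ⟨c, hc⟩ := hcen
  have hc1 : T c ^ 2 - 1 ≠ 0 := left_ne_zero_of_mul hc
  have hc2 : Y c ≠ 0 := right_ne_zero_of_mul hc
  have hc3 : X c ^ 2 - 1 ≠ 0 := by
    have e : X c ^ 2 - 1 = (T c ^ 2 - 1) * Y c ^ 2 := by
      have := h1 c
      linear_combination this
    rw [e]
    exact mul_ne_zero hc1 (pow_ne_zero 2 hc2)
  have hW0 : ∀ z, W z = 0 := by
    obtain ⟨δ, hδ, hld⟩ := ldOrd [fun z => X z + (-1), fun z => X z + 1, fun z => T z + (-1),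
      fun z => T z + 1] (by
        intro f hf
        simp only [List.mem_cons, List.not_mem_nil, or_false] at hf
        rcases hf with rfl | rfl | rfl | rfl
        · exact ord_add hX (ord_const (-1))
        · exact ord_add hX (ord_const 1)
        · exact ord_add hT (ord_const (-1))
        · exact ord_add hT (ord_const 1))
    have hld' := hld c (by
      intro f hf
      simp only [List.mem_cons, List.not_mem_nil, or_false] at hf
      rcases hf with rfl | rfl | rfl | rfl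
      · intro h
        apply hc3
        have h' : X c + (-1) = 0 := h
        linear_combination (X c + 1) * h'
      · intro h
        apply hc3
        have h' : X c + 1 = 0 := h
        linear_combination (X c - 1) * h'
      · intro h
        apply hc1
        have h' : T c + (-1) = 0 := h
        linear_combination (T c + 1) * h'
      · intro h
        apply hc1
        have h' : T c + 1 = 0 := h
        linear_combination (T c - 1) * h')
    refine circZ hW c fun ε hε R₀ => ?_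
    have hlim : Filter.Tendsto (fun x : ℝ => (1 + ‖k‖ ^ 2) * (x ^ (-δ) * x ^ (-δ))) Filter.atTop
        (nhds ((1 + ‖k‖ ^ 2) * (0 * 0))) :=
      ((tendsto_rpow_neg_atTop hδ).mul (tendsto_rpow_neg_atTop hδ)).const_mul _
    rw [mul_zero, mul_zero] at hlim
    obtain ⟨R₁, hR₁⟩ := Filter.eventually_atTop.1 (hlim.eventually (gt_mem_nhds hε))
    obtain ⟨r, hr0, hr1, hr⟩ := hld' (max R₀ R₁)
    refine ⟨r, (le_max_left _ _).trans hr0, fun z hz => ?_⟩
    have hlt := hR₁ r ((le_max_right _ _).trans hr0)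
    have g1 := hr (fun z => X z + (-1)) (by simp) z hz
    have g2 := hr (fun z => X z + 1) (by simp) z hz
    have g3 := hr (fun z => T z + (-1)) (by simp) z hz
    have g4 := hr (fun z => T z + 1) (by simp) z hz
    rw [pellZ_deriv_add] at g1 g2 g3 g4
    have hq : 0 ≤ r ^ (-δ) := Real.rpow_nonneg (by linarith) _
    exact (pellZ_W hq (h1 z) (hXE z) (hEW z) g1.1 g2.1 g3.1 g4.1 g1.2 g2.2 g3.2 g4.2).trans
      hlt.le
  have hfac : (∀ z, E z - k * deriv T z = 0) ∨ ∀ z, E z + k * deriv T z = 0 :=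
    dom (hE.sub (hdT.const_mul k)) (hE.add (hdT.const_mul k)) (fun z => by
      have e := hEW z
      rw [hW0 z] at e
      linear_combination e)
  have hfin : ∀ κ : ℂ, (∀ z, E z = κ * deriv T z) → Sys T X Y κ := by
    intro κ hκ
    have o1 : ∀ z, deriv X z = κ * deriv T z * Y z := by
      intro z
      rw [hXE z, hκ z]
      ring
    refine ⟨hT.1, hX.1, hY, h1, o1, ?_⟩
    have hdY : Differentiable ℂ (deriv Y) := fun z => (hY.analyticAt z).deriv.differentiableAt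
    have hG : Differentiable ℂ (fun z => (T z ^ 2 - 1) * deriv Y z -
        deriv T z * (κ * X z - T z * Y z)) :=
      (((hT.1.pow 2).sub_const 1).mul hdY).sub
        (hdT.mul ((hX.1.const_mul κ).sub (hT.1.mul hY)))
    rcases dom hY hG (fun z => by
      have e := pellD hT.1 hX.1 hY h1 z
      rw [o1 z] at e
      linear_combination (-1 : ℂ) * e) with h | h
    · obtain ⟨z, hz⟩ := hY0
      exact absurd (h z) hz
    · intro z
      have := h z
      linear_combination this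
  rcases hfac with h | h
  · exact ⟨k, rfl, hfin k fun z => by linear_combination h z⟩
  · exact ⟨-k, by ring, hfin (-k) fun z => by linear_combination h z⟩

end Pool.Agent.Work.MP_90e0ad_ag.GR
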