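import Pool.Agent.Work.MP_90e0ad_ag.GR.Defs

/-!
Module PolEx (S-M). PROOFS. polEx: the property is closed under addition (append of lists) and every monomial c * x^s (s : N ->0 N finitely supported) is given by the
one element list [(c, [s 0, s 1, ..., s (M-1)])] with M beyond the support (List.ofFn or (List.range M).map s); MvPolynomial.induction_on' or
MvPolynomial.induction_on'' / as_sum and list induction. pad_lt is the definition. ev_eqW: direct computation (simp [ev]).
-/

set_option autoImplicit false

noncomputable section

namespace Pool.Agent.Work.MP_90e0ad_ag.GR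

theorem polEx (p : MvPolynomial ℕ ℤ) : ∃ P : Pol, ∀ x : ℕ → ℂ, ev P x = MvPolynomial.aeval x p := by
  induction p using MvPolynomial.induction_on' with
  | monomial s c =>
    obtain ⟨M, hM⟩ : ∃ M : ℕ, s.support ⊆ Finset.range M :=
      ⟨s.support.sup id + 1, fun i hi => Finset.mem_range.2
        (Nat.lt_succ_of_le (Finset.le_sup (f := id) hi))⟩
    refine ⟨[(c, (List.range M).map s)], fun x => ?_⟩
    rw [MvPolynomial.aeval_monomial, Finsupp.prod_of_support_subset s hM _
      (fun i _ => pow_zero _)]
    unfold ev
    simp only [List.map_cons, List.map_nil, List.sum_cons, List.sum_nil, add_zero,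
      List.length_map, List.length_range]
    have h1 : ∏ i ∈ Finset.range M, x i ^ ((List.range M).map s).getD i 0 =
        ∏ i ∈ Finset.range M, x i ^ s i := by
      refine Finset.prod_congr rfl fun i hi => ?_
      have h2 : ((List.range M).map s).getD i 0 = s i := by
        rw [List.getD_eq_getElem _ _ (by simpa using hi)]
        simp
      rw [h2]
    rw [h1]
    simp
  | add p q hp hq =>
    obtain ⟨P, hP⟩ := hp
    obtain ⟨Q, hQ⟩ := hq
    refine ⟨P ++ Q, fun x => ?_⟩
    rw [map_add, ← hP, ← hQ]
    unfold ev
    rw [List.map_append, List.sum_append]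

/-- the polynomial x_0 - n -/
def eqW (n : ℕ) : Pol := [(1, [1]), (-(n : ℤ), [])]

theorem ev_eqW (n : ℕ) (x : ℕ → ℂ) : ev (eqW n) x = x 0 - n := by
  simp [ev, eqW, sub_eq_add_neg]

/-- padding a restriction -/
theorem pad_restrict (N : ℕ) (y : ℕ → ℂ) (i : ℕ) (hi : i < N) :
    pad (fun j : Fin N => y j) i = y i := by
  simp [pad, hi]

end Pool.Agent.Work.MP_90e0ad_ag.GR
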