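import Mathlib

/-!
Module QuotOrd (M): division of entire functions. PROOF. At every z0, B has finite order n there (identity theorem, B not
identically 0), B = (z-z0)^n B1, A = (z-z0)^n A1 near z0, A1, B1 analytic at z0, B1(z0) not 0 (analyticOrderAt, AnalyticAt.analyticOrderAt_eq_natCast,
natCast_le_analyticOrderAt). The normal form of the meromorphic function A/B has order >= 0 everywhere, so it is analytic.
-/

set_option autoImplicit false

namespace Pool.Agent.Work.MP_90e0ad_ag.GR

open Filter Topology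

theorem quotOrd {A B : ℂ → ℂ} (hA : Differentiable ℂ A) (hB : Differentiable ℂ B)
    (hB0 : ∃ z, B z ≠ 0) (h : ∀ z, analyticOrderAt B z ≤ analyticOrderAt A z) :
    ∃ H : ℂ → ℂ, Differentiable ℂ H ∧ ∀ z, A z = H z * B z := by
  have ha' : AnalyticOnNhd ℂ A Set.univ := fun z _ => hA.analyticAt z
  have hb' : AnalyticOnNhd ℂ B Set.univ := fun z _ => hB.analyticAt z
  let f : ℂ → ℂ := fun z => A z / B z
  have hf : MeromorphicOn f Set.univ := fun z hz =>
    (ha' z hz).meromorphicAt.div (hb' z hz).meromorphicAt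
  let g : ℂ → ℂ := toMeromorphicNFOn f Set.univ
  have hbne : ∀ z, ∀ᶠ w in 𝓝[≠] z, B w ≠ 0 := by
    intro z
    rcases (hb' z trivial).eventually_eq_zero_or_eventually_ne_zero with h | h
    · exfalso
      obtain ⟨z₁, hz₁⟩ := hB0
      have := hb'.eqOn_zero_of_preconnected_of_eventuallyEq_zero isPreconnected_univ
        (Set.mem_univ z) h
      exact hz₁ (this (Set.mem_univ z₁))
    · exact h
  have hord : ∀ z, 0 ≤ meromorphicOrderAt f z := by
    intro z
    have hfin : analyticOrderAt B z ≠ ⊤ := by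
      intro htop
      rw [analyticOrderAt_eq_top] at htop
      have h2 : ∀ᶠ w in 𝓝[≠] z, False := by
        filter_upwards [hbne z, htop.filter_mono nhdsWithin_le_nhds] with w hw1 hw2
        exact hw1 hw2
      rw [eventually_false_iff_eq_bot] at h2
      exact (inferInstance : (𝓝[≠] z).NeBot).ne h2
    obtain ⟨n, hn⟩ := ENat.ne_top_iff_exists.1 hfin
    obtain ⟨B₁, hB₁, hB₁0, hBe⟩ := (hb' z trivial).analyticOrderAt_eq_natCast.1 hn.symm
    have hle : (n : ℕ∞) ≤ analyticOrderAt A z := by rw [hn]; exact h z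
    obtain ⟨A₁, hA₁, hAe⟩ := (natCast_le_analyticOrderAt (ha' z trivial)).1 hle
    have hq : AnalyticAt ℂ (fun w => A₁ w / B₁ w) z := hA₁.div hB₁ hB₁0
    have heq : f =ᶠ[𝓝[≠] z] fun w => A₁ w / B₁ w := by
      filter_upwards [hAe.filter_mono nhdsWithin_le_nhds, hBe.filter_mono nhdsWithin_le_nhds,
        self_mem_nhdsWithin] with w hw1 hw2 hw3
      have hwz : (w - z) ^ n ≠ 0 := pow_ne_zero _ (sub_ne_zero.2 hw3)
      simp only [f]
      rw [hw1, hw2, smul_eq_mul, smul_eq_mul, mul_div_mul_left _ _ hwz]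
    rw [meromorphicOrderAt_congr heq]
    exact hq.meromorphicOrderAt_nonneg
  have hg : ∀ z, AnalyticAt ℂ g z := by
    intro z
    have h1 : MeromorphicNFAt g z := meromorphicNFOn_toMeromorphicNFOn f Set.univ (Set.mem_univ z)
    rw [← h1.meromorphicOrderAt_nonneg_iff_analyticAt]
    rw [meromorphicOrderAt_toMeromorphicNFOn hf (Set.mem_univ z)]
    exact hord z
  have hgd : Differentiable ℂ g := fun z => (hg z).differentiableAt
  refine ⟨g, hgd, fun z => ?_⟩
  have h1 : ∀ᶠ w in 𝓝[≠] z, g w * B w = A w := by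
    filter_upwards [hf.toMeromorphicNFOn_eq_self_on_nhdsNE (Set.mem_univ z), hbne z] with w hw1 hw2
    show toMeromorphicNFOn f Set.univ w * B w = A w
    rw [hw1]
    simp only [f]
    field_simp
  have h2 : Tendsto (fun w => g w * B w) (𝓝[≠] z) (𝓝 (g z * B z)) :=
    ((hgd.continuous.mul hB.continuous).tendsto z).mono_left nhdsWithin_le_nhds
  have h3 : Tendsto A (𝓝[≠] z) (𝓝 (A z)) :=
    (hA.continuous.tendsto z).mono_left nhdsWithin_le_nhds
  exact tendsto_nhds_unique (h3.congr' (h1.mono fun w hw => hw.symm)) h2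

end Pool.Agent.Work.MP_90e0ad_ag.GR
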