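import Pool.Agent.Work.MP_90e0ad_ag.GR.SysDefs

/-!
Module SysLoc (M): local form of the solutions. PROOF. q(z) = (T z^2 - 1)/(T z0^2 - 1) is continuous with q(z0) = 1,
so on a ball q lies in the slit plane (re > 0); put w = s0 * q^(1/2) (principal power or
exp(log q / 2)), s0^2 = T z0^2 - 1. Then w is differentiable, w^2 = T^2-1, w nonzero. T + w is nonzero
((T+w)(T-w) = 1) and continuous, so on a smaller ball (T+w)/(T z0 + w z0) lies in the slit plane and
L = log((T+w)/(T z0 + w z0)) + log(T z0 + w z0) is differentiable with exp L = T + w.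
w' = T T'/w, L' = (T' + w')/(T+w) = T'/w. G = (X + w Y) exp(-kappa L) has derivative 0 on the ball:
(X + wY)' = kappa T' Y + T T' Y / w + w Y' and w Y' = (T^2-1) Y'/w = T'(kappa X - T Y)/w, so
(X + wY)' = kappa (T'/w)(X + wY). So G is a constant C on the ball (convex; Convex.is_const_of_fderivWithin_eq_zero or
IsOpen.is_const_of_deriv_eq_zero). C is not 0 as (X+wY)(X-wY) = 1.
-/

set_option autoImplicit false

noncomputable section

namespace Pool.Agent.Work.MP_90e0ad_ag.GR

theorem sysLoc {T X Y : ℂ → ℂ} {κ : ℂ} (S : Sys T X Y κ) {z₀ : ℂ} (hz : T z₀ ^ 2 ≠ 1) :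
    ∃ (r : ℝ) (w L : ℂ → ℂ) (C : ℂ), 0 < r ∧ C ≠ 0 ∧
      DifferentiableOn ℂ w (Metric.ball z₀ r) ∧ DifferentiableOn ℂ L (Metric.ball z₀ r) ∧
      ∀ z ∈ Metric.ball z₀ r, T z ^ 2 ≠ 1 ∧ w z ^ 2 = T z ^ 2 - 1 ∧
        Complex.exp (L z) = T z + w z ∧ X z + w z * Y z = C * Complex.exp (κ * L z) := by
  set a : ℂ := T z₀ ^ 2 - 1 with ha
  have ha0 : a ≠ 0 := fun h => hz (sub_eq_zero.1 h)
  obtain ⟨s₀, hs₀⟩ := IsAlgClosed.exists_pow_nat_eq a (n := 2) (by norm_num)
  have hs₀0 : s₀ ≠ 0 := by
    intro h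
    rw [h] at hs₀
    apply ha0
    rw [← hs₀]
    norm_num
  set q : ℂ → ℂ := fun z => (T z ^ 2 - 1) / a with hq
  have hqd : Differentiable ℂ q := ((S.dT.pow 2).sub_const 1).div_const a
  have hq0 : q z₀ = 1 := by
    show (T z₀ ^ 2 - 1) / a = 1
    rw [← ha, div_self ha0]
  set w : ℂ → ℂ := fun z => s₀ * Complex.exp (Complex.log (q z) / 2) with hw
  have hwd : ∀ z, 0 < (q z).re → DifferentiableAt ℂ w z := by
    intro z hz
    have h1 : q z ∈ Complex.slitPlane := Or.inl hz
    exact ((((hqd z).clog h1).div_const 2).cexp).const_mul s₀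
  have hw2 : ∀ z, 0 < (q z).re → w z ^ 2 = T z ^ 2 - 1 := by
    intro z hz
    have h0 : q z ≠ 0 := by
      intro h
      rw [h] at hz
      simp at hz
    have h1 : Complex.exp (Complex.log (q z) / 2) ^ 2 = q z := by
      rw [← Complex.exp_nat_mul]
      have : ((2 : ℕ) : ℂ) * (Complex.log (q z) / 2) = Complex.log (q z) := by
        push_cast
        ring
      rw [this, Complex.exp_log h0]
    show (s₀ * Complex.exp (Complex.log (q z) / 2)) ^ 2 = T z ^ 2 - 1
    rw [mul_pow, hs₀, h1]
    show a * ((T z ^ 2 - 1) / a) = T z ^ 2 - 1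
    field_simp
  have hq0re : 0 < (q z₀).re := by rw [hq0]; norm_num
  set g : ℂ → ℂ := fun z => T z + w z with hg
  have hg0 : ∀ z, 0 < (q z).re → g z ≠ 0 := by
    intro z hz h
    have h1 : (T z + w z) * (T z - w z) = 1 := by
      have := hw2 z hz
      linear_combination -this
    have h2 : T z + w z = 0 := h
    rw [h2, zero_mul] at h1
    exact zero_ne_one h1
  have hgc : ContinuousAt g z₀ := (S.dT z₀).continuousAt.add (hwd z₀ hq0re).continuousAt
  have hgz : g z₀ ≠ 0 := hg0 z₀ hq0re
  have e1 : ∀ᶠ z in nhds z₀, 0 < (q z).re := by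
    have : ContinuousAt (fun z => (q z).re) z₀ :=
      Complex.continuous_re.continuousAt.comp (hqd z₀).continuousAt
    exact this.eventually (lt_mem_nhds hq0re)
  have e2 : ∀ᶠ z in nhds z₀, 0 < (g z / g z₀).re := by
    have h1 : ContinuousAt (fun z => (g z / g z₀).re) z₀ :=
      Complex.continuous_re.continuousAt.comp (f := fun z => g z / g z₀) (hgc.div_const _)
    refine h1.eventually (lt_mem_nhds ?_)
    show 0 < (g z₀ / g z₀).re
    rw [div_self hgz]
    norm_num
  obtain ⟨r, hr, hball⟩ := Metric.eventually_nhds_iff_ball.1 (e1.and e2)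
  set L : ℂ → ℂ := fun z => Complex.log (g z / g z₀) + Complex.log (g z₀) with hL
  have hwdiff : ∀ z ∈ Metric.ball z₀ r, DifferentiableAt ℂ w z := fun z hz =>
    hwd z (hball z hz).1
  have hgdiff : ∀ z ∈ Metric.ball z₀ r, DifferentiableAt ℂ g z := fun z hz =>
    (S.dT z).add (hwdiff z hz)
  have hLdiff : ∀ z ∈ Metric.ball z₀ r, DifferentiableAt ℂ L z := by
    intro z hz
    have h1 : g z / g z₀ ∈ Complex.slitPlane := Or.inl (hball z hz).2
    exact (((hgdiff z hz).div_const (g z₀)).clog h1).add_const _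
  have hexpL : ∀ z ∈ Metric.ball z₀ r, Complex.exp (L z) = g z := by
    intro z hz
    have h1 : g z / g z₀ ≠ 0 := div_ne_zero (hg0 z (hball z hz).1) hgz
    show Complex.exp (Complex.log (g z / g z₀) + Complex.log (g z₀)) = g z
    rw [Complex.exp_add, Complex.exp_log h1, Complex.exp_log hgz, div_mul_cancel₀ _ hgz]
  set G : ℂ → ℂ := fun z => (X z + w z * Y z) * Complex.exp (-(κ * L z)) with hG
  have hGdiff : ∀ z ∈ Metric.ball z₀ r, DifferentiableAt ℂ G z := fun z hz =>
    ((S.dX z).add ((hwdiff z hz).mul (S.dY z))).mul (((hLdiff z hz).const_mul κ).neg.cexp)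
  have hG' : ∀ z ∈ Metric.ball z₀ r, deriv G z = 0 := by
    intro z hz
    have hz' : Metric.ball z₀ r ∈ nhds z := Metric.isOpen_ball.mem_nhds hz
    have dT := (S.dT z).hasDerivAt
    have dX := (S.dX z).hasDerivAt
    have dY := (S.dY z).hasDerivAt
    have dw := (hwdiff z hz).hasDerivAt
    have dL := (hLdiff z hz).hasDerivAt
    have hww : w z * deriv w z = T z * deriv T z := by
      have h1 : HasDerivAt (fun z => w z ^ 2) (((2 : ℕ) : ℂ) * w z ^ (2 - 1) * deriv w z) z :=
        dw.pow 2
      have h2 : HasDerivAt (fun z => T z ^ 2 - 1) (((2 : ℕ) : ℂ) * T z ^ (2 - 1) * deriv T z) z :=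
        (dT.pow 2).sub_const 1
      have h3 : (fun z => w z ^ 2) =ᶠ[nhds z] fun z => T z ^ 2 - 1 :=
        Filter.eventually_of_mem hz' fun y hy => hw2 y (hball y hy).1
      have h4 := h1.unique (h2.congr_of_eventuallyEq h3)
      simp only [Nat.add_one_sub_one, pow_one, Nat.cast_ofNat] at h4
      linear_combination h4 / 2
    have hgL : g z * deriv L z = deriv T z + deriv w z := by
      have h1 : HasDerivAt (fun z => Complex.exp (L z)) (Complex.exp (L z) * deriv L z) z :=
        dL.cexp
      have h2 : HasDerivAt g (deriv T z + deriv w z) z := dT.add dw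
      have h3 : (fun z => Complex.exp (L z)) =ᶠ[nhds z] g :=
        Filter.eventually_of_mem hz' fun y hy => hexpL y hy
      have h4 := h1.unique (h2.congr_of_eventuallyEq h3)
      rw [hexpL z hz] at h4
      exact h4
    have hgz0 : g z ≠ 0 := hg0 z (hball z hz).1
    have hw20 := hw2 z (hball z hz).1
    have hwL : w z * deriv L z = deriv T z := by
      have h1 : g z * (w z * deriv L z) = g z * deriv T z := by
        have h2 : g z = T z + w z := rfl
        rw [h2] at hgL ⊢
        linear_combination (w z) * hgL + hww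
      exact mul_left_cancel₀ hgz0 h1
    have hT1 : T z ^ 2 - 1 ≠ 0 := by
      intro h
      have h1 : q z = 0 := by
        show (T z ^ 2 - 1) / a = 0
        rw [h, zero_div]
      have h2 := (hball z hz).1
      rw [h1] at h2
      simp at h2
    have hw0 : w z ≠ 0 := by
      intro h
      rw [h] at hw20
      apply hT1
      rw [← hw20]
      norm_num
    have dG : HasDerivAt G ((deriv X z + (deriv w z * Y z + w z * deriv Y z)) *
        Complex.exp (-(κ * L z)) + (X z + w z * Y z) *
        (Complex.exp (-(κ * L z)) * -(κ * deriv L z))) z :=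
      (dX.add (dw.mul dY)).mul ((dL.const_mul κ).neg.cexp)
    rw [dG.deriv]
    have o1 := S.o1 z
    have o2 := S.o2 z
    have h5 : w z * ((deriv X z + (deriv w z * Y z + w z * deriv Y z)) -
        κ * deriv L z * (X z + w z * Y z)) = 0 := by
      linear_combination (w z) * o1 + (Y z) * hww + (deriv Y z) * hw20 + o2 -
        κ * (X z + w z * Y z) * hwL
    have h6 := (mul_eq_zero.1 h5).resolve_left hw0
    linear_combination Complex.exp (-(κ * L z)) * h6
  have hz0 : z₀ ∈ Metric.ball z₀ r := Metric.mem_ball_self hr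
  have hconst : ∀ z ∈ Metric.ball z₀ r, G z = G z₀ := by
    intro z hz
    refine Metric.isOpen_ball.is_const_of_deriv_eq_zero (convex_ball z₀ r).isPreconnected
      (fun y hy => (hGdiff y hy).differentiableWithinAt) (fun y hy => hG' y hy) hz hz0
  refine ⟨r, w, L, G z₀, hr, ?_, fun z hz => (hwdiff z hz).differentiableWithinAt,
    fun z hz => (hLdiff z hz).differentiableWithinAt, ?_⟩
  · show (X z₀ + w z₀ * Y z₀) * Complex.exp (-(κ * L z₀)) ≠ 0
    refine mul_ne_zero ?_ (Complex.exp_ne_zero _)
    intro h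
    have h1 : (X z₀ + w z₀ * Y z₀) * (X z₀ - w z₀ * Y z₀) = 1 := by
      have h2 := S.pell z₀
      have h3 := hw2 z₀ hq0re
      linear_combination h2 - (Y z₀) ^ 2 * h3
    rw [h, zero_mul] at h1
    exact zero_ne_one h1
  · intro z hz
    refine ⟨?_, hw2 z (hball z hz).1, hexpL z hz, ?_⟩
    · intro h
      have h1 : q z = 0 := by
        show (T z ^ 2 - 1) / a = 0
        rw [h, sub_self, zero_div]
      have h2 := (hball z hz).1
      rw [h1] at h2
      simp at h2
    · have h1 := hconst z hz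
      have h2 : G z = (X z + w z * Y z) * Complex.exp (-(κ * L z)) := rfl
      have h3 : Complex.exp (-(κ * L z)) * Complex.exp (κ * L z) = 1 := by
        rw [← Complex.exp_add, neg_add_cancel, Complex.exp_zero]
      rw [← h1, h2]
      generalize Complex.exp (-(κ * L z)) = u at h3 ⊢
      generalize Complex.exp (κ * L z) = v at h3 ⊢
      linear_combination -(X z + w z * Y z) * h3

end Pool.Agent.Work.MP_90e0ad_ag.GR
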