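import Pool.Agent.Work.MP_90e0ad_ag.GR.SysPsi

/-!
Module SysNul (M): psi = 0. PROOF. Let a = re kappa, b = im kappa, p = log |T + rt T|, q = log |X + rt T * Y|.
psi = (q - (a - ib) p)^2, so re (- psi) = b^2 p^2 - (q - a p)^2 <= b^2 p^2. By log_le and ordNorm
|p| <= log (2 |T| + 1) <= log 3 + C (1+|z|)^rho, rho in (0,1), so re (-psi) <= C' (1+|z|)^(2 rho). By growP
- psi is a polynomial of degree <= 2 rho < 2. T takes the values 1 and -1 (surjOrd) at two different points, where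
psi = 0 (psi_zero). A polynomial of degree <= 1 with two zeros is 0.
Conclusion sysNul: psi = 0 and psi_eq give log |X+wY| = conj(kappa) log |T+w|.
-/

set_option autoImplicit false

noncomputable section

namespace Pool.Agent.Work.MP_90e0ad_ag.GR

private theorem re_le (q p : ℝ) (κ : ℂ) :
    (-(((q : ℂ) - (starRingEnd ℂ κ) * (p : ℂ)) ^ 2)).re ≤ κ.im ^ 2 * p ^ 2 := by
  have h : (-(((q : ℂ) - (starRingEnd ℂ κ) * (p : ℂ)) ^ 2)).re =
      κ.im ^ 2 * p ^ 2 - (q - κ.re * p) ^ 2 := by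
    simp only [pow_two, Complex.neg_re, Complex.mul_re, Complex.sub_re, Complex.sub_im,
      Complex.mul_im, Complex.conj_re, Complex.conj_im, Complex.ofReal_re, Complex.ofReal_im]
    ring
  rw [h]
  have := sq_nonneg (q - κ.re * p)
  linarith

theorem sysNul {T X Y : ℂ → ℂ} {κ : ℂ} (S : Sys T X Y κ) (hT : T ∈ OrdLT1)
    (hTn : ∃ z w, T z ≠ T w) {z w : ℂ} (hw : w ^ 2 = T z ^ 2 - 1) :
    (Real.log ‖X z + w * Y z‖ : ℂ) = (starRingEnd ℂ κ) * (Real.log ‖T z + w‖ : ℂ) := by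
  obtain ⟨ρ, C, hρ0, hρ1, hC, hb⟩ := ordNorm hT
  have hgd : Differentiable ℂ (fun z => - psi T X Y κ z) := (psi_diff S hTn).neg
  have hbd : ∀ z, (- psi T X Y κ z).re ≤ (κ.im ^ 2 * (2 + C) ^ 2) * (1 + ‖z‖) ^ (2 * ρ) := by
    intro z
    have hx : (1 : ℝ) ≤ 1 + ‖z‖ := by
      have := norm_nonneg z
      linarith
    have h1 : (- psi T X Y κ z).re ≤ κ.im ^ 2 * (Real.log ‖T z + rt (T z)‖) ^ 2 :=
      re_le _ _ κ
    have h2 := log_le (rt_sq (T z))
    have hE : (1 : ℝ) ≤ Real.exp (C * (1 + ‖z‖) ^ ρ) := by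
      apply Real.one_le_exp
      exact mul_nonneg hC (Real.rpow_nonneg (by linarith) _)
    have h3 : 2 * ‖T z‖ + 1 ≤ 3 * Real.exp (C * (1 + ‖z‖) ^ ρ) := by
      have := hb z
      linarith
    have h4 : Real.log (2 * ‖T z‖ + 1) ≤ (2 + C) * (1 + ‖z‖) ^ ρ := by
      have h5 : Real.log (2 * ‖T z‖ + 1) ≤ Real.log (3 * Real.exp (C * (1 + ‖z‖) ^ ρ)) :=
        Real.log_le_log (by have := norm_nonneg (T z); linarith) h3
      rw [Real.log_mul (by norm_num) (Real.exp_ne_zero _), Real.log_exp] at h5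
      have h6 : Real.log 3 ≤ 2 := by
        have := Real.log_le_sub_one_of_pos (show (0 : ℝ) < 3 by norm_num)
        linarith
      have h7 : (1 : ℝ) ≤ (1 + ‖z‖) ^ ρ := Real.one_le_rpow hx hρ0.le
      nlinarith
    have h8 : (Real.log ‖T z + rt (T z)‖) ^ 2 ≤ ((2 + C) * (1 + ‖z‖) ^ ρ) ^ 2 := by
      rw [← sq_abs]
      exact pow_le_pow_left₀ (abs_nonneg _) (h2.trans h4) 2
    have h9 : ((1 + ‖z‖) ^ ρ) ^ 2 = (1 + ‖z‖) ^ (2 * ρ) := by
      rw [mul_comm, Real.rpow_mul (by linarith)]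
      norm_num
    calc (- psi T X Y κ z).re ≤ κ.im ^ 2 * (Real.log ‖T z + rt (T z)‖) ^ 2 := h1
      _ ≤ κ.im ^ 2 * ((2 + C) * (1 + ‖z‖) ^ ρ) ^ 2 :=
          mul_le_mul_of_nonneg_left h8 (sq_nonneg _)
      _ = (κ.im ^ 2 * (2 + C) ^ 2) * (1 + ‖z‖) ^ (2 * ρ) := by
          rw [← h9]
          ring
  obtain ⟨P, hPd, hP⟩ := growP hgd (by linarith : (0 : ℝ) ≤ 2 * ρ) hbd
  have hdeg : P.natDegree < 2 := by
    have h : (P.natDegree : ℝ) < 2 := by linarith
    exact_mod_cast h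
  obtain ⟨z₁, h1⟩ := surjOrd hT hTn 1
  obtain ⟨z₂, h2⟩ := surjOrd hT hTn (-1)
  have hne : z₁ ≠ z₂ := by
    rintro rfl
    rw [h1] at h2
    norm_num at h2
  have hz1 : P.eval z₁ = 0 := by
    rw [← hP, psi_zero S (by rw [h1]; norm_num), neg_zero]
  have hz2 : P.eval z₂ = 0 := by
    rw [← hP, psi_zero S (by rw [h2]; norm_num), neg_zero]
  have hP0 : P = 0 := by
    refine Polynomial.eq_zero_of_natDegree_lt_card_of_eval_eq_zero' P {z₁, z₂} ?_ ?_
    · intro x hx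
      rcases Finset.mem_insert.1 hx with rfl | hx
      · exact hz1
      · rw [Finset.mem_singleton.1 hx]
        exact hz2
    · rw [Finset.card_pair hne]
      exact hdeg
  have h3 : psi T X Y κ z = 0 := by
    have h4 := hP z
    rw [hP0, Polynomial.eval_zero] at h4
    exact neg_eq_zero.1 h4
  rw [psi_eq S hw] at h3
  exact sub_eq_zero.1 (pow_eq_zero_iff (two_ne_zero)|>.1 h3)


end Pool.Agent.Work.MP_90e0ad_ag.GR
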