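import Pool.Agent.Work.MP_90e0ad_ag.GR.SysDefs

/-!
Module SysSgn (S): signs. PROOFS. rt_sq: Complex.cpow_nat_mul / cpow_add, or cpow_natCast. (t+w)(t-w) = t^2 - w^2 = 1, so
log |t-w| = - log |t+w|; (x+wy)(x-wy) = x^2 - (t^2-1) y^2 = 1. psi_eq: if w^2 = T^2-1 then w = rt or w = -rt; in the
second case both logarithms change sign and the square is the same.
-/

set_option autoImplicit false

noncomputable section

namespace Pool.Agent.Work.MP_90e0ad_ag.GR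

theorem rt_sq (t : ℂ) : rt t ^ 2 = t ^ 2 - 1 := by
  unfold rt
  rw [← Complex.cpow_nat_mul]
  norm_num

theorem add_ne {t w : ℂ} (h : w ^ 2 = t ^ 2 - 1) : t + w ≠ 0 := by
  intro h0
  have h1 : (t + w) * (t - w) = 1 := by linear_combination -h
  rw [h0, zero_mul] at h1
  exact zero_ne_one h1

private theorem log_of_mul {a b : ℂ} (h : a * b = 1) :
    Real.log ‖b‖ = - Real.log ‖a‖ := by
  have h1 : ‖a‖ * ‖b‖ = 1 := by rw [← norm_mul, h, norm_one]
  have ha : ‖a‖ ≠ 0 := left_ne_zero_of_mul (by rw [h1]; exact one_ne_zero)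
  have hb : ‖b‖ ≠ 0 := right_ne_zero_of_mul (by rw [h1]; exact one_ne_zero)
  have h2 := Real.log_mul ha hb
  rw [h1, Real.log_one] at h2
  linarith

theorem log_sub {t w : ℂ} (h : w ^ 2 = t ^ 2 - 1) :
    Real.log ‖t - w‖ = - Real.log ‖t + w‖ :=
  log_of_mul (by linear_combination -h)

theorem add_ne2 {x y t w : ℂ} (hw : w ^ 2 = t ^ 2 - 1) (h : x ^ 2 - (t ^ 2 - 1) * y ^ 2 = 1) :
    x + w * y ≠ 0 := by
  intro h0
  have h1 : (x + w * y) * (x - w * y) = 1 := by linear_combination h - y ^ 2 * hw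
  rw [h0, zero_mul] at h1
  exact zero_ne_one h1

theorem log_sub2 {x y t w : ℂ} (hw : w ^ 2 = t ^ 2 - 1) (h : x ^ 2 - (t ^ 2 - 1) * y ^ 2 = 1) :
    Real.log ‖x - w * y‖ = - Real.log ‖x + w * y‖ :=
  log_of_mul (by linear_combination h - y ^ 2 * hw)

theorem psi_eq {T X Y : ℂ → ℂ} {κ : ℂ} (S : Sys T X Y κ) {z w : ℂ} (hw : w ^ 2 = T z ^ 2 - 1) :
    psi T X Y κ z = ((Real.log ‖X z + w * Y z‖ : ℂ) -
      (starRingEnd ℂ κ) * (Real.log ‖T z + w‖ : ℂ)) ^ 2 := by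
  have h1 : w ^ 2 = rt (T z) ^ 2 := by rw [hw, rt_sq]
  rcases sq_eq_sq_iff_eq_or_eq_neg.mp h1 with h2 | h2
  · rw [h2]; rfl
  · have hr : rt (T z) ^ 2 = T z ^ 2 - 1 := rt_sq (T z)
    have e1 : X z + w * Y z = X z - rt (T z) * Y z := by rw [h2]; ring
    have e2 : T z + w = T z - rt (T z) := by rw [h2]; ring
    rw [e1, e2, log_sub2 hr (S.pell z), log_sub hr]
    unfold psi
    push_cast
    ring

/-- p is bounded by the logarithm of T -/
theorem log_le {t w : ℂ} (h : w ^ 2 = t ^ 2 - 1) :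
    |Real.log ‖t + w‖| ≤ Real.log (2 * ‖t‖ + 1) := by
  have hw : ‖w‖ ≤ ‖t‖ + 1 := by
    have h1 : ‖w‖ ^ 2 ≤ ‖t‖ ^ 2 + 1 := by
      rw [← norm_pow, h, ← norm_pow]
      refine (norm_sub_le _ _).trans ?_
      rw [norm_one]
    nlinarith [norm_nonneg w, norm_nonneg t]
  have hne : t + w ≠ 0 := add_ne h
  have hne2 : t - w ≠ 0 := by
    have h3 : (-w) ^ 2 = t ^ 2 - 1 := by rw [neg_sq, h]
    have h4 := add_ne h3
    rwa [← sub_eq_add_neg] at h4
  have b1 : ‖t + w‖ ≤ 2 * ‖t‖ + 1 := (norm_add_le _ _).trans (by linarith)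
  have b2 : ‖t - w‖ ≤ 2 * ‖t‖ + 1 := (norm_sub_le _ _).trans (by linarith)
  have l1 := Real.log_le_log (norm_pos_iff.mpr hne) b1
  have l2 := Real.log_le_log (norm_pos_iff.mpr hne2) b2
  rw [log_sub h] at l2
  exact abs_le.mpr ⟨by linarith, l1⟩

end Pool.Agent.Work.MP_90e0ad_ag.GR
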