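import Pool.Agent.Work.MP_90e0ad_ag.GR.SysLoc
import Pool.Agent.Work.MP_90e0ad_ag.GR.SysSgn
import Pool.Agent.Work.MP_90e0ad_ag.GR.Zf

/-!
Module SysPsi (M): psi is entire. PROOF. Near z0 with T z0^2 not 1 take w, L, C from sysLoc and use psi_eq with
w = w z: log |T+w| = Re L, log |X+wY| = log |C| + Re (kappa L), and
Re (kappa L) - conj(kappa) Re L = (kappa L + conj(kappa) conj(L))/2 - conj(kappa) (L + conj(L))/2
= (kappa - conj(kappa)) L / 2. So psi = (log |C| + (kappa - conj kappa) L / 2)^2 on the ball, differentiable.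
At z0 with T z0^2 = 1: rt (T z0) = 0, X z0^2 = 1, so psi z0 = 0 (logs of 1); psi is continuous there:
|rt (T z)| = |T z^2-1|^(1/2) -> 0, so T z + rt -> T z0 (norm 1), X z + rt Y z -> X z0 (norm 1) and Real.log is continuous at 1. As T is
not constant, T^2-1 is not identically 0, its zeros are isolated (AnalyticAt.eventually_eq_zero_or_eventually_ne_zero
and the identity theorem), so psi is differentiable in a punctured neighbourhood of z0 and continuous at z0,
hence differentiable at z0 (Complex.analyticAt_of_differentiable_on_punctured_nhds_of_continuousAt).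
-/

set_option autoImplicit false

noncomputable section

namespace Pool.Agent.Work.MP_90e0ad_ag.GR

private theorem norm_one_of_sq {a : ℂ} (h : a ^ 2 = 1) : ‖a‖ = 1 := by
  have h1 : ‖a‖ ^ 2 = 1 := by
    rw [← norm_pow, h, norm_one]
  have h2 := norm_nonneg a
  nlinarith

private theorem rt_zero {t : ℂ} (h : t ^ 2 = 1) : rt t = 0 := by
  unfold rt
  rw [h, sub_self, Complex.zero_cpow]
  norm_num

private theorem X_norm {T X Y : ℂ → ℂ} {κ : ℂ} (S : Sys T X Y κ) {z : ℂ} (hz : T z ^ 2 = 1) :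
    ‖X z‖ = 1 := by
  apply norm_one_of_sq
  have h := S.pell z
  rw [hz, sub_self, zero_mul, sub_zero] at h
  exact h

theorem psi_zero {T X Y : ℂ → ℂ} {κ : ℂ} (S : Sys T X Y κ) {z : ℂ} (hz : T z ^ 2 = 1) :
    psi T X Y κ z = 0 := by
  unfold psi
  rw [rt_zero hz, zero_mul, add_zero, add_zero, X_norm S hz, norm_one_of_sq hz, Real.log_one]
  simp

private theorem re_id (κ L : ℂ) :
    (((κ * L).re : ℝ) : ℂ) - (starRingEnd ℂ κ) * ((L.re : ℝ) : ℂ) =
      (κ - starRingEnd ℂ κ) / 2 * L := by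
  apply Complex.ext
  · simp
  · simp

private theorem psi_local {T X Y : ℂ → ℂ} {κ : ℂ} (S : Sys T X Y κ) {z₀ : ℂ}
    (hz : T z₀ ^ 2 ≠ 1) : DifferentiableAt ℂ (psi T X Y κ) z₀ := by
  obtain ⟨r, w, L, C, hr, hC, hw, hL, h⟩ := sysLoc S hz
  have hmem : Metric.ball z₀ r ∈ nhds z₀ := Metric.ball_mem_nhds z₀ hr
  have hLd : DifferentiableAt ℂ L z₀ := hL.differentiableAt hmem
  have h1 : DifferentiableAt ℂ (fun z => (((Real.log ‖C‖ : ℝ) : ℂ) +
      (κ - starRingEnd ℂ κ) / 2 * L z) ^ 2) z₀ :=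
    ((hLd.const_mul _).const_add _).pow 2
  refine h1.congr_of_eventuallyEq ?_
  filter_upwards [hmem] with z hzb
  obtain ⟨h2, h3, h4, h5⟩ := h z hzb
  rw [psi_eq S h3, h5, ← h4, norm_mul, Complex.norm_exp, Complex.norm_exp,
    Real.log_mul (norm_ne_zero_iff.2 hC) (Real.exp_pos _).ne', Real.log_exp, Real.log_exp]
  congr 1
  rw [← re_id κ (L z)]
  push_cast
  ring

theorem psi_diff {T X Y : ℂ → ℂ} {κ : ℂ} (S : Sys T X Y κ) (hTn : ∃ z w, T z ≠ T w) :
    Differentiable ℂ (psi T X Y κ) := by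
  intro z₀
  by_cases hz : T z₀ ^ 2 = 1
  swap
  · exact psi_local S hz
  -- isolated
  have hd : Differentiable ℂ fun z => T z ^ 2 - 1 := (S.dT.pow 2).sub_const 1
  have han : AnalyticOnNhd ℂ (fun z => T z ^ 2 - 1) Set.univ := fun z _ =>
    (hd.analyticAt z)
  have hne : ∀ᶠ z in nhdsWithin z₀ {z₀}ᶜ, T z ^ 2 - 1 ≠ 0 := by
    rcases (hd.analyticAt z₀).eventually_eq_zero_or_eventually_ne_zero with h | h
    · exfalso
      have h1 : Set.EqOn (fun z => T z ^ 2 - 1) 0 Set.univ :=
        han.eqOn_zero_of_preconnected_of_eventuallyEq_zero isPreconnected_univ (Set.mem_univ z₀) h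
      have h2 : ∀ z, T z ^ 2 = 1 := fun z => by
        have h3 := h1 (Set.mem_univ z)
        have h4 : T z ^ 2 - 1 = 0 := h3
        exact sub_eq_zero.1 h4
      have h5 : ∀ z, deriv T z = 0 := by
        intro z
        have h6 : HasDerivAt (fun z => T z ^ 2) (((2 : ℕ) : ℂ) * T z ^ (2 - 1) * deriv T z) z :=
          (S.dT z).hasDerivAt.pow 2
        have h7 : (fun z => T z ^ 2) = fun _ => (1 : ℂ) := funext h2
        rw [h7] at h6
        have h8 := h6.unique (hasDerivAt_const z (1 : ℂ))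
        have h9 : T z ≠ 0 := by
          intro h10
          have h11 := h2 z
          rw [h10] at h11
          norm_num at h11
        have h12 : (2 : ℂ) * T z * deriv T z = 0 := by
          have h13 := h8
          simpa using h13
        rcases mul_eq_zero.1 h12 with h14 | h14
        · rcases mul_eq_zero.1 h14 with h15 | h15
          · norm_num at h15
          · exact absurd h15 h9
        · exact h14
      obtain ⟨a, b, hab⟩ := hTn
      exact hab (is_const_of_deriv_eq_zero S.dT h5 a b)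
    · exact h
  have hp : ∀ᶠ z in nhdsWithin z₀ {z₀}ᶜ, DifferentiableAt ℂ (psi T X Y κ) z := by
    filter_upwards [hne] with z h1
    exact psi_local S fun h2 => h1 (by rw [h2, sub_self])
  have hrt : ContinuousAt (fun z => rt (T z)) z₀ := by
    have h1 : ContinuousAt (fun t : ℂ => t ^ (1 / 2 : ℂ)) (T z₀ ^ 2 - 1) := by
      rw [hz, sub_self]
      apply Complex.continuousAt_cpow_const_of_re_pos
      · left
        simp
      · norm_num
    exact ContinuousAt.comp (g := fun t : ℂ => t ^ (1 / 2 : ℂ)) (f := fun z => T z ^ 2 - 1) h1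
      hd.continuous.continuousAt
  have hX : ContinuousAt (fun z => ‖X z + rt (T z) * Y z‖) z₀ :=
    (S.dX.continuous.continuousAt.add (hrt.mul S.dY.continuous.continuousAt)).norm
  have hT : ContinuousAt (fun z => ‖T z + rt (T z)‖) z₀ :=
    (S.dT.continuous.continuousAt.add hrt).norm
  have hXn : ‖X z₀ + rt (T z₀) * Y z₀‖ ≠ 0 := by
    rw [rt_zero hz, zero_mul, add_zero, X_norm S hz]
    exact one_ne_zero
  have hTn' : ‖T z₀ + rt (T z₀)‖ ≠ 0 := by
    rw [rt_zero hz, add_zero, norm_one_of_sq hz]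
    exact one_ne_zero
  have hc : ContinuousAt (psi T X Y κ) z₀ := by
    unfold psi
    have h1 : ContinuousAt (fun z => ((Real.log ‖X z + rt (T z) * Y z‖ : ℝ) : ℂ)) z₀ :=
      Complex.continuous_ofReal.continuousAt.comp (hX.log hXn)
    have h2 : ContinuousAt (fun z => ((Real.log ‖T z + rt (T z)‖ : ℝ) : ℂ)) z₀ :=
      Complex.continuous_ofReal.continuousAt.comp (hT.log hTn')
    exact (h1.sub (continuousAt_const.mul h2)).pow 2
  exact (Complex.analyticAt_of_differentiable_on_punctured_nhds_of_continuousAt hp hc).differentiableAt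

end Pool.Agent.Work.MP_90e0ad_ag.GR
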