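import Pool.Agent.Work.MP_90e0ad_ag.GR.PolEx

/-!
Module VarI (M): equations of the first family. Coordinates (indices in N): 0: W, 1: T, 2+4j: X_j, 3+4j: Y_j, 4+4j: Z_j, 5+4j: K_j (j < m). PROOF. Let, in
MvPolynomial N Z, T = X 1 and so on; p1 j = X_j^2 - (T^2-1) Y_j^2 - 1, p2 j = Y_j^2 - K_j^2 - (T^2-1) Z_j,
p3 = aeval (Option.elim' (X 0) (fun j => X (5+4j))) D, c = prod_j (2 K_j - 1), g1 = c (T^2-1), g2 = c prod_j (3 Z_j - 1). Choose Pol representatives by polEx: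
L = list of those of p1 j, p2 j (j < m, List.ofFn or (List.finRange m).map) and p3, G = [g1, g2]. The statement is then a computation: ev (eqW n) (pad x) = pad x 0 - n;
on W = n the value of p3 is aeval (Option.elim' n K) D (compose algebra homs); exists P in G, ev P (pad x) not 0 iff c (T^2-1) not 0 or c prod (3 Z_j - 1) not 0 iff
(all 2 K_j - 1 not 0) and (T^2 - 1 not 0 or all 3 Z_j - 1 not 0) (Finset.prod_ne_zero_iff).
-/

set_option autoImplicit false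

noncomputable section

namespace Pool.Agent.Work.MP_90e0ad_ag.GR

/-- the points of the first family -/
structure PtI (m : ℕ) (D : MvPolynomial (Option (Fin m)) ℤ) (n : ℕ) (T : ℂ)
    (X Y Z K : Fin m → ℂ) : Prop where
  e1 : ∀ j, X j ^ 2 - (T ^ 2 - 1) * Y j ^ 2 = 1
  e2 : ∀ j, Y j ^ 2 = K j ^ 2 + (T ^ 2 - 1) * Z j
  e3 : MvPolynomial.aeval (Option.elim' (n : ℂ) K) D = 0
  e4 : ∀ j, 2 * K j - 1 ≠ 0
  e5 : T ^ 2 - 1 ≠ 0 ∨ ∀ j, 3 * Z j - 1 ≠ 0

theorem varI (m : ℕ) (D : MvPolynomial (Option (Fin m)) ℤ) : ∃ L G : List Pol,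
    ∀ (n : ℕ) (x : Fin (2 + 4 * m) → ℂ), x ∈ pts (2 + 4 * m, eqW n :: L, G) ↔
      pad x 0 = n ∧ PtI m D n (pad x 1) (fun j => pad x (2 + 4 * j)) (fun j => pad x (3 + 4 * j))
        (fun j => pad x (4 + 4 * j)) (fun j => pad x (5 + 4 * j)) := by
  choose Q hQ using polEx
  let p1 : Fin m → MvPolynomial ℕ ℤ := fun j =>
    MvPolynomial.X (2 + 4 * (j : ℕ)) ^ 2 -
      (MvPolynomial.X 1 ^ 2 - 1) * MvPolynomial.X (3 + 4 * (j : ℕ)) ^ 2 - 1
  let p2 : Fin m → MvPolynomial ℕ ℤ := fun j =>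
    MvPolynomial.X (3 + 4 * (j : ℕ)) ^ 2 - MvPolynomial.X (5 + 4 * (j : ℕ)) ^ 2 -
      (MvPolynomial.X 1 ^ 2 - 1) * MvPolynomial.X (4 + 4 * (j : ℕ))
  let p3 : MvPolynomial ℕ ℤ :=
    MvPolynomial.aeval (Option.elim' (MvPolynomial.X 0)
      (fun j : Fin m => MvPolynomial.X (5 + 4 * (j : ℕ)))) D
  let c : MvPolynomial ℕ ℤ := ∏ j : Fin m, (2 * MvPolynomial.X (5 + 4 * (j : ℕ)) - 1)
  let g1 : MvPolynomial ℕ ℤ := c * (MvPolynomial.X 1 ^ 2 - 1)
  let g2 : MvPolynomial ℕ ℤ := c * ∏ j : Fin m, (3 * MvPolynomial.X (4 + 4 * (j : ℕ)) - 1)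
  refine ⟨Q p3 :: (List.ofFn (fun j => Q (p1 j)) ++ List.ofFn (fun j => Q (p2 j))),
    [Q g1, Q g2], ?_⟩
  intro n x
  have k1 : ∀ j, ev (Q (p1 j)) (pad x) = pad x (2 + 4 * (j : ℕ)) ^ 2 -
      (pad x 1 ^ 2 - 1) * pad x (3 + 4 * (j : ℕ)) ^ 2 - 1 := by
    intro j
    rw [hQ]
    simp [p1]
  have k2 : ∀ j, ev (Q (p2 j)) (pad x) = pad x (3 + 4 * (j : ℕ)) ^ 2 -
      pad x (5 + 4 * (j : ℕ)) ^ 2 - (pad x 1 ^ 2 - 1) * pad x (4 + 4 * (j : ℕ)) := by
    intro j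
    rw [hQ]
    simp [p2]
  have k3 : ev (Q p3) (pad x) = MvPolynomial.aeval (Option.elim' (pad x 0)
      (fun j : Fin m => pad x (5 + 4 * (j : ℕ)))) D := by
    rw [hQ]
    show (MvPolynomial.aeval (pad x)) (MvPolynomial.aeval (Option.elim' (MvPolynomial.X 0)
      (fun j : Fin m => MvPolynomial.X (5 + 4 * (j : ℕ)))) D) = _
    rw [← AlgHom.comp_apply, MvPolynomial.comp_aeval]
    have hfun : (fun i => (MvPolynomial.aeval (pad x) : MvPolynomial ℕ ℤ →ₐ[ℤ] ℂ)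
        ((Option.elim' (MvPolynomial.X 0 : MvPolynomial ℕ ℤ)
          (fun j : Fin m => MvPolynomial.X (5 + 4 * (j : ℕ)))) i)) =
        Option.elim' (pad x 0) (fun j : Fin m => pad x (5 + 4 * (j : ℕ))) := by
      funext i
      cases i with
      | none => simp [Option.elim']
      | some j => simp [Option.elim']
    rw [hfun]
  have kc : (MvPolynomial.aeval (pad x) : MvPolynomial ℕ ℤ →ₐ[ℤ] ℂ) c =
      ∏ j : Fin m, (2 * pad x (5 + 4 * (j : ℕ)) - 1) := by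
    simp [c]
  have k4 : ev (Q g1) (pad x) = (∏ j : Fin m, (2 * pad x (5 + 4 * (j : ℕ)) - 1)) *
      (pad x 1 ^ 2 - 1) := by
    rw [hQ]
    show (MvPolynomial.aeval (pad x)) (c * (MvPolynomial.X 1 ^ 2 - 1)) = _
    rw [map_mul, kc]
    simp
  have k5 : ev (Q g2) (pad x) = (∏ j : Fin m, (2 * pad x (5 + 4 * (j : ℕ)) - 1)) *
      ∏ j : Fin m, (3 * pad x (4 + 4 * (j : ℕ)) - 1) := by
    rw [hQ]
    show (MvPolynomial.aeval (pad x)) (c * ∏ j : Fin m,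
      (3 * MvPolynomial.X (4 + 4 * (j : ℕ)) - 1)) = _
    rw [map_mul, kc]
    simp
  have hG : (∃ P ∈ [Q g1, Q g2], ev P (pad x) ≠ 0) ↔
      (∀ j : Fin m, 2 * pad x (5 + 4 * (j : ℕ)) - 1 ≠ 0) ∧
      (pad x 1 ^ 2 - 1 ≠ 0 ∨ ∀ j : Fin m, 3 * pad x (4 + 4 * (j : ℕ)) - 1 ≠ 0) := by
    have h0 : (∃ P ∈ [Q g1, Q g2], ev P (pad x) ≠ 0) ↔
        ev (Q g1) (pad x) ≠ 0 ∨ ev (Q g2) (pad x) ≠ 0 := by
      simp
    rw [h0, k4, k5]
    constructor
    · rintro (h | h)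
      · have h1 := left_ne_zero_of_mul h
        have h2 := right_ne_zero_of_mul h
        exact ⟨fun j => Finset.prod_ne_zero_iff.mp h1 j (Finset.mem_univ j), Or.inl h2⟩
      · have h1 := left_ne_zero_of_mul h
        have h2 := right_ne_zero_of_mul h
        exact ⟨fun j => Finset.prod_ne_zero_iff.mp h1 j (Finset.mem_univ j),
          Or.inr (fun j => Finset.prod_ne_zero_iff.mp h2 j (Finset.mem_univ j))⟩
    · rintro ⟨h1, h2 | h2⟩
      · left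
        exact mul_ne_zero (Finset.prod_ne_zero_iff.mpr (fun j _ => h1 j)) h2
      · right
        exact mul_ne_zero (Finset.prod_ne_zero_iff.mpr (fun j _ => h1 j))
          (Finset.prod_ne_zero_iff.mpr (fun j _ => h2 j))
  have hL : (∀ P ∈ eqW n :: (Q p3 :: (List.ofFn (fun j => Q (p1 j)) ++
      List.ofFn (fun j => Q (p2 j)))), ev P (pad x) = 0) ↔
      ev (eqW n) (pad x) = 0 ∧ ev (Q p3) (pad x) = 0 ∧ (∀ j, ev (Q (p1 j)) (pad x) = 0) ∧
        ∀ j, ev (Q (p2 j)) (pad x) = 0 := by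
    constructor
    · intro h
      refine ⟨h _ (by simp), h _ (by simp), fun j => h _ ?_, fun j => h _ ?_⟩
      · simp only [List.mem_cons, List.mem_append, List.mem_ofFn]
        exact Or.inr (Or.inr (Or.inl ⟨j, rfl⟩))
      · simp only [List.mem_cons, List.mem_append, List.mem_ofFn]
        exact Or.inr (Or.inr (Or.inr ⟨j, rfl⟩))
    · rintro ⟨h1, h2, h3, h4⟩ P hP
      simp only [List.mem_cons, List.mem_append, List.mem_ofFn] at hP
      rcases hP with rfl | rfl | ⟨j, rfl⟩ | ⟨j, rfl⟩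
      · exact h1
      · exact h2
      · exact h3 j
      · exact h4 j
  show ((∀ P ∈ eqW n :: (Q p3 :: (List.ofFn (fun j => Q (p1 j)) ++
      List.ofFn (fun j => Q (p2 j)))), ev P (pad x) = 0) ∧
      ∃ P ∈ [Q g1, Q g2], ev P (pad x) ≠ 0) ↔ _
  rw [hL, hG, ev_eqW, k3]
  constructor
  · rintro ⟨⟨h1, h2, h3, h4⟩, h5, h6⟩
    have h0 : pad x 0 = (n : ℂ) := sub_eq_zero.mp h1
    rw [h0] at h2
    refine ⟨h0, ⟨fun j => ?_, fun j => ?_, h2, h5, h6⟩⟩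
    · have := h3 j
      rw [k1] at this
      exact sub_eq_zero.mp this
    · have := h4 j
      rw [k2] at this
      linear_combination this
  · rintro ⟨h0, h⟩
    refine ⟨⟨sub_eq_zero.mpr h0, ?_, fun j => ?_, fun j => ?_⟩, h.e4, h.e5⟩
    · rw [h0]
      exact h.e3
    · rw [k1]
      exact sub_eq_zero.mpr (h.e1 j)
    · rw [k2]
      linear_combination h.e2 j

end Pool.Agent.Work.MP_90e0ad_ag.GR
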