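import Pool.Agent.Work.MP_90e0ad_ag.GR.PolEx

/-!
Module VarII (M): equations of the second family. Coordinates: 0: W, 1: u, 2: u', 3+5j: v_j, 4+5j: v'_j, 5+5j: L_j, 6+5j: M_j, 7+5j: R_j (j < m). PROOF as in VarI: choose Pol representatives
(polEx) of u u' - 1, v_j v'_j - 1, L_j^4 - M_j^4 - (u+1)^4, (u-1)^2 R_j - ((v_j-1)(u+1)^4 - L_j^4 (u-1)), and
aeval (Option.elim' (X 0) (Option.elim' (2 (u+1)^4) (fun j => L_j^4))) Dh; G = [u + 1, prod_j (v_j - 2)(L_j - 1)(L_j - 2)].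
-/

set_option autoImplicit false

noncomputable section

namespace Pool.Agent.Work.MP_90e0ad_ag.GR

/-- the points of the second family -/
structure PtII (m : ℕ) (Dh : MvPolynomial (Option (Option (Fin m))) ℤ) (n : ℕ) (u u' : ℂ)
    (v v' L M R : Fin m → ℂ) : Prop where
  e1 : u * u' = 1
  e2 : ∀ j, v j * v' j = 1
  e3 : ∀ j, L j ^ 4 - M j ^ 4 = (u + 1) ^ 4
  e4 : ∀ j, (u - 1) ^ 2 * R j = (v j - 1) * (u + 1) ^ 4 - L j ^ 4 * (u - 1)
  e5 : MvPolynomial.aeval (Option.elim' (n : ℂ) (Option.elim' (2 * (u + 1) ^ 4)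
    fun j => L j ^ 4)) Dh = 0
  e6 : u + 1 ≠ 0 ∨ ∀ j, v j ≠ 2 ∧ L j ≠ 1 ∧ L j ≠ 2

private theorem v2_comp {m : ℕ} (Dh : MvPolynomial (Option (Option (Fin m))) ℤ) (y : ℕ → ℂ) :
    MvPolynomial.aeval y (MvPolynomial.aeval (Option.elim' (MvPolynomial.X 0 : MvPolynomial ℕ ℤ)
      (Option.elim' (2 * (MvPolynomial.X 1 + 1) ^ 4)
        fun j : Fin m => MvPolynomial.X (5 + 5 * (j : ℕ)) ^ 4)) Dh) =
    MvPolynomial.aeval (Option.elim' (y 0) (Option.elim' (2 * (y 1 + 1) ^ 4)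
      fun j : Fin m => y (5 + 5 * (j : ℕ)) ^ 4)) Dh := by
  rw [MvPolynomial.comp_aeval_apply]
  congr 2
  funext i
  rcases i with _ | i
  · simp [Option.elim']
  · rcases i with _ | i
    · simp [Option.elim']
    · simp [Option.elim']

private theorem v2_core (m : ℕ) (Dh : MvPolynomial (Option (Option (Fin m))) ℤ) :
    ∃ L G : List Pol, ∀ (n : ℕ) (y : ℕ → ℂ),
      ((∀ P ∈ eqW n :: L, ev P y = 0) ∧ ∃ P ∈ G, ev P y ≠ 0) ↔
      y 0 = n ∧ PtII m Dh n (y 1) (y 2) (fun j => y (3 + 5 * j))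
        (fun j => y (4 + 5 * j)) (fun j => y (5 + 5 * j)) (fun j => y (6 + 5 * j))
        (fun j => y (7 + 5 * j)) := by
  choose rep hrep using polEx
  obtain ⟨q1, hq1⟩ : ∃ q : MvPolynomial ℕ ℤ, ∀ y : ℕ → ℂ,
      MvPolynomial.aeval y q = y 1 * y 2 - 1 :=
    ⟨MvPolynomial.X 1 * MvPolynomial.X 2 - 1, fun y => by simp⟩
  obtain ⟨qa, hqa⟩ : ∃ q : Fin m → MvPolynomial ℕ ℤ, ∀ (j : Fin m) (y : ℕ → ℂ),
      MvPolynomial.aeval y (q j) = y (3 + 5 * j) * y (4 + 5 * j) - 1 :=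
    ⟨fun j => MvPolynomial.X (3 + 5 * (j : ℕ)) * MvPolynomial.X (4 + 5 * (j : ℕ)) - 1,
      fun j y => by simp⟩
  obtain ⟨qb, hqb⟩ : ∃ q : Fin m → MvPolynomial ℕ ℤ, ∀ (j : Fin m) (y : ℕ → ℂ),
      MvPolynomial.aeval y (q j) = y (5 + 5 * j) ^ 4 - y (6 + 5 * j) ^ 4 - (y 1 + 1) ^ 4 :=
    ⟨fun j => MvPolynomial.X (5 + 5 * (j : ℕ)) ^ 4 - MvPolynomial.X (6 + 5 * (j : ℕ)) ^ 4 -
      (MvPolynomial.X 1 + 1) ^ 4, fun j y => by simp⟩
  obtain ⟨qc, hqc⟩ : ∃ q : Fin m → MvPolynomial ℕ ℤ, ∀ (j : Fin m) (y : ℕ → ℂ),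
      MvPolynomial.aeval y (q j) = (y 1 - 1) ^ 2 * y (7 + 5 * j) -
        ((y (3 + 5 * j) - 1) * (y 1 + 1) ^ 4 - y (5 + 5 * j) ^ 4 * (y 1 - 1)) :=
    ⟨fun j => (MvPolynomial.X 1 - 1) ^ 2 * MvPolynomial.X (7 + 5 * (j : ℕ)) -
      ((MvPolynomial.X (3 + 5 * (j : ℕ)) - 1) * (MvPolynomial.X 1 + 1) ^ 4 -
        MvPolynomial.X (5 + 5 * (j : ℕ)) ^ 4 * (MvPolynomial.X 1 - 1)), fun j y => by simp⟩
  obtain ⟨g1, hg1⟩ : ∃ q : MvPolynomial ℕ ℤ, ∀ y : ℕ → ℂ,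
      MvPolynomial.aeval y q = y 1 + 1 :=
    ⟨MvPolynomial.X 1 + 1, fun y => by simp⟩
  obtain ⟨g2, hg2⟩ : ∃ q : MvPolynomial ℕ ℤ, ∀ y : ℕ → ℂ,
      MvPolynomial.aeval y q = ∏ j : Fin m, ((y (3 + 5 * j) - 2) *
        ((y (5 + 5 * j) - 1) * (y (5 + 5 * j) - 2))) :=
    ⟨∏ j : Fin m, ((MvPolynomial.X (3 + 5 * (j : ℕ)) - 2) *
        ((MvPolynomial.X (5 + 5 * (j : ℕ)) - 1) * (MvPolynomial.X (5 + 5 * (j : ℕ)) - 2))),
      fun y => by simp [map_prod]⟩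
  refine ⟨rep q1 :: rep (MvPolynomial.aeval (Option.elim' (MvPolynomial.X 0 : MvPolynomial ℕ ℤ)
      (Option.elim' (2 * (MvPolynomial.X 1 + 1) ^ 4)
        fun j : Fin m => MvPolynomial.X (5 + 5 * (j : ℕ)) ^ 4)) Dh) ::
      (List.finRange m).flatMap (fun j => [rep (qa j), rep (qb j), rep (qc j)]),
    [rep g1, rep g2], fun n y => ?_⟩
  have key2 : (∃ P ∈ [rep g1, rep g2], ev P y ≠ 0) ↔
      (y 1 + 1 ≠ 0 ∨ ∀ j : Fin m, y (3 + 5 * j) ≠ 2 ∧ y (5 + 5 * j) ≠ 1 ∧ y (5 + 5 * j) ≠ 2) := by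
    simp only [List.mem_cons, List.not_mem_nil, or_false, exists_eq_or_imp, exists_eq_left, hrep,
      hg1, hg2, Finset.prod_ne_zero_iff, Finset.mem_univ, forall_true_left, mul_ne_zero_iff,
      sub_ne_zero]
  rw [key2]
  constructor
  · rintro ⟨h1, h2⟩
    have hW := h1 _ List.mem_cons_self
    rw [ev_eqW, sub_eq_zero] at hW
    have a1 := h1 (rep q1) (List.mem_cons_of_mem _ List.mem_cons_self)
    rw [hrep, hq1, sub_eq_zero] at a1
    have a5 := h1 _ (List.mem_cons_of_mem _ (List.mem_cons_of_mem _ List.mem_cons_self))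
    rw [hrep, v2_comp, hW] at a5
    have hj : ∀ (j : Fin m) (P : Pol), P ∈ [rep (qa j), rep (qb j), rep (qc j)] →
        ev P y = 0 := fun j P hP =>
      h1 P (List.mem_cons_of_mem _ (List.mem_cons_of_mem _ (List.mem_cons_of_mem _
        (List.mem_flatMap.2 ⟨j, List.mem_finRange j, hP⟩))))
    refine ⟨hW, ⟨a1, fun j => ?_, fun j => ?_, fun j => ?_, a5, h2⟩⟩
    · have := hj j (rep (qa j)) (by simp)
      rw [hrep, hqa, sub_eq_zero] at this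
      exact this
    · have := hj j (rep (qb j)) (by simp)
      rw [hrep, hqb, sub_eq_zero] at this
      exact this
    · have := hj j (rep (qc j)) (by simp)
      rw [hrep, hqc, sub_eq_zero] at this
      exact this
  · rintro ⟨hW, hP⟩
    refine ⟨?_, hP.e6⟩
    intro P hPm
    rcases List.mem_cons.1 hPm with rfl | hPm
    · rw [ev_eqW, hW, sub_self]
    rcases List.mem_cons.1 hPm with rfl | hPm
    · rw [hrep, hq1, hP.e1, sub_self]
    rcases List.mem_cons.1 hPm with rfl | hPm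
    · rw [hrep, v2_comp, hW]
      exact hP.e5
    obtain ⟨j, -, hPj⟩ := List.mem_flatMap.1 hPm
    simp only [List.mem_cons, List.not_mem_nil, or_false] at hPj
    rcases hPj with rfl | rfl | rfl
    · rw [hrep, hqa]
      exact sub_eq_zero.2 (hP.e2 j)
    · rw [hrep, hqb]
      exact sub_eq_zero.2 (hP.e3 j)
    · rw [hrep, hqc]
      exact sub_eq_zero.2 (hP.e4 j)

theorem varII (m : ℕ) (Dh : MvPolynomial (Option (Option (Fin m))) ℤ) : ∃ L G : List Pol,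
    ∀ (n : ℕ) (x : Fin (3 + 5 * m) → ℂ), x ∈ pts (3 + 5 * m, eqW n :: L, G) ↔
      pad x 0 = n ∧ PtII m Dh n (pad x 1) (pad x 2) (fun j => pad x (3 + 5 * j))
        (fun j => pad x (4 + 5 * j)) (fun j => pad x (5 + 5 * j)) (fun j => pad x (6 + 5 * j))
        (fun j => pad x (7 + 5 * j)) := by
  obtain ⟨L, G, h⟩ := v2_core m Dh
  exact ⟨L, G, fun n x => h n (pad x)⟩

/-- the base point: W = n, u = u' = -1, v_j = v'_j = 1, L_j = M_j = R_j = 0 -/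
def ptII (m n : ℕ) : List ℤ :=
  (n : ℤ) :: -1 :: -1 :: (List.replicate m [(1 : ℤ), 1, 0, 0, 0]).flatten

private theorem v2_flat (m : ℕ) : ∀ j < m, ∀ r < 5,
    ((List.replicate m [(1 : ℤ), 1, 0, 0, 0]).flatten).getD (5 * j + r) 0 =
      [(1 : ℤ), 1, 0, 0, 0].getD r 0 := by
  induction m with
  | zero => intro j hj; omega
  | succ m ih =>
    intro j hj r hr
    rw [List.replicate_succ, List.flatten_cons]
    rcases j with _ | j
    · rw [List.getD_append _ _ _ _ (by simpa using hr)]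
      simp
    · rw [List.getD_append_right _ _ _ _ (by simp; omega)]
      have h1 : 5 * (j + 1) + r - [(1 : ℤ), 1, 0, 0, 0].length = 5 * j + r := by
        simp
        omega
      rw [h1]
      exact ih j (by omega) r hr

theorem ptII_get (m n : ℕ) : (ptII m n).getD 0 0 = n ∧ (ptII m n).getD 1 0 = -1 ∧
    (ptII m n).getD 2 0 = -1 ∧ ∀ j < m, (ptII m n).getD (3 + 5 * j) 0 = 1 ∧
      (ptII m n).getD (4 + 5 * j) 0 = 1 ∧ (ptII m n).getD (5 + 5 * j) 0 = 0 ∧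
      (ptII m n).getD (6 + 5 * j) 0 = 0 ∧ (ptII m n).getD (7 + 5 * j) 0 = 0 := by
  refine ⟨rfl, rfl, rfl, fun j hj => ?_⟩
  have h0 : ∀ r < 5, (ptII m n).getD (3 + r + 5 * j) 0 = [(1 : ℤ), 1, 0, 0, 0].getD r 0 := by
    intro r hr
    rw [← v2_flat m j hj r hr]
    have h1 : 3 + r + 5 * j = (5 * j + r) + 1 + 1 + 1 := by omega
    rw [h1, ptII, List.getD_cons_succ, List.getD_cons_succ, List.getD_cons_succ]
  exact ⟨h0 0 (by norm_num), h0 1 (by norm_num), h0 2 (by norm_num), h0 3 (by norm_num),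
    h0 4 (by norm_num)⟩

end Pool.Agent.Work.MP_90e0ad_ag.GR
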